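import Mathlib

/-! Loopless multigraphs: degrees, forests, Hamiltonian cycles, decompositions. -/

namespace MP_947208_co

open Finset Function

variable {V E : Type} [Fintype V] [DecidableEq V] [Fintype E] [DecidableEq E]

/-- The number of edges of `F` at the vertex `v`. -/
def deg (ends : E → Sym2 V) (F : Finset E) (v : V) : ℕ := (F.filter fun e => v ∈ ends e).card

/-- A forest: no nonempty set of edges with all degrees even. -/
def Forest (ends : E → Sym2 V) (T : Finset E) : Prop :=
  ∀ S ⊆ T, (∀ v, Even (deg ends S v)) → S = ∅

/-- A set `C` of edges is a Hamiltonian cycle: every vertex is an end of exactly two edges of `C`,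
and some edge of `C` leaves every nonempty set of vertices other than the set of all vertices. -/
def IsHam (ends : E → Sym2 V) (C : Finset E) : Prop :=
  (∀ v, deg ends C v = 2) ∧
    ∀ S : Finset V, S.Nonempty → S ≠ univ → ∃ e ∈ C, ∃ u ∈ S, ∃ w, w ∉ S ∧ u ∈ ends e ∧ w ∈ ends e

/-- `D` is a decomposition of the set `F` of edges into Hamiltonian cycles. -/
def IsDec (ends : E → Sym2 V) (F : Finset E) (D : Finset (Finset E)) : Prop :=
  (∀ C ∈ D, IsHam ends C) ∧ (D : Set (Finset E)).PairwiseDisjoint id ∧ D.biUnion id = F

end MP_947208_co
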