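import Mathlib

/-! Counting systems of distinct representatives modulo two. -/

namespace MP_947208_co

open Finset Function

variable {α β : Type*} [Fintype α] [Fintype β] [DecidableEq α] [DecidableEq β]

/-- The injective functions inside a relation. -/
def sdr (R : α → β → Prop) [DecidableRel R] : Finset (α → β) :=
  univ.filter fun f => Injective f ∧ ∀ a, R a (f a)

theorem card_sdr_eq_det (R : α → β → Prop) [DecidableRel R] (b : α ≃ β) :
    ((sdr R).card : ZMod 2) =
      (Matrix.of fun i j : α => if R j (b i) then (1 : ZMod 2) else 0).det := by
  rw [Matrix.det_apply]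
  have h1 : ∀ σ : Equiv.Perm α,
      Equiv.Perm.sign σ • ∏ i, (Matrix.of fun i j : α => if R j (b i) then (1 : ZMod 2) else 0)
        (σ i) i = if ∀ i, R i (b (σ i)) then (1 : ZMod 2) else 0 := by
    intro σ
    have h2 : ∀ z : ZMod 2, Equiv.Perm.sign σ • z = z := by
      intro z
      rcases Int.units_eq_one_or (Equiv.Perm.sign σ) with h | h
      · rw [h]; simp
      · rw [h]
        rw [Units.neg_smul, one_smul]
        revert z
        decide
    rw [h2]
    simp only [Matrix.of_apply]
    by_cases h : ∀ i, R i (b (σ i))
    · rw [if_pos h]
      apply Finset.prod_eq_one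
      intro i _
      rw [if_pos (h i)]
    · rw [if_neg h]
      push Not at h
      obtain ⟨i, hi⟩ := h
      apply Finset.prod_eq_zero (Finset.mem_univ i)
      rw [if_neg hi]
  rw [Finset.sum_congr rfl (fun σ _ => h1 σ), Finset.sum_ite, Finset.sum_const_zero, add_zero,
    Finset.sum_const, nsmul_eq_mul, mul_one]
  congr 1
  symm
  apply Finset.card_bij (fun σ _ => fun i => b (σ i))
  · intro σ hσ
    simp only [mem_filter, mem_univ, true_and] at hσ
    simp only [sdr, mem_filter, mem_univ, true_and]
    exact ⟨b.injective.comp σ.injective, hσ⟩
  · intro σ _ τ _ h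
    ext i
    exact b.injective (congrFun h i)
  · intro f hf
    simp only [sdr, mem_filter, mem_univ, true_and] at hf
    have hinj : Injective fun i => b.symm (f i) := b.symm.injective.comp hf.1
    refine ⟨Equiv.ofBijective _ (Finite.injective_iff_bijective.1 hinj), ?_, ?_⟩
    · simp only [mem_filter, mem_univ, true_and, Equiv.ofBijective_apply, Equiv.apply_symm_apply]
      exact hf.2
    · funext i
      simp

private theorem zmod2_cases (z : ZMod 2) : z = 0 ∨ z = 1 := by
  revert z; decide

/-- Row version. -/
theorem sdr_row (R : α → β → Prop) [DecidableRel R] (hc : Fintype.card α = Fintype.card β) :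
    ((sdr R).card : ZMod 2) =
      if ∀ s : Finset α, (∀ b, Even (s.filter fun a => R a b).card) → s = ∅ then 1 else 0 := by
  have b : α ≃ β := Fintype.equivOfCardEq hc
  rw [card_sdr_eq_det R b]
  set M : Matrix α α (ZMod 2) := Matrix.of fun i j : α => if R j (b i) then (1 : ZMod 2) else 0
    with hM
  have key : M.det = 0 ↔ ¬ ∀ s : Finset α, (∀ b, Even (s.filter fun a => R a b).card) → s = ∅ := by
    rw [← Matrix.exists_mulVec_eq_zero_iff]
    have hval : ∀ (v : α → ZMod 2) (i : α), M.mulVec v i =
        (((univ.filter fun a => v a = 1).filter fun a => R a (b i)).card : ZMod 2) := by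
      intro v i
      rw [Matrix.mulVec, dotProduct, Finset.filter_filter, Finset.card_filter, Nat.cast_sum]
      apply Finset.sum_congr rfl
      intro j _
      rw [hM]
      simp only [Matrix.of_apply]
      rcases zmod2_cases (v j) with h | h
      · simp [h]
      · simp [h]
    constructor
    · rintro ⟨v, hv, h0⟩ hall
      apply hv
      have := hall (univ.filter fun a => v a = 1) (fun c => by
        have := congrFun h0 (b.symm c)
        rw [hval] at this
        rw [Pi.zero_apply, ZMod.natCast_eq_zero_iff_even, Equiv.apply_symm_apply] at this
        exact this)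
      funext a
      rcases zmod2_cases (v a) with h | h
      · exact h
      · exfalso
        have : a ∈ (univ.filter fun a => v a = 1) := by simp [h]
        simp_all
    · intro h
      push Not at h
      obtain ⟨s, hs, hne⟩ := h
      obtain ⟨a, ha⟩ := hne
      refine ⟨fun a => if a ∈ s then 1 else 0, ?_, ?_⟩
      · intro h
        have := congrFun h a
        simp [ha] at this
      · funext i
        rw [hval, Pi.zero_apply, ZMod.natCast_eq_zero_iff_even]
        have : (univ.filter fun a => (if a ∈ s then (1 : ZMod 2) else 0) = 1) = s := by
          ext a; simp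
        rw [this]
        exact hs (b i)
  by_cases h : ∀ s : Finset α, (∀ b, Even (s.filter fun a => R a b).card) → s = ∅
  · rw [if_pos h]
    rcases zmod2_cases M.det with h' | h'
    · exact absurd h (key.1 h')
    · exact h'
  · rw [if_neg h]
    exact key.2 h

/-- Column version. -/
theorem sdr_col (R : α → β → Prop) [DecidableRel R] (hc : Fintype.card α = Fintype.card β) :
    ((sdr R).card : ZMod 2) =
      if ∀ s : Finset β, (∀ a, Even (s.filter fun b => R a b).card) → s = ∅ then 1 else 0 := by
  have b : α ≃ β := Fintype.equivOfCardEq hc
  rw [card_sdr_eq_det R b]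
  set M : Matrix α α (ZMod 2) := Matrix.of fun i j : α => if R j (b i) then (1 : ZMod 2) else 0
    with hM
  have key : M.det = 0 ↔ ¬ ∀ s : Finset β, (∀ a, Even (s.filter fun b => R a b).card) → s = ∅ := by
    rw [← Matrix.exists_vecMul_eq_zero_iff]
    have hval : ∀ (v : α → ZMod 2) (i : α), M.vecMul v i =
        (((univ.filter fun c => v (b.symm c) = 1).filter fun c => R i c).card : ZMod 2) := by
      intro v i
      rw [Matrix.vecMul, dotProduct, Finset.filter_filter, Finset.card_filter, Nat.cast_sum]
      apply Fintype.sum_equiv b
      intro j
      rw [hM]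
      simp only [Matrix.of_apply, Equiv.symm_apply_apply]
      rcases zmod2_cases (v j) with h | h
      · simp [h]
      · simp [h]
    constructor
    · rintro ⟨v, hv, h0⟩ hall
      apply hv
      have := hall (univ.filter fun c => v (b.symm c) = 1) (fun c => by
        have := congrFun h0 c
        rw [hval] at this
        rw [Pi.zero_apply, ZMod.natCast_eq_zero_iff_even] at this
        exact this)
      funext a
      rcases zmod2_cases (v a) with h | h
      · exact h
      · exfalso
        have h2 : b a ∈ (univ.filter fun c => v (b.symm c) = 1) := by simp [h]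
        rw [this] at h2
        simp at h2
    · intro h
      push Not at h
      obtain ⟨s, hs, hne⟩ := h
      obtain ⟨a, ha⟩ := hne
      refine ⟨fun a => if b a ∈ s then 1 else 0, ?_, ?_⟩
      · intro h
        have := congrFun h (b.symm a)
        simp [ha] at this
      · funext i
        rw [hval, Pi.zero_apply, ZMod.natCast_eq_zero_iff_even]
        have : (univ.filter fun c => (if b (b.symm c) ∈ s then (1 : ZMod 2) else 0) = 1) = s := by
          ext a; simp
        rw [this]
        exact hs i
  by_cases h : ∀ s : Finset β, (∀ a, Even (s.filter fun b => R a b).card) → s = ∅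
  · rw [if_pos h]
    rcases zmod2_cases M.det with h' | h'
    · exact absurd h (key.1 h')
    · exact h'
  · rw [if_neg h]
    exact key.2 h

end MP_947208_co
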