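import Mathlib
import Pool.Agent.Work.MP_947208_co.Det
import Pool.Agent.Work.MP_947208_co.Defs

/-! The parity theorem for pairs of spanning trees, one of which is a path. -/

namespace MP_947208_co

open Finset Function

variable {V E : Type} [Fintype V] [DecidableEq V] [Fintype E] [DecidableEq E]
variable {ends : E → Sym2 V}

theorem handshake (S : Finset E) (hl : ∀ e ∈ S, ¬ (ends e).IsDiag) :
    ∑ v, deg ends S v = 2 * S.card := by
  unfold deg
  simp only [Finset.card_filter]
  rw [Finset.sum_comm]
  have : ∀ e ∈ S, (∑ v : V, if v ∈ ends e then 1 else 0) = 2 := by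
    intro e he
    rw [← Finset.card_filter]
    have h : (univ.filter fun v => v ∈ ends e) = (ends e).toFinset := by
      ext v; simp
    rw [h, Sym2.card_toFinset_of_not_isDiag _ (hl e he)]
  rw [Finset.sum_congr rfl this, Finset.sum_const, smul_eq_mul, mul_comm]

theorem even_last (S : Finset E) (hl : ∀ e ∈ S, ¬ (ends e).IsDiag) (z : V)
    (h : ∀ v, v ≠ z → Even (deg ends S v)) (v : V) : Even (deg ends S v) := by
  by_cases hv : v = z
  · subst hv
    have h1 := handshake S hl
    rw [← Finset.add_sum_erase _ _ (Finset.mem_univ v)] at h1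
    have h2 : Even (∑ u ∈ univ.erase v, deg ends S u) :=
      Finset.even_sum _ (fun u hu => h u (Finset.ne_of_mem_erase hu))
    have h3 : Even (deg ends S v + ∑ u ∈ univ.erase v, deg ends S u) := by
      rw [h1]; exact even_two_mul _
    exact (Nat.even_add.1 h3).2 h2
  · exact h v hv

theorem forest_iff {ι : Type} [Fintype ι] [DecidableEq ι] (f : ι → E) (hf : Injective f)
    (W : Finset V) (hl : ∀ i, ¬ (ends (f i)).IsDiag) (hW : ∀ i, ∀ v ∈ ends (f i), v ∈ W) (z : V) :
    (∀ s : Finset ι, (∀ b : {v : V // v ∈ W ∧ v ≠ z},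
      Even (s.filter fun a => (b : V) ∈ ends (f a)).card) → s = ∅) ↔
      Forest ends (univ.image f) := by
  have hdeg : ∀ (s : Finset ι) (v : V), deg ends (s.image f) v =
      (s.filter fun a => v ∈ ends (f a)).card := by
    intro s v
    unfold deg
    rw [Finset.filter_image, Finset.card_image_of_injective _ hf]
  constructor
  · intro h S hS hev
    have h1 : S = (univ.filter fun a => f a ∈ S).image f := by
      ext e
      simp only [mem_image, mem_filter, mem_univ, true_and]
      constructor
      · intro he
        obtain ⟨a, _, ha⟩ := Finset.mem_image.1 (hS he)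
        exact ⟨a, by rw [ha]; exact he, ha⟩
      · rintro ⟨a, ha, rfl⟩
        exact ha
    have h2 := h (univ.filter fun a => f a ∈ S) (fun b => by
      rw [← hdeg, ← h1]
      exact hev b)
    rw [h1, h2]
    rfl
  · intro h s hs
    have h1 : s.image f = ∅ := by
      apply h _ (Finset.image_subset_image (Finset.subset_univ _))
      apply even_last _ _ z
      · intro v hv
        by_cases hvW : v ∈ W
        · rw [hdeg]
          exact hs ⟨v, hvW, hv⟩
        · have : deg ends (s.image f) v = 0 := by
            rw [hdeg, Finset.card_eq_zero, Finset.filter_eq_empty_iff]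
            intro a _ ha
            exact hvW (hW a v ha)
          rw [this]
          exact Even.zero
      · intro e he
        obtain ⟨a, _, rfl⟩ := Finset.mem_image.1 he
        exact hl a
    exact Finset.image_eq_empty.1 h1

open Classical in
/-- The bijections from the vertices other than `x` to the edge set `T`, each vertex on its
edge. -/
noncomputable def Arb (ends : E → Sym2 V) (W : Finset V) (x : V) (T : Finset E) :
    Finset ({v : V // v ∈ W ∧ v ≠ x} → E) :=
  univ.filter fun φ => Injective φ ∧ ∀ u, φ u ∈ T ∧ (u : V) ∈ ends (φ u)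

theorem card_sub (W : Finset V) (x : V) (hx : x ∈ W) :
    Fintype.card {v : V // v ∈ W ∧ v ≠ x} + 1 = W.card := by
  have h : Fintype.card {v : V // v ∈ W ∧ v ≠ x} = (W.erase x).card := by
    rw [Fintype.card_subtype]
    congr 1
    ext v
    simp [and_comm]
  rw [h, Finset.card_erase_of_mem hx]
  have : 0 < W.card := Finset.card_pos.2 ⟨x, hx⟩
  omega

open Classical in
theorem card_arb (W : Finset V) (x : V) (hx : x ∈ W) (T : Finset E) (hT : T.card + 1 = W.card)
    (hl : ∀ e ∈ T, ¬ (ends e).IsDiag) (hW : ∀ e ∈ T, ∀ v ∈ ends e, v ∈ W) :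
    ((Arb ends W x T).card : ZMod 2) = if Forest ends T then 1 else 0 := by
  have h1 : (Arb ends W x T).card =
      (sdr fun (u : {v : V // v ∈ W ∧ v ≠ x}) (e : T) => (u : V) ∈ ends (e : E)).card := by
    symm
    apply Finset.card_bij (fun f _ => fun u => ((f u : T) : E))
    · intro f hf
      simp only [sdr, mem_filter, mem_univ, true_and] at hf
      simp only [Arb, mem_filter, mem_univ, true_and]
      exact ⟨Subtype.val_injective.comp hf.1, fun u => ⟨(f u).2, hf.2 u⟩⟩
    · intro f _ g _ h
      funext u
      exact Subtype.ext (congrFun h u)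
    · intro φ hφ
      simp only [Arb, mem_filter, mem_univ, true_and] at hφ
      refine ⟨fun u => ⟨φ u, (hφ.2 u).1⟩, ?_, rfl⟩
      simp only [sdr, mem_filter, mem_univ, true_and]
      refine ⟨?_, fun u => (hφ.2 u).2⟩
      intro a b hab
      exact hφ.1 (congrArg Subtype.val hab)
  have hc : Fintype.card {v : V // v ∈ W ∧ v ≠ x} = Fintype.card T := by
    have := card_sub W x hx
    rw [Fintype.card_coe]
    omega
  rw [h1, sdr_col _ hc]
  have h2 := forest_iff (ends := ends) (fun e : T => (e : E)) Subtype.val_injective W
    (fun e => hl e e.2) (fun e => hW e e.2) x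
  have h3 : (univ.image fun e : T => (e : E)) = T := by
    ext e; simp
  rw [h3] at h2
  by_cases h : Forest ends T
  · rw [if_pos h, if_pos (h2.2 h)]
  · rw [if_neg h, if_neg (fun h' => h (h2.1 h'))]

/-- Pairs of arborescence-like maps with disjoint images in `K`. -/
def PhiP (ends : E → Sym2 V) (W : Finset V) (x : V) (K : Finset E)
    (p : ({v : V // v ∈ W ∧ v ≠ x} → E) × ({v : V // v ∈ W ∧ v ≠ x} → E)) : Prop :=
  Injective p.1 ∧ Injective p.2 ∧ (∀ u, p.1 u ∈ K ∧ (u : V) ∈ ends (p.1 u)) ∧
    (∀ u, p.2 u ∈ K ∧ (u : V) ∈ ends (p.2 u)) ∧ ∀ u v, p.1 u ≠ p.2 v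

open Classical in
theorem sum_phi (W : Finset V) (x : V) (hx : x ∈ W) (K : Finset E)
    (hK : K.card + 2 = 2 * W.card)
    (hl : ∀ e ∈ K, ¬ (ends e).IsDiag) (hW : ∀ e ∈ K, ∀ v ∈ ends e, v ∈ W)
    (g : Finset E → ZMod 2) :
    (∑ p ∈ univ.filter (PhiP ends W x K), g (univ.image p.1)) =
      ∑ T ∈ K.powerset.filter (fun T => T.card + 1 = W.card),
        g T * (if Forest ends T then 1 else 0) * (if Forest ends (K \ T) then 1 else 0) := by
  have hcX := card_sub W x hx
  have hmaps : ∀ p ∈ univ.filter (PhiP ends W x K),
      (univ.image p.1 : Finset E) ∈ K.powerset.filter (fun T => T.card + 1 = W.card) := by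
    intro p hp
    have hp := (Finset.mem_filter.1 hp).2
    rw [Finset.mem_filter, Finset.mem_powerset]
    refine ⟨?_, ?_⟩
    · intro e he
      obtain ⟨a, _, rfl⟩ := Finset.mem_image.1 he
      exact (hp.2.2.1 a).1
    · rw [Finset.card_image_of_injective _ hp.1, Finset.card_univ, hcX]
  rw [← Finset.sum_fiberwise_of_maps_to hmaps]
  apply Finset.sum_congr rfl
  intro T hT
  rw [Finset.mem_filter, Finset.mem_powerset] at hT
  have hfib : ((univ.filter (PhiP ends W x K)).filter fun p => (univ.image p.1 : Finset E) = T) =
      Arb ends W x T ×ˢ Arb ends W x (K \ T) := by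
    ext p
    rw [Finset.mem_filter, Finset.mem_filter, Finset.mem_product]
    simp only [Arb, mem_filter, mem_univ, true_and]
    constructor
    · rintro ⟨hp, hT'⟩
      refine ⟨⟨hp.1, fun u => ⟨?_, (hp.2.2.1 u).2⟩⟩, ⟨hp.2.1, fun u => ⟨?_, (hp.2.2.2.1 u).2⟩⟩⟩
      · rw [← hT']
        exact Finset.mem_image_of_mem _ (Finset.mem_univ u)
      · rw [Finset.mem_sdiff]
        refine ⟨(hp.2.2.2.1 u).1, ?_⟩
        rw [← hT']
        intro h
        obtain ⟨a, _, ha⟩ := Finset.mem_image.1 h
        exact hp.2.2.2.2 a u ha
    · rintro ⟨⟨h1, h2⟩, ⟨h3, h4⟩⟩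
      refine ⟨⟨h1, h3, fun u => ⟨hT.1 (h2 u).1, (h2 u).2⟩,
        fun u => ⟨(Finset.mem_sdiff.1 (h4 u).1).1, (h4 u).2⟩, ?_⟩, ?_⟩
      · intro u v huv
        apply (Finset.mem_sdiff.1 (h4 v).1).2
        rw [← huv]
        exact (h2 u).1
      · apply Finset.eq_of_subset_of_card_le
        · intro e he
          obtain ⟨a, _, rfl⟩ := Finset.mem_image.1 he
          exact (h2 a).1
        · rw [Finset.card_image_of_injective _ h1, Finset.card_univ]
          omega
  have hsum : (∑ p ∈ (univ.filter (PhiP ends W x K)).filter
      (fun p => (univ.image p.1 : Finset E) = T), g (univ.image p.1)) =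
      ((Arb ends W x T ×ˢ Arb ends W x (K \ T)).card : ZMod 2) * g T := by
    rw [Finset.sum_congr rfl (fun p hp => by rw [(Finset.mem_filter.1 hp).2]),
      Finset.sum_const, nsmul_eq_mul, hfib]
  rw [hsum, Finset.card_product, Nat.cast_mul,
    card_arb W x hx T hT.2 (fun e he => hl e (hT.1 he)) (fun e he => hW e (hT.1 he)),
    card_arb W x hx (K \ T) (by rw [Finset.card_sdiff_of_subset hT.1]; omega)
      (fun e he => hl e (Finset.sdiff_subset he)) (fun e he => hW e (Finset.sdiff_subset he))]
  ring

/-- The third component of a triple. -/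
def HP (ends : E → Sym2 V) (W : Finset V) (x y : V)
    (p : ({v : V // v ∈ W ∧ v ≠ x} → E) × ({v : V // v ∈ W ∧ v ≠ x} → E))
    (h : {v : V // v ∈ W ∧ v ≠ x} → V) : Prop :=
  Injective h ∧ ∀ u, h u ≠ y ∧ h u ∈ ends (p.1 u)

open Classical in
theorem card_hp (W : Finset V) (x y : V) (hx : x ∈ W) (hy : y ∈ W) (K : Finset E)
    (hl : ∀ e ∈ K, ¬ (ends e).IsDiag) (hW : ∀ e ∈ K, ∀ v ∈ ends e, v ∈ W)
    (p : ({v : V // v ∈ W ∧ v ≠ x} → E) × ({v : V // v ∈ W ∧ v ≠ x} → E))
    (hp : PhiP ends W x K p) :
    ((univ.filter (HP ends W x y p)).card : ZMod 2) =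
      if Forest ends (univ.image p.1) then 1 else 0 := by
  have h1 : (univ.filter (HP ends W x y p)).card =
      (sdr fun (u : {v : V // v ∈ W ∧ v ≠ x}) (v : {v : V // v ∈ W ∧ v ≠ y}) =>
        (v : V) ∈ ends (p.1 u)).card := by
    symm
    apply Finset.card_bij (fun f _ => fun u => ((f u : {v : V // v ∈ W ∧ v ≠ y}) : V))
    · intro f hf
      simp only [sdr, mem_filter, mem_univ, true_and] at hf
      rw [Finset.mem_filter]
      exact ⟨Finset.mem_univ _, Subtype.val_injective.comp hf.1, fun u => ⟨(f u).2.2, hf.2 u⟩⟩
    · intro f _ g _ h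
      funext u
      exact Subtype.ext (congrFun h u)
    · intro h hh
      have hh := (Finset.mem_filter.1 hh).2
      refine ⟨fun u => ⟨h u, hW _ (hp.2.2.1 u).1 _ (hh.2 u).2, (hh.2 u).1⟩, ?_, rfl⟩
      simp only [sdr, mem_filter, mem_univ, true_and]
      refine ⟨?_, fun u => (hh.2 u).2⟩
      intro a b hab
      exact hh.1 (congrArg Subtype.val hab)
  have hc : Fintype.card {v : V // v ∈ W ∧ v ≠ x} = Fintype.card {v : V // v ∈ W ∧ v ≠ y} := by
    have h1 := card_sub W x hx
    have h2 := card_sub W y hy
    omega
  rw [h1, sdr_row _ hc]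
  have h2 := forest_iff (ends := ends) p.1 hp.1 W (fun u => hl _ (hp.2.2.1 u).1)
    (fun u => hW _ (hp.2.2.1 u).1) y
  by_cases h : Forest ends (univ.image p.1)
  · rw [if_pos h, if_pos (h2.2 h)]
  · rw [if_neg h, if_neg (fun h' => h (h2.1 h'))]

/-- No vertex is mapped to itself. -/
def NoFix (W : Finset V) (x : V) (h : {v : V // v ∈ W ∧ v ≠ x} → V) : Prop :=
  ∀ u, h u ≠ (u : V)

open Classical in
theorem card_hp_ne (W : Finset V) (x y : V) (hx : x ∈ W) (hy : y ∈ W) (K : Finset E)
    (hl : ∀ e ∈ K, ¬ (ends e).IsDiag) (hW : ∀ e ∈ K, ∀ v ∈ ends e, v ∈ W)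
    (p : ({v : V // v ∈ W ∧ v ≠ x} → E) × ({v : V // v ∈ W ∧ v ≠ x} → E))
    (hp : PhiP ends W x K p) :
    (((univ.filter (HP ends W x y p)).filter fun h => NoFix W x h).card : ZMod 2) =
      if ∀ v ∈ W, deg ends (univ.image p.1) v + (if v = x then 1 else 0) +
        (if v = y then 1 else 0) = 2 then 1 else 0 := by
  have hw : ∀ u, ∃ w, ends (p.1 u) = s((u : V), w) := by
    intro u
    exact ⟨_, (Sym2.other_spec (hp.2.2.1 u).2).symm⟩
  choose w hw using hw
  have hne : ∀ u, w u ≠ u := by
    intro u h
    apply hl _ (hp.2.2.1 u).1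
    rw [hw u, h]
    exact Sym2.mk_isDiag_iff.2 rfl
  have hwW : ∀ u, w u ∈ W := fun u => hW _ (hp.2.2.1 u).1 _ (by rw [hw u]; simp)
  have hdeg : ∀ v ∈ W, deg ends (univ.image p.1) v + (if v = x then 1 else 0) =
      1 + (univ.filter fun u => w u = v).card := by
    intro v hv
    unfold deg
    rw [Finset.filter_image, Finset.card_image_of_injective _ hp.1]
    have h1 : (univ.filter fun a => v ∈ ends (p.1 a)) =
        (univ.filter fun u : {v : V // v ∈ W ∧ v ≠ x} => (u : V) = v) ∪
          (univ.filter fun u => w u = v) := by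
      ext a
      simp only [mem_filter, mem_univ, true_and, mem_union]
      rw [hw a, Sym2.mem_iff]
      constructor
      · rintro (h | h)
        · exact Or.inl h.symm
        · exact Or.inr h.symm
      · rintro (h | h)
        · exact Or.inl h.symm
        · exact Or.inr h.symm
    rw [h1, Finset.card_union_of_disjoint]
    · have h2 : (univ.filter fun u : {v : V // v ∈ W ∧ v ≠ x} => (u : V) = v).card +
          (if v = x then 1 else 0) = 1 := by
        by_cases hvx : v = x
        · rw [if_pos hvx]
          have : (univ.filter fun u : {v : V // v ∈ W ∧ v ≠ x} => (u : V) = v) = ∅ := by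
            rw [Finset.filter_eq_empty_iff]
            intro u _ h
            exact u.2.2 (h.trans hvx)
          rw [this]; rfl
        · rw [if_neg hvx]
          have : (univ.filter fun u : {v : V // v ∈ W ∧ v ≠ x} => (u : V) = v) =
              {⟨v, hv, hvx⟩} := by
            ext u
            simp only [mem_filter, mem_univ, true_and, mem_singleton]
            constructor
            · intro h; exact Subtype.ext h
            · intro h; rw [h]
          rw [this]; rfl
      omega
    · rw [Finset.disjoint_left]
      intro u hu hu'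
      have h3 := (Finset.mem_filter.1 hu).2
      have h4 := (Finset.mem_filter.1 hu').2
      exact hne u (h4.trans h3.symm)
  have hset : ((univ.filter (HP ends W x y p)).filter fun h => NoFix W x h) =
      if Injective w ∧ ∀ u, w u ≠ y then {w} else ∅ := by
    by_cases hc : Injective w ∧ ∀ u, w u ≠ y
    · rw [if_pos hc]
      ext h
      rw [Finset.mem_filter, Finset.mem_filter, Finset.mem_singleton]
      constructor
      · rintro ⟨⟨_, hh⟩, hh'⟩
        funext u
        have := (hh.2 u).2
        rw [hw u, Sym2.mem_iff] at this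
        rcases this with h' | h'
        · exact absurd h' (hh' u)
        · exact h'
      · rintro rfl
        exact ⟨⟨Finset.mem_univ _, hc.1, fun u => ⟨hc.2 u, by rw [hw u]; simp⟩⟩, hne⟩
    · rw [if_neg hc, Finset.eq_empty_iff_forall_notMem]
      intro h hh
      rw [Finset.mem_filter, Finset.mem_filter] at hh
      obtain ⟨⟨_, hh⟩, hh'⟩ := hh
      have : h = w := by
        funext u
        have := (hh.2 u).2
        rw [hw u, Sym2.mem_iff] at this
        rcases this with h' | h'
        · exact absurd h' (hh' u)
        · exact h'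
      subst this
      exact hc ⟨hh.1, fun u => (hh.2 u).1⟩
  rw [hset]
  have hiff : (Injective w ∧ ∀ u, w u ≠ y) ↔
      ∀ v ∈ W, deg ends (univ.image p.1) v + (if v = x then 1 else 0) +
        (if v = y then 1 else 0) = 2 := by
    constructor
    · rintro ⟨hinj, hwy⟩ v hv
      rw [hdeg v hv]
      by_cases hvy : v = y
      · rw [if_pos hvy]
        have : (univ.filter fun u => w u = v) = ∅ := by
          rw [Finset.filter_eq_empty_iff]
          intro u _ h
          exact hwy u (h.trans hvy)
        rw [this]; rfl
      · rw [if_neg hvy]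
        have hc : Fintype.card {v : V // v ∈ W ∧ v ≠ x} =
            Fintype.card {v : V // v ∈ W ∧ v ≠ y} := by
          have h1 := card_sub W x hx
          have h2 := card_sub W y hy
          omega
        have hb : Bijective (fun u => (⟨w u, hwW u, hwy u⟩ : {v : V // v ∈ W ∧ v ≠ y})) := by
          rw [Fintype.bijective_iff_injective_and_card]
          exact ⟨fun a b hab => hinj (congrArg Subtype.val hab), hc⟩
        obtain ⟨u, hu⟩ := hb.2 ⟨v, hv, hvy⟩
        have hu := congrArg Subtype.val hu
        simp only at hu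
        have : (univ.filter fun u => w u = v) = {u} := by
          ext u'
          simp only [mem_filter, mem_univ, true_and, mem_singleton]
          constructor
          · intro h; exact hinj (h.trans hu.symm)
          · rintro rfl; exact hu
        rw [this]; rfl
    · intro h
      refine ⟨?_, ?_⟩
      · intro a b hab
        by_contra hne'
        have h1 := h (w a) (hwW a)
        rw [hdeg _ (hwW a)] at h1
        have h2 : ({a, b} : Finset _) ⊆ univ.filter fun u => w u = w a := by
          intro c hc
          simp only [mem_insert, mem_singleton] at hc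
          rw [Finset.mem_filter]
          rcases hc with rfl | rfl
          · exact ⟨Finset.mem_univ _, rfl⟩
          · exact ⟨Finset.mem_univ _, hab.symm⟩
        have h3 := Finset.card_le_card h2
        rw [Finset.card_pair hne'] at h3
        omega
      · intro u hu
        have h1 := h y hy
        rw [hdeg _ hy, if_pos rfl] at h1
        have h2 : 0 < (univ.filter fun u => w u = y).card :=
          Finset.card_pos.2 ⟨u, by simp [hu]⟩
        omega
  by_cases hc : Injective w ∧ ∀ u, w u ≠ y
  · rw [if_pos hc, if_pos (hiff.1 hc)]; simp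
  · rw [if_neg hc, if_neg (fun h => hc (hiff.2 h))]; simp

/-- Swap the values of the two maps at `u`. -/
def swp {X : Type} [DecidableEq X] (p : (X → E) × (X → E)) (u : X) : (X → E) × (X → E) :=
  (Function.update p.1 u (p.2 u), Function.update p.2 u (p.1 u))

theorem swp_swp {X : Type} [DecidableEq X] (p : (X → E) × (X → E)) (u : X) : swp (swp p u) u = p := by
  unfold swp
  apply Prod.ext
  · funext a
    by_cases h : a = u
    · subst h; simp
    · simp [h]
  · funext a
    by_cases h : a = u
    · subst h; simp
    · simp [h]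

theorem phi_swp (W : Finset V) (x : V) (K : Finset E)
    (p : ({v : V // v ∈ W ∧ v ≠ x} → E) × ({v : V // v ∈ W ∧ v ≠ x} → E))
    (hp : PhiP ends W x K p) (u : {v : V // v ∈ W ∧ v ≠ x}) :
    PhiP ends W x K (swp p u) := by
  obtain ⟨h1, h2, h3, h4, h5⟩ := hp
  refine ⟨?_, ?_, ?_, ?_, ?_⟩
  · intro a b hab
    simp only [swp] at hab
    by_cases ha : a = u
    · by_cases hb : b = u
      · rw [ha, hb]
      · subst ha
        simp only [Function.update_self, Function.update_of_ne hb] at hab
        exact absurd hab.symm (h5 _ _)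
    · by_cases hb : b = u
      · subst hb
        simp only [Function.update_self, Function.update_of_ne ha] at hab
        exact absurd hab (h5 _ _)
      · simp only [Function.update_of_ne ha, Function.update_of_ne hb] at hab
        exact h1 hab
  · intro a b hab
    simp only [swp] at hab
    by_cases ha : a = u
    · by_cases hb : b = u
      · rw [ha, hb]
      · subst ha
        simp only [Function.update_self, Function.update_of_ne hb] at hab
        exact absurd hab (h5 _ _)
    · by_cases hb : b = u
      · subst hb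
        simp only [Function.update_self, Function.update_of_ne ha] at hab
        exact absurd hab.symm (h5 _ _)
      · simp only [Function.update_of_ne ha, Function.update_of_ne hb] at hab
        exact h2 hab
  · intro a
    simp only [swp]
    by_cases ha : a = u
    · subst ha; simp only [Function.update_self]; exact h4 a
    · simp only [Function.update_of_ne ha]; exact h3 a
  · intro a
    simp only [swp]
    by_cases ha : a = u
    · subst ha; simp only [Function.update_self]; exact h3 a
    · simp only [Function.update_of_ne ha]; exact h4 a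
  · intro a b
    simp only [swp]
    by_cases ha : a = u
    · by_cases hb : b = u
      · subst ha; subst hb
        simp only [Function.update_self]
        exact fun h => h5 _ _ h.symm
      · subst ha
        simp only [Function.update_self, Function.update_of_ne hb]
        exact fun h => hb (h2 h).symm
    · by_cases hb : b = u
      · subst hb
        simp only [Function.update_self, Function.update_of_ne ha]
        exact fun h => ha (h1 h)
      · simp only [Function.update_of_ne ha, Function.update_of_ne hb]
        exact h5 _ _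

open Classical in
/-- A fixed vertex of `h`, if there is one. -/
noncomputable def fixv {X : Type} (i : X → V) (h : X → V) (H : ∃ u, h u = i u) : X :=
  Classical.choose H

open Classical in
theorem sum_eq (W : Finset V) (x y : V) (K : Finset E) :
    (∑ p ∈ univ.filter (PhiP ends W x K), ((univ.filter (HP ends W x y p)).card : ZMod 2)) =
      ∑ p ∈ univ.filter (PhiP ends W x K),
        (((univ.filter (HP ends W x y p)).filter fun h => NoFix W x h).card : ZMod 2) := by
  have hsplit : ∀ p : ({v : V // v ∈ W ∧ v ≠ x} → E) × ({v : V // v ∈ W ∧ v ≠ x} → E),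
      ((univ.filter (HP ends W x y p)).card : ZMod 2) =
        (((univ.filter (HP ends W x y p)).filter fun h => NoFix W x h).card : ZMod 2) +
        (((univ.filter (HP ends W x y p)).filter fun h => ¬ NoFix W x h).card : ZMod 2) := by
    intro p
    rw [← Nat.cast_add, Finset.card_filter_add_card_filter_not]
  rw [Finset.sum_congr rfl (fun p _ => hsplit p), Finset.sum_add_distrib]
  have hz : (∑ p ∈ univ.filter (PhiP ends W x K),
      (((univ.filter (HP ends W x y p)).filter fun h => ¬ NoFix W x h).card : ZMod 2)) = 0 := by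
    have h1 : (∑ p ∈ univ.filter (PhiP ends W x K),
      (((univ.filter (HP ends W x y p)).filter fun h => ¬ NoFix W x h).card : ZMod 2)) =
      ∑ q ∈ (univ.filter (PhiP ends W x K)).sigma
        (fun p => (univ.filter (HP ends W x y p)).filter fun h => ¬ NoFix W x h),
        (1 : ZMod 2) := by
      rw [Finset.sum_sigma]
      apply Finset.sum_congr rfl
      intro p _
      rw [Finset.sum_const, nsmul_eq_mul, mul_one]
    rw [h1]
    have hex : ∀ q : (p : ({v : V // v ∈ W ∧ v ≠ x} → E) × ({v : V // v ∈ W ∧ v ≠ x} → E)) ×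
        ({v : V // v ∈ W ∧ v ≠ x} → V),
        q ∈ (univ.filter (PhiP ends W x K)).sigma
          (fun p => (univ.filter (HP ends W x y p)).filter fun h => ¬ NoFix W x h) ↔
          PhiP ends W x K q.1 ∧ HP ends W x y q.1 q.2 ∧ ∃ u, q.2 u = u := by
      intro q
      rw [Finset.mem_sigma, Finset.mem_filter, Finset.mem_filter, Finset.mem_filter]
      unfold NoFix
      push Not
      simp only [mem_univ, true_and]
    apply Finset.sum_involution (fun q hq =>
      (⟨swp q.1 (fixv (fun u => (u : V)) q.2 ((hex q).1 hq).2.2), q.2⟩ :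
        (_ : ({v : V // v ∈ W ∧ v ≠ x} → E) × ({v : V // v ∈ W ∧ v ≠ x} → E)) ×
        ({v : V // v ∈ W ∧ v ≠ x} → V)))
    · intro q _
      decide
    · intro q hq _ h
      have h2 : swp q.1 (fixv (fun u => (u : V)) q.2 ((hex q).1 hq).2.2) = q.1 :=
        congrArg Sigma.fst h
      have h3 := congrFun (congrArg Prod.fst h2) (fixv (fun u => (u : V)) q.2 ((hex q).1 hq).2.2)
      simp only [swp, Function.update_self] at h3
      exact ((hex q).1 hq).1.2.2.2.2 _ _ h3.symm
    · intro q hq
      exact Sigma.ext (swp_swp _ _) HEq.rfl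
    · intro q hq
      have h0 := (hex q).1 hq
      refine (hex _).2 ?_
      refine ⟨phi_swp W x K _ h0.1 _, ⟨h0.2.1.1, ?_⟩, h0.2.2⟩
      intro u
      refine ⟨(h0.2.1.2 u).1, ?_⟩
      have hfix : q.2 (fixv (fun u : {v : V // v ∈ W ∧ v ≠ x} => (u : V)) q.2 h0.2.2) =
          ((fixv (fun u : {v : V // v ∈ W ∧ v ≠ x} => (u : V)) q.2 h0.2.2 :
            {v : V // v ∈ W ∧ v ≠ x}) : V) :=
        Classical.choose_spec h0.2.2
      revert hfix
      generalize fixv (fun u : {v : V // v ∈ W ∧ v ≠ x} => (u : V)) q.2 h0.2.2 = w
      intro hfix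
      show q.2 u ∈ ends (Function.update q.1.1 w (q.1.2 w) u)
      by_cases hu : u = w
      · rw [hu, Function.update_self, hfix]
        exact (h0.1.2.2.2.1 w).2
      · rw [Function.update_of_ne hu]
        exact (h0.2.1.2 u).2
  rw [hz, add_zero]

open Classical in
/-- The parity theorem. -/
theorem gt (W : Finset V) (x y : V) (hx : x ∈ W) (hy : y ∈ W) (K : Finset E)
    (hK : K.card + 2 = 2 * W.card) (hne : K.Nonempty)
    (hl : ∀ e ∈ K, ¬ (ends e).IsDiag) (hW : ∀ e ∈ K, ∀ v ∈ ends e, v ∈ W) :
    Even (K.powerset.filter fun T => T.card + 1 = W.card ∧ Forest ends T ∧ Forest ends (K \ T) ∧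
      ∀ v ∈ W, deg ends T v + (if v = x then 1 else 0) + (if v = y then 1 else 0) = 2).card := by
  rw [← ZMod.natCast_eq_zero_iff_even]
  have h1 := sum_eq (ends := ends) W x y K
  rw [Finset.sum_congr rfl (fun p hp => card_hp W x y hx hy K hl hW p (Finset.mem_filter.1 hp).2),
    Finset.sum_congr rfl
      (fun p hp => card_hp_ne W x y hx hy K hl hW p (Finset.mem_filter.1 hp).2)] at h1
  rw [sum_phi W x hx K hK hl hW (fun T => if Forest ends T then 1 else 0),
    sum_phi W x hx K hK hl hW (fun T => if ∀ v ∈ W, deg ends T v + (if v = x then 1 else 0) +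
        (if v = y then 1 else 0) = 2 then 1 else 0)] at h1
  have h2 : (∑ T ∈ K.powerset.filter (fun T => T.card + 1 = W.card),
      (if Forest ends T then (1 : ZMod 2) else 0) * (if Forest ends T then 1 else 0) *
        (if Forest ends (K \ T) then 1 else 0)) = 0 := by
    apply Finset.sum_involution (fun T _ => K \ T)
    · intro T hT
      rw [Finset.mem_filter, Finset.mem_powerset] at hT
      rw [Finset.sdiff_sdiff_eq_self hT.1]
      by_cases ha : Forest ends T <;> by_cases hb : Forest ends (K \ T) <;> simp [ha, hb] <;> decide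
    · intro T hT _ h
      rw [Finset.mem_filter, Finset.mem_powerset] at hT
      have h3 : T = ∅ := by
        rw [Finset.eq_empty_iff_forall_notMem]
        intro e he
        have he' := he
        rw [← h] at he'
        exact (Finset.mem_sdiff.1 he').2 he
      rw [h3, Finset.sdiff_empty] at h
      exact hne.ne_empty h
    · intro T hT
      rw [Finset.mem_filter, Finset.mem_powerset] at hT
      rw [Finset.mem_filter, Finset.mem_powerset]
      refine ⟨Finset.sdiff_subset, ?_⟩
      rw [Finset.card_sdiff_of_subset hT.1]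
      omega
    · intro T hT
      rw [Finset.mem_filter, Finset.mem_powerset] at hT
      exact Finset.sdiff_sdiff_eq_self hT.1
  rw [h2] at h1
  rw [h1]
  rw [← Finset.filter_filter, Finset.card_filter, Nat.cast_sum]
  apply Finset.sum_congr rfl
  intro T _
  by_cases ha : Forest ends T <;> by_cases hb : Forest ends (K \ T) <;>
    by_cases hc : ∀ v ∈ W, deg ends T v + (if v = x then 1 else 0) +
        (if v = y then 1 else 0) = 2 <;> simp [ha, hb, hc]

end MP_947208_co
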