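import Mathlib
import Pool.Agent.Work.MP_947208_co.GT

/-! Hamiltonian cycles, and the parity theorems for 4-regular edge sets. -/

namespace MP_947208_co

open Finset Function

variable {V E : Type} [Fintype V] [DecidableEq V] [Fintype E] [DecidableEq E]
variable {ends : E → Sym2 V}

theorem Forest.mono {S T : Finset E} (h : Forest ends T) (hS : S ⊆ T) : Forest ends S :=
  fun R hR hev => h R (hR.trans hS) hev

theorem deg_mono {S T : Finset E} (hS : S ⊆ T) (v : V) : deg ends S v ≤ deg ends T v :=
  Finset.card_le_card (Finset.filter_subset_filter _ hS)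

theorem deg_union {S T : Finset E} (h : Disjoint S T) (v : V) :
    deg ends (S ∪ T) v = deg ends S v + deg ends T v := by
  unfold deg
  rw [Finset.filter_union, Finset.card_union_of_disjoint
    (Finset.disjoint_filter_filter h)]

theorem deg_sdiff {S T : Finset E} (h : S ⊆ T) (v : V) :
    deg ends (T \ S) v + deg ends S v = deg ends T v := by
  rw [← deg_union Finset.sdiff_disjoint, Finset.sdiff_union_of_subset h]

theorem deg_insert {T : Finset E} {e : E} (h : e ∉ T) (v : V) :
    deg ends (insert e T) v = deg ends T v + (if v ∈ ends e then 1 else 0) := by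
  unfold deg
  rw [Finset.filter_insert]
  by_cases hv : v ∈ ends e
  · rw [if_pos hv, if_pos hv, Finset.card_insert_of_notMem]
    intro h'
    exact h (Finset.mem_filter.1 h').1
  · rw [if_neg hv, if_neg hv, add_zero]

theorem deg_erase {T : Finset E} {e : E} (h : e ∈ T) (v : V) :
    deg ends (T.erase e) v + (if v ∈ ends e then 1 else 0) = deg ends T v := by
  rw [← deg_insert (Finset.notMem_erase e T), Finset.insert_erase h]

theorem deg_eq_zero {T : Finset E} {v : V} : deg ends T v = 0 ↔ ∀ e ∈ T, v ∉ ends e := by
  unfold deg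
  rw [Finset.card_eq_zero, Finset.filter_eq_empty_iff]

theorem IsHam.card {C : Finset E} (h : IsHam ends C) (hl : ∀ e ∈ C, ¬ (ends e).IsDiag) :
    C.card = Fintype.card V := by
  have h1 := handshake C hl
  rw [Finset.sum_congr rfl (fun v _ => h.1 v), Finset.sum_const, smul_eq_mul,
    Finset.card_univ] at h1
  omega

theorem IsHam.forest_erase {C : Finset E} (h : IsHam ends C) {e : E} (he : e ∈ C) :
    Forest ends (C.erase e) := by
  classical
  intro S hS hev
  by_contra hne
  have hSC : S ⊆ C := hS.trans (Finset.erase_subset _ _)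
  have hle : ∀ v, deg ends S v ≤ 2 := fun v => (h.1 v) ▸ deg_mono hSC v
  have hfull : ∀ v, deg ends S v ≠ 0 → ∀ f ∈ C, v ∈ ends f → f ∈ S := by
    intro v hv f hf hvf
    have h2 : deg ends S v = 2 := by
      have := hle v
      obtain ⟨k, hk⟩ := hev v
      omega
    have h3 := deg_sdiff (ends := ends) hSC v
    rw [h.1 v, h2] at h3
    have h4 : deg ends (C \ S) v = 0 := by omega
    rw [deg_eq_zero] at h4
    by_contra hfS
    exact h4 f (Finset.mem_sdiff.2 ⟨hf, hfS⟩) hvf
  set U : Finset V := univ.filter fun v => deg ends S v ≠ 0 with hU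
  have hUne : U.Nonempty := by
    obtain ⟨f, hf⟩ := Finset.nonempty_iff_ne_empty.2 hne
    obtain ⟨v, hv⟩ : ∃ v, v ∈ ends f := by
      induction ends f with | h a b => exact ⟨a, by simp⟩
    refine ⟨v, ?_⟩
    rw [hU, Finset.mem_filter]
    refine ⟨Finset.mem_univ _, fun h0 => ?_⟩
    rw [deg_eq_zero] at h0
    exact h0 f hf hv
  by_cases hUu : U = univ
  · obtain ⟨v, hv⟩ : ∃ v, v ∈ ends e := by
      induction ends e with | h a b => exact ⟨a, by simp⟩
    have : v ∈ U := by rw [hUu]; exact Finset.mem_univ v
    have h1 := hfull v (Finset.mem_filter.1 this).2 e he hv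
    exact Finset.notMem_erase e C (hS h1)
  · obtain ⟨f, hf, u, hu, w, hw, huf, hwf⟩ := h.2 U hUne hUu
    have h1 := hfull u (Finset.mem_filter.1 hu).2 f hf huf
    apply hw
    rw [hU, Finset.mem_filter]
    refine ⟨Finset.mem_univ _, fun h0 => ?_⟩
    rw [deg_eq_zero] at h0
    exact h0 f h1 hwf

theorem isHam_of_forest {C : Finset E} (h2 : ∀ v, deg ends C v = 2) {e : E} (he : e ∈ C)
    (hF : Forest ends (C.erase e)) : IsHam ends C := by
  classical
  refine ⟨h2, ?_⟩
  -- a set that is not left by an edge of `C` and does not contain an end of `e` is empty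
  have key : ∀ S : Finset V, S.Nonempty → (∀ f ∈ C, ∀ u ∈ S, u ∈ ends f → ∀ w ∈ ends f, w ∈ S) →
      (∀ v ∈ ends e, v ∉ S) → False := by
    intro S hS hcl heS
    have h1 := hF (C.filter fun f => ∃ u ∈ S, u ∈ ends f) (by
      intro f hf
      rw [Finset.mem_filter] at hf
      rw [Finset.mem_erase]
      refine ⟨?_, hf.1⟩
      rintro rfl
      obtain ⟨u, hu, huf⟩ := hf.2
      exact heS u huf hu) (by
      intro v
      by_cases hv : v ∈ S
      · have : deg ends (C.filter fun f => ∃ u ∈ S, u ∈ ends f) v = 2 := by
          rw [← h2 v]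
          unfold deg
          congr 1
          ext f
          simp only [mem_filter]
          constructor
          · rintro ⟨⟨a, _⟩, b⟩; exact ⟨a, b⟩
          · rintro ⟨a, b⟩; exact ⟨⟨a, v, hv, b⟩, b⟩
        rw [this]
        exact even_two
      · have : deg ends (C.filter fun f => ∃ u ∈ S, u ∈ ends f) v = 0 := by
          rw [deg_eq_zero]
          intro f hf hvf
          rw [Finset.mem_filter] at hf
          obtain ⟨hfC, u, hu, huf⟩ := hf
          exact hv (hcl f hfC u hu huf v hvf)
        rw [this]
        exact Even.zero)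
    obtain ⟨v, hv⟩ := hS
    have h3 : 0 < deg ends C v := by rw [h2 v]; norm_num
    obtain ⟨f, hf⟩ := Finset.card_pos.1 h3
    rw [Finset.mem_filter] at hf
    have : f ∈ (C.filter fun f => ∃ u ∈ S, u ∈ ends f) :=
      Finset.mem_filter.2 ⟨hf.1, v, hv, hf.2⟩
    rw [h1] at this
    exact absurd this (Finset.notMem_empty f)
  intro S hS hSu
  by_contra hcon
  push Not at hcon
  have hcl : ∀ f ∈ C, ∀ u ∈ S, u ∈ ends f → ∀ w ∈ ends f, w ∈ S := by
    intro f hf u hu huf w hwf
    by_contra hw
    exact hcon f hf u hu w hw huf hwf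
  by_cases heS : ∀ v ∈ ends e, v ∉ S
  · exact key S hS hcl heS
  · push Not at heS
    obtain ⟨v, hve, hvS⟩ := heS
    apply key Sᶜ
    · rw [Finset.nonempty_iff_ne_empty]
      intro h
      rw [Finset.compl_eq_empty_iff] at h
      exact hSu h
    · intro f hf u hu huf w hwf
      rw [Finset.mem_compl] at hu ⊢
      intro hw
      exact hu (hcl f hf w hw hwf u huf)
    · intro w hw
      rw [Finset.mem_compl, not_not]
      exact hcl e he v hvS hve w hw

theorem isHam_of_forest_two {C : Finset E} (h2 : ∀ v, deg ends C v = 2) {a b : E} (ha : a ∈ C)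
    (v : V) (hv : ∀ e ∈ C, v ∈ ends e → e = a ∨ e = b)
    (hF : Forest ends (C \ {a, b})) : IsHam ends C := by
  classical
  apply isHam_of_forest h2 ha
  intro S hS hev
  by_cases hvb : v ∈ ends b
  · have hbS : b ∉ S := by
      intro hb
      have h1 : S.filter (fun e => v ∈ ends e) = {b} := by
        ext e
        rw [Finset.mem_filter, Finset.mem_singleton]
        constructor
        · rintro ⟨he, hve⟩
          have he' := Finset.mem_erase.1 (hS he)
          rcases hv e he'.2 hve with h | h
          · exact absurd h he'.1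
          · exact h
        · rintro rfl
          exact ⟨hb, hvb⟩
      have h3 : deg ends S v = 1 := by
        unfold deg
        rw [h1, Finset.card_singleton]
      have h4 := hev v
      rw [h3] at h4
      exact absurd h4 (by decide)
    apply hF S _ hev
    intro e he
    have he' := Finset.mem_erase.1 (hS he)
    rw [Finset.mem_sdiff, Finset.mem_insert, Finset.mem_singleton]
    refine ⟨he'.2, ?_⟩
    rintro (h | h)
    · exact he'.1 h
    · exact hbS (h ▸ he)
  · -- then `a` alone would be at `v`
    exfalso
    have h1 : C.filter (fun e => v ∈ ends e) ⊆ {a} := by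
      intro e he
      rw [Finset.mem_filter] at he
      rw [Finset.mem_singleton]
      rcases hv e he.1 he.2 with h | h
      · exact h
      · exact absurd (h ▸ he.2) hvb
    have h3 := Finset.card_le_card h1
    have h4 := h2 v
    unfold deg at h4
    rw [h4, Finset.card_singleton] at h3
    omega

open Classical in
/-- The Hamiltonian cycles in `F` with Hamiltonian complement. -/
noncomputable def HH (ends : E → Sym2 V) (F : Finset E) : Finset (Finset E) :=
  F.powerset.filter fun H => IsHam ends H ∧ IsHam ends (F \ H)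

theorem mem_HH {F H : Finset E} : H ∈ HH ends F ↔ H ⊆ F ∧ IsHam ends H ∧ IsHam ends (F \ H) := by
  classical
  unfold HH
  rw [Finset.mem_filter, Finset.mem_powerset]

theorem HH_compl {F H : Finset E} (h : H ∈ HH ends F) : F \ H ∈ HH ends F := by
  rw [mem_HH] at h ⊢
  rw [Finset.sdiff_sdiff_eq_self h.1]
  exact ⟨Finset.sdiff_subset, h.2.2, h.2.1⟩

theorem exists_other {e : E} {v : V} (h : v ∈ ends e) : ∃ x, ends e = s(v, x) := by
  exact ⟨_, (Sym2.other_spec h).symm⟩

/-- Two given edges lie in different cycles of an even number of decompositions. -/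
theorem even_diff (F : Finset E) (hl : ∀ e ∈ F, ¬ (ends e).IsDiag) (h4 : ∀ v, deg ends F v = 4)
    (hn : 2 ≤ Fintype.card V) {e f : E} (he : e ∈ F) (hf : f ∈ F) (hef : e ≠ f) :
    Even ((HH ends F).filter fun H => e ∈ H ∧ f ∉ H).card := by
  classical
  obtain ⟨x, hx⟩ : ∃ x, x ∈ ends e := by
    induction ends e with | h a b => exact ⟨a, by simp⟩
  obtain ⟨y, hy⟩ := exists_other hx
  have hxy : x ≠ y := by
    intro h
    apply hl e he
    rw [hy, h]
    exact Sym2.mk_isDiag_iff.2 rfl
  have hcard : F.card = 2 * Fintype.card V := by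
    have h1 := handshake F hl
    rw [Finset.sum_congr rfl (fun v _ => h4 v), Finset.sum_const, smul_eq_mul,
      Finset.card_univ] at h1
    omega
  have hef' : ({e, f} : Finset E) ⊆ F := by
    intro g hg
    rcases Finset.mem_insert.1 hg with rfl | hg
    · exact he
    · rw [Finset.mem_singleton] at hg; exact hg ▸ hf
  have hK : (F \ {e, f}).card + 2 = 2 * (univ : Finset V).card := by
    rw [Finset.card_sdiff_of_subset hef', Finset.card_pair hef, Finset.card_univ]
    omega
  have hne : (F \ {e, f}).Nonempty := by
    rw [← Finset.card_pos]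
    rw [Finset.card_univ] at hK
    omega
  have hgt := gt (ends := ends) univ x y (Finset.mem_univ _) (Finset.mem_univ _) (F \ {e, f})
    hK hne (fun g hg => hl g (Finset.sdiff_subset hg)) (fun _ _ v _ => Finset.mem_univ v)
  have hdege : ∀ v, (if v ∈ ends e then 1 else 0) =
      (if v = x then 1 else 0) + (if v = y then 1 else 0) := by
    intro v
    rw [hy]
    by_cases h1 : v = x
    · have h2 : v ≠ y := fun h => hxy (h1.symm.trans h)
      simp [h1, hxy]
    · by_cases h2 : v = y
      · simp [h2, Ne.symm hxy]
      · simp [h1, h2]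
  convert hgt using 1
  apply Finset.card_bij' (fun H _ => H.erase e) (fun T _ => insert e T)
  · intro H hH
    rw [Finset.mem_filter] at hH
    exact Finset.insert_erase hH.2.1
  · intro T hT
    rw [Finset.mem_filter, Finset.mem_powerset] at hT
    apply Finset.erase_insert
    intro h
    have := Finset.mem_sdiff.1 (hT.1 h)
    simp at this
  · intro H hH
    rw [Finset.mem_filter, mem_HH] at hH
    obtain ⟨⟨hHF, hH1, hH2⟩, heH, hfH⟩ := hH
    rw [Finset.mem_filter, Finset.mem_powerset]
    have hc1 := hH1.card (fun g hg => hl g (hHF hg))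
    refine ⟨?_, ?_, hH1.forest_erase heH, ?_, ?_⟩
    · intro g hg
      rw [Finset.mem_erase] at hg
      rw [Finset.mem_sdiff, Finset.mem_insert, Finset.mem_singleton]
      refine ⟨hHF hg.2, ?_⟩
      rintro (h | h)
      · exact hg.1 h
      · exact hfH (h ▸ hg.2)
    · rw [Finset.card_erase_of_mem heH, hc1, Finset.card_univ]
      omega
    · have : (F \ {e, f}) \ H.erase e = (F \ H).erase f := by
        ext g
        simp only [mem_sdiff, mem_insert, mem_singleton, mem_erase]
        constructor
        · rintro ⟨⟨h1, h2⟩, h3⟩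
          refine ⟨fun h => h2 (Or.inr h), h1, fun h => h3 ⟨fun h' => h2 (Or.inl h'), h⟩⟩
        · rintro ⟨h1, h2, h3⟩
          refine ⟨⟨h2, ?_⟩, fun h => h3 h.2⟩
          rintro (h | h)
          · exact h3 (h ▸ heH)
          · exact h1 h
      rw [this]
      exact hH2.forest_erase (Finset.mem_sdiff.2 ⟨hf, hfH⟩)
    · intro v _
      have h1 := deg_erase (ends := ends) heH v
      rw [hH1.1 v, hdege v] at h1
      omega
  · intro T hT
    rw [Finset.mem_filter, Finset.mem_powerset] at hT
    obtain ⟨hTK, hTc, hT1, hT2, hT3⟩ := hT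
    have heT : e ∉ T := by
      intro h
      have := Finset.mem_sdiff.1 (hTK h)
      simp at this
    have hfT : f ∉ T := by
      intro h
      have := Finset.mem_sdiff.1 (hTK h)
      simp at this
    have hins : insert e T ⊆ F := by
      intro g hg
      rcases Finset.mem_insert.1 hg with rfl | hg
      · exact he
      · exact (Finset.mem_sdiff.1 (hTK hg)).1
    have hd1 : ∀ v, deg ends (insert e T) v = 2 := by
      intro v
      rw [deg_insert heT, hdege v]
      have := hT3 v (Finset.mem_univ v)
      omega
    have hd2 : ∀ v, deg ends (F \ insert e T) v = 2 := by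
      intro v
      have := deg_sdiff (ends := ends) hins v
      rw [hd1 v, h4 v] at this
      omega
    rw [Finset.mem_filter, mem_HH]
    have hfn : f ∉ insert e T := by
      rw [Finset.mem_insert]
      rintro (h | h)
      · exact hef h.symm
      · exact hfT h
    refine ⟨⟨hins, ?_, ?_⟩, Finset.mem_insert_self e T, hfn⟩
    · apply isHam_of_forest hd1 (Finset.mem_insert_self e T)
      rw [Finset.erase_insert heT]
      exact hT1
    · apply isHam_of_forest hd2 (e := f) (Finset.mem_sdiff.2 ⟨hf, hfn⟩)
      have : (F \ {e, f}) \ T = (F \ insert e T).erase f := by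
        ext g
        simp only [mem_sdiff, mem_insert, mem_singleton, mem_erase]
        tauto
      rw [← this]
      exact hT2

theorem deg_pair {a b : E} (hab : a ≠ b) (v : V) :
    deg ends {a, b} v = (if v ∈ ends a then 1 else 0) + (if v ∈ ends b then 1 else 0) := by
  have h1 : a ∉ ({b} : Finset E) := by rwa [Finset.mem_singleton]
  have h2 : deg ends ({b} : Finset E) v = if v ∈ ends b then 1 else 0 := by
    unfold deg
    rw [Finset.filter_singleton]
    by_cases h : v ∈ ends b
    · rw [if_pos h, if_pos h, Finset.card_singleton]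
    · rw [if_neg h, if_neg h, Finset.card_empty]
  rw [show ({a, b} : Finset E) = insert a {b} from rfl, deg_insert h1, h2, add_comm]

/-- The parity theorem at a vertex. -/
theorem even_pair (F : Finset E) (hl : ∀ e ∈ F, ¬ (ends e).IsDiag) (h4 : ∀ v, deg ends F v = 4)
    (hn : 3 ≤ Fintype.card V) (v : V) {a b c d : E}
    (hv : F.filter (fun e => v ∈ ends e) = {a, b, c, d}) (hab : a ≠ b) (hac : a ≠ c)
    (had : a ≠ d) (hbc : b ≠ c) (hbd : b ≠ d) (hcd : c ≠ d) :
    Even ((HH ends F).filter fun H => a ∈ H ∧ b ∈ H ∧ c ∉ H ∧ d ∉ H).card := by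
  classical
  have hmem : ∀ e, (e ∈ F ∧ v ∈ ends e) ↔ (e = a ∨ e = b ∨ e = c ∨ e = d) := by
    intro e
    have := Finset.ext_iff.1 hv e
    simpa only [mem_filter, mem_insert, mem_singleton] using this
  have ha := (hmem a).2 (Or.inl rfl)
  have hb := (hmem b).2 (Or.inr (Or.inl rfl))
  have hc := (hmem c).2 (Or.inr (Or.inr (Or.inl rfl)))
  have hd := (hmem d).2 (Or.inr (Or.inr (Or.inr rfl)))
  obtain ⟨x, hx⟩ := exists_other ha.2
  obtain ⟨y, hy⟩ := exists_other hb.2
  have hxv : x ≠ v := by
    intro h
    apply hl a ha.1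
    rw [hx, h]
    exact Sym2.mk_isDiag_iff.2 rfl
  have hyv : y ≠ v := by
    intro h
    apply hl b hb.1
    rw [hy, h]
    exact Sym2.mk_isDiag_iff.2 rfl
  have hcard : F.card = 2 * Fintype.card V := by
    have h1 := handshake F hl
    rw [Finset.sum_congr rfl (fun v _ => h4 v), Finset.sum_const, smul_eq_mul,
      Finset.card_univ] at h1
    omega
  have hsub : ({a, b, c, d} : Finset E) ⊆ F := by
    rw [← hv]; exact Finset.filter_subset _ _
  have hc4 : ({a, b, c, d} : Finset E).card = 4 := by
    rw [← hv]; exact h4 v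
  have hWc : (univ.erase v).card + 1 = Fintype.card V := by
    rw [Finset.card_erase_of_mem (Finset.mem_univ v), Finset.card_univ]
    omega
  have hK : (F \ {a, b, c, d}).card + 2 = 2 * (univ.erase v).card := by
    rw [Finset.card_sdiff_of_subset hsub, hc4]
    omega
  have hne : (F \ {a, b, c, d}).Nonempty := by
    rw [← Finset.card_pos]
    omega
  have hKv : ∀ e ∈ F \ {a, b, c, d}, v ∉ ends e := by
    intro e he hve
    rw [Finset.mem_sdiff, ← hv, Finset.mem_filter] at he
    exact he.2 ⟨he.1, hve⟩
  have hgt := gt (ends := ends) (univ.erase v) x y (Finset.mem_erase.2 ⟨hxv, Finset.mem_univ _⟩)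
    (Finset.mem_erase.2 ⟨hyv, Finset.mem_univ _⟩) (F \ {a, b, c, d})
    hK hne (fun g hg => hl g (Finset.sdiff_subset hg))
    (fun e he u hu => Finset.mem_erase.2 ⟨fun h => hKv e he (h ▸ hu), Finset.mem_univ _⟩)
  have hda : ∀ u, u ≠ v → (if u ∈ ends a then 1 else 0) = (if u = x then 1 else 0) := by
    intro u hu
    rw [hx]
    by_cases h1 : u = x
    · simp [h1]
    · simp [h1, hu]
  have hdb : ∀ u, u ≠ v → (if u ∈ ends b then 1 else 0) = (if u = y then 1 else 0) := by
    intro u hu
    rw [hy]
    by_cases h1 : u = y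
    · simp [h1]
    · simp [h1, hu]
  convert hgt using 1
  apply Finset.card_bij' (fun H _ => H \ {a, b}) (fun T _ => {a, b} ∪ T)
  · intro H hH
    rw [Finset.mem_filter] at hH
    apply Finset.union_sdiff_of_subset
    intro e he
    rcases Finset.mem_insert.1 he with rfl | he
    · exact hH.2.1
    · rw [Finset.mem_singleton] at he; exact he ▸ hH.2.2.1
  · intro T hT
    rw [Finset.mem_filter, Finset.mem_powerset] at hT
    rw [Finset.union_sdiff_cancel_left]
    rw [Finset.disjoint_left]
    intro e he heT
    have := (Finset.mem_sdiff.1 (hT.1 heT)).2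
    apply this
    simp only [mem_insert, mem_singleton] at he ⊢
    tauto
  · intro H hH
    rw [Finset.mem_filter, mem_HH] at hH
    obtain ⟨⟨hHF, hH1, hH2⟩, haH, hbH, hcH, hdH⟩ := hH
    rw [Finset.mem_filter, Finset.mem_powerset]
    have hc1 := hH1.card (fun g hg => hl g (hHF hg))
    have hab' : ({a, b} : Finset E) ⊆ H := by
      intro e he
      rcases Finset.mem_insert.1 he with rfl | he
      · exact haH
      · rw [Finset.mem_singleton] at he; exact he ▸ hbH
    refine ⟨?_, ?_, (hH1.forest_erase haH).mono ?_, ?_, ?_⟩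
    · intro g hg
      rw [Finset.mem_sdiff, Finset.mem_insert, Finset.mem_singleton] at hg
      rw [Finset.mem_sdiff, Finset.mem_insert, Finset.mem_insert, Finset.mem_insert,
        Finset.mem_singleton]
      refine ⟨hHF hg.1, ?_⟩
      rintro (h | h | h | h)
      · exact hg.2 (Or.inl h)
      · exact hg.2 (Or.inr h)
      · exact hcH (h ▸ hg.1)
      · exact hdH (h ▸ hg.1)
    · rw [Finset.card_sdiff_of_subset hab', Finset.card_pair hab, hc1]
      omega
    · intro g hg
      rw [Finset.mem_sdiff, Finset.mem_insert, Finset.mem_singleton] at hg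
      rw [Finset.mem_erase]
      exact ⟨fun h => hg.2 (Or.inl h), hg.1⟩
    · apply (hH2.forest_erase (Finset.mem_sdiff.2 ⟨hc.1, hcH⟩)).mono
      intro g hg
      simp only [mem_sdiff, mem_insert, mem_singleton, mem_erase] at hg ⊢
      tauto
    · intro u hu
      have hu' := (Finset.mem_erase.1 hu).1
      have h1 := deg_sdiff (ends := ends) hab' u
      rw [deg_pair hab, hda u hu', hdb u hu', hH1.1 u] at h1
      omega
  · intro T hT
    rw [Finset.mem_filter, Finset.mem_powerset] at hT
    obtain ⟨hTK, hTc, hT1, hT2, hT3⟩ := hT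
    have hTn : ∀ e, e ∈ T → e ≠ a ∧ e ≠ b ∧ e ≠ c ∧ e ≠ d := by
      intro e he
      have := (Finset.mem_sdiff.1 (hTK he)).2
      simp only [mem_insert, mem_singleton] at this
      tauto
    have hdis : Disjoint ({a, b} : Finset E) T := by
      rw [Finset.disjoint_left]
      intro e he heT
      have := hTn e heT
      simp only [mem_insert, mem_singleton] at he
      tauto
    have hins : ({a, b} : Finset E) ∪ T ⊆ F := by
      intro g hg
      rcases Finset.mem_union.1 hg with hg | hg
      · apply hsub
        simp only [mem_insert, mem_singleton] at hg ⊢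
        tauto
      · exact (Finset.mem_sdiff.1 (hTK hg)).1
    have hd1 : ∀ u, deg ends ({a, b} ∪ T) u = 2 := by
      intro u
      rw [deg_union hdis, deg_pair hab]
      by_cases hu : u = v
      · have h0 : deg ends T u = 0 := by
          rw [deg_eq_zero, hu]
          exact fun e he => hKv e (hTK he)
        rw [h0, if_pos (by rw [hu]; exact ha.2), if_pos (by rw [hu]; exact hb.2)]
      · rw [hda u hu, hdb u hu]
        have := hT3 u (Finset.mem_erase.2 ⟨hu, Finset.mem_univ _⟩)
        omega
    have hd2 : ∀ u, deg ends (F \ ({a, b} ∪ T)) u = 2 := by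
      intro u
      have := deg_sdiff (ends := ends) hins u
      rw [hd1 u, h4 u] at this
      omega
    have hcn : c ∉ ({a, b} ∪ T : Finset E) := by
      intro h
      rcases Finset.mem_union.1 h with h | h
      · simp only [mem_insert, mem_singleton] at h
        rcases h with h | h
        · exact hac h.symm
        · exact hbc h.symm
      · exact (hTn c h).2.2.1 rfl
    have hdn : d ∉ ({a, b} ∪ T : Finset E) := by
      intro h
      rcases Finset.mem_union.1 h with h | h
      · simp only [mem_insert, mem_singleton] at h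
        rcases h with h | h
        · exact had h.symm
        · exact hbd h.symm
      · exact (hTn d h).2.2.2 rfl
    rw [Finset.mem_filter, mem_HH]
    refine ⟨⟨hins, ?_, ?_⟩, ?_, ?_, hcn, hdn⟩
    · apply isHam_of_forest_two hd1 (a := a) (b := b) (by simp) v
      · intro e he hve
        rcases Finset.mem_union.1 he with he | he
        · simpa only [mem_insert, mem_singleton] using he
        · exact absurd hve (hKv e (hTK he))
      · rw [Finset.union_sdiff_cancel_left hdis]
        exact hT1
    · apply isHam_of_forest_two hd2 (a := c) (b := d) (Finset.mem_sdiff.2 ⟨hc.1, hcn⟩) v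
      · intro e he hve
        rw [Finset.mem_sdiff] at he
        rcases (hmem e).1 ⟨he.1, hve⟩ with h | h | h | h
        · exfalso; apply he.2; rw [h]; simp
        · exfalso; apply he.2; rw [h]; simp
        · exact Or.inl h
        · exact Or.inr h
      · have : (F \ ({a, b} ∪ T)) \ {c, d} = (F \ {a, b, c, d}) \ T := by
          ext g
          simp only [mem_sdiff, mem_union, mem_insert, mem_singleton]
          tauto
        rw [this]
        exact hT2
    · simp
    · simp

/-- The number of decompositions of a 4-regular set of edges is even. -/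
theorem even_HH (F : Finset E) (hl : ∀ e ∈ F, ¬ (ends e).IsDiag) (h4 : ∀ v, deg ends F v = 4)
    (hn : 3 ≤ Fintype.card V) {e : E} (he : e ∈ F) :
    Even ((HH ends F).filter fun H => e ∈ H).card := by
  classical
  obtain ⟨v, hve⟩ : ∃ v, v ∈ ends e := by
    induction ends e with | h a b => exact ⟨a, by simp⟩
  have h4v := h4 v
  have hev : e ∈ F.filter (fun f => v ∈ ends f) := Finset.mem_filter.2 ⟨he, hve⟩
  have h3 : ((F.filter (fun f => v ∈ ends f)).erase e).card = 3 := by
    rw [Finset.card_erase_of_mem hev]
    unfold deg at h4v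
    omega
  obtain ⟨b, c, d, hbc, hbd, hcd, hbcd⟩ := Finset.card_eq_three.1 h3
  have hb : e ≠ b := by
    intro h
    have : b ∈ (F.filter (fun f => v ∈ ends f)).erase e := by rw [hbcd]; simp
    exact (Finset.mem_erase.1 this).1 h.symm
  have hc : e ≠ c := by
    intro h
    have : c ∈ (F.filter (fun f => v ∈ ends f)).erase e := by rw [hbcd]; simp
    exact (Finset.mem_erase.1 this).1 h.symm
  have hd : e ≠ d := by
    intro h
    have : d ∈ (F.filter (fun f => v ∈ ends f)).erase e := by rw [hbcd]; simp
    exact (Finset.mem_erase.1 this).1 h.symm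
  have hfil : F.filter (fun f => v ∈ ends f) = {e, b, c, d} := by
    rw [← Finset.insert_erase hev, hbcd]
  have e1 := even_pair F hl h4 hn v hfil hb hc hd hbc hbd hcd
  have e2 := even_pair F hl h4 hn v (a := e) (b := c) (c := b) (d := d)
    (by rw [hfil]; ext g; simp only [mem_insert, mem_singleton]; tauto)
    hc hb hd hbc.symm hcd hbd
  have e3 := even_pair F hl h4 hn v (a := e) (b := d) (c := b) (d := c)
    (by rw [hfil]; ext g; simp only [mem_insert, mem_singleton]; tauto)
    hd hb hc hbd.symm hcd.symm hbc
  have hsplit : ((HH ends F).filter fun H => e ∈ H) =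
      ((HH ends F).filter fun H => e ∈ H ∧ b ∈ H ∧ c ∉ H ∧ d ∉ H) ∪
      (((HH ends F).filter fun H => e ∈ H ∧ c ∈ H ∧ b ∉ H ∧ d ∉ H) ∪
      ((HH ends F).filter fun H => e ∈ H ∧ d ∈ H ∧ b ∉ H ∧ c ∉ H)) := by
    ext H
    simp only [mem_union, mem_filter]
    constructor
    · rintro ⟨hH, heH⟩
      have hH' := mem_HH.1 hH
      have hd2 := hH'.2.1.1 v
      have hsum : deg ends H v = 1 + (if b ∈ H then 1 else 0) + (if c ∈ H then 1 else 0) +
          (if d ∈ H then 1 else 0) := by
        have h1 : H.filter (fun f => v ∈ ends f) = ({e, b, c, d} : Finset E).filter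
            (fun f => f ∈ H) := by
          rw [← hfil, Finset.filter_filter]
          ext g
          simp only [mem_filter]
          constructor
          · rintro ⟨h1, h2⟩; exact ⟨hH'.1 h1, h2, h1⟩
          · rintro ⟨h1, h2, h3⟩; exact ⟨h3, h2⟩
        unfold deg
        rw [h1, Finset.card_filter, Finset.sum_insert (by simp [hb, hc, hd]),
          Finset.sum_insert (by simp [hbc, hbd]), Finset.sum_insert (by simp [hcd]),
          Finset.sum_singleton, if_pos heH]
        ring
      rw [hd2] at hsum
      by_cases h1 : b ∈ H <;> by_cases h2 : c ∈ H <;> by_cases h3 : d ∈ H <;>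
        simp [h1, h2, h3] at hsum ⊢ <;> exact ⟨hH, heH⟩
    · rintro (h | h | h)
      · exact ⟨h.1, h.2.1⟩
      · exact ⟨h.1, h.2.1⟩
      · exact ⟨h.1, h.2.1⟩
  rw [hsplit, Finset.card_union_of_disjoint, Finset.card_union_of_disjoint]
  · exact e1.add (e2.add e3)
  · rw [Finset.disjoint_left]
    intro H h1 h2
    rw [Finset.mem_filter] at h1 h2
    exact h2.2.2.2.2 h1.2.2.1
  · rw [Finset.disjoint_left]
    intro H h1 h2
    rw [Finset.mem_union, Finset.mem_filter, Finset.mem_filter] at h2
    rw [Finset.mem_filter] at h1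
    rcases h2 with h2 | h2
    · exact h2.2.2.2.1 h1.2.2.1
    · exact h2.2.2.2.1 h1.2.2.1

end MP_947208_co
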