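import Mathlib
import Pool.Agent.Work.MP_947208_co.Ham

/-! Two and three disjoint Hamiltonian cycles. -/

namespace MP_947208_co

open Finset Function

variable {V E : Type} [Fintype V] [DecidableEq V] [Fintype E] [DecidableEq E]
variable {ends : E → Sym2 V}

theorem deg_four {A B : Finset E} (hA : IsHam ends A) (hB : IsHam ends B) (h : Disjoint A B)
    (v : V) : deg ends (A ∪ B) v = 4 := by
  rw [deg_union h, hA.1 v, hB.1 v]

theorem mem_HH_union {A B : Finset E} (hA : IsHam ends A) (hB : IsHam ends B)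
    (h : Disjoint A B) : A ∈ HH ends (A ∪ B) := by
  rw [mem_HH]
  refine ⟨Finset.subset_union_left, hA, ?_⟩
  rw [Finset.union_sdiff_cancel_left h]
  exact hB

theorem mem_HH_union' {A B : Finset E} (hA : IsHam ends A) (hB : IsHam ends B)
    (h : Disjoint A B) : B ∈ HH ends (A ∪ B) := by
  rw [mem_HH]
  refine ⟨Finset.subset_union_right, hB, ?_⟩
  rw [Finset.union_sdiff_cancel_right h]
  exact hA

theorem deg_of_HH {F A : Finset E} (h : A ∈ HH ends F) (v : V) : deg ends F v = 4 := by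
  rw [mem_HH] at h
  have := deg_sdiff (ends := ends) h.1 v
  rw [h.2.1.1 v, h.2.2.1 v] at this
  omega

theorem IsHam.nonempty [Nonempty V] {C : Finset E} (h : IsHam ends C) : C.Nonempty := by
  obtain ⟨v⟩ := ‹Nonempty V›
  have := h.1 v
  rw [Finset.nonempty_iff_ne_empty]
  rintro rfl
  simp [deg] at this

theorem ham_eq {A B : Finset E} (hA : IsHam ends A) (hB : IsHam ends B)
    (hlA : ∀ e ∈ A, ¬ (ends e).IsDiag) (hlB : ∀ e ∈ B, ¬ (ends e).IsDiag) (h : A ⊆ B) : A = B :=
  Finset.eq_of_subset_of_card_le h (by rw [hA.card hlA, hB.card hlB])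

/-- The number of decompositions with `f` outside the cycle through `e` is even, for all `f`. -/
theorem even_out (F : Finset E) (hl : ∀ e ∈ F, ¬ (ends e).IsDiag) (h4 : ∀ v, deg ends F v = 4)
    (hn : 3 ≤ Fintype.card V) {e f : E} (he : e ∈ F) (hf : f ∈ F) :
    Even (((HH ends F).filter fun H => e ∈ H).filter fun H => f ∉ H).card := by
  classical
  rw [Finset.filter_filter]
  by_cases hef : e = f
  · subst hef
    have : ((HH ends F).filter fun H => e ∈ H ∧ e ∉ H) = ∅ := by
      rw [Finset.filter_eq_empty_iff]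
      rintro H _ ⟨h1, h2⟩
      exact h2 h1
    rw [this]
    exact Even.zero
  · exact even_diff F hl h4 (by omega) he hf hef

theorem four_le (F : Finset E) (hl : ∀ e ∈ F, ¬ (ends e).IsDiag)
    (hn : 3 ≤ Fintype.card V) {A : Finset E} (hA : A ∈ HH ends F) {e : E} (he : e ∈ F) :
    4 ≤ ((HH ends F).filter fun H => e ∈ H).card := by
  classical
  have h4 := deg_of_HH hA
  have hev := even_HH F hl h4 hn he
  have hA' := mem_HH.1 hA
  have hne : ((HH ends F).filter fun H => e ∈ H).Nonempty := by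
    by_cases h : e ∈ A
    · exact ⟨A, Finset.mem_filter.2 ⟨hA, h⟩⟩
    · exact ⟨F \ A, Finset.mem_filter.2 ⟨HH_compl hA, Finset.mem_sdiff.2 ⟨he, h⟩⟩⟩
  have hpos := Finset.card_pos.2 hne
  have h2 : ((HH ends F).filter fun H => e ∈ H).card ≠ 2 := by
    intro h
    obtain ⟨X, Y, hXY, hXY'⟩ := Finset.card_eq_two.1 h
    have hX : X ∈ (HH ends F).filter fun H => e ∈ H := by rw [hXY']; simp
    have hY : Y ∈ (HH ends F).filter fun H => e ∈ H := by rw [hXY']; simp
    have hXF := (mem_HH.1 (Finset.mem_filter.1 hX).1).1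
    have hYF := (mem_HH.1 (Finset.mem_filter.1 hY).1).1
    apply hXY
    ext f
    by_cases hf : f ∈ F
    · have h1 := even_out F hl h4 hn he hf
      rw [hXY', Finset.filter_insert, Finset.filter_singleton] at h1
      by_cases hfX : f ∈ X <;> by_cases hfY : f ∈ Y
      · exact ⟨fun _ => hfY, fun _ => hfX⟩
      · simp only [hfX, hfY, not_true_eq_false, not_false_eq_true, if_true, if_false] at h1
        simp at h1
      · simp only [hfX, hfY, not_true_eq_false, not_false_eq_true, if_true, if_false] at h1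
        simp at h1
      · exact ⟨fun h => absurd h hfX, fun h => absurd h hfY⟩
    · exact ⟨fun h => absurd (hXF h) hf, fun h => absurd (hYF h) hf⟩
  obtain ⟨k, hk⟩ := hev
  omega

theorem card_HH (F : Finset E) {e : E} (he : e ∈ F) :
    (HH ends F).card = 2 * ((HH ends F).filter fun H => e ∈ H).card := by
  classical
  have h1 : ((HH ends F).filter fun H => e ∈ H).card =
      ((HH ends F).filter fun H => ¬ e ∈ H).card := by
    apply Finset.card_bij' (fun H _ => F \ H) (fun H _ => F \ H)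
    · intro H hH
      rw [Finset.mem_filter] at hH ⊢
      refine ⟨HH_compl hH.1, ?_⟩
      intro h
      exact (Finset.mem_sdiff.1 h).2 hH.2
    · intro H hH
      rw [Finset.mem_filter] at hH ⊢
      exact ⟨HH_compl hH.1, Finset.mem_sdiff.2 ⟨he, hH.2⟩⟩
    · intro H hH
      exact Finset.sdiff_sdiff_eq_self (mem_HH.1 (Finset.mem_filter.1 hH).1).1
    · intro H hH
      exact Finset.sdiff_sdiff_eq_self (mem_HH.1 (Finset.mem_filter.1 hH).1).1
  have h2 := Finset.card_filter_add_card_filter_not (s := HH ends F) (fun H => e ∈ H)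
  omega

open Classical in
/-- The cycles `U ≠ A` of decompositions of `F` which meet both parts `a`, `b` of `A`. -/
noncomputable def UU (ends : E → Sym2 V) (F A a b : Finset E) : Finset (Finset E) :=
  (HH ends F).filter fun U => U ≠ A ∧ (U ∩ a).Nonempty ∧ (U ∩ b).Nonempty

theorem mem_UU {F A a b U : Finset E} : U ∈ UU ends F A a b ↔
    U ∈ HH ends F ∧ U ≠ A ∧ (U ∩ a).Nonempty ∧ (U ∩ b).Nonempty := by
  classical
  unfold UU
  rw [Finset.mem_filter]

theorem uu_spec (F : Finset E) (hl : ∀ e ∈ F, ¬ (ends e).IsDiag)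
    (hn : 3 ≤ Fintype.card V) {A a b : Finset E} (hA : A ∈ HH ends F) (hab : a ∪ b = A)
    (hd : Disjoint a b) (ha : a.Nonempty) (hb : b.Nonempty) :
    2 ≤ (UU ends F A a b).card ∧ ((UU ends F A a b).card = 2 →
      ∀ U ∈ UU ends F A a b, ∀ U' ∈ UU ends F A a b, U ≠ U' →
        A ⊆ U ∪ U' ∧ (U ∩ U' ∩ A).Nonempty) := by
  classical
  have h4 := deg_of_HH hA
  have hA' := mem_HH.1 hA
  obtain ⟨e, hea⟩ := ha
  obtain ⟨f₀, hf₀⟩ := hb
  have haA : a ⊆ A := hab ▸ Finset.subset_union_left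
  have hbA : b ⊆ A := hab ▸ Finset.subset_union_right
  have heA : e ∈ A := haA hea
  have heF : e ∈ F := hA'.1 heA
  set X := (HH ends F).filter fun H => e ∈ H with hX
  have hXeven : Even X.card := even_HH F hl h4 hn heF
  have hXout : ∀ f ∈ F, Even (X.filter fun H => f ∉ H).card := fun f hf =>
    even_out F hl h4 hn heF hf
  set T := X.filter fun H => H ∩ A = a with hT
  set Γ := X.filter fun H => H ≠ A ∧ H ∩ A ≠ a with hΓ
  have hAX : A ∈ X := Finset.mem_filter.2 ⟨hA, heA⟩
  have hane : a ≠ A := by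
    intro h
    rw [Finset.disjoint_left] at hd
    exact hd (h ▸ hbA hf₀) hf₀
  have hTm : ∀ H, H ∈ T ↔ H ∈ X ∧ H ∩ A = a := fun H => Finset.mem_filter
  have hΓm : ∀ H, H ∈ Γ ↔ H ∈ X ∧ H ≠ A ∧ H ∩ A ≠ a := fun H => Finset.mem_filter
  have hsplit : X = insert A (T ∪ Γ) := by
    ext H
    rw [Finset.mem_insert, Finset.mem_union, hTm, hΓm]
    constructor
    · intro hH
      by_cases h1 : H = A
      · exact Or.inl h1
      · by_cases h2 : H ∩ A = a
        · exact Or.inr (Or.inl ⟨hH, h2⟩)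
        · exact Or.inr (Or.inr ⟨hH, h1, h2⟩)
    · rintro (rfl | h | h)
      · exact hAX
      · exact h.1
      · exact h.1
  have hAn : A ∉ T ∪ Γ := by
    rw [Finset.mem_union, hTm, hΓm, Finset.inter_self]
    rintro (h | h)
    · exact hane h.2.symm
    · exact h.2.1 rfl
  have hTΓ : Disjoint T Γ := by
    rw [Finset.disjoint_left]
    intro H h1 h2
    exact (Finset.mem_filter.1 h2).2.2 (Finset.mem_filter.1 h1).2
  have hXcard : X.card = 1 + T.card + Γ.card := by
    rw [hsplit, Finset.card_insert_of_notMem hAn, Finset.card_union_of_disjoint hTΓ]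
    ring
  -- the two parity conditions
  have hb' : ∀ f ∈ b, Even (T.card + (Γ.filter fun H => f ∉ H).card) := by
    intro f hf
    have h1 := hXout f (hA'.1 (hbA hf))
    have h2 : (X.filter fun H => f ∉ H) = T ∪ Γ.filter fun H => f ∉ H := by
      rw [hsplit, Finset.filter_insert, if_neg (by rw [not_not]; exact hbA hf),
        Finset.filter_union]
      congr 1
      apply Finset.filter_true_of_mem
      intro H hH hfH
      have h3 := (Finset.mem_filter.1 hH).2
      have h4 : f ∈ a := by rw [← h3]; exact Finset.mem_inter.2 ⟨hfH, hbA hf⟩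
      exact (Finset.disjoint_left.1 hd) h4 hf
    rw [h2, Finset.card_union_of_disjoint] at h1
    · exact h1
    · exact hTΓ.mono_right (Finset.filter_subset _ _)
  have ha' : ∀ f ∈ a, Even (Γ.filter fun H => f ∉ H).card := by
    intro f hf
    have h1 := hXout f (hA'.1 (haA hf))
    have h2 : (X.filter fun H => f ∉ H) = Γ.filter fun H => f ∉ H := by
      rw [hsplit, Finset.filter_insert, if_neg (by rw [not_not]; exact haA hf),
        Finset.filter_union]
      have : (T.filter fun H => f ∉ H) = ∅ := by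
        rw [Finset.filter_eq_empty_iff]
        intro H hH
        rw [not_not]
        have h3 := (Finset.mem_filter.1 hH).2
        rw [← h3] at hf
        exact (Finset.mem_inter.1 hf).1
      rw [this, Finset.empty_union]
    rwa [h2] at h1
  have hΓe : ∀ G ∈ Γ, G ∈ HH ends F ∧ e ∈ G ∧ G ≠ A ∧ G ∩ A ≠ a := by
    intro G hG
    rw [hΓ, Finset.mem_filter, hX, Finset.mem_filter] at hG
    exact ⟨hG.1.1, hG.1.2, hG.2.1, hG.2.2⟩
  -- each member of `Γ` or its complement is in `UU`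
  have hor : ∀ G ∈ Γ, G ∉ UU ends F A a b → (∀ f ∈ b, f ∉ G) ∧ F \ G ∈ UU ends F A a b := by
    intro G hG hGU
    obtain ⟨h1, h2, h3, h5⟩ := hΓe G hG
    have h6 : ∀ f ∈ b, f ∉ G := by
      intro f hf hfG
      apply hGU
      rw [mem_UU]
      exact ⟨h1, h3, ⟨e, Finset.mem_inter.2 ⟨h2, hea⟩⟩, ⟨f, Finset.mem_inter.2 ⟨hfG, hf⟩⟩⟩
    refine ⟨h6, ?_⟩
    rw [mem_UU]
    refine ⟨HH_compl h1, ?_, ?_, ?_⟩
    · intro h
      rw [← h] at heA
      exact (Finset.mem_sdiff.1 heA).2 h2
    · by_contra hcon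
      apply h5
      rw [Finset.not_nonempty_iff_eq_empty, Finset.eq_empty_iff_forall_notMem] at hcon
      ext f
      rw [Finset.mem_inter]
      constructor
      · rintro ⟨h7, h8⟩
        rw [← hab, Finset.mem_union] at h8
        rcases h8 with h8 | h8
        · exact h8
        · exact absurd h7 (h6 f h8)
      · intro hf
        refine ⟨?_, haA hf⟩
        by_contra hfG
        exact hcon f (Finset.mem_inter.2 ⟨Finset.mem_sdiff.2 ⟨hA'.1 (haA hf), hfG⟩, hf⟩)
    · exact ⟨f₀, Finset.mem_inter.2 ⟨Finset.mem_sdiff.2 ⟨hA'.1 (hbA hf₀), h6 f₀ hf₀⟩, hf₀⟩⟩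
  set g : Finset E → Finset E := fun G => if G ∈ UU ends F A a b then G else F \ G with hg
  have hgU : ∀ G ∈ Γ, g G ∈ UU ends F A a b := by
    intro G hG
    by_cases h : G ∈ UU ends F A a b
    · simp only [hg, if_pos h]
      exact h
    · simp only [hg, if_neg h]
      exact (hor G hG h).2
  have hginj : Set.InjOn g (Γ : Set (Finset E)) := by
    intro G hG G' hG' h
    have h1 := hΓe G hG
    have h2 := hΓe G' hG'
    simp only [hg] at h
    by_cases h3 : G ∈ UU ends F A a b <;> by_cases h5 : G' ∈ UU ends F A a b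
    · simpa only [if_pos h3, if_pos h5] using h
    · simp only [if_pos h3, if_neg h5] at h
      have : e ∈ F \ G' := h ▸ h1.2.1
      exact absurd h2.2.1 (Finset.mem_sdiff.1 this).2
    · simp only [if_neg h3, if_pos h5] at h
      have : e ∈ F \ G := h.symm ▸ h2.2.1
      exact absurd h1.2.1 (Finset.mem_sdiff.1 this).2
    · simp only [if_neg h3, if_neg h5] at h
      rw [← Finset.sdiff_sdiff_eq_self (mem_HH.1 h1.1).1, h,
        Finset.sdiff_sdiff_eq_self (mem_HH.1 h2.1).1]
  have hle : Γ.card ≤ (UU ends F A a b).card := Finset.card_le_card_of_injOn g hgU hginj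
  have hΓ2 : 2 ≤ Γ.card := by
    by_contra hcon
    have hcases : Γ.card = 0 ∨ Γ.card = 1 := by omega
    rcases hcases with h0 | h1
    · have h2 := hb' f₀ hf₀
      rw [Finset.card_eq_zero.1 h0, Finset.filter_empty, Finset.card_empty] at h2
      obtain ⟨i, hi⟩ := h2
      obtain ⟨j, hj⟩ := hXeven
      omega
    · obtain ⟨G, hG⟩ := Finset.card_eq_one.1 h1
      have hTe : Even T.card := by
        obtain ⟨j, hj⟩ := hXeven
        exact ⟨j - 1, by omega⟩
      have hG' := hΓe G (by rw [hG]; simp)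
      have hAG : A ⊆ G := by
        intro f hf
        by_contra hfG
        have h3 : (Γ.filter fun H => f ∉ H).card = 1 := by
          rw [hG, Finset.filter_singleton, if_pos hfG, Finset.card_singleton]
        rw [← hab, Finset.mem_union] at hf
        rcases hf with hf | hf
        · have := ha' f hf
          rw [h3] at this
          exact absurd this (by decide)
        · have := hb' f hf
          rw [h3, Nat.even_add] at this
          exact absurd (this.1 hTe) (by decide)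
      apply hG'.2.2.1
      symm
      have hGm := mem_HH.1 hG'.1
      exact ham_eq hA'.2.1 hGm.2.1 (fun e he => hl e (hA'.1 he)) (fun e he => hl e (hGm.1 he)) hAG
  refine ⟨hΓ2.trans hle, ?_⟩
  intro hU2
  have hΓc : Γ.card = 2 := by omega
  obtain ⟨G₁, G₂, hG12, hGG⟩ := Finset.card_eq_two.1 hΓc
  have hG1 : G₁ ∈ Γ := by rw [hGG]; simp
  have hG2 : G₂ ∈ Γ := by rw [hGG]; simp
  have hTodd : ¬ Even T.card := by
    intro h
    obtain ⟨i, hi⟩ := h
    obtain ⟨j, hj⟩ := hXeven
    omega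
  have hcb : ∀ f ∈ b, (f ∈ G₁ ↔ f ∉ G₂) := by
    intro f hf
    have h1 := hb' f hf
    rw [Nat.even_add, hGG, Finset.filter_insert, Finset.filter_singleton] at h1
    by_cases h2 : f ∈ G₁ <;> by_cases h3 : f ∈ G₂
    · simp only [h2, h3, not_true_eq_false, if_false] at h1
      exact absurd (h1.2 (by simp)) hTodd
    · exact ⟨fun _ => h3, fun _ => h2⟩
    · exact ⟨fun h => absurd h h2, fun h => absurd h3 h⟩
    · simp only [h2, h3, not_false_eq_true, if_true] at h1
      rw [Finset.card_pair hG12] at h1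
      exact absurd (h1.2 (by decide)) hTodd
  have hca : ∀ f ∈ a, (f ∈ G₁ ↔ f ∈ G₂) := by
    intro f hf
    have h1 := ha' f hf
    rw [hGG, Finset.filter_insert, Finset.filter_singleton] at h1
    by_cases h2 : f ∈ G₁ <;> by_cases h3 : f ∈ G₂
    · exact ⟨fun _ => h3, fun _ => h2⟩
    · simp only [h2, h3, not_true_eq_false, not_false_eq_true, if_true, if_false] at h1
      simp at h1
    · simp only [h2, h3, not_true_eq_false, not_false_eq_true, if_true, if_false] at h1
      simp at h1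
    · exact ⟨fun h => absurd h h2, fun h => absurd h h3⟩
  have hgne : g G₁ ≠ g G₂ := fun h => hG12 (hginj hG1 hG2 h)
  have hUeq : UU ends F A a b = {g G₁, g G₂} := by
    symm
    apply Finset.eq_of_subset_of_card_le
    · intro U hU
      rcases Finset.mem_insert.1 hU with rfl | hU
      · exact hgU G₁ hG1
      · rw [Finset.mem_singleton] at hU
        rw [hU]; exact hgU G₂ hG2
    · rw [hU2, Finset.card_pair hgne]
  have key : A ⊆ g G₁ ∪ g G₂ ∧ (g G₁ ∩ g G₂ ∩ A).Nonempty := by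
    by_cases h1 : G₁ ∈ UU ends F A a b
    · by_cases h2 : G₂ ∈ UU ends F A a b
      · simp only [hg, if_pos h1, if_pos h2]
        have h3 : F \ G₁ ∉ UU ends F A a b := by
          intro h
          rw [hUeq] at h
          simp only [hg, if_pos h1, if_pos h2] at h
          rw [Finset.mem_insert, Finset.mem_singleton] at h
          have he1 := (hΓe G₁ hG1).2.1
          have he2 := (hΓe G₂ hG2).2.1
          rcases h with h | h
          · rw [← h] at he1
            exact (Finset.mem_sdiff.1 he1).2 (hΓe G₁ hG1).2.1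
          · rw [← h] at he2
            exact (Finset.mem_sdiff.1 he2).2 (hΓe G₁ hG1).2.1
        have h5 : ∀ f ∈ a, f ∈ G₁ := by
          by_contra hcon
          push Not at hcon
          obtain ⟨f, hf, hfG⟩ := hcon
          obtain ⟨f', hf'⟩ := (mem_UU.1 h2).2.2.2
          rw [Finset.mem_inter] at hf'
          have hf'1 : f' ∉ G₁ := fun h => (hcb f' hf'.2).1 h hf'.1
          apply h3
          rw [mem_UU]
          refine ⟨HH_compl (hΓe G₁ hG1).1, ?_, ?_, ?_⟩
          · intro h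
            rw [← h] at heA
            exact (Finset.mem_sdiff.1 heA).2 (hΓe G₁ hG1).2.1
          · exact ⟨f, Finset.mem_inter.2 ⟨Finset.mem_sdiff.2 ⟨hA'.1 (haA hf), hfG⟩, hf⟩⟩
          · exact ⟨f', Finset.mem_inter.2
              ⟨Finset.mem_sdiff.2 ⟨hA'.1 (hbA hf'.2), hf'1⟩, hf'.2⟩⟩
        refine ⟨?_, e, ?_⟩
        · intro f hf
          rw [Finset.mem_union]
          rw [← hab, Finset.mem_union] at hf
          rcases hf with hf | hf
          · exact Or.inl (h5 f hf)
          · by_cases h6 : f ∈ G₁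
            · exact Or.inl h6
            · right
              by_contra h7
              exact h6 ((hcb f hf).2 h7)
        · rw [Finset.mem_inter, Finset.mem_inter]
          exact ⟨⟨(hΓe G₁ hG1).2.1, (hΓe G₂ hG2).2.1⟩, heA⟩
      · simp only [hg, if_pos h1, if_neg h2]
        have h3 := (hor G₂ hG2 h2).1
        refine ⟨?_, f₀, ?_⟩
        · intro f hf
          rw [Finset.mem_union, Finset.mem_sdiff]
          have hfF := hA'.1 hf
          rw [← hab, Finset.mem_union] at hf
          rcases hf with hf | hf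
          · by_cases h6 : f ∈ G₁
            · exact Or.inl h6
            · exact Or.inr ⟨hfF, fun h => h6 ((hca f hf).2 h)⟩
          · exact Or.inr ⟨hfF, h3 f hf⟩
        · rw [Finset.mem_inter, Finset.mem_inter, Finset.mem_sdiff]
          exact ⟨⟨(hcb f₀ hf₀).2 (h3 f₀ hf₀), hA'.1 (hbA hf₀), h3 f₀ hf₀⟩, hbA hf₀⟩
    · have h3 := (hor G₁ hG1 h1).1
      have h2 : G₂ ∈ UU ends F A a b := by
        rw [mem_UU]
        refine ⟨(hΓe G₂ hG2).1, (hΓe G₂ hG2).2.2.1, ⟨e, Finset.mem_inter.2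
          ⟨(hΓe G₂ hG2).2.1, hea⟩⟩, ⟨f₀, Finset.mem_inter.2 ⟨?_, hf₀⟩⟩⟩
        by_contra h
        exact h3 f₀ hf₀ ((hcb f₀ hf₀).2 h)
      simp only [hg, if_neg h1, if_pos h2]
      refine ⟨?_, f₀, ?_⟩
      · intro f hf
        rw [Finset.mem_union, Finset.mem_sdiff]
        have hfF := hA'.1 hf
        rw [← hab, Finset.mem_union] at hf
        rcases hf with hf | hf
        · by_cases h6 : f ∈ G₁
          · exact Or.inr ((hca f hf).1 h6)
          · exact Or.inl ⟨hfF, h6⟩
        · exact Or.inl ⟨hfF, h3 f hf⟩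
      · rw [Finset.mem_inter, Finset.mem_inter, Finset.mem_sdiff]
        refine ⟨⟨⟨hA'.1 (hbA hf₀), h3 f₀ hf₀⟩, ?_⟩, hbA hf₀⟩
        by_contra h
        exact h3 f₀ hf₀ ((hcb f₀ hf₀).2 h)
  intro U hU U' hU' hne
  rw [hUeq, Finset.mem_insert, Finset.mem_singleton] at hU hU'
  rcases hU with rfl | rfl <;> rcases hU' with rfl | rfl
  · exact absurd rfl hne
  · exact key
  · rw [Finset.union_comm, Finset.inter_comm (g G₂)]
    exact key
  · exact absurd rfl hne

/-- Two disjoint Hamiltonian cycles: six further ones in their union. -/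
theorem exists_six_pair {A B : Finset E} (hA : IsHam ends A) (hB : IsHam ends B)
    (hd : Disjoint A B) (hl : ∀ e ∈ A ∪ B, ¬ (ends e).IsDiag) (hn : 3 ≤ Fintype.card V) :
    6 ≤ ((HH ends (A ∪ B)).filter fun U => U ≠ A ∧ U ≠ B).card := by
  classical
  haveI : Nonempty V := Fintype.card_pos_iff.1 (by omega)
  obtain ⟨e, he⟩ := hA.nonempty
  have heF : e ∈ A ∪ B := Finset.mem_union_left _ he
  have h1 := four_le (A ∪ B) hl hn (mem_HH_union hA hB hd) heF
  have h2 := card_HH (ends := ends) (A ∪ B) heF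
  have h3 : (HH ends (A ∪ B)) ⊆
      insert A (insert B ((HH ends (A ∪ B)).filter fun U => U ≠ A ∧ U ≠ B)) := by
    intro U hU
    rw [Finset.mem_insert, Finset.mem_insert, Finset.mem_filter]
    by_cases h4 : U = A
    · exact Or.inl h4
    · by_cases h5 : U = B
      · exact Or.inr (Or.inl h5)
      · exact Or.inr (Or.inr ⟨hU, h4, h5⟩)
  have h4 := Finset.card_le_card h3
  have h5 := Finset.card_insert_le A
    (insert B ((HH ends (A ∪ B)).filter fun U => U ≠ A ∧ U ≠ B))
  have h6 := Finset.card_insert_le B ((HH ends (A ∪ B)).filter fun U => U ≠ A ∧ U ≠ B)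
  omega

/-- A Hamiltonian cycle in `A ∪ B` other than `A`, `B` meets both. -/
theorem meets {A B U : Finset E} (hA : IsHam ends A) (hB : IsHam ends B)
    (hl : ∀ e ∈ A ∪ B, ¬ (ends e).IsDiag) (hU : U ∈ HH ends (A ∪ B)) (h1 : U ≠ A) (h2 : U ≠ B) :
    (U ∩ A).Nonempty ∧ (U ∩ B).Nonempty := by
  classical
  have hU' := mem_HH.1 hU
  have hlU : ∀ e ∈ U, ¬ (ends e).IsDiag := fun e he => hl e (hU'.1 he)
  constructor
  · rw [Finset.nonempty_iff_ne_empty]
    intro h
    apply h2
    apply ham_eq hU'.2.1 hB hlU (fun e he => hl e (Finset.mem_union_right _ he))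
    intro e he
    rcases Finset.mem_union.1 (hU'.1 he) with h3 | h3
    · exfalso
      have : e ∈ U ∩ A := Finset.mem_inter.2 ⟨he, h3⟩
      rw [h] at this
      exact Finset.notMem_empty e this
    · exact h3
  · rw [Finset.nonempty_iff_ne_empty]
    intro h
    apply h1
    apply ham_eq hU'.2.1 hA hlU (fun e he => hl e (Finset.mem_union_left _ he))
    intro e he
    rcases Finset.mem_union.1 (hU'.1 he) with h3 | h3
    · exact h3
    · exfalso
      have : e ∈ U ∩ B := Finset.mem_inter.2 ⟨he, h3⟩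
      rw [h] at this
      exact Finset.notMem_empty e this

/-- Three disjoint Hamiltonian cycles: at least six extendable Hamiltonian cycles meet all of
them. -/
theorem exists_six {H₁ H₂ H₃ : Finset E} (h1 : IsHam ends H₁) (h2 : IsHam ends H₂)
    (h3 : IsHam ends H₃) (h12 : Disjoint H₁ H₂) (h13 : Disjoint H₁ H₃) (h23 : Disjoint H₂ H₃)
    (hl : ∀ e ∈ H₁ ∪ H₂ ∪ H₃, ¬ (ends e).IsDiag) (hn : 3 ≤ Fintype.card V) :
    ∃ M : Finset (Finset E), 6 ≤ M.card ∧ ∀ U ∈ M, (U ∩ H₁).Nonempty ∧ (U ∩ H₂).Nonempty ∧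
      (U ∩ H₃).Nonempty ∧ U ⊆ H₁ ∪ H₂ ∪ H₃ ∧ IsHam ends U ∧
      ∃ B C : Finset E, IsHam ends B ∧ IsHam ends C ∧ Disjoint B C ∧
        B ∪ C = (H₁ ∪ H₂ ∪ H₃) \ U := by
  classical
  set F := H₁ ∪ H₂ with hF
  have hlF : ∀ e ∈ F, ¬ (ends e).IsDiag := fun e he => hl e (Finset.mem_union_left _ he)
  have hl3 : ∀ e ∈ H₃, ¬ (ends e).IsDiag := fun e he => hl e (Finset.mem_union_right _ he)
  have hF3 : Disjoint F H₃ := Finset.disjoint_union_left.2 ⟨h13, h23⟩
  set 𝓐 := (HH ends F).filter fun U => U ≠ H₁ ∧ U ≠ H₂ with h𝓐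
  have hA6 : 6 ≤ 𝓐.card := exists_six_pair h1 h2 h12 hlF hn
  have hAm : ∀ A ∈ 𝓐, A ∈ HH ends F ∧ (A ∩ H₁).Nonempty ∧ (A ∩ H₂).Nonempty := by
    intro A hA
    rw [h𝓐, Finset.mem_filter] at hA
    exact ⟨hA.1, meets h1 h2 hlF hA.1 hA.2.1 hA.2.2⟩
  have hAc : ∀ A ∈ 𝓐, F \ A ∈ 𝓐 := by
    intro A hA
    have hA1 := hAm A hA
    have hA2 := mem_HH.1 hA1.1
    rw [h𝓐, Finset.mem_filter]
    refine ⟨HH_compl hA1.1, ?_, ?_⟩
    · intro h
      obtain ⟨e, he⟩ := hA1.2.1
      rw [Finset.mem_inter] at he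
      have : e ∈ F \ A := h ▸ he.2
      exact (Finset.mem_sdiff.1 this).2 he.1
    · intro h
      obtain ⟨e, he⟩ := hA1.2.2
      rw [Finset.mem_inter] at he
      have : e ∈ F \ A := h ▸ he.2
      exact (Finset.mem_sdiff.1 this).2 he.1
  -- the cycles belonging to `A`
  set 𝓤 : Finset E → Finset (Finset E) :=
    fun A => UU ends (A ∪ H₃) A (A ∩ H₁) (A ∩ H₂) with h𝓤
  have hdA : ∀ A ∈ 𝓐, Disjoint A H₃ := fun A hA =>
    hF3.mono_left (mem_HH.1 (hAm A hA).1).1
  have hspec : ∀ A ∈ 𝓐, 2 ≤ (𝓤 A).card ∧ ((𝓤 A).card = 2 →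
      ∀ U ∈ 𝓤 A, ∀ U' ∈ 𝓤 A, U ≠ U' → A ⊆ U ∪ U' ∧ (U ∩ U' ∩ A).Nonempty) := by
    intro A hA
    have hA1 := hAm A hA
    have hA2 := mem_HH.1 hA1.1
    apply uu_spec (A ∪ H₃)
    · intro e he
      rcases Finset.mem_union.1 he with he | he
      · exact hlF e (hA2.1 he)
      · exact hl3 e he
    · exact hn
    · exact mem_HH_union hA2.2.1 h3 (hdA A hA)
    · rw [← Finset.inter_union_distrib_left]
      exact Finset.inter_eq_left.2 hA2.1
    · exact h12.mono Finset.inter_subset_right Finset.inter_subset_right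
    · exact hA1.2.1
    · exact hA1.2.2
  have hUin : ∀ A ∈ 𝓐, ∀ U ∈ 𝓤 A, U ∩ F ⊆ A := by
    intro A hA U hU e he
    rw [Finset.mem_inter] at he
    have hU1 := (mem_HH.1 (mem_UU.1 hU).1).1 he.1
    rcases Finset.mem_union.1 hU1 with h | h
    · exact h
    · exact absurd h (Finset.disjoint_left.1 hF3 he.2)
  have hUne : ∀ A ∈ 𝓐, ∀ U ∈ 𝓤 A, (U ∩ F).Nonempty := by
    intro A hA U hU
    obtain ⟨e, he⟩ := (mem_UU.1 hU).2.2.1
    rw [Finset.mem_inter, Finset.mem_inter] at he
    exact ⟨e, Finset.mem_inter.2 ⟨he.1, Finset.mem_union_left _ he.2.2⟩⟩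
  have hdisj : ∀ A ∈ 𝓐, ∀ U ∈ 𝓤 A, ∀ W ∈ 𝓤 (F \ A), ¬ (U ∩ W ∩ F).Nonempty := by
    rintro A hA U hU W hW ⟨e, he⟩
    rw [Finset.mem_inter, Finset.mem_inter] at he
    have he1 := hUin A hA U hU (Finset.mem_inter.2 ⟨he.1.1, he.2⟩)
    have he2 := hUin _ (hAc A hA) W hW (Finset.mem_inter.2 ⟨he.1.2, he.2⟩)
    exact (Finset.mem_sdiff.1 he2).2 he1
  have hdisj' : ∀ A ∈ 𝓐, Disjoint (𝓤 A) (𝓤 (F \ A)) := by
    intro A hA
    rw [Finset.disjoint_left]
    intro U hU hU'
    apply hdisj A hA U hU U hU'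
    rw [Finset.inter_self]
    exact hUne A hA U hU
  refine ⟨𝓐.biUnion 𝓤, ?_, ?_⟩
  · by_contra hcon
    set 𝓜 := 𝓐.biUnion 𝓤 with h𝓜
    have hM5 : 𝓜.card ≤ 5 := by omega
    have hsub : ∀ A ∈ 𝓐, 𝓤 A ⊆ 𝓜 := fun A hA => Finset.subset_biUnion_of_mem 𝓤 hA
    set 𝓐₁ := 𝓐.filter fun A => (𝓤 A).card = 2 with h𝓐₁
    have hA1m : ∀ A, A ∈ 𝓐₁ ↔ A ∈ 𝓐 ∧ (𝓤 A).card = 2 := fun A => Finset.mem_filter
    -- a tight `A` is determined by its two cycles
    have hdet : ∀ A ∈ 𝓐₁, ∀ U ∈ 𝓤 A, ∀ U' ∈ 𝓤 A, U ≠ U' → A = (U ∪ U') ∩ F := by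
      intro A hA U hU U' hU' hne
      rw [hA1m] at hA
      have hA2 := mem_HH.1 (hAm A hA.1).1
      have h := ((hspec A hA.1).2 hA.2 U hU U' hU' hne).1
      apply Finset.Subset.antisymm
      · intro e he
        exact Finset.mem_inter.2 ⟨h he, hA2.1 he⟩
      · intro e he
        rw [Finset.mem_inter, Finset.mem_union] at he
        rcases he.1 with he' | he'
        · exact hUin A hA.1 U hU (Finset.mem_inter.2 ⟨he', he.2⟩)
        · exact hUin A hA.1 U' hU' (Finset.mem_inter.2 ⟨he', he.2⟩)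
    have hdet' : ∀ A ∈ 𝓐₁, ∀ A' ∈ 𝓐₁, 𝓤 A = 𝓤 A' → A = A' := by
      intro A hA A' hA' h
      obtain ⟨U, U', hne, hU⟩ := Finset.card_eq_two.1 ((hA1m A).1 hA).2
      rw [hdet A hA U (by rw [hU]; simp) U' (by rw [hU]; simp) hne,
        hdet A' hA' U (by rw [← h, hU]; simp) U' (by rw [← h, hU]; simp) hne]
    -- different tight `A` have disjoint sets of cycles
    have hpair : ∀ A ∈ 𝓐₁, ∀ A' ∈ 𝓐₁, A ≠ A' → Disjoint (𝓤 A) (𝓤 A') := by
      intro A hA A' hA' hne
      rw [Finset.disjoint_left]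
      intro U hU hU'
      have hAA := (hA1m A).1 hA
      have hAA' := (hA1m A').1 hA'
      have hex : ∀ A ∈ 𝓐₁, U ∈ 𝓤 A → ∃ W, W ≠ U ∧ 𝓤 A = {U, W} := by
        intro A hA hU
        obtain ⟨X, Y, hXY, hXY'⟩ := Finset.card_eq_two.1 ((hA1m A).1 hA).2
        rw [hXY', Finset.mem_insert, Finset.mem_singleton] at hU
        rcases hU with rfl | rfl
        · exact ⟨Y, hXY.symm, hXY'⟩
        · exact ⟨X, hXY, by rw [hXY', Finset.pair_comm]⟩
      obtain ⟨W, hW, hAW⟩ := hex A hA hU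
      obtain ⟨W', hW', hAW'⟩ := hex A' hA' hU'
      have hWW : W ≠ W' := by
        intro h
        exact hne (hdet' A hA A' hA' (by rw [hAW, hAW', h]))
      have hWm : W ∈ 𝓤 A := by rw [hAW]; simp
      have hWm' : W' ∈ 𝓤 A' := by rw [hAW']; simp
      have hint : (U ∩ W ∩ F).Nonempty := by
        obtain ⟨e, he⟩ := ((hspec A hAA.1).2 hAA.2 U hU W hWm hW.symm).2
        rw [Finset.mem_inter] at he
        exact ⟨e, Finset.mem_inter.2 ⟨he.1, (mem_HH.1 (hAm A hAA.1).1).1 he.2⟩⟩
      have hint' : (U ∩ W' ∩ F).Nonempty := by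
        obtain ⟨e, he⟩ := ((hspec A' hAA'.1).2 hAA'.2 U hU' W' hWm' hW'.symm).2
        rw [Finset.mem_inter] at he
        exact ⟨e, Finset.mem_inter.2 ⟨he.1, (mem_HH.1 (hAm A' hAA'.1).1).1 he.2⟩⟩
      have h3c : ({U, W, W'} : Finset (Finset E)).card = 3 := by
        rw [Finset.card_insert_of_notMem, Finset.card_pair hWW]
        rw [Finset.mem_insert, Finset.mem_singleton]
        rintro (h | h)
        · exact hW h.symm
        · exact hW' h.symm
      have h3s : ({U, W, W'} : Finset (Finset E)) ⊆ 𝓜 := by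
        intro X hX
        rw [Finset.mem_insert, Finset.mem_insert, Finset.mem_singleton] at hX
        rcases hX with rfl | rfl | rfl
        · exact hsub A hAA.1 hU
        · exact hsub A hAA.1 hWm
        · exact hsub A' hAA'.1 hWm'
      have hrest : (𝓜 \ {U, W, W'}).card ≤ 2 := by
        rw [Finset.card_sdiff_of_subset h3s, h3c]
        omega
      have hgen : ∀ A ∈ 𝓐₁, U ∈ 𝓤 A → 𝓤 (F \ A) ⊆ 𝓜 \ {U, W, W'} := by
        intro A hA hU X hX
        have hAA := (hA1m A).1 hA
        rw [Finset.mem_sdiff]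
        refine ⟨hsub _ (hAc A hAA.1) hX, ?_⟩
        rw [Finset.mem_insert, Finset.mem_insert, Finset.mem_singleton]
        rintro (rfl | rfl | rfl)
        · exact Finset.disjoint_left.1 (hdisj' A hAA.1) hU hX
        · exact hdisj A hAA.1 U hU _ hX hint
        · exact hdisj A hAA.1 U hU _ hX hint'
      have hgen2 : ∀ A ∈ 𝓐₁, U ∈ 𝓤 A → 𝓤 (F \ A) = 𝓜 \ {U, W, W'} ∧ F \ A ∈ 𝓐₁ := by
        intro A hA hU
        have hAA := (hA1m A).1 hA
        have h5 := hgen A hA hU
        have h6 := (hspec _ (hAc A hAA.1)).1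
        have h7 := Finset.card_le_card h5
        have h8 : 𝓤 (F \ A) = 𝓜 \ {U, W, W'} :=
          Finset.eq_of_subset_of_card_le h5 (by omega)
        refine ⟨h8, ?_⟩
        rw [hA1m]
        exact ⟨hAc A hAA.1, by omega⟩
      have e1 := hgen2 A hA hU
      have e2 := hgen2 A' hA' hU'
      have e3 := hdet' _ e1.2 _ e2.2 (e1.1.trans e2.1.symm)
      apply hne
      rw [← Finset.sdiff_sdiff_eq_self (mem_HH.1 (hAm A hAA.1).1).1, e3,
        Finset.sdiff_sdiff_eq_self (mem_HH.1 (hAm A' hAA'.1).1).1]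
    -- at least half of the `A` are tight
    have hhalf : 𝓐.card ≤ 2 * 𝓐₁.card := by
      have h5 : 𝓐 ⊆ 𝓐₁ ∪ 𝓐₁.image (fun A => F \ A) := by
        intro A hA
        rw [Finset.mem_union]
        by_cases h : A ∈ 𝓐₁
        · exact Or.inl h
        · right
          rw [Finset.mem_image]
          refine ⟨F \ A, ?_, Finset.sdiff_sdiff_eq_self (mem_HH.1 (hAm A hA).1).1⟩
          rw [hA1m]
          refine ⟨hAc A hA, ?_⟩
          have h6 := (hspec A hA).1
          have h7 : (𝓤 A).card ≠ 2 := fun h8 => h ((hA1m A).2 ⟨hA, h8⟩)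
          have h8 := (hspec _ (hAc A hA)).1
          have h9 : (𝓤 A).card + (𝓤 (F \ A)).card ≤ 𝓜.card := by
            rw [← Finset.card_union_of_disjoint (hdisj' A hA)]
            exact Finset.card_le_card (Finset.union_subset (hsub A hA) (hsub _ (hAc A hA)))
          omega
      have h6 := Finset.card_le_card h5
      have h7 := Finset.card_union_le 𝓐₁ (𝓐₁.image (fun A => F \ A))
      have h8 : (𝓐₁.image (fun A => F \ A)).card ≤ 𝓐₁.card := Finset.card_image_le
      omega
    -- the sets of cycles of the tight `A` are disjoint in `𝓜`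
    have hsum : (𝓐₁.biUnion 𝓤).card = ∑ A ∈ 𝓐₁, (𝓤 A).card :=
      Finset.card_biUnion (fun A hA A' hA' hne => hpair A hA A' hA' hne)
    have h5 : (∑ A ∈ 𝓐₁, (𝓤 A).card) = 2 * 𝓐₁.card := by
      rw [Finset.sum_congr rfl (fun A hA => ((hA1m A).1 hA).2), Finset.sum_const, smul_eq_mul,
        mul_comm]
    have h6 : (𝓐₁.biUnion 𝓤).card ≤ 𝓜.card := by
      apply Finset.card_le_card
      rw [Finset.biUnion_subset]
      intro A hA
      exact hsub A ((hA1m A).1 hA).1
    omega
  · intro U hU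
    rw [Finset.mem_biUnion] at hU
    obtain ⟨A, hA, hU⟩ := hU
    have hA1 := hAm A hA
    have hA2 := mem_HH.1 hA1.1
    have hU1 := mem_UU.1 hU
    have hU2 := mem_HH.1 hU1.1
    refine ⟨?_, ?_, ?_, ?_, hU2.2.1, F \ A, (A ∪ H₃) \ U, hA2.2.2, hU2.2.2, ?_, ?_⟩
    · obtain ⟨e, he⟩ := hU1.2.2.1
      rw [Finset.mem_inter, Finset.mem_inter] at he
      exact ⟨e, Finset.mem_inter.2 ⟨he.1, he.2.2⟩⟩
    · obtain ⟨e, he⟩ := hU1.2.2.2
      rw [Finset.mem_inter, Finset.mem_inter] at he
      exact ⟨e, Finset.mem_inter.2 ⟨he.1, he.2.2⟩⟩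
    · by_contra h
      rw [Finset.not_nonempty_iff_eq_empty, Finset.eq_empty_iff_forall_notMem] at h
      apply hU1.2.1
      have hs : U ⊆ A := by
        intro e he
        rcases Finset.mem_union.1 (hU2.1 he) with h5 | h5
        · exact h5
        · exact absurd (Finset.mem_inter.2 ⟨he, h5⟩) (h e)
      exact ham_eq hU2.2.1 hA2.2.1 (fun e he => hlF e (hA2.1 (hs he)))
        (fun e he => hlF e (hA2.1 he)) hs
    · intro e he
      rcases Finset.mem_union.1 (hU2.1 he) with h5 | h5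
      · exact Finset.mem_union_left _ (hA2.1 h5)
      · exact Finset.mem_union_right _ h5
    · rw [Finset.disjoint_left]
      intro e he he'
      rw [Finset.mem_sdiff] at he he'
      rcases Finset.mem_union.1 he'.1 with h5 | h5
      · exact he.2 h5
      · exact Finset.disjoint_left.1 hF3 he.1 h5
    · ext e
      have hmu : e ∈ F ∪ H₃ ↔ e ∈ F ∨ e ∈ H₃ := Finset.mem_union
      have hmu' : e ∈ A ∪ H₃ ↔ e ∈ A ∨ e ∈ H₃ := Finset.mem_union
      have hmu2 : e ∈ F \ A ∪ (A ∪ H₃) \ U ↔ e ∈ F \ A ∨ e ∈ (A ∪ H₃) \ U := Finset.mem_union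
      rw [hmu2, Finset.mem_sdiff, Finset.mem_sdiff, Finset.mem_sdiff, hmu, hmu']
      constructor
      · rintro (h5 | h5)
        · refine ⟨Or.inl h5.1, fun h6 => ?_⟩
          rcases Finset.mem_union.1 (hU2.1 h6) with h7 | h7
          · exact h5.2 h7
          · exact Finset.disjoint_left.1 hF3 h5.1 h7
        · refine ⟨?_, h5.2⟩
          rcases h5.1 with h6 | h6
          · exact Or.inl (hA2.1 h6)
          · exact Or.inr h6
      · rintro ⟨h5, h6⟩
        by_cases h7 : e ∈ A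
        · exact Or.inr ⟨Or.inl h7, h6⟩
        · rcases h5 with h5 | h5
          · exact Or.inl ⟨h5, h7⟩
          · exact Or.inr ⟨Or.inr h5, h6⟩

end MP_947208_co
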