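import Mathlib
import Pool.Agent.Work.MP_947208_co.Triple

/-! Counting Hamiltonian decompositions. -/

namespace MP_947208_co

open Finset Function

variable {V E : Type} [Fintype V] [DecidableEq V] [Fintype E] [DecidableEq E]
variable {ends : E → Sym2 V}

open Classical in
/-- The decompositions of `F` into Hamiltonian cycles. -/
noncomputable def Decs (ends : E → Sym2 V) (F : Finset E) : Finset (Finset (Finset E)) :=
  univ.filter fun D => IsDec ends F D

theorem mem_Decs {F : Finset E} {D : Finset (Finset E)} : D ∈ Decs ends F ↔ IsDec ends F D := by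
  classical
  unfold Decs
  rw [Finset.mem_filter]
  exact ⟨fun h => h.2, fun h => ⟨Finset.mem_univ _, h⟩⟩

theorem IsDec.sub {F : Finset E} {D : Finset (Finset E)} (h : IsDec ends F D) {C : Finset E}
    (hC : C ∈ D) : C ⊆ F := by
  rw [← h.2.2]
  exact Finset.subset_biUnion_of_mem id hC

theorem IsDec.disj {F : Finset E} {D : Finset (Finset E)} (h : IsDec ends F D) {C C' : Finset E}
    (hC : C ∈ D) (hC' : C' ∈ D) (hne : C ≠ C') : Disjoint C C' :=
  h.2.1 (Finset.mem_coe.2 hC) (Finset.mem_coe.2 hC') hne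

theorem IsDec.card_mul {F : Finset E} {D : Finset (Finset E)} (h : IsDec ends F D)
    (hl : ∀ e ∈ F, ¬ (ends e).IsDiag) : D.card * Fintype.card V = F.card := by
  have h1 : (D.biUnion id).card = ∑ C ∈ D, (id C).card :=
    Finset.card_biUnion (fun C hC C' hC' hne => h.disj hC hC' hne)
  have h2 : (∑ C ∈ D, (id C).card) = ∑ C ∈ D, Fintype.card V :=
    Finset.sum_congr rfl (fun C hC => (h.1 C hC).card (fun e he => hl e (h.sub hC he)))
  rw [← h.2.2, h1, h2, Finset.sum_const, smul_eq_mul]

/-- Replace the cycles in `S ⊆ D` by those of a decomposition of their union. -/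
theorem IsDec.replace {F : Finset E} {D : Finset (Finset E)} (h : IsDec ends F D)
    {S T : Finset (Finset E)} (hS : S ⊆ D) {X : Finset E} (hX : S.biUnion id = X)
    (hT : IsDec ends X T) : IsDec ends F ((D \ S) ∪ T) := by
  have hdis : ∀ C ∈ D \ S, Disjoint C X := by
    intro C hC
    rw [Finset.mem_sdiff] at hC
    rw [← hX, Finset.disjoint_biUnion_right]
    intro C' hC'
    exact h.disj hC.1 (hS hC') (fun h => hC.2 (h ▸ hC'))
  refine ⟨?_, ?_, ?_⟩
  · intro C hC
    rcases Finset.mem_union.1 hC with hC | hC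
    · exact h.1 C (Finset.mem_sdiff.1 hC).1
    · exact hT.1 C hC
  · intro C hC C' hC' hne
    show Disjoint C C'
    rw [Finset.mem_coe, Finset.mem_union] at hC hC'
    rcases hC with hC | hC <;> rcases hC' with hC' | hC'
    · exact h.disj (Finset.mem_sdiff.1 hC).1 (Finset.mem_sdiff.1 hC').1 hne
    · exact (hdis C hC).mono_right (hT.sub hC')
    · exact ((hdis C' hC').mono_right (hT.sub hC)).symm
    · exact hT.disj hC hC' hne
  · ext e
    have h1 : e ∈ F ↔ ∃ C ∈ D, e ∈ C := by
      conv_lhs => rw [← h.2.2]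
      rw [Finset.mem_biUnion]; rfl
    have h2 : e ∈ X ↔ ∃ C ∈ S, e ∈ C := by
      conv_lhs => rw [← hX]
      rw [Finset.mem_biUnion]; rfl
    have h3 : e ∈ X ↔ ∃ C ∈ T, e ∈ C := by
      conv_lhs => rw [← hT.2.2]
      rw [Finset.mem_biUnion]; rfl
    have h4 : e ∈ ((D \ S) ∪ T).biUnion id ↔ ∃ C ∈ (D \ S) ∪ T, e ∈ C := by
      rw [Finset.mem_biUnion]; rfl
    rw [h4, h1]
    constructor
    · rintro ⟨C, hC, he⟩
      rcases Finset.mem_union.1 hC with hC | hC
      · exact ⟨C, (Finset.mem_sdiff.1 hC).1, he⟩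
      · obtain ⟨C', hC', he'⟩ := h2.1 (h3.2 ⟨C, hC, he⟩)
        exact ⟨C', hS hC', he'⟩
    · rintro ⟨C, hC, he⟩
      by_cases hCS : C ∈ S
      · obtain ⟨C', hC', he'⟩ := h3.1 (h2.2 ⟨C, hCS, he⟩)
        exact ⟨C', Finset.mem_union_right _ hC', he'⟩
      · exact ⟨C, Finset.mem_union_left _ (Finset.mem_sdiff.2 ⟨hC, hCS⟩), he⟩

theorem IsDec.erase {F : Finset E} {D : Finset (Finset E)} (h : IsDec ends F D) {U : Finset E}
    (hU : U ∈ D) : IsDec ends (F \ U) (D.erase U) := by
  refine ⟨fun C hC => h.1 C (Finset.mem_of_mem_erase hC), ?_, ?_⟩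
  · intro C hC C' hC' hne
    exact h.disj (Finset.mem_of_mem_erase (Finset.mem_coe.1 hC))
      (Finset.mem_of_mem_erase (Finset.mem_coe.1 hC')) hne
  · ext e
    have h4 : e ∈ (D.erase U).biUnion id ↔ ∃ C ∈ D.erase U, e ∈ C := by
      rw [Finset.mem_biUnion]; rfl
    have h1 : e ∈ F ↔ ∃ C ∈ D, e ∈ C := by
      conv_lhs => rw [← h.2.2]
      rw [Finset.mem_biUnion]; rfl
    rw [h4, Finset.mem_sdiff, h1]
    constructor
    · rintro ⟨C, hC, he⟩
      rw [Finset.mem_erase] at hC
      exact ⟨⟨C, hC.2, he⟩, fun h' => Finset.disjoint_left.1 (h.disj hC.2 hU hC.1) he h'⟩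
    · rintro ⟨⟨C, hC, he⟩, hn⟩
      refine ⟨C, Finset.mem_erase.2 ⟨?_, hC⟩, he⟩
      rintro rfl
      exact hn he

theorem IsDec.insert {F : Finset E} {D : Finset (Finset E)} {U : Finset E}
    (h : IsDec ends (F \ U) D) (hU : IsHam ends U) (hUF : U ⊆ F) :
    IsDec ends F (insert U D) := by
  have hdis : ∀ C ∈ D, Disjoint U C := by
    intro C hC
    rw [Finset.disjoint_left]
    intro e he he'
    exact (Finset.mem_sdiff.1 (h.sub hC he')).2 he
  refine ⟨?_, ?_, ?_⟩
  · intro C hC
    rcases Finset.mem_insert.1 hC with rfl | hC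
    · exact hU
    · exact h.1 C hC
  · intro C hC C' hC' hne
    show Disjoint C C'
    rw [Finset.mem_coe, Finset.mem_insert] at hC hC'
    rcases hC with rfl | hC <;> rcases hC' with rfl | hC'
    · exact absurd rfl hne
    · exact hdis C' hC'
    · exact (hdis C hC).symm
    · exact h.disj hC hC' hne
  · rw [Finset.biUnion_insert, h.2.2]
    exact Finset.union_sdiff_of_subset hUF

theorem isDec_pair {A B : Finset E} (hA : IsHam ends A) (hB : IsHam ends B)
    (hd : Disjoint A B) : IsDec ends (A ∪ B) {A, B} := by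
  refine ⟨?_, ?_, ?_⟩
  · intro C hC
    rw [Finset.mem_insert, Finset.mem_singleton] at hC
    rcases hC with rfl | rfl
    · exact hA
    · exact hB
  · intro C hC C' hC' hne
    show Disjoint C C'
    rw [Finset.mem_coe, Finset.mem_insert, Finset.mem_singleton] at hC hC'
    rcases hC with rfl | rfl <;> rcases hC' with rfl | rfl
    · exact absurd rfl hne
    · exact hd
    · exact hd.symm
    · exact absurd rfl hne
  · rw [Finset.biUnion_insert, Finset.singleton_biUnion]
    rfl

open Classical in
/-- The extendable Hamiltonian cycles. -/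
noncomputable def Ext (ends : E → Sym2 V) (F : Finset E) : Finset (Finset E) :=
  F.powerset.filter fun U => IsHam ends U ∧ ∃ D, IsDec ends (F \ U) D

theorem mem_Ext {F U : Finset E} : U ∈ Ext ends F ↔
    U ⊆ F ∧ IsHam ends U ∧ ∃ D, IsDec ends (F \ U) D := by
  classical
  unfold Ext
  rw [Finset.mem_filter, Finset.mem_powerset]

theorem mem_Ext_of_mem {F : Finset E} {D : Finset (Finset E)} (h : IsDec ends F D) {U : Finset E}
    (hU : U ∈ D) : U ∈ Ext ends F :=
  mem_Ext.2 ⟨h.sub hU, h.1 U hU, _, h.erase hU⟩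

theorem choose_cube (k : ℕ) : k.choose 1 * 1 + k.choose 2 * 6 + k.choose 3 * 6 = k ^ 3 := by
  induction k with
  | zero => simp
  | succ k ih =>
    have e1 : (k + 1).choose 1 = k + 1 := Nat.choose_one_right _
    have e2 : (k + 1).choose 2 = k.choose 1 + k.choose 2 := Nat.choose_succ_succ k 1
    have e3 : (k + 1).choose 3 = k.choose 2 + k.choose 3 := Nat.choose_succ_succ k 2
    have e4 : k.choose 1 = k := Nat.choose_one_right _
    have e5 : k.choose 2 * 2 = k * (k - 1) := by
      rw [Nat.choose_two_right]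
      exact Nat.div_mul_cancel (Nat.even_mul_pred_self k).two_dvd
    rw [e1, e2, e3]
    rw [e4] at ih ⊢
    have e6 : k * (k - 1) + k = k ^ 2 := by
      rcases k with _ | k
      · rfl
      · simp only [Nat.add_sub_cancel]; ring
    nlinarith

/-- The numbers of cycles of each type. -/
def wt (m : ℕ) : ℕ := if m = 1 then 1 else if m = 2 then 6 else if m = 3 then 6 else 0

theorem cube_sum (k : ℕ) : (∑ m ∈ range (k + 1), k.choose m * wt m) = k ^ 3 := by
  have h2 : (∑ m ∈ range (k + 1), k.choose m * wt m) =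
    ∑ m ∈ range (k + 4), k.choose m * wt m := by
    apply Finset.sum_subset
    · intro m hm
      rw [Finset.mem_range] at hm ⊢
      omega
    · intro m _ hm
      rw [Finset.mem_range, not_lt] at hm
      rw [Nat.choose_eq_zero_of_lt (by omega), zero_mul]
  have h3 : (∑ m ∈ range 4, k.choose m * wt m) =
    ∑ m ∈ range (k + 4), k.choose m * wt m := by
    apply Finset.sum_subset
    · intro m hm
      rw [Finset.mem_range] at hm ⊢
      omega
    · intro m _ hm
      rw [Finset.mem_range, not_lt] at hm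
      rw [wt, if_neg (by omega), if_neg (by omega), if_neg (by omega), mul_zero]
  rw [h2, ← h3, ← choose_cube k]
  simp [Finset.sum_range_succ, wt]

open Classical in
/-- The cycles of `D` met by `U`. -/
noncomputable def typ (D : Finset (Finset E)) (U : Finset E) : Finset (Finset E) :=
  D.filter fun C => (U ∩ C).Nonempty

theorem typ_eq {F : Finset E} {D : Finset (Finset E)} (h : IsDec ends F D)
    {S : Finset (Finset E)} (hS : S ⊆ D) {U : Finset E} (hU : U ⊆ S.biUnion id)
    (hm : ∀ C ∈ S, (U ∩ C).Nonempty) : typ D U = S := by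
  classical
  ext C
  unfold typ
  rw [Finset.mem_filter]
  constructor
  · rintro ⟨hC, e, he⟩
    rw [Finset.mem_inter] at he
    obtain ⟨C', hC', he'⟩ := Finset.mem_biUnion.1 (hU he.1)
    have he'' : e ∈ C' := he'
    by_contra hCS
    have hne : C ≠ C' := fun h => hCS (h ▸ hC')
    exact Finset.disjoint_left.1 (h.disj hC (hS hC') hne) he.2 he''
  · intro hC
    exact ⟨hS hC, hm C hC⟩

theorem mem_Ext_of_replace {F : Finset E} {D : Finset (Finset E)} (h : IsDec ends F D)
    {S T : Finset (Finset E)} (hS : S ⊆ D) {X : Finset E} (hX : S.biUnion id = X)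
    (hT : IsDec ends X T) {U : Finset E} (hU : U ∈ T) : U ∈ Ext ends F :=
  mem_Ext_of_mem (h.replace hS hX hT) (Finset.mem_union_right _ hU)

/-- Every type of size one, two or three is realised by at least one, six, six extendable
cycles. -/
theorem wt_le {F : Finset E} {D : Finset (Finset E)} (h : IsDec ends F D)
    (hl : ∀ e ∈ F, ¬ (ends e).IsDiag) (hn : 3 ≤ Fintype.card V) {S : Finset (Finset E)}
    (hS : S ⊆ D) : wt S.card ≤ ((Ext ends F).filter fun U => typ D U = S).card := by
  classical
  haveI : Nonempty V := Fintype.card_pos_iff.1 (by omega)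
  by_cases h1 : S.card = 1
  · obtain ⟨C, hC⟩ := Finset.card_eq_one.1 h1
    have hCD : C ∈ D := hS (by rw [hC]; simp)
    have hCm : C ∈ (Ext ends F).filter fun U => typ D U = S := by
      rw [Finset.mem_filter]
      refine ⟨mem_Ext_of_mem h hCD, typ_eq h hS ?_ ?_⟩
      · rw [hC, Finset.singleton_biUnion]
        exact Finset.Subset.refl _
      · intro C' hC'
        rw [hC, Finset.mem_singleton] at hC'
        rw [hC', Finset.inter_self]
        exact (h.1 C hCD).nonempty
    have : wt S.card = 1 := by rw [h1]; rfl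
    rw [this]
    exact Finset.card_pos.2 ⟨C, hCm⟩
  by_cases h2 : S.card = 2
  · obtain ⟨A, B, hAB, hSAB⟩ := Finset.card_eq_two.1 h2
    have hA : A ∈ D := hS (by rw [hSAB]; simp)
    have hB : B ∈ D := hS (by rw [hSAB]; simp)
    have hd := h.disj hA hB hAB
    have hX : S.biUnion id = A ∪ B := by
      rw [hSAB, Finset.biUnion_insert, Finset.singleton_biUnion]; rfl
    have hlX : ∀ e ∈ A ∪ B, ¬ (ends e).IsDiag := by
      intro e he
      rcases Finset.mem_union.1 he with he | he
      · exact hl e (h.sub hA he)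
      · exact hl e (h.sub hB he)
    have h6 := exists_six_pair (h.1 A hA) (h.1 B hB) hd hlX hn
    have : wt S.card = 6 := by rw [h2]; rfl
    rw [this]
    refine h6.trans (Finset.card_le_card ?_)
    intro U hU
    rw [Finset.mem_filter] at hU ⊢
    have hU1 := mem_HH.1 hU.1
    have hm := meets (h.1 A hA) (h.1 B hB) hlX hU.1 hU.2.1 hU.2.2
    refine ⟨?_, typ_eq h hS (by rw [hX]; exact hU1.1) ?_⟩
    · have hp := isDec_pair hU1.2.1 hU1.2.2 Finset.disjoint_sdiff
      rw [Finset.union_sdiff_of_subset hU1.1] at hp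
      exact mem_Ext_of_replace h hS hX hp (Finset.mem_insert_self _ _)
    · intro C hC
      rw [hSAB, Finset.mem_insert, Finset.mem_singleton] at hC
      rcases hC with rfl | rfl
      · exact hm.1
      · exact hm.2
  by_cases h3 : S.card = 3
  · obtain ⟨A, B, C, hAB, hAC, hBC, hSABC⟩ := Finset.card_eq_three.1 h3
    have hA : A ∈ D := hS (by rw [hSABC]; simp)
    have hB : B ∈ D := hS (by rw [hSABC]; simp)
    have hC : C ∈ D := hS (by rw [hSABC]; simp)
    have hX : S.biUnion id = A ∪ B ∪ C := by
      rw [hSABC, Finset.biUnion_insert, Finset.biUnion_insert, Finset.singleton_biUnion,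
        Finset.union_assoc]; rfl
    have hlX : ∀ e ∈ A ∪ B ∪ C, ¬ (ends e).IsDiag := by
      intro e he
      rcases Finset.mem_union.1 he with he | he
      · rcases Finset.mem_union.1 he with he | he
        · exact hl e (h.sub hA he)
        · exact hl e (h.sub hB he)
      · exact hl e (h.sub hC he)
    obtain ⟨M, hM, hMs⟩ := exists_six (h.1 A hA) (h.1 B hB) (h.1 C hC) (h.disj hA hB hAB)
      (h.disj hA hC hAC) (h.disj hB hC hBC) hlX hn
    have : wt S.card = 6 := by rw [h3]; rfl
    rw [this]
    refine hM.trans (Finset.card_le_card ?_)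
    intro U hU
    obtain ⟨m1, m2, m3, m4, m5, P, Q, hP, hQ, hPQ, hPQ'⟩ := hMs U hU
    rw [Finset.mem_filter]
    refine ⟨?_, typ_eq h hS (by rw [hX]; exact m4) ?_⟩
    · have hp := isDec_pair hP hQ hPQ
      rw [hPQ'] at hp
      exact mem_Ext_of_replace h hS hX (hp.insert m5 m4) (Finset.mem_insert_self _ _)
    · intro Y hY
      rw [hSABC, Finset.mem_insert, Finset.mem_insert, Finset.mem_singleton] at hY
      rcases hY with rfl | rfl | rfl
      · exact m1
      · exact m2
      · exact m3
  rw [wt, if_neg h1, if_neg h2, if_neg h3]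
  exact Nat.zero_le _

/-- At least `k³` extendable Hamiltonian cycles. -/
theorem cube_le {F : Finset E} {D : Finset (Finset E)} (h : IsDec ends F D)
    (hl : ∀ e ∈ F, ¬ (ends e).IsDiag) (hn : 3 ≤ Fintype.card V) :
    D.card ^ 3 ≤ (Ext ends F).card := by
  classical
  have h1 : ∀ U ∈ Ext ends F, typ D U ∈ D.powerset := by
    intro U _
    rw [Finset.mem_powerset]
    unfold typ
    exact Finset.filter_subset _ _
  have h2 : (∑ m ∈ range (D.card + 1), D.card.choose m * wt m) =
      ∑ S ∈ D.powerset, wt S.card := by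
    rw [Finset.sum_powerset_apply_card (fun m => wt m)]
    rfl
  rw [Finset.card_eq_sum_card_fiberwise h1, ← cube_sum, h2]
  apply Finset.sum_le_sum
  intro S hS
  exact wt_le h hl hn (Finset.mem_powerset.1 hS)

/-- The lower bound for the number of Hamiltonian decompositions. -/
theorem fact_sq_le (hn : 3 ≤ Fintype.card V) (k : ℕ) : ∀ (F : Finset E) (D : Finset (Finset E)),
    (∀ e ∈ F, ¬ (ends e).IsDiag) → IsDec ends F D → D.card = k →
    (k.factorial) ^ 2 ≤ (Decs ends F).card := by
  classical
  haveI : Nonempty V := Fintype.card_pos_iff.1 (by omega)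
  induction k with
  | zero =>
    intro F D hl h hD
    rw [Nat.factorial_zero, one_pow]
    exact Finset.card_pos.2 ⟨D, mem_Decs.2 h⟩
  | succ k ih =>
    intro F D hl h hD
    have hcube := cube_le h hl hn
    rw [hD] at hcube
    have hcardF := h.card_mul hl
    -- all decompositions have the same number of cycles
    have hcD : ∀ D' ∈ Decs ends F, D'.card = k + 1 := by
      intro D' hD'
      have h1 := (mem_Decs.1 hD').card_mul hl
      rw [← hcardF, hD] at h1
      exact Nat.eq_of_mul_eq_mul_right (by omega) h1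
    have hext : ∀ U ∈ Ext ends F, k.factorial ^ 2 ≤ (Decs ends (F \ U)).card := by
      intro U hU
      obtain ⟨hUF, hUh, D', hD'⟩ := mem_Ext.1 hU
      apply ih (F \ U) D' (fun e he => hl e (Finset.sdiff_subset he)) hD'
      have h1 := hD'.card_mul (fun e he => hl e (Finset.sdiff_subset he))
      rw [Finset.card_sdiff_of_subset hUF, hUh.card (fun e he => hl e (hUF he)), ← hcardF, hD,
        add_mul, one_mul, Nat.add_sub_cancel] at h1
      exact Nat.eq_of_mul_eq_mul_right (by omega) h1
    have h1 : ((Decs ends F).sigma fun D' => D').card = (k + 1) * (Decs ends F).card := by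
      rw [Finset.card_sigma, Finset.sum_congr rfl hcD, Finset.sum_const, smul_eq_mul, mul_comm]
    have h2 : ((Ext ends F).sigma fun U => Decs ends (F \ U)).card ≤
        ((Decs ends F).sigma fun D' => D').card := by
      apply Finset.card_le_card_of_injOn
        (fun p => (⟨insert p.1 p.2, p.1⟩ : (_ : Finset (Finset E)) × Finset E))
      · intro p hp
        rw [Finset.mem_coe, Finset.mem_sigma] at hp
        obtain ⟨hUF, hUh, -⟩ := mem_Ext.1 hp.1
        rw [Finset.mem_coe, Finset.mem_sigma]
        exact ⟨mem_Decs.2 ((mem_Decs.1 hp.2).insert hUh hUF), Finset.mem_insert_self _ _⟩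
      · rintro ⟨U, D₁⟩ hp ⟨U', D₂⟩ hq heq
        rw [Finset.mem_coe, Finset.mem_sigma] at hp hq
        have e1 : U = U' := congrArg Sigma.snd heq
        subst e1
        have e2 : insert U D₁ = insert U D₂ := congrArg Sigma.fst heq
        have hno : ∀ D' ∈ Decs ends (F \ U), U ∉ D' := by
          intro D' hD' hU'
          obtain ⟨e, he⟩ := (mem_Ext.1 hp.1).2.1.nonempty
          exact (Finset.mem_sdiff.1 ((mem_Decs.1 hD').sub hU' he)).2 he
        have e3 : D₁ = D₂ := by
          rw [← Finset.erase_insert (hno D₁ hp.2), e2, Finset.erase_insert (hno D₂ hq.2)]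
        rw [e3]
    have h3 : (Ext ends F).card * k.factorial ^ 2 ≤
        ((Ext ends F).sigma fun U => Decs ends (F \ U)).card := by
      rw [Finset.card_sigma, ← smul_eq_mul, ← Finset.sum_const]
      exact Finset.sum_le_sum hext
    have h4 : (k + 1) ^ 3 * k.factorial ^ 2 ≤ (k + 1) * (Decs ends F).card := by
      calc (k + 1) ^ 3 * k.factorial ^ 2 ≤ (Ext ends F).card * k.factorial ^ 2 :=
            Nat.mul_le_mul_right _ hcube
        _ ≤ _ := h3
        _ ≤ _ := h2
        _ = _ := h1
    have h5 : (k + 1) ^ 3 * k.factorial ^ 2 = (k + 1) * ((k + 1).factorial ^ 2) := by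
      rw [Nat.factorial_succ]; ring
    rw [h5] at h4
    exact Nat.le_of_mul_le_mul_left h4 (by omega)

end MP_947208_co
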