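import Mathlib
import Pool.Agent.Work.MP_947208_co.Count

/-! Simple graphs: translation to walks. -/

namespace MP_947208_co

open Finset Function

variable {V : Type} [Fintype V] [DecidableEq V] {G : SimpleGraph V}

theorem deg_id (C : Finset (Sym2 V)) (hC : ∀ e ∈ C, ¬ e.IsDiag) (u : V) :
    deg id C u = {w | s(u, w) ∈ C}.ncard := by
  classical
  have h1 : {w | s(u, w) ∈ C} = ((univ.filter fun w => s(u, w) ∈ C : Finset V) : Set V) := by
    ext w; simp
  rw [h1, Set.ncard_coe_finset]
  unfold deg
  symm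
  apply Finset.card_bij (fun w _ => s(u, w))
  · intro w hw
    rw [Finset.mem_filter] at hw ⊢
    exact ⟨hw.2, by simp⟩
  · intro w _ w' _ h
    exact Sym2.congr_right.1 h
  · intro e he
    rw [Finset.mem_filter] at he
    have h2 : u ∈ e := he.2
    refine ⟨_, ?_, Sym2.other_spec h2⟩
    rw [Finset.mem_filter]
    refine ⟨Finset.mem_univ _, ?_⟩
    rw [Sym2.other_spec h2]
    exact he.1

theorem isHam_of_walk {v : V} {p : G.Walk v v} (hp : p.IsHamiltonianCycle) :
    IsHam id p.edges.toFinset := by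
  classical
  have hnd : ∀ e ∈ p.edges.toFinset, ¬ e.IsDiag := by
    intro e he
    rw [List.mem_toFinset] at he
    exact G.not_isDiag_of_mem_edgeSet (p.edges_subset_edgeSet he)
  refine ⟨?_, ?_⟩
  · intro u
    rw [deg_id _ hnd]
    rw [← hp.isCycle.ncard_neighborSet_toSubgraph_eq_two (hp.mem_support u)]
    congr 1
    ext w
    rw [Set.mem_setOf_eq, List.mem_toFinset, SimpleGraph.Subgraph.mem_neighborSet,
      SimpleGraph.Walk.adj_toSubgraph_iff_mem_edges]
  · intro S hS hSu
    obtain ⟨u, hu⟩ := hS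
    obtain ⟨w, hw⟩ : ∃ w, w ∉ S := by
      by_contra h
      push Not at h
      exact hSu (Finset.eq_univ_iff_forall.2 h)
    by_cases hv : v ∈ S
    · obtain ⟨d, hd, h1, h2⟩ := (p.takeUntil w (hp.mem_support w)).exists_boundary_dart
        (S : Set V) hv hw
      have hd' := p.darts_takeUntil_subset_darts (hp.mem_support w) hd
      refine ⟨d.edge, ?_, d.fst, h1, d.snd, h2, ?_, ?_⟩
      · rw [List.mem_toFinset]
        exact List.mem_map_of_mem hd'
      · exact Sym2.mem_mk_left _ _
      · exact Sym2.mem_mk_right _ _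
    · obtain ⟨d, hd, h1, h2⟩ := (p.dropUntil u (hp.mem_support u)).exists_boundary_dart
        (S : Set V) hu hv
      have hd' := p.darts_dropUntil_subset_darts (hp.mem_support u) hd
      refine ⟨d.edge, ?_, d.fst, h1, d.snd, h2, ?_, ?_⟩
      · rw [List.mem_toFinset]
        exact List.mem_map_of_mem hd'
      · exact Sym2.mem_mk_left _ _
      · exact Sym2.mem_mk_right _ _

theorem walk_of_isHam [Nonempty V] {C : Finset (Sym2 V)} (hC : ∀ e ∈ C, e ∈ G.edgeSet)
    (h : IsHam id C) : ∃ v : V, ∃ p : G.Walk v v, p.IsHamiltonianCycle ∧ p.edges.toFinset = C := by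
  classical
  have hnd : ∀ e ∈ C, ¬ e.IsDiag := fun e he => G.not_isDiag_of_mem_edgeSet (hC e he)
  set H : SimpleGraph V := SimpleGraph.fromEdgeSet (C : Set (Sym2 V)) with hH
  have hadj : ∀ a b, H.Adj a b ↔ s(a, b) ∈ C := by
    intro a b
    rw [hH, SimpleGraph.fromEdgeSet_adj]
    constructor
    · rintro ⟨h1, _⟩
      exact h1
    · intro h1
      refine ⟨h1, ?_⟩
      rintro rfl
      exact hnd _ h1 (Sym2.mk_isDiag_iff.2 rfl)
  have hle : H ≤ G := by
    intro a b hab
    exact hC _ ((hadj a b).1 hab)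
  have hdeg : ∀ u, (H.neighborSet u).ncard = 2 := by
    intro u
    have h1 := h.1 u
    rw [deg_id _ hnd] at h1
    rw [← h1]
    congr 1
    ext w
    rw [SimpleGraph.mem_neighborSet, hadj]
    rfl
  have hcyc : H.IsCycles := fun u _ => hdeg u
  obtain ⟨v⟩ := ‹Nonempty V›
  have hconn : ∀ w, w ∈ (H.connectedComponentMk v).supp := by
    set S : Finset V := univ.filter fun w => w ∈ (H.connectedComponentMk v).supp with hS
    have hSm : ∀ w, w ∈ S ↔ w ∈ (H.connectedComponentMk v).supp := by
      intro w; rw [hS, Finset.mem_filter]; simp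
    have hSu : S = univ := by
      by_contra hne
      obtain ⟨e, he, a, ha, b, hb, hae, hbe⟩ := h.2 S
        ⟨v, (hSm v).2 SimpleGraph.ConnectedComponent.connectedComponentMk_mem⟩ hne
      apply hb
      rw [hSm] at ha ⊢
      have hab : a ≠ b := by
        rintro rfl
        exact hb ((hSm a).2 ha)
      have heq : e = s(a, b) := by
        have h1 : a ∈ e := hae
        have h2 : b ∈ e := hbe
        exact ((Sym2.mem_and_mem_iff hab).1 ⟨h1, h2⟩)
      have hadj' : H.Adj a b := (hadj a b).2 (heq ▸ he)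
      rw [SimpleGraph.ConnectedComponent.mem_supp_iff] at ha ⊢
      rw [← ha]
      exact (SimpleGraph.ConnectedComponent.eq.2 hadj'.reachable).symm
    intro w
    rw [← hSm, hSu]
    exact Finset.mem_univ w
  have hn : (H.neighborSet v).Nonempty := by
    rw [← Set.ncard_pos (Set.toFinite _), hdeg v]
    norm_num
  obtain ⟨p, hp, hpv⟩ := hcyc.exists_cycle_toSubgraph_verts_eq_connectedComponentSupp
    (hconn v) hn
  have hsup : ∀ w, w ∈ p.support := by
    intro w
    rw [← SimpleGraph.Walk.mem_verts_toSubgraph, hpv]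
    exact hconn w
  have hsub : p.edges.toFinset ⊆ C := by
    intro e he
    rw [List.mem_toFinset] at he
    have h1 := p.edges_subset_edgeSet he
    rw [hH, SimpleGraph.edgeSet_fromEdgeSet] at h1
    exact h1.1
  have hCc : C.card = Fintype.card V := h.card hnd
  have hlen : p.length = p.edges.toFinset.card := by
    rw [List.toFinset_card_of_nodup hp.isTrail.edges_nodup, SimpleGraph.Walk.length_edges]
  -- every edge of `C` is an edge of `p`, by the degrees
  have hpH : IsHam id p.edges.toFinset := by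
    have hnd' : ∀ e ∈ p.edges.toFinset, ¬ e.IsDiag := fun e he => hnd e (hsub he)
    have hd2 : ∀ u, deg id p.edges.toFinset u = 2 := by
      intro u
      rw [deg_id _ hnd', ← hp.ncard_neighborSet_toSubgraph_eq_two (hsup u)]
      congr 1
      ext w
      rw [Set.mem_setOf_eq, List.mem_toFinset, SimpleGraph.Subgraph.mem_neighborSet,
        SimpleGraph.Walk.adj_toSubgraph_iff_mem_edges]
    have hcard : p.edges.toFinset.card = C.card := by
      have h1 := handshake (ends := (id : Sym2 V → Sym2 V)) p.edges.toFinset hnd'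
      rw [Finset.sum_congr rfl (fun v _ => hd2 v), Finset.sum_const, smul_eq_mul,
        Finset.card_univ] at h1
      omega
    rw [Finset.eq_of_subset_of_card_le hsub hcard.ge]
    exact h
  have heq : p.edges.toFinset = C :=
    Finset.eq_of_subset_of_card_le hsub (by rw [hCc, hpH.card (fun e he => hnd e (hsub he))])
  refine ⟨v, p.mapLe hle, ?_, ?_⟩
  · rw [SimpleGraph.Walk.isHamiltonianCycle_iff_isCycle_and_length_eq]
    refine ⟨(SimpleGraph.Walk.isCycle_mapLe hle).2 hp, ?_⟩
    rw [SimpleGraph.Walk.length_mapLe, hlen, heq, hCc]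
  · rw [SimpleGraph.Walk.edges_mapLe_eq_edges, heq]

theorem three_le {v : V} {p : G.Walk v v} (hp : p.IsHamiltonianCycle) : 3 ≤ Fintype.card V := by
  rw [← hp.length_eq]
  exact hp.isCycle.three_le_length

/-- The decompositions in the sense of the frozen statement. -/
def SDec (G : SimpleGraph V) [DecidableRel G.Adj] (D : Finset (Finset (Sym2 V))) : Prop :=
  (∀ S ∈ D, ∃ v : V, ∃ p : G.Walk v v, p.IsHamiltonianCycle ∧ p.edges.toFinset = S) ∧
    (D : Set (Finset (Sym2 V))).PairwiseDisjoint id ∧ D.biUnion id = G.edgeFinset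

theorem sdec_iff [Nonempty V] [DecidableRel G.Adj] (D : Finset (Finset (Sym2 V))) :
    SDec G D ↔ IsDec id G.edgeFinset D := by
  constructor
  · rintro ⟨h1, h2, h3⟩
    refine ⟨?_, h2, h3⟩
    intro S hS
    obtain ⟨v, p, hp, rfl⟩ := h1 S hS
    exact isHam_of_walk hp
  · rintro ⟨h1, h2, h3⟩
    refine ⟨?_, h2, h3⟩
    intro S hS
    apply walk_of_isHam _ (h1 S hS)
    intro e he
    have : e ∈ G.edgeFinset := by
      rw [← h3]
      exact Finset.mem_biUnion.2 ⟨S, hS, he⟩
    exact SimpleGraph.mem_edgeFinset.1 this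

/-- The lower bound for simple graphs. -/
theorem simple_bound (G : SimpleGraph V) [DecidableRel G.Adj] (D : Finset (Finset (Sym2 V)))
    (hD : SDec G D) : D.card.factorial ^ 2 ≤ {D' | SDec G D'}.ncard := by
  classical
  by_cases hDe : D = ∅
  · rw [hDe, Finset.card_empty, Nat.factorial_zero, one_pow, Nat.one_le_iff_ne_zero,
      ← Nat.pos_iff_ne_zero, Set.ncard_pos (Set.toFinite _)]
    exact ⟨D, hD⟩
  · obtain ⟨S, hS⟩ := Finset.nonempty_iff_ne_empty.2 hDe
    obtain ⟨v, p, hp, -⟩ := hD.1 S hS
    haveI : Nonempty V := ⟨v⟩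
    have hn := three_le hp
    have h1 := fact_sq_le (ends := (id : Sym2 V → Sym2 V)) hn D.card G.edgeFinset D
      (fun e he => G.not_isDiag_of_mem_edgeFinset he) ((sdec_iff D).1 hD) rfl
    have h2 : {D' | SDec G D'} = ((Decs id G.edgeFinset : Finset _) : Set _) := by
      ext D'
      rw [Set.mem_setOf_eq, sdec_iff, Finset.mem_coe, mem_Decs]
    rw [h2, Set.ncard_coe_finset]
    exact h1

end MP_947208_co
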