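import Mathlib
import Pool.Agent.Work.MP_947208_co.Count

/-! The `k`-fold triangle has exactly `(k!)²` Hamiltonian decompositions. -/

namespace MP_947208_co

open Finset Function

/-- The `k`-fold triangle: for every `c`, `k` parallel edges from `c` to `c + 1`. -/
def tri (k : ℕ) (e : Fin 3 × Fin k) : Sym2 (Fin 3) := s(e.1, e.1 + 1)

theorem tri_loopless (k : ℕ) (e : Fin 3 × Fin k) : ¬ (tri k e).IsDiag := by
  have h : ∀ c : Fin 3, c ≠ c + 1 := by decide
  intro hd
  exact h e.1 (Sym2.mk_isDiag_iff.1 hd)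

variable {k : ℕ}

theorem mem_tri (v : Fin 3) (e : Fin 3 × Fin k) : v ∈ tri k e ↔ e.1 = v ∨ e.1 = v + 2 := by
  have h : ∀ v c : Fin 3, v ∈ (s(c, c + 1) : Sym2 (Fin 3)) ↔ c = v ∨ c = v + 2 := by decide
  exact h v e.1

/-- The edges of class `c` in `C`. -/
def cls (C : Finset (Fin 3 × Fin k)) (c : Fin 3) : Finset (Fin 3 × Fin k) :=
  C.filter fun e => e.1 = c

theorem deg_tri (C : Finset (Fin 3 × Fin k)) (v : Fin 3) :
    deg (tri k) C v = (cls C v).card + (cls C (v + 2)).card := by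
  unfold deg cls
  rw [← Finset.card_union_of_disjoint]
  · congr 1
    ext e
    rw [Finset.mem_filter, Finset.mem_union, Finset.mem_filter, Finset.mem_filter, mem_tri]
    tauto
  · rw [Finset.disjoint_left]
    intro e h1 h2
    have h3 := (Finset.mem_filter.1 h1).2
    have h4 := (Finset.mem_filter.1 h2).2
    have h5 : ∀ v : Fin 3, v ≠ v + 2 := by decide
    exact h5 v (h3.symm.trans h4)

theorem cls_card {C : Finset (Fin 3 × Fin k)} (h : IsHam (tri k) C) (c : Fin 3) :
    (cls C c).card = 1 := by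
  have h0 := h.1 0
  have h1 := h.1 1
  have h2 := h.1 2
  rw [deg_tri] at h0 h1 h2
  have e0 : (0 : Fin 3) + 2 = 2 := rfl
  have e1 : (1 : Fin 3) + 2 = 0 := rfl
  have e2 : (2 : Fin 3) + 2 = 1 := rfl
  rw [e0] at h0
  rw [e1] at h1
  rw [e2] at h2
  fin_cases c
  · show (cls C 0).card = 1
    omega
  · show (cls C 1).card = 1
    omega
  · show (cls C 2).card = 1
    omega

/-- The triangle with the given edges. -/
def mkT (i j l : Fin k) : Finset (Fin 3 × Fin k) := {(0, i), (1, j), (2, l)}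

theorem mem_mkT (i j l : Fin k) (c : Fin 3) (x : Fin k) :
    (c, x) ∈ mkT i j l ↔ (c = 0 ∧ x = i) ∨ (c = 1 ∧ x = j) ∨ (c = 2 ∧ x = l) := by
  unfold mkT
  rw [Finset.mem_insert, Finset.mem_insert, Finset.mem_singleton, Prod.mk.injEq, Prod.mk.injEq,
    Prod.mk.injEq]

theorem cls_mkT (i j l : Fin k) (c : Fin 3) : (cls (mkT i j l) c).card = 1 := by
  rw [Finset.card_eq_one]
  fin_cases c
  · refine ⟨(0, i), ?_⟩
    ext ⟨c, x⟩
    unfold cls
    rw [Finset.mem_filter, mem_mkT, Finset.mem_singleton, Prod.mk.injEq]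
    constructor
    · rintro ⟨h1, h2⟩
      change c = 0 at h2
      subst h2
      rcases h1 with h | h | h
      · exact h
      · exact absurd h.1 (by decide)
      · exact absurd h.1 (by decide)
    · rintro ⟨h1, h2⟩
      exact ⟨Or.inl ⟨h1, h2⟩, h1⟩
  · refine ⟨(1, j), ?_⟩
    ext ⟨c, x⟩
    unfold cls
    rw [Finset.mem_filter, mem_mkT, Finset.mem_singleton, Prod.mk.injEq]
    constructor
    · rintro ⟨h1, h2⟩
      change c = 1 at h2
      subst h2
      rcases h1 with h | h | h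
      · exact absurd h.1 (by decide)
      · exact h
      · exact absurd h.1 (by decide)
    · rintro ⟨h1, h2⟩
      exact ⟨Or.inr (Or.inl ⟨h1, h2⟩), h1⟩
  · refine ⟨(2, l), ?_⟩
    ext ⟨c, x⟩
    unfold cls
    rw [Finset.mem_filter, mem_mkT, Finset.mem_singleton, Prod.mk.injEq]
    constructor
    · rintro ⟨h1, h2⟩
      change c = 2 at h2
      subst h2
      rcases h1 with h | h | h
      · exact absurd h.1 (by decide)
      · exact absurd h.1 (by decide)
      · exact h
    · rintro ⟨h1, h2⟩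
      exact ⟨Or.inr (Or.inr ⟨h1, h2⟩), h1⟩

theorem isHam_mkT (i j l : Fin k) : IsHam (tri k) (mkT i j l) := by
  refine ⟨?_, ?_⟩
  · intro v
    rw [deg_tri, cls_mkT, cls_mkT]
  · intro S hS hSu
    have h : ∀ S : Finset (Fin 3), S.Nonempty → S ≠ univ →
        ∃ c : Fin 3, (c ∈ S ∧ c + 1 ∉ S) ∨ (c + 1 ∈ S ∧ c ∉ S) := by decide
    obtain ⟨c, hc⟩ := h S hS hSu
    obtain ⟨x, hx⟩ : ∃ x : Fin k, (c, x) ∈ mkT i j l := by
      fin_cases c
      · exact ⟨i, by simp [mkT]⟩
      · exact ⟨j, by simp [mkT]⟩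
      · exact ⟨l, by simp [mkT]⟩
    rcases hc with hc | hc
    · exact ⟨(c, x), hx, c, hc.1, c + 1, hc.2, Sym2.mem_mk_left _ _, Sym2.mem_mk_right _ _⟩
    · exact ⟨(c, x), hx, c + 1, hc.1, c, hc.2, Sym2.mem_mk_right _ _, Sym2.mem_mk_left _ _⟩

/-- The decomposition given by two permutations. -/
def mkD (p : Equiv.Perm (Fin k) × Equiv.Perm (Fin k)) : Finset (Finset (Fin 3 × Fin k)) :=
  univ.image fun i => mkT i (p.1 i) (p.2 i)

theorem mkT_inj {i j l i' j' l' : Fin k} (h : mkT i j l = mkT i' j' l') : i = i' := by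
  have h1 : ((0 : Fin 3), i) ∈ mkT i' j' l' := by rw [← h]; simp [mkT]
  rw [mem_mkT] at h1
  rcases h1 with h1 | h1 | h1
  · exact h1.2
  · exact absurd h1.1 (by decide)
  · exact absurd h1.1 (by decide)

theorem isDec_mkD (p : Equiv.Perm (Fin k) × Equiv.Perm (Fin k)) :
    IsDec (tri k) univ (mkD p) := by
  refine ⟨?_, ?_, ?_⟩
  · intro C hC
    obtain ⟨i, _, rfl⟩ := Finset.mem_image.1 hC
    exact isHam_mkT _ _ _
  · intro C hC C' hC' hne
    obtain ⟨i, _, rfl⟩ := Finset.mem_image.1 (Finset.mem_coe.1 hC)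
    obtain ⟨i', _, rfl⟩ := Finset.mem_image.1 (Finset.mem_coe.1 hC')
    show Disjoint (mkT i (p.1 i) (p.2 i)) (mkT i' (p.1 i') (p.2 i'))
    rw [Finset.disjoint_left]
    rintro ⟨c, x⟩ h1 h2
    apply hne
    have hi : i = i' := by
      rw [mem_mkT] at h1 h2
      rcases h1 with ⟨h1, h1'⟩ | ⟨h1, h1'⟩ | ⟨h1, h1'⟩ <;>
        rcases h2 with ⟨h2, h2'⟩ | ⟨h2, h2'⟩ | ⟨h2, h2'⟩ <;>
        first
          | exact absurd (h1.symm.trans h2) (by decide)
          | exact h1'.symm.trans h2'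
          | exact p.1.injective (h1'.symm.trans h2')
          | exact p.2.injective (h1'.symm.trans h2')
    rw [hi]
  · rw [Finset.eq_univ_iff_forall]
    rintro ⟨c, x⟩
    rw [Finset.mem_biUnion]
    fin_cases c
    · exact ⟨_, Finset.mem_image.2 ⟨x, Finset.mem_univ _, rfl⟩, by simp [mkT]⟩
    · exact ⟨_, Finset.mem_image.2 ⟨p.1.symm x, Finset.mem_univ _, rfl⟩, by simp [mkT]⟩
    · exact ⟨_, Finset.mem_image.2 ⟨p.2.symm x, Finset.mem_univ _, rfl⟩, by simp [mkT]⟩

theorem card_mkD (p : Equiv.Perm (Fin k) × Equiv.Perm (Fin k)) : (mkD p).card = k := by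
  unfold mkD
  rw [Finset.card_image_of_injective _ (fun i j h => mkT_inj h), Finset.card_univ,
    Fintype.card_fin]

theorem exists_mkD {D : Finset (Finset (Fin 3 × Fin k))} (hD : IsDec (tri k) univ D) :
    ∃ p, mkD p = D := by
  classical
  have h1 : ∀ i : Fin k, ∃ C ∈ D, ((0 : Fin 3), i) ∈ C := by
    intro i
    have : ((0 : Fin 3), i) ∈ D.biUnion id := by rw [hD.2.2]; exact Finset.mem_univ _
    exact Finset.mem_biUnion.1 this
  choose C hCD hC using h1
  -- the unique edge of each class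
  have h2 : ∀ i c, ∃ x, (c, x) ∈ C i := by
    intro i c
    obtain ⟨⟨c', x⟩, he⟩ := Finset.card_pos.1 (by rw [cls_card (hD.1 _ (hCD i)) c]; norm_num)
    unfold cls at he
    rw [Finset.mem_filter] at he
    have : c' = c := he.2
    exact ⟨x, this ▸ he.1⟩
  choose f hf using h2
  have huniq : ∀ K ∈ D, ∀ c x y, (c, x) ∈ K → (c, y) ∈ K → x = y := by
    intro K hK c x y hx hy
    have h3 := cls_card (hD.1 K hK) c
    rw [Finset.card_eq_one] at h3
    obtain ⟨e, he⟩ := h3
    have e1 : (c, x) ∈ cls K c := Finset.mem_filter.2 ⟨hx, rfl⟩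
    have e2 : (c, y) ∈ cls K c := Finset.mem_filter.2 ⟨hy, rfl⟩
    rw [he, Finset.mem_singleton] at e1 e2
    exact congrArg Prod.snd (e1.trans e2.symm)
  have hCeq : ∀ i j c x, (c, x) ∈ C i → (c, x) ∈ C j → C i = C j := by
    intro i j c x hi hj
    by_contra hne
    exact Finset.disjoint_left.1 (hD.disj (hCD i) (hCD j) hne) hi hj
  have hCi : ∀ i j, C i = C j → i = j := by
    intro i j h
    exact huniq (C j) (hCD j) 0 i j (h ▸ hC i) (hC j)
  have hinj : ∀ c, Injective fun i => f i c := by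
    intro c i j h
    apply hCi
    apply hCeq i j c (f i c) (hf i c)
    have h' : f i c = f j c := h
    rw [h']
    exact hf j c
  have hbij : ∀ c, Bijective fun i => f i c := fun c => Finite.injective_iff_bijective.1 (hinj c)
  refine ⟨(Equiv.ofBijective _ (hbij 1), Equiv.ofBijective _ (hbij 2)), ?_⟩
  have hCmk : ∀ i, C i = mkT i (f i 1) (f i 2) := by
    intro i
    ext ⟨c, x⟩
    rw [mem_mkT]
    constructor
    · intro h
      fin_cases c
      · exact Or.inl ⟨rfl, huniq _ (hCD i) 0 x i h (hC i)⟩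
      · exact Or.inr (Or.inl ⟨rfl, huniq _ (hCD i) 1 x _ h (hf i 1)⟩)
      · exact Or.inr (Or.inr ⟨rfl, huniq _ (hCD i) 2 x _ h (hf i 2)⟩)
    · rintro (⟨rfl, rfl⟩ | ⟨rfl, rfl⟩ | ⟨rfl, rfl⟩)
      · exact hC _
      · exact hf _ _
      · exact hf _ _
  apply Finset.Subset.antisymm
  · intro K hK
    obtain ⟨i, _, rfl⟩ := Finset.mem_image.1 hK
    have : mkT i (f i 1) (f i 2) ∈ D := by rw [← hCmk i]; exact hCD i
    exact this
  · intro K hK
    obtain ⟨⟨c', x⟩, he⟩ := Finset.card_pos.1 (by rw [cls_card (hD.1 K hK) 0]; norm_num)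
    unfold cls at he
    rw [Finset.mem_filter] at he
    have h3 : c' = 0 := he.2
    have h4 : ((0 : Fin 3), x) ∈ K := h3 ▸ he.1
    have h5 : K = C x := by
      by_contra hne
      exact Finset.disjoint_left.1 (hD.disj hK (hCD x) hne) h4 (hC x)
    rw [h5, hCmk x]
    exact Finset.mem_image.2 ⟨x, Finset.mem_univ _, rfl⟩

/-- The `k`-fold triangle has exactly `(k!)²` Hamiltonian decompositions. -/
theorem card_tri (k : ℕ) : (Decs (tri k) univ).card = k.factorial ^ 2 := by
  classical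
  apply le_antisymm
  · have h1 : Decs (tri k) univ ⊆ univ.image mkD := by
      intro D hD
      obtain ⟨p, hp⟩ := exists_mkD (mem_Decs.1 hD)
      exact Finset.mem_image.2 ⟨p, Finset.mem_univ _, hp⟩
    refine (Finset.card_le_card h1).trans (Finset.card_image_le.trans ?_)
    rw [Finset.card_univ, Fintype.card_prod, Fintype.card_perm, Fintype.card_fin, sq]
  · exact fact_sq_le (by rw [Fintype.card_fin]) k univ (mkD 1) (fun e _ => tri_loopless k e)
      (isDec_mkD 1) (card_mkD 1)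

end MP_947208_co
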