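import Pool.Agent.Work.MP_947208_co.ParSharp
import Pool.Agent.Work.MP_947208_co.Simple

/-!
# The parity theorem: properties of the pairings at a set of vertices, simple graphs, sharpness
-/

set_option autoImplicit false
set_option linter.unusedSectionVars false

namespace MP_947208_co

open Finset Function

namespace Par

variable {V E : Type} [Fintype V] [DecidableEq V] [Fintype E] [DecidableEq E]
  {ends : E → Sym2 V} {F : Finset E}

/-- Every property of the pairings at `J` holds for an even number of decompositions. -/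
theorem even_prop (hl : ∀ e ∈ F, ¬ (ends e).IsDiag) {J : Finset V} (hJ : J.Nonempty)
    (hV : J.card + 2 ≤ Fintype.card V) {k : ℕ} (hk : 2 ^ (J.card - 1) < k)
    (hdeg : ∀ v, deg ends F v = 2 * k) (Q : (J → Finset (Finset E)) → Prop) :
    Even {D | IsDec ends F D ∧ Q fun v => pairsAt ends D v}.ncard := by
  classical
  have h1 : {D | IsDec ends F D ∧ Q fun v => pairsAt ends D v} =
      ((univ.filter fun D => IsDec ends F D ∧ Q fun v => pairsAt ends D v : Finset _) :
        Set (Finset (Finset E))) := by
    ext D; simp
  rw [h1, Set.ncard_coe_finset]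
  have h2 : (univ.filter fun D => IsDec ends F D ∧ Q fun v => pairsAt ends D v).card =
      ∑ P ∈ (univ : Finset (J → Finset (Finset E))).filter Q,
        (univ.filter fun D => IsDec ends F D ∧ (fun v : J => pairsAt ends D v) = P).card := by
    rw [← Finset.card_biUnion]
    · congr 1
      ext D
      simp only [Finset.mem_filter, Finset.mem_univ, true_and, Finset.mem_biUnion]
      constructor
      · rintro ⟨h3, h4⟩; exact ⟨_, h4, h3, rfl⟩
      · rintro ⟨P, h3, h4, rfl⟩; exact ⟨h4, h3⟩
    · intro P _ P' _ hne
      show Disjoint _ _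
      rw [Finset.disjoint_left]
      intro D hD hD'
      rw [Finset.mem_filter] at hD hD'
      exact hne (hD.2.2.symm.trans hD'.2.2)
  rw [h2]
  apply Finset.even_sum
  intro P _
  have h3 := even_dec hl hJ hV hk hdeg (fun v => if h : v ∈ J then P ⟨v, h⟩ else ∅)
  have h4 : {D | IsDec ends F D ∧ ∀ v ∈ J, pairsAt ends D v = if h : v ∈ J then P ⟨v, h⟩ else ∅} =
      ((univ.filter fun D => IsDec ends F D ∧ (fun v : J => pairsAt ends D v) = P : Finset _) :
        Set (Finset (Finset E))) := by
    ext D
    simp only [Set.mem_ofPred_eq, Finset.coe_filter, Finset.mem_univ, true_and]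
    apply and_congr_right
    intro _
    constructor
    · intro h
      funext v
      have := h v.1 v.2
      rw [dif_pos v.2] at this
      exact this
    · intro h v hv
      rw [dif_pos hv]
      exact congrFun h ⟨v, hv⟩
  rw [h4, Set.ncard_coe_finset] at h3
  exact h3

theorem le_two_pow (j : ℕ) (hj : 0 < j) : j ≤ 2 ^ (j - 1) := by
  induction j with
  | zero => omega
  | succ j ih =>
    rcases Nat.eq_zero_or_pos j with h | h
    · subst h; norm_num
    · have h1 := ih h
      have h2 : 2 ^ (j + 1 - 1) = 2 * 2 ^ (j - 1) := by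
        rw [← pow_succ']
        congr 1
        omega
      omega

/-- The parity theorem for simple graphs. -/
theorem even_simple (G : SimpleGraph V) [DecidableRel G.Adj] {J : Finset V} (hJ : J.Nonempty)
    {k : ℕ} (hk : 2 ^ (J.card - 1) < k) (hG : G.IsRegularOfDegree (2 * k))
    (Q : (J → Finset (Finset (Sym2 V))) → Prop) :
    Even {D | SDec G D ∧ Q fun v => pairsAt id D v}.ncard := by
  classical
  obtain ⟨u, hu⟩ := hJ
  have : Nonempty V := ⟨u⟩
  have hloop : ∀ e ∈ G.edgeFinset, ¬ (id e : Sym2 V).IsDiag := fun e he =>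
    G.not_isDiag_of_mem_edgeFinset he
  have hdeg : ∀ v, deg (id : Sym2 V → Sym2 V) G.edgeFinset v = 2 * k := by
    intro v
    have h1 : {w | s(v, w) ∈ G.edgeFinset} = ((G.neighborFinset v : Finset V) : Set V) := by
      ext w
      simp
    rw [deg_id _ hloop, h1, Set.ncard_coe_finset]
    exact hG v
  have hcard : 2 * k < Fintype.card V := by
    rw [← hG u]
    exact G.degree_lt_card_verts u
  have hJ1 := le_two_pow J.card (Finset.card_pos.2 ⟨u, hu⟩)
  have h1 := even_prop hloop ⟨u, hu⟩ (by omega) hk hdeg Q
  have h2 : {D | SDec G D ∧ Q fun v => pairsAt id D v} =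
      {D | IsDec (id : Sym2 V → Sym2 V) G.edgeFinset D ∧ Q fun v => pairsAt id D v} := by
    ext D
    simp only [Set.mem_ofPred_eq]
    rw [sdec_iff]
  rw [h2]
  exact h1

/-- The bound in the parity theorem is best possible. -/
theorem sharp (j k : ℕ) (hj : 1 ≤ j) (hk : k ≤ 2 ^ (j - 1)) :
    ∃ (ends : Fin k × Fin (j + 2) → Sym2 (Fin (j + 2))) (J : Finset (Fin (j + 2)))
      (D : Finset (Finset (Fin k × Fin (j + 2)))), (∀ e, ¬ (ends e).IsDiag) ∧
        (∀ v, deg ends univ v = 2 * k) ∧ J.card = j ∧ IsDec ends univ D ∧
          ∀ D', IsDec ends univ D' → (∀ v ∈ J, pairsAt ends D' v = pairsAt ends D v) →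
            D' = D := by
  classical
  set w : Bool → Fin (j + 2) := fun b => if b then 0 else Fin.last (j + 1) with hwdef
  have hwt : w true = 0 := rfl
  have hwf : w false = Fin.last (j + 1) := rfl
  have hw : w true ≠ w false := by
    rw [hwt, hwf]
    intro h
    have := congrArg Fin.val h
    simp at this
  set J : Finset (Fin (j + 2)) := univ.filter fun v => ∀ b, v ≠ w b with hJdef
  have hJ : ∀ v, v ∈ J ↔ ∀ b, v ≠ w b := by
    intro v
    rw [hJdef, Finset.mem_filter]
    exact ⟨fun h => h.2, fun h => ⟨mem_univ _, h⟩⟩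
  have hJc : J = univ \ {w true, w false} := by
    ext v
    rw [hJ, Finset.mem_sdiff, Finset.mem_insert, Finset.mem_singleton, not_or]
    constructor
    · intro h; exact ⟨mem_univ _, h true, h false⟩
    · rintro ⟨-, h1, h2⟩ b
      cases b
      · exact h2
      · exact h1
  have hJcard : J.card = j := by
    rw [hJc, Finset.card_univ_sdiff, Finset.card_pair hw, Fintype.card_fin]
    omega
  have h1lt : 1 < j + 2 := by omega
  set v₁ : Fin (j + 2) := ⟨1, h1lt⟩ with hv₁def
  have hv₁ : v₁ ∈ J := by
    rw [hJ]
    intro b h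
    cases b
    · rw [hwf] at h
      have := congrArg Fin.val h
      simp [hv₁def] at this
      omega
    · rw [hwt] at h
      have := congrArg Fin.val h
      simp [hv₁def] at this
  have hpow : ((J.erase v₁).powerset).card = 2 ^ (j - 1) := by
    rw [Finset.card_powerset, Finset.card_erase_of_mem hv₁, hJcard]
  obtain ⟨A⟩ : Nonempty (Fin k ↪ ((J.erase v₁).powerset : Finset (Finset (Fin (j + 2))))) := by
    apply Function.Embedding.nonempty_of_card_le
    rw [Fintype.card_coe, hpow, Fintype.card_fin]
    exact hk
  have hA : ∀ c, (A c : Finset (Fin (j + 2))) ⊆ J.erase v₁ := fun c =>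
    Finset.mem_powerset.1 (A c).2
  obtain ⟨ends, h1, D, h2, h3, h4⟩ := sharp_aux w hw
    (fun c v => decide (v ∈ (A c : Finset (Fin (j + 2))))) J hJ hv₁ (by
      intro c
      rw [decide_eq_false_iff_not]
      intro h
      exact (Finset.mem_erase.1 (hA c h)).1 rfl) (by
      intro c c' h
      apply A.injective
      apply Subtype.ext
      ext v
      constructor
      · intro hv
        have := h v (Finset.mem_of_mem_erase (hA c hv))
        rw [decide_eq_true hv] at this
        exact of_decide_eq_true this.symm
      · intro hv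
        have := h v (Finset.mem_of_mem_erase (hA c' hv))
        rw [decide_eq_true hv] at this
        exact of_decide_eq_true this)
  refine ⟨ends, J, D, h1, ?_, hJcard, h2, h4⟩
  intro v
  rw [deg_dec h2, h3]

end Par

end MP_947208_co
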