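import Pool.Agent.Work.MP_947208_co.LocSharp
import Pool.Agent.Work.MP_947208_co.ParFin

/-!
# The minimum: multigraphs, simple graphs, sharpness
-/

set_option autoImplicit false
set_option linter.unusedSectionVars false

namespace MP_947208_co

open Finset Function

namespace Par

variable {V E : Type} [Fintype V] [DecidableEq V] [Fintype E] [DecidableEq E]
  {ends : E → Sym2 V} {F : Finset E}

theorem ncard_Same (J : Finset V) (D : Finset (Finset E)) :
    {D' | IsDec ends F D' ∧ ∀ v ∈ J, pairsAt ends D' v = pairsAt ends D v}.ncard =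
      (Same ends F J D).card := by
  have h : {D' | IsDec ends F D' ∧ ∀ v ∈ J, pairsAt ends D' v = pairsAt ends D v} =
      ((Same ends F J D : Finset _) : Set (Finset (Finset E))) := by
    ext D'
    rw [Finset.mem_coe, mem_Same]
    rfl
  rw [h, Set.ncard_coe_finset]

theorem local_min_set (hl : ∀ e ∈ F, ¬ (ends e).IsDiag) {J : Finset V} (hJ : J.Nonempty)
    (hV : J.card + 2 ≤ Fintype.card V) {D : Finset (Finset E)} (hD : IsDec ends F D) :
    ∏ l ∈ Finset.range D.card, (l / 2 ^ (J.card - 1) + 1) ≤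
      {D' | IsDec ends F D' ∧ ∀ v ∈ J, pairsAt ends D' v = pairsAt ends D v}.ncard := by
  rw [ncard_Same]
  exact local_min hJ hV D.card F hl D hD rfl

theorem local_min_simple (G : SimpleGraph V) [DecidableRel G.Adj] {J : Finset V}
    (hJ : J.Nonempty) {D : Finset (Finset (Sym2 V))} (hD : SDec G D) :
    ∏ l ∈ Finset.range D.card, (l / 2 ^ (J.card - 1) + 1) ≤
      {D' | SDec G D' ∧ ∀ v ∈ J, pairsAt id D' v = pairsAt id D v}.ncard := by
  classical
  obtain ⟨u, hu⟩ := hJ
  have : Nonempty V := ⟨u⟩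
  by_cases hk : 2 ^ (J.card - 1) < D.card
  · have hD' := (sdec_iff D).1 hD
    have hloop : ∀ e ∈ G.edgeFinset, ¬ (id e : Sym2 V).IsDiag := fun e he =>
      G.not_isDiag_of_mem_edgeFinset he
    have hdeg : G.degree u = 2 * D.card := by
      rw [← deg_dec hD' u, deg_id _ hloop]
      have h1 : {w | s(u, w) ∈ G.edgeFinset} = ((G.neighborFinset u : Finset V) : Set V) := by
        ext w
        simp
      rw [h1, Set.ncard_coe_finset]
      rfl
    have hcard : 2 * D.card < Fintype.card V := by
      rw [← hdeg]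
      exact G.degree_lt_card_verts u
    have hJ1 := le_two_pow J.card (Finset.card_pos.2 ⟨u, hu⟩)
    have h1 := local_min_set hloop ⟨u, hu⟩ (by omega) hD'
    have h2 : {D' | SDec G D' ∧ ∀ v ∈ J, pairsAt id D' v = pairsAt id D v} =
        {D' | IsDec (id : Sym2 V → Sym2 V) G.edgeFinset D' ∧
          ∀ v ∈ J, pairsAt id D' v = pairsAt id D v} := by
      ext D'
      simp only [Set.mem_ofPred_eq, sdec_iff]
    rw [h2]
    exact h1
  · have h1 : ∏ l ∈ Finset.range D.card, (l / 2 ^ (J.card - 1) + 1) = 1 := by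
      apply Finset.prod_eq_one
      intro l hl
      rw [Finset.mem_range] at hl
      rw [Nat.div_eq_of_lt (by omega), zero_add]
    rw [h1, Nat.one_le_iff_ne_zero, ← Nat.pos_iff_ne_zero, Set.ncard_pos (Set.toFinite _)]
    exact ⟨D, hD, fun v _ => rfl⟩

/-- The bound is attained. -/
theorem local_exact (j k : ℕ) (hj : 1 ≤ j) :
    ∃ (ends : Fin k × Fin (j + 2) → Sym2 (Fin (j + 2))) (J : Finset (Fin (j + 2)))
      (D : Finset (Finset (Fin k × Fin (j + 2)))), (∀ e, ¬ (ends e).IsDiag) ∧
        J.card = j ∧ IsDec ends univ D ∧ D.card = k ∧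
          {D' | IsDec ends univ D' ∧ ∀ v ∈ J, pairsAt ends D' v = pairsAt ends D v}.ncard =
            ∏ l ∈ Finset.range k, (l / 2 ^ (j - 1) + 1) := by
  obtain ⟨ends, J, D, h1, h2, h3, h4, h5⟩ := local_sharp j k hj
  refine ⟨ends, J, D, h1, h2, h3, h4, ?_⟩
  apply le_antisymm
  · rw [ncard_Same]
    exact h5
  · have hJ : J.Nonempty := by
      rw [← Finset.card_pos, h2]
      exact hj
    have h6 := local_min_set (fun e _ => h1 e) hJ (by rw [h2, Fintype.card_fin]) h3
    rw [h2, h4] at h6
    exact h6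

end Par

end MP_947208_co
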