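import Pool.Agent.Work.MP_947208_co.TrMain
import Pool.Agent.Work.MP_947208_co.ParFin

/-!
# The parity theorem: properties of pairings and transitions, simple graphs, paths
-/

set_option autoImplicit false
set_option linter.unusedSectionVars false

namespace MP_947208_co

open Finset Function

theorem mem_usedIn {V E : Type} [DecidableEq V] [DecidableEq E] {D : Finset (Finset E)}
    {T : Finset (V × E × E)} {t : V × E × E} :
    t ∈ usedIn D T ↔ t ∈ T ∧ ∃ C ∈ D, t.2.1 ∈ C ∧ t.2.2 ∈ C := by
  unfold usedIn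
  rw [Finset.mem_filter]

namespace Par

variable {V E : Type} [Fintype V] [DecidableEq V] [Fintype E] [DecidableEq E]
  {ends : E → Sym2 V} {F : Finset E}

/-- The exact set of used transitions. -/
theorem even_exact {T : Finset (V × E × E)} (A : Finset (Finset (Finset E)))
    (hA : ∀ S ⊆ T, Even (A.filter fun D => S ⊆ usedIn D T).card) :
    ∀ n : ℕ, ∀ S ⊆ T, (T \ S).card = n → Even (A.filter fun D => usedIn D T = S).card := by
  intro n
  induction n using Nat.strong_induction_on with
  | _ n ih =>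
    intro S hS hn
    have h1 : (A.filter fun D => S ⊆ usedIn D T).card =
        ∑ S' ∈ T.powerset.filter fun S' => S ⊆ S', (A.filter fun D => usedIn D T = S').card := by
      rw [← Finset.card_biUnion]
      · congr 1
        ext D
        simp only [Finset.mem_filter, Finset.mem_biUnion, Finset.mem_powerset]
        constructor
        · rintro ⟨h1, h2⟩
          exact ⟨_, ⟨Finset.filter_subset _ _, h2⟩, h1, rfl⟩
        · rintro ⟨S', ⟨-, h2⟩, h3, rfl⟩
          exact ⟨h3, h2⟩
      · intro S' _ S'' _ hne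
        show Disjoint _ _
        rw [Finset.disjoint_left]
        intro D hD hD'
        rw [Finset.mem_filter] at hD hD'
        exact hne (hD.2.symm.trans hD'.2)
    have h2 : S ∈ T.powerset.filter fun S' => S ⊆ S' :=
      Finset.mem_filter.2 ⟨Finset.mem_powerset.2 hS, Finset.Subset.refl S⟩
    rw [← Finset.add_sum_erase _ _ h2] at h1
    have h3 : Even (∑ S' ∈ (T.powerset.filter fun S' => S ⊆ S').erase S,
        (A.filter fun D => usedIn D T = S').card) := by
      apply Finset.even_sum
      intro S' hS'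
      rw [Finset.mem_erase, Finset.mem_filter, Finset.mem_powerset] at hS'
      obtain ⟨h4, h5, h6⟩ := hS'
      apply ih (T \ S').card _ S' h5 rfl
      rw [← hn, Finset.card_sdiff_of_subset h5, Finset.card_sdiff_of_subset hS]
      have h7 : S.card < S'.card := Finset.card_lt_card (lt_of_le_of_ne h6 (Ne.symm h4))
      have h8 := Finset.card_le_card h5
      omega
    have h4 := hA S hS
    rw [h1, Nat.even_add] at h4
    exact h4.2 h3

/-- Every property of the pairings at `J` and of the set of used transitions holds for an even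
number of decompositions. -/
theorem even_propT (hl : ∀ e ∈ F, ¬ (ends e).IsDiag) {J : Finset V} (hJ : J.Nonempty)
    {T : Finset (V × E × E)} (hV : (J ∪ T.image Prod.fst).card + 2 ≤ Fintype.card V) {k : ℕ}
    (hk : 2 ^ (J.card - 1) + T.card < k) (hdeg : ∀ v, deg ends F v = 2 * k)
    (hT : ∀ t ∈ T, t.2.1 ≠ t.2.2 ∧ t.1 ∈ ends t.2.1 ∧ t.1 ∈ ends t.2.2)
    (Q : (J → Finset (Finset E)) → Finset (V × E × E) → Prop) :
    Even {D | IsDec ends F D ∧ Q (fun v => pairsAt ends D v) (usedIn D T)}.ncard := by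
  classical
  have h1 : {D | IsDec ends F D ∧ Q (fun v => pairsAt ends D v) (usedIn D T)} =
      ((univ.filter fun D => IsDec ends F D ∧ Q (fun v => pairsAt ends D v) (usedIn D T) :
        Finset _) : Set (Finset (Finset E))) := by
    ext D; simp
  rw [h1, Set.ncard_coe_finset]
  have h2 : (univ.filter fun D => IsDec ends F D ∧
      Q (fun v => pairsAt ends D v) (usedIn D T)).card =
      ∑ q ∈ (univ : Finset ((J → Finset (Finset E)) × Finset (V × E × E))).filter
        (fun q => Q q.1 q.2 ∧ q.2 ⊆ T),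
        ((univ.filter fun D => IsDec ends F D ∧ (fun v : J => pairsAt ends D v) = q.1).filter
          fun D => usedIn D T = q.2).card := by
    rw [← Finset.card_biUnion]
    · congr 1
      ext D
      simp only [Finset.mem_filter, Finset.mem_univ, true_and, Finset.mem_biUnion]
      constructor
      · rintro ⟨h3, h4⟩
        exact ⟨(_, _), ⟨h4, Finset.filter_subset _ _⟩, ⟨h3, rfl⟩, rfl⟩
      · rintro ⟨⟨P, S⟩, ⟨h3, -⟩, ⟨h4, h5⟩, h6⟩
        simp only at h3 h5 h6
        rw [h5, h6]
        exact ⟨h4, h3⟩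
    · rintro ⟨P, S⟩ _ ⟨P', S'⟩ _ hne
      show Disjoint _ _
      rw [Finset.disjoint_left]
      intro D hD hD'
      rw [Finset.mem_filter, Finset.mem_filter] at hD hD'
      exact hne (Prod.ext (hD.1.2.2.symm.trans hD'.1.2.2) (hD.2.symm.trans hD'.2))
  rw [h2]
  apply Finset.even_sum
  rintro ⟨P, S⟩ hq
  rw [Finset.mem_filter] at hq
  simp only
  apply even_exact _ _ _ S hq.2.2 rfl
  intro S' hS'
  have hcard : (J ∪ S'.image Prod.fst).card ≤ (J ∪ T.image Prod.fst).card :=
    Finset.card_le_card (Finset.union_subset_union_right (Finset.image_subset_image hS'))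
  have hcard' := Finset.card_le_card hS'
  have h3 := even_decT hl hJ (T := S') (by omega) (by omega) hdeg (fun t ht => hT t (hS' ht))
    (fun v => if h : v ∈ J then P ⟨v, h⟩ else ∅)
  have h4 : {D | IsDec ends F D ∧
      (∀ v ∈ J, pairsAt ends D v = if h : v ∈ J then P ⟨v, h⟩ else ∅) ∧
      ∀ t ∈ S', ∃ C ∈ D, t.2.1 ∈ C ∧ t.2.2 ∈ C} =
      (((univ.filter fun D => IsDec ends F D ∧ (fun v : J => pairsAt ends D v) = P).filter
        fun D => S' ⊆ usedIn D T : Finset _) : Set (Finset (Finset E))) := by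
    ext D
    rw [Finset.mem_coe, Finset.mem_filter, Finset.mem_filter, Set.mem_ofPred_eq]
    constructor
    · rintro ⟨h5, h6, h7⟩
      refine ⟨⟨mem_univ _, h5, ?_⟩, ?_⟩
      · funext v
        have := h6 v.1 v.2
        rw [dif_pos v.2] at this
        exact this
      · intro t ht
        exact mem_usedIn.2 ⟨hS' ht, h7 t ht⟩
    · rintro ⟨⟨-, h5, h6⟩, h7⟩
      refine ⟨h5, ?_, ?_⟩
      · intro v hv
        rw [dif_pos hv]
        exact congrFun h6 ⟨v, hv⟩
      · intro t ht
        exact (mem_usedIn.1 (h7 ht)).2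
  rw [h4, Set.ncard_coe_finset] at h3
  exact h3

/-- The parity theorem for simple graphs. -/
theorem even_simpleT (G : SimpleGraph V) [DecidableRel G.Adj] {J : Finset V} (hJ : J.Nonempty)
    {T : Finset (V × Sym2 V × Sym2 V)} {k : ℕ} (hk : 2 ^ (J.card - 1) + T.card < k)
    (hG : G.IsRegularOfDegree (2 * k))
    (hT : ∀ t ∈ T, t.2.1 ≠ t.2.2 ∧ t.1 ∈ t.2.1 ∧ t.1 ∈ t.2.2)
    (Q : (J → Finset (Finset (Sym2 V))) → Finset (V × Sym2 V × Sym2 V) → Prop) :
    Even {D | SDec G D ∧ Q (fun v => pairsAt id D v) (usedIn D T)}.ncard := by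
  classical
  obtain ⟨u, hu⟩ := hJ
  have : Nonempty V := ⟨u⟩
  have hloop : ∀ e ∈ G.edgeFinset, ¬ (id e : Sym2 V).IsDiag := fun e he =>
    G.not_isDiag_of_mem_edgeFinset he
  have hdeg : ∀ v, deg (id : Sym2 V → Sym2 V) G.edgeFinset v = 2 * k := by
    intro v
    have h1 : {w | s(v, w) ∈ G.edgeFinset} = ((G.neighborFinset v : Finset V) : Set V) := by
      ext w
      simp
    rw [deg_id _ hloop, h1, Set.ncard_coe_finset]
    exact hG v
  have hcard : 2 * k < Fintype.card V := by
    rw [← hG u]
    exact G.degree_lt_card_verts u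
  have hJ1 := le_two_pow J.card (Finset.card_pos.2 ⟨u, hu⟩)
  have hJ2 : (J ∪ T.image Prod.fst).card ≤ J.card + T.card :=
    (Finset.card_union_le _ _).trans (Nat.add_le_add_left Finset.card_image_le _)
  have h1 := even_propT hloop ⟨u, hu⟩ (by omega) hk hdeg hT Q
  have h2 : {D | SDec G D ∧ Q (fun v => pairsAt id D v) (usedIn D T)} =
      {D | IsDec (id : Sym2 V → Sym2 V) G.edgeFinset D ∧
        Q (fun v => pairsAt id D v) (usedIn D T)} := by
    ext D
    rw [Set.mem_ofPred_eq, Set.mem_ofPred_eq, sdec_iff]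
  rw [h2]
  exact h1

/-- Paths: the edges `e 0, …, e (m - 1)` with the inner vertices `x 1, …, x (m - 1)`. -/
theorem even_path (hl : ∀ e ∈ F, ¬ (ends e).IsDiag) {m k : ℕ} (hm : 2 ≤ m) (hmk : m ≤ k)
    (hV : m + 1 ≤ Fintype.card V) (hdeg : ∀ v, deg ends F v = 2 * k) (x : ℕ → V) (e : ℕ → E)
    (hx : ∀ i, i + 1 < m → x (i + 1) ∈ ends (e i) ∧ x (i + 1) ∈ ends (e (i + 1)) ∧
      e i ≠ e (i + 1)) :
    Even {D | IsDec ends F D ∧ ∃ C ∈ D, ∀ i < m, e i ∈ C}.ncard := by
  classical
  set T : Finset (V × E × E) := (Finset.Ico 2 m).image fun i => (x i, e (i - 1), e i) with hT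
  have hTc : T.card ≤ m - 2 := by
    refine Finset.card_image_le.trans ?_
    rw [Nat.card_Ico]
  have hTm : ∀ i, 2 ≤ i → i < m → (x i, e (i - 1), e i) ∈ T := fun i h1 h2 =>
    Finset.mem_image.2 ⟨i, Finset.mem_Ico.2 ⟨h1, h2⟩, rfl⟩
  have hTx : (({x 1} : Finset V) ∪ T.image Prod.fst).card ≤ m - 1 := by
    have h1 : (({x 1} : Finset V) ∪ T.image Prod.fst) ⊆ (Finset.Ico 1 m).image x := by
      intro v hv
      rw [Finset.mem_union, Finset.mem_singleton] at hv
      rcases hv with hv | hv
      · rw [hv]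
        exact Finset.mem_image_of_mem _ (Finset.mem_Ico.2 ⟨le_refl 1, by omega⟩)
      · obtain ⟨t, ht, rfl⟩ := Finset.mem_image.1 hv
        obtain ⟨i, hi, rfl⟩ := Finset.mem_image.1 ht
        rw [Finset.mem_Ico] at hi
        exact Finset.mem_image_of_mem _ (Finset.mem_Ico.2 ⟨by omega, hi.2⟩)
    refine (Finset.card_le_card h1).trans (Finset.card_image_le.trans ?_)
    rw [Nat.card_Ico]
  have hT' : ∀ t ∈ T, t.2.1 ≠ t.2.2 ∧ t.1 ∈ ends t.2.1 ∧ t.1 ∈ ends t.2.2 := by
    intro t ht
    obtain ⟨i, hi, rfl⟩ := Finset.mem_image.1 ht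
    rw [Finset.mem_Ico] at hi
    obtain ⟨i, rfl⟩ : ∃ i', i = i' + 1 := ⟨i - 1, by omega⟩
    obtain ⟨h1, h2, h3⟩ := hx i hi.2
    simp only [Nat.add_sub_cancel]
    exact ⟨h3, h1, h2⟩
  have h1 := even_propT hl (J := {x 1}) (Finset.singleton_nonempty _) (T := T) (k := k)
    (by omega) (by rw [Finset.card_singleton]; norm_num; omega) hdeg hT'
    (fun P U => (∃ S ∈ P ⟨x 1, Finset.mem_singleton_self _⟩, e 0 ∈ S ∧ e 1 ∈ S) ∧ U = T)
  have h2 : {D | IsDec ends F D ∧ ∃ C ∈ D, ∀ i < m, e i ∈ C} =
      {D | IsDec ends F D ∧ ((∃ S ∈ pairsAt ends D (x 1), e 0 ∈ S ∧ e 1 ∈ S) ∧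
        usedIn D T = T)} := by
    ext D
    rw [Set.mem_ofPred_eq, Set.mem_ofPred_eq]
    apply and_congr_right
    intro hD
    constructor
    · rintro ⟨C, hC, hCe⟩
      refine ⟨⟨C.filter fun e => x 1 ∈ ends e, Finset.mem_image_of_mem _ hC, ?_, ?_⟩, ?_⟩
      · exact Finset.mem_filter.2 ⟨hCe 0 (by omega), (hx 0 (by omega)).1⟩
      · exact Finset.mem_filter.2 ⟨hCe 1 (by omega), (hx 0 (by omega)).2.1⟩
      · apply Finset.Subset.antisymm (Finset.filter_subset _ _)
        intro t ht
        refine mem_usedIn.2 ⟨ht, C, hC, ?_⟩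
        obtain ⟨i, hi, rfl⟩ := Finset.mem_image.1 ht
        rw [Finset.mem_Ico] at hi
        exact ⟨hCe _ (by omega), hCe _ hi.2⟩
    · rintro ⟨⟨S, hS, h0, h1⟩, hU⟩
      obtain ⟨C, hC, rfl⟩ := Finset.mem_image.1 hS
      rw [Finset.mem_filter] at h0 h1
      refine ⟨C, hC, ?_⟩
      intro i
      induction i with
      | zero => intro _; exact h0.1
      | succ i ih =>
        intro hi
        rcases Nat.eq_zero_or_pos i with h | h
        · subst h; exact h1.1
        · have h3 := hTm (i + 1) (by omega) hi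
          rw [← hU, mem_usedIn] at h3
          obtain ⟨-, C', hC', h4, h5⟩ := h3
          simp only [Nat.add_sub_cancel] at h4 h5
          have h6 := cyc_eq hD.2.1 hC (ih (by omega))
          have h7 := cyc_eq hD.2.1 hC' h4
          rw [← h6, h7]
          exact h5
  rw [h2]
  exact h1

/-- Every path with at most `k` edges is contained in a member of an even number of Hamiltonian
decompositions of a `2k`-regular simple graph. -/
theorem even_walk (G : SimpleGraph V) [DecidableRel G.Adj] {k : ℕ} (hk : 2 ≤ k)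
    (hG : G.IsRegularOfDegree (2 * k)) {a b : V} (p : G.Walk a b) (hp : p.IsPath)
    (hpk : p.length ≤ k) :
    Even {D | SDec G D ∧ ∃ C ∈ D, ∀ e ∈ p.edges, e ∈ C}.ncard := by
  classical
  have : Nonempty V := ⟨a⟩
  have hloop : ∀ e ∈ G.edgeFinset, ¬ (id e : Sym2 V).IsDiag := fun e he =>
    G.not_isDiag_of_mem_edgeFinset he
  have hdeg : ∀ v, deg (id : Sym2 V → Sym2 V) G.edgeFinset v = 2 * k := by
    intro v
    have h1 : {w | s(v, w) ∈ G.edgeFinset} = ((G.neighborFinset v : Finset V) : Set V) := by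
      ext w
      simp
    rw [deg_id _ hloop, h1, Set.ncard_coe_finset]
    exact hG v
  have hcard : 2 * k < Fintype.card V := by
    rw [← hG a]
    exact G.degree_lt_card_verts a
  by_cases hm : 2 ≤ p.length
  · have h1 := even_path hloop hm hpk (by omega) hdeg p.getVert
      (fun i => s(p.getVert i, p.getVert (i + 1))) ?_
    · have h2 : {D | SDec G D ∧ ∃ C ∈ D, ∀ e ∈ p.edges, e ∈ C} =
          {D | IsDec (id : Sym2 V → Sym2 V) G.edgeFinset D ∧
            ∃ C ∈ D, ∀ i < p.length, s(p.getVert i, p.getVert (i + 1)) ∈ C} := by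
        ext D
        rw [Set.mem_ofPred_eq, Set.mem_ofPred_eq, sdec_iff]
        apply and_congr_right
        intro _
        constructor
        · rintro ⟨C, hC, h3⟩
          refine ⟨C, hC, fun i hi => h3 _ ?_⟩
          exact (SimpleGraph.Walk.mk_mem_edges_iff_exists p).2 ⟨i, hi, rfl⟩
        · rintro ⟨C, hC, h3⟩
          refine ⟨C, hC, ?_⟩
          intro e
          induction e using Sym2.ind with
          | _ v w =>
            intro he
            obtain ⟨i, hi, h4⟩ := (SimpleGraph.Walk.mk_mem_edges_iff_exists p).1 he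
            rw [← h4]
            exact h3 i hi
      rw [h2]
      exact h1
    · intro i hi
      refine ⟨Sym2.mem_mk_right _ _, Sym2.mem_mk_left _ _, ?_⟩
      intro h
      have h3 : p.getVert i ∈ s(p.getVert (i + 1), p.getVert (i + 1 + 1)) := by
        rw [← h]; exact Sym2.mem_mk_left _ _
      rcases Sym2.mem_iff.1 h3 with h4 | h4
      · have := hp.getVert_injOn (by simp; omega) (by simp; omega) h4
        omega
      · have := hp.getVert_injOn (by simp; omega) (by simp; omega) h4
        omega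
  · have h1 := even_simpleT G (J := {a}) (Finset.singleton_nonempty _) (T := ∅) (k := k)
      (by rw [Finset.card_singleton, Finset.card_empty]; norm_num; omega) hG
      (by intro t ht; exact absurd ht (Finset.notMem_empty t)) (fun _ _ => True)
    have h2 : {D | SDec G D ∧ ∃ C ∈ D, ∀ e ∈ p.edges, e ∈ C} = {D | SDec G D ∧ True} := by
      ext D
      rw [Set.mem_ofPred_eq, Set.mem_ofPred_eq]
      apply and_congr_right
      intro hD
      simp only [iff_true]
      have hD' := (sdec_iff D).1 hD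
      have hlen : p.edges.length ≤ 1 := by rw [SimpleGraph.Walk.length_edges]; omega
      have hsub : ∀ e ∈ p.edges, e ∈ G.edgeFinset := fun e he =>
        SimpleGraph.mem_edgeFinset.2 (p.edges_subset_edgeSet he)
      match hpe : p.edges, hlen, hsub with
      | [], _, _ =>
        have h3 : 0 < deg (id : Sym2 V → Sym2 V) G.edgeFinset a := by rw [hdeg]; omega
        rw [deg_dec hD'] at h3
        have h4 : D.Nonempty := by
          rw [← Finset.card_pos]
          omega
        obtain ⟨C, hC⟩ := h4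
        exact ⟨C, hC, fun e he => absurd he (List.not_mem_nil)⟩
      | [e], _, hsub =>
        obtain ⟨h3, h4⟩ := cyc_mem hD' (hsub e (List.mem_singleton_self e))
        exact ⟨_, h3, fun e' he' => by rw [List.mem_singleton.1 he']; exact h4⟩
      | _ :: _ :: _, hlen, _ => simp at hlen
    rw [h2]
    exact h1

end Par

end MP_947208_co
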