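import Mathlib
import Pool.Agent.Work.MP_947208_co.Simple

/-! The cyclic order of the vertices of a Hamiltonian cycle. -/

set_option linter.unusedSectionVars false
set_option linter.unusedVariables false

namespace MP_947208_co

open Finset Function

variable {V E : Type} [Fintype V] [DecidableEq V] [Fintype E] [DecidableEq E]
variable {ends : E → Sym2 V}

/-- In a Hamiltonian cycle on at least three vertices no two edges are parallel. -/
theorem IsHam.ends_inj {C : Finset E} (h : IsHam ends C) (hl : ∀ e ∈ C, ¬ (ends e).IsDiag)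
    (hn : 3 ≤ Fintype.card V) {e f : E} (he : e ∈ C) (hf : f ∈ C) (hef : ends e = ends f) :
    e = f := by
  classical
  by_contra hne
  obtain ⟨a, b, hab⟩ : ∃ a b, ends e = s(a, b) := by
    induction ends e with | h a b => exact ⟨a, b, rfl⟩
  have hab' : a ≠ b := by
    rintro rfl
    apply hl e he
    rw [hab]
    exact Sym2.mk_isDiag_iff.2 rfl
  have h1 : ∀ w, w = a ∨ w = b → ∀ g ∈ C, w ∈ ends g → g = e ∨ g = f := by
    intro w hw g hg hwg
    have h2 := h.1 w
    have hwe : w ∈ ends e := by
      rw [hab, Sym2.mem_iff]; exact hw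
    have h3 : ({e, f} : Finset E) = C.filter fun e => w ∈ ends e := by
      apply Finset.eq_of_subset_of_card_le
      · intro x hx
        rw [Finset.mem_insert, Finset.mem_singleton] at hx
        rw [Finset.mem_filter]
        rcases hx with rfl | rfl
        · exact ⟨he, hwe⟩
        · exact ⟨hf, hef ▸ hwe⟩
      · rw [Finset.card_pair hne]
        exact h2.le
    have h4 : g ∈ ({e, f} : Finset E) := by
      rw [h3, Finset.mem_filter]
      exact ⟨hg, hwg⟩
    simpa using h4
  have hne' : ({a, b} : Finset V) ≠ univ := by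
    intro h5
    have := congrArg Finset.card h5
    rw [Finset.card_pair hab', Finset.card_univ] at this
    omega
  obtain ⟨g, hg, u, hu, w, hw, hug, hwg⟩ := h.2 {a, b} ⟨a, by simp⟩ hne'
  rw [Finset.mem_insert, Finset.mem_singleton] at hu hw
  have h6 : ends g = s(a, b) := by
    rcases h1 u hu g hg hug with h | h
    · rw [h, hab]
    · rw [h, ← hef, hab]
  rw [h6, Sym2.mem_iff] at hwg
  exact hw hwg

theorem deg_image {C : Finset E} (hinj : ∀ e ∈ C, ∀ f ∈ C, ends e = ends f → e = f) (v : V) :
    deg id (C.image ends) v = deg ends C v := by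
  unfold deg
  rw [Finset.filter_image, Finset.card_image_of_injOn]
  · rfl
  · intro e he f hf hef
    rw [Finset.mem_coe, Finset.mem_filter] at he hf
    exact hinj e he.1 f hf.1 hef

theorem IsHam.image {C : Finset E} (h : IsHam ends C)
    (hinj : ∀ e ∈ C, ∀ f ∈ C, ends e = ends f → e = f) : IsHam id (C.image ends) := by
  refine ⟨fun v => by rw [deg_image hinj]; exact h.1 v, ?_⟩
  intro S hS hSu
  obtain ⟨e, he, u, hu, w, hw, hue, hwe⟩ := h.2 S hS hSu
  exact ⟨ends e, Finset.mem_image_of_mem _ he, u, hu, w, hw, hue, hwe⟩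

/-- The vertices of a Hamiltonian cycle in cyclic order, starting with `r`; `o v` and `i v` are the
edges by which the cycle leaves and enters `v`. -/
theorem IsHam.exists_order {C : Finset E} (h : IsHam ends C) (hl : ∀ e ∈ C, ¬ (ends e).IsDiag)
    (hn : 3 ≤ Fintype.card V) (r : V) :
    ∃ (a : V → ℕ) (o i : V → E), Injective a ∧ (∀ v, a v < Fintype.card V) ∧ a r = 0 ∧
      Injective o ∧ (∀ v, o v ∈ C) ∧ (∀ e ∈ C, ∃ v, o v = e) ∧
      (∀ v, i v ∈ C ∧ v ∈ ends (i v) ∧ v ∈ ends (o v) ∧ i v ≠ o v) ∧
      (∀ v, v ≠ r → ∃ u, a u + 1 = a v ∧ i v = o u) ∧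
      (∃ u, a u + 1 = Fintype.card V ∧ i r = o u) := by
  classical
  have : Nonempty V := ⟨r⟩
  have hinj : ∀ e ∈ C, ∀ f ∈ C, ends e = ends f → e = f :=
    fun e he f hf hef => h.ends_inj hl hn he hf hef
  have h1 := h.image hinj
  obtain ⟨v0, p0, hp0, hpe⟩ := walk_of_isHam (G := (⊤ : SimpleGraph V)) (C := C.image ends) (by
    intro e he
    obtain ⟨f, hf, rfl⟩ := Finset.mem_image.1 he
    rw [SimpleGraph.edgeSet_top]
    exact hl f hf) h1
  set p := p0.rotate r (hp0.mem_support r) with hp
  have hpH : p.IsHamiltonianCycle := (SimpleGraph.Walk.isHamiltonianCycle_rotate _).2 hp0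
  have hlen : p.length = Fintype.card V := hpH.length_eq
  have hedge : ∀ i, i < Fintype.card V → ∃ e ∈ C, ends e = s(p.getVert i, p.getVert (i + 1)) := by
    intro i hi
    have h2 := p.toSubgraph_adj_getVert (i := i) (by omega)
    rw [SimpleGraph.Walk.adj_toSubgraph_iff_mem_edges] at h2
    have h3 : s(p.getVert i, p.getVert (i + 1)) ∈ p0.edges :=
      (p0.rotate_edges r (hp0.mem_support r)).perm.mem_iff.1 h2
    have h4 : s(p.getVert i, p.getVert (i + 1)) ∈ C.image ends := by
      rw [← hpe, List.mem_toFinset]
      exact h3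
    obtain ⟨e, he, hee⟩ := Finset.mem_image.1 h4
    exact ⟨e, he, hee⟩
  have hx0 : p.getVert 0 = r := SimpleGraph.Walk.getVert_zero p
  have hxn : p.getVert (Fintype.card V) = r := by
    rw [← hlen]
    exact p.getVert_length
  have hxinj : ∀ i j, i < Fintype.card V → j < Fintype.card V → p.getVert i = p.getVert j →
      i = j := by
    intro i j hi hj hij
    exact hpH.isCycle.getVert_injOn' (by simp only [Set.mem_ofPred_eq]; omega)
      (by simp only [Set.mem_ofPred_eq]; omega) hij
  have hxs : ∀ v, ∃ i, i < Fintype.card V ∧ p.getVert i = v := by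
    intro v
    obtain ⟨i, hi, hi'⟩ := SimpleGraph.Walk.mem_support_iff_exists_getVert.1 (hpH.mem_support v)
    by_cases hin : i < Fintype.card V
    · exact ⟨i, hin, hi⟩
    · have : i = Fintype.card V := by omega
      refine ⟨0, by omega, ?_⟩
      rw [hx0, ← hi, this, hxn]
  choose a ha1 ha2 using hxs
  have hex : ∀ i, ∃ e, i < Fintype.card V →
      e ∈ C ∧ ends e = s(p.getVert i, p.getVert (i + 1)) := by
    intro i
    by_cases hi : i < Fintype.card V
    · obtain ⟨e, he⟩ := hedge i hi
      exact ⟨e, fun _ => he⟩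
    · obtain ⟨e, he⟩ := hedge 0 (by omega)
      exact ⟨e, fun h => absurd h hi⟩
  choose g hg using hex
  have hainj : Injective a := by
    intro u v huv
    rw [← ha2 u, ← ha2 v, huv]
  have har : a r = 0 := hxinj _ _ (ha1 r) (by omega) (by rw [ha2, hx0])
  have hax : ∀ i, i < Fintype.card V → a (p.getVert i) = i := by
    intro i hi
    exact hxinj _ _ (ha1 _) hi (ha2 _)
  have hginj : ∀ i j, i < Fintype.card V → j < Fintype.card V → g i = g j → i = j := by
    intro i j hi hj hij
    have h2 := (hg i hi).2
    rw [hij, (hg j hj).2, Sym2.eq_iff] at h2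
    rcases h2 with ⟨h3, _⟩ | ⟨h3, h4⟩
    · exact (hxinj _ _ hj hi h3).symm
    · exfalso
      by_cases hi1 : i + 1 < Fintype.card V
      · have h5 := hxinj _ _ hj hi1 h3
        by_cases hj1 : j + 1 < Fintype.card V
        · have h6 := hxinj _ _ hj1 hi h4
          omega
        · have h7 : j + 1 = Fintype.card V := by omega
          rw [h7] at h4
          have h6 := hxinj 0 _ (by omega) hi (hx0.trans (hxn.symm.trans h4))
          omega
      · have h7 : i + 1 = Fintype.card V := by omega
        rw [h7] at h3
        have h5 := hxinj _ 0 hj (by omega) (h3.trans (hxn.trans hx0.symm))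
        by_cases hj1 : j + 1 < Fintype.card V
        · have h6 := hxinj _ _ hj1 hi h4
          omega
        · omega
  have hoinj : Injective fun v => g (a v) := by
    intro u v huv
    exact hainj (hginj _ _ (ha1 u) (ha1 v) huv)
  refine ⟨a, fun v => g (a v), fun v => if v = r then g (Fintype.card V - 1) else g (a v - 1),
    hainj, ha1, har, hoinj, fun v => (hg _ (ha1 v)).1, ?_, ?_, ?_, ?_⟩
  · have h2 : univ.image (fun v => g (a v)) = C := by
      apply Finset.eq_of_subset_of_card_le
      · intro e he
        obtain ⟨v, _, rfl⟩ := Finset.mem_image.1 he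
        exact (hg _ (ha1 v)).1
      · rw [Finset.card_image_of_injective _ hoinj, Finset.card_univ, h.card hl]
    intro e he
    rw [← h2, Finset.mem_image] at he
    obtain ⟨v, _, hv⟩ := he
    exact ⟨v, hv⟩
  · intro v
    simp only
    have ho : v ∈ ends (g (a v)) := by
      rw [(hg _ (ha1 v)).2, ha2 v]
      exact Sym2.mem_mk_left _ _
    by_cases hv : v = r
    · rw [if_pos hv]
      have h2 := hg (Fintype.card V - 1) (by omega)
      refine ⟨h2.1, ?_, ho, ?_⟩
      · rw [h2.2, hv, show Fintype.card V - 1 + 1 = Fintype.card V from by omega, hxn]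
        exact Sym2.mem_mk_right _ _
      · intro h3
        have h4 := hginj _ _ (by omega) (ha1 v) h3
        rw [hv, har] at h4
        omega
    · rw [if_neg hv]
      have hav : a v ≠ 0 := by
        intro h0
        apply hv
        apply hainj
        rw [h0, har]
      have h2 := hg (a v - 1) (by have := ha1 v; omega)
      refine ⟨h2.1, ?_, ho, ?_⟩
      · rw [h2.2, show a v - 1 + 1 = a v from by omega, ha2 v]
        exact Sym2.mem_mk_right _ _
      · intro h3
        have h4 := hginj _ _ (by have := ha1 v; omega) (ha1 v) h3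
        omega
  · intro v hv
    have hav : a v ≠ 0 := by
      intro h0
      apply hv
      apply hainj
      rw [h0, har]
    refine ⟨p.getVert (a v - 1), ?_, ?_⟩
    · rw [hax _ (by have := ha1 v; omega)]
      omega
    · simp only
      rw [if_neg hv, hax _ (by have := ha1 v; omega)]
  · refine ⟨p.getVert (Fintype.card V - 1), ?_, ?_⟩
    · rw [hax _ (by omega)]
      omega
    · simp only [if_true]
      rw [hax _ (by omega)]

end MP_947208_co
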