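import Mathlib
import Pool.Agent.Work.MP_947208_co.GT
import Pool.Agent.Work.MP_947208_co.Ham

/-! Cuts modulo two and spanning trees. -/

set_option linter.unusedSectionVars false
set_option linter.unusedVariables false

namespace MP_947208_co

open Finset Function

variable {V E : Type} [Fintype V] [DecidableEq V] [Fintype E] [DecidableEq E]
variable {ends : E → Sym2 V}

/-- The edges of `K` with an odd number of ends in `Q`. -/
def cut (ends : E → Sym2 V) (K : Finset E) (Q : Finset V) : Finset E :=
  K.filter fun e => Odd (Q.filter fun u => u ∈ ends e).card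

theorem mem_cut {K : Finset E} {Q : Finset V} {e : E} :
    e ∈ cut ends K Q ↔ e ∈ K ∧ Odd (Q.filter fun u => u ∈ ends e).card := by
  unfold cut
  rw [Finset.mem_filter]

theorem cut_mono {K K' : Finset E} (h : K ⊆ K') (Q : Finset V) :
    cut ends K Q ⊆ cut ends K' Q := Finset.filter_subset_filter _ h

theorem cut_sub (K : Finset E) (Q : Finset V) : cut ends K Q ⊆ K := Finset.filter_subset _ _

theorem cut_parity (S : Finset E) (Q : Finset V) :
    Odd (∑ v ∈ Q, deg ends S v) ↔ Odd (cut ends S Q).card := by
  have h1 : ∑ v ∈ Q, deg ends S v = ∑ e ∈ S, (Q.filter fun u => u ∈ ends e).card := by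
    unfold deg
    simp only [Finset.card_filter]
    rw [Finset.sum_comm]
  rw [h1, Finset.odd_sum_iff_odd_card_odd]
  rfl

theorem cut_even {S : Finset E} (h : ∀ v, Even (deg ends S v)) (Q : Finset V) :
    Even (cut ends S Q).card := by
  rw [← Nat.not_odd_iff_even, ← cut_parity, Nat.not_odd_iff_even]
  exact Finset.even_sum _ (fun v _ => h v)

theorem deg_symmDiff (S S' : Finset E) (v : V) :
    (Even (deg ends (symmDiff S S') v) ↔ (Even (deg ends S v) ↔ Even (deg ends S' v))) := by
  have h1 : deg ends (symmDiff S S') v = deg ends (S \ S') v + deg ends (S' \ S) v := by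
    rw [← deg_union (by
      rw [Finset.disjoint_left]
      intro e he he'
      exact (Finset.mem_sdiff.1 he').2 (Finset.mem_sdiff.1 he).1)]
    rfl
  have h2 : deg ends S v = deg ends (S \ S') v + deg ends (S ∩ S') v := by
    rw [← deg_union (Finset.disjoint_sdiff_inter S S'), Finset.sdiff_union_inter]
  have h3 : deg ends S' v = deg ends (S' \ S) v + deg ends (S ∩ S') v := by
    rw [Finset.inter_comm, ← deg_union (Finset.disjoint_sdiff_inter S' S),
      Finset.sdiff_union_inter]
  rw [h1, h2, h3, Nat.even_add, Nat.even_add, Nat.even_add]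
  tauto

/-- Spanning trees. -/
def Tree (ends : E → Sym2 V) (T : Finset E) : Prop :=
  T.card + 1 = Fintype.card V ∧ Forest ends T

theorem forest_inj {T : Finset E} (hT : Forest ends T) (hl : ∀ e ∈ T, ¬ (ends e).IsDiag) (r : V)
    {S S' : Finset E} (hS : S ⊆ T) (hS' : S' ⊆ T)
    (h : ∀ v, v ≠ r → (Even (deg ends S v) ↔ Even (deg ends S' v))) : S = S' := by
  have h1 : symmDiff S S' ⊆ T := by
    intro e he
    rcases Finset.mem_symmDiff.1 he with h | h
    · exact hS h.1
    · exact hS' h.1
  have h2 := hT _ h1 (even_last _ (fun e he => hl e (h1 he)) r (fun v hv => by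
    rw [deg_symmDiff]
    exact h v hv))
  rwa [← Finset.bot_eq_empty, symmDiff_eq_bot] at h2

open Classical in
/-- A spanning tree realizes every even set of vertices as set of odd degrees. -/
theorem Tree.exists_odd {T : Finset E} (hT : Tree ends T) (hl : ∀ e ∈ T, ¬ (ends e).IsDiag)
    (O : Finset V) (hO : Even O.card) : ∃ S ⊆ T, ∀ v, Odd (deg ends S v) ↔ v ∈ O := by
  obtain ⟨r⟩ : Nonempty V := by
    rw [← Fintype.card_pos_iff]
    have := hT.1
    omega
  set g : Finset E → Finset V := fun S => (univ.erase r).filter fun v => Odd (deg ends S v)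
    with hg
  have himg : T.powerset.image g = (univ.erase r).powerset := by
    apply Finset.eq_of_subset_of_card_le
    · intro A hA
      obtain ⟨S, _, rfl⟩ := Finset.mem_image.1 hA
      rw [Finset.mem_powerset]
      exact Finset.filter_subset _ _
    · rw [Finset.card_image_of_injOn, Finset.card_powerset, Finset.card_powerset,
        Finset.card_erase_of_mem (Finset.mem_univ r), Finset.card_univ]
      · have := hT.1
        rw [← this]
        simp
      · intro S hS S' hS' heq
        rw [Finset.mem_coe, Finset.mem_powerset] at hS hS'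
        apply forest_inj hT.2 hl r hS hS'
        intro v hv
        have h1 := Finset.ext_iff.1 heq v
        simp only [hg, mem_filter, mem_erase, ne_eq, mem_univ, and_true] at h1
        have h2 : Odd (deg ends S v) ↔ Odd (deg ends S' v) := by
          constructor
          · intro h; exact (h1.1 ⟨hv, h⟩).2
          · intro h; exact (h1.2 ⟨hv, h⟩).2
        rw [← Nat.not_odd_iff_even, ← Nat.not_odd_iff_even, h2]
  have h1 : O.erase r ∈ T.powerset.image g := by
    rw [himg, Finset.mem_powerset]
    exact Finset.erase_subset_erase _ (Finset.subset_univ _)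
  obtain ⟨S, hS, hSO⟩ := Finset.mem_image.1 h1
  rw [Finset.mem_powerset] at hS
  refine ⟨S, hS, ?_⟩
  have h2 : ∀ v, v ≠ r → (Odd (deg ends S v) ↔ v ∈ O) := by
    intro v hv
    have h3 := Finset.ext_iff.1 hSO v
    simp only [hg, mem_filter, mem_erase, ne_eq, mem_univ, and_true] at h3
    constructor
    · intro h; exact (h3.1 ⟨hv, h⟩).2
    · intro h; exact (h3.2 ⟨hv, h⟩).2
  intro v
  by_cases hv : v = r
  · subst hv
    have h4 := handshake S (fun e he => hl e (hS he))
    have h5 : Even (∑ u, deg ends S u) := by rw [h4]; exact even_two_mul _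
    rw [← Nat.not_odd_iff_even, Finset.odd_sum_iff_odd_card_odd, Nat.not_odd_iff_even] at h5
    have h6 : (univ.filter fun u => Odd (deg ends S u)) =
        if Odd (deg ends S v) then insert v (O.erase v) else O.erase v := by
      ext u
      by_cases hu : u = v
      · subst hu
        split_ifs with h <;> simp [h]
      · split_ifs with h <;> simp [hu, h2 u hu]
    rw [h6] at h5
    by_cases h : Odd (deg ends S v)
    · rw [if_pos h, Finset.card_insert_of_notMem (Finset.notMem_erase _ _)] at h5
      by_cases hvO : v ∈ O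
      · simp [h, hvO]
      · rw [Finset.erase_eq_of_notMem hvO] at h5
        obtain ⟨a, ha⟩ := hO
        obtain ⟨b, hb⟩ := h5
        omega
    · rw [if_neg h] at h5
      by_cases hvO : v ∈ O
      · rw [Finset.card_erase_of_mem hvO] at h5
        have : 0 < O.card := Finset.card_pos.2 ⟨v, hvO⟩
        obtain ⟨a, ha⟩ := hO
        obtain ⟨b, hb⟩ := h5
        omega
      · simp [h, hvO]
  · exact h2 v hv

theorem Tree.cut_nonempty {T : Finset E} (hT : Tree ends T) (hl : ∀ e ∈ T, ¬ (ends e).IsDiag)
    {Q : Finset V} (hQ : Q.Nonempty) (hQ' : Q ≠ univ) : (cut ends T Q).Nonempty := by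
  classical
  obtain ⟨x, hx⟩ := hQ
  obtain ⟨y, hy⟩ : ∃ y, y ∉ Q := by
    by_contra h
    push Not at h
    exact hQ' (Finset.eq_univ_iff_forall.2 h)
  have hxy : x ≠ y := by rintro rfl; exact hy hx
  obtain ⟨S, hS, hodd⟩ := hT.exists_odd hl {x, y} (by rw [Finset.card_pair hxy]; exact even_two)
  have h1 : Odd (∑ v ∈ Q, deg ends S v) := by
    rw [Finset.odd_sum_iff_odd_card_odd]
    have : (Q.filter fun v => Odd (deg ends S v)) = {x} := by
      ext v
      rw [Finset.mem_filter, hodd, Finset.mem_singleton, Finset.mem_insert, Finset.mem_singleton]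
      constructor
      · rintro ⟨h1, h2 | h2⟩
        · exact h2
        · exact absurd (h2 ▸ h1) hy
      · rintro rfl
        exact ⟨hx, Or.inl rfl⟩
    rw [this, Finset.card_singleton]
    exact odd_one
  rw [cut_parity] at h1
  obtain ⟨e, he⟩ := Finset.card_pos.1 h1.pos
  exact ⟨e, cut_mono hS Q he⟩

theorem Tree.deg_pos {T : Finset E} (hT : Tree ends T) (hl : ∀ e ∈ T, ¬ (ends e).IsDiag)
    (hn : 2 ≤ Fintype.card V) (v : V) : 1 ≤ deg ends T v := by
  classical
  have h1 : ({v} : Finset V) ≠ univ := by
    intro h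
    have := congrArg Finset.card h
    rw [Finset.card_singleton, Finset.card_univ] at this
    omega
  obtain ⟨e, he⟩ := hT.cut_nonempty hl (Finset.singleton_nonempty v) h1
  rw [mem_cut] at he
  obtain ⟨u, hu⟩ := Finset.card_pos.1 he.2.pos
  rw [Finset.mem_filter, Finset.mem_singleton] at hu
  exact Finset.card_pos.2 ⟨e, Finset.mem_filter.2 ⟨he.1, hu.1 ▸ hu.2⟩⟩

/-- The fundamental cycle. -/
theorem Tree.exists_cycle {T : Finset E} (hT : Tree ends T) (hl : ∀ e ∈ T, ¬ (ends e).IsDiag)
    {e : E} (he : e ∉ T) (hle : ¬ (ends e).IsDiag) :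
    ∃ Z ⊆ insert e T, e ∈ Z ∧ ∀ v, Even (deg ends Z v) := by
  classical
  obtain ⟨S, hS, hodd⟩ := hT.exists_odd hl (ends e).toFinset
    (by rw [Sym2.card_toFinset_of_not_isDiag _ hle]; exact even_two)
  refine ⟨insert e S, Finset.insert_subset_insert _ hS, Finset.mem_insert_self _ _, ?_⟩
  intro v
  rw [deg_insert (fun h => he (hS h))]
  have := hodd v
  rw [Sym2.mem_toFinset] at this
  by_cases h : v ∈ ends e
  · rw [if_pos h]
    have h1 := this.2 h
    obtain ⟨a, ha⟩ := h1
    exact ⟨a + 1, by omega⟩
  · rw [if_neg h, add_zero, ← Nat.not_odd_iff_even]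
    exact fun h' => h (this.1 h')

theorem Tree.exchange_iff {T Z : Finset E} (hT : Tree ends T) {e : E} (he : e ∉ T)
    (hZ : Z ⊆ insert e T) (heZ : e ∈ Z) (hev : ∀ v, Even (deg ends Z v)) {f : E} (hf : f ∈ T) :
    Tree ends (insert e (T.erase f)) ↔ f ∈ Z := by
  classical
  have hef : e ≠ f := by rintro rfl; exact he hf
  have hcard : (insert e (T.erase f)).card = T.card := by
    rw [Finset.card_insert_of_notMem, Finset.card_erase_of_mem hf]
    · have := Finset.card_pos.2 ⟨f, hf⟩
      omega
    · intro h
      exact he (Finset.mem_of_mem_erase h)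
  constructor
  · rintro ⟨-, h⟩
    by_contra hfZ
    have h1 := h Z (by
      intro g hg
      rcases Finset.mem_insert.1 (hZ hg) with h | h
      · rw [h]; exact Finset.mem_insert_self _ _
      · exact Finset.mem_insert_of_mem (Finset.mem_erase.2 ⟨fun h' => hfZ (h' ▸ hg), h⟩)) hev
    rw [h1] at heZ
    exact absurd heZ (Finset.notMem_empty e)
  · intro hfZ
    refine ⟨by rw [hcard]; exact hT.1, ?_⟩
    intro R hR hRev
    by_cases heR : e ∈ R
    · have h1 := hT.2 (symmDiff R Z) (by
        intro g hg
        rcases Finset.mem_symmDiff.1 hg with ⟨h1, h2⟩ | ⟨h1, h2⟩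
        · rcases Finset.mem_insert.1 (hR h1) with h | h
          · exact absurd (h ▸ heZ) h2
          · exact Finset.mem_of_mem_erase h
        · rcases Finset.mem_insert.1 (hZ h1) with h | h
          · exact absurd (h ▸ heR) h2
          · exact h) (fun v => by
        rw [deg_symmDiff]
        simp [hRev v, hev v])
      rw [← Finset.bot_eq_empty, symmDiff_eq_bot] at h1
      rw [← h1] at hfZ
      rcases Finset.mem_insert.1 (hR hfZ) with h | h
      · exact absurd h.symm hef
      · exact absurd h (Finset.notMem_erase _ _)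
    · apply hT.2 R _ hRev
      intro g hg
      rcases Finset.mem_insert.1 (hR hg) with h | h
      · exact absurd (h ▸ hg) heR
      · exact Finset.mem_of_mem_erase h

end MP_947208_co
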