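import Mathlib
import Pool.Agent.Work.MP_947208_co.Cut

/-! The matrix tree theorem modulo two. -/

set_option linter.unusedSectionVars false
set_option linter.unusedVariables false

namespace MP_947208_co

open Finset Function

theorem det_expand {X E R : Type*} [Fintype X] [DecidableEq X] [Fintype E] [DecidableEq E]
    [CommRing R] (B : Matrix X E R) :
    (B * B.transpose).det =
      ∑ φ : X → E, (∏ v, B v (φ v)) * (Matrix.of fun u v => B u (φ v)).det := by
  rw [Matrix.det_apply']
  have h1 : ∀ σ : Equiv.Perm X, (∏ i, (B * B.transpose) (σ i) i) =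
      ∑ φ : X → E, ∏ i, (B (σ i) (φ i) * B i (φ i)) := by
    intro σ
    simp only [Matrix.mul_apply, Matrix.transpose_apply]
    rw [Finset.prod_univ_sum]
    rw [Fintype.piFinset_univ]
  simp only [h1, Finset.mul_sum]
  rw [Finset.sum_comm]
  apply Finset.sum_congr rfl
  intro φ _
  rw [Matrix.det_apply', Finset.mul_sum]
  apply Finset.sum_congr rfl
  intro σ _
  simp only [Matrix.of_apply]
  rw [Finset.prod_mul_distrib]
  ring

variable {V E : Type} [Fintype V] [DecidableEq V] [Fintype E] [DecidableEq E]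
variable {ends : E → Sym2 V}

open Classical in
/-- The incidence matrix without the row of the root. -/
noncomputable def inc (ends : E → Sym2 V) (W : Finset V) (x : V) (K : Finset E) :
    Matrix {v : V // v ∈ W ∧ v ≠ x} E (ZMod 2) :=
  Matrix.of fun v e => if e ∈ K ∧ (v : V) ∈ ends e then 1 else 0

open Classical in
/-- The edge sets of the spanning trees of `(W, K)`. -/
noncomputable def STrees (ends : E → Sym2 V) (W : Finset V) (K : Finset E) : Finset (Finset E) :=
  K.powerset.filter fun T => T.card + 1 = W.card ∧ Forest ends T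

open Classical in
theorem det_sub (W : Finset V) (x : V) (hx : x ∈ W) (K : Finset E)
    (hl : ∀ e ∈ K, ¬ (ends e).IsDiag) (hW : ∀ e ∈ K, ∀ v ∈ ends e, v ∈ W)
    (φ : {v : V // v ∈ W ∧ v ≠ x} → E) (hφ : ∀ v, φ v ∈ K) :
    (Matrix.of fun u v => inc ends W x K u (φ v)).det =
      if Injective φ ∧ Forest ends (univ.image φ) then 1 else 0 := by
  by_cases hinj : Injective φ
  · have h1 := card_sdr_eq_det (fun (v u : {v : V // v ∈ W ∧ v ≠ x}) => (u : V) ∈ ends (φ v))
      (Equiv.refl _)
    have h2 : (Matrix.of fun u v => inc ends W x K u (φ v)) =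
        (Matrix.of fun i j : {v : V // v ∈ W ∧ v ≠ x} =>
          if ((Equiv.refl {v : V // v ∈ W ∧ v ≠ x}) i : V) ∈ ends (φ j) then (1 : ZMod 2) else 0) := by
      ext i j
      simp only [Matrix.of_apply, inc, Equiv.refl_apply]
      simp [hφ j]
    rw [h2, ← h1, sdr_row _ rfl]
    have h3 := forest_iff (ends := ends) φ hinj W (fun i => hl _ (hφ i)) (fun i => hW _ (hφ i)) x
    by_cases hF : Forest ends (univ.image φ)
    · rw [if_pos (h3.2 hF), if_pos ⟨hinj, hF⟩]
    · rw [if_neg (fun h => hF (h3.1 h)), if_neg (fun h => hF h.2)]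
  · rw [if_neg (fun h => hinj h.1)]
    rw [Function.not_injective_iff] at hinj
    obtain ⟨a, b, hab, hne⟩ := hinj
    apply Matrix.det_zero_of_column_eq hne
    intro k
    simp only [Matrix.of_apply]
    rw [hab]

open Classical in
/-- The number of spanning trees is the determinant modulo two. -/
theorem card_STrees (W : Finset V) (x : V) (hx : x ∈ W) (K : Finset E)
    (hl : ∀ e ∈ K, ¬ (ends e).IsDiag) (hW : ∀ e ∈ K, ∀ v ∈ ends e, v ∈ W) :
    ((STrees ends W K).card : ZMod 2) =
      (inc ends W x K * (inc ends W x K).transpose).det := by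
  rw [det_expand]
  have h1 : ∀ φ : {v : V // v ∈ W ∧ v ≠ x} → E,
      (∏ v, inc ends W x K v (φ v)) * (Matrix.of fun u v => inc ends W x K u (φ v)).det =
      if (Injective φ ∧ (∀ v, φ v ∈ K ∧ (v : V) ∈ ends (φ v))) ∧ Forest ends (univ.image φ)
        then 1 else 0 := by
    intro φ
    by_cases hφ : ∀ v, φ v ∈ K ∧ (v : V) ∈ ends (φ v)
    · rw [det_sub W x hx K hl hW φ (fun v => (hφ v).1)]
      have : ∏ v, inc ends W x K v (φ v) = 1 := by
        apply Finset.prod_eq_one
        intro v _
        simp only [inc, Matrix.of_apply]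
        rw [if_pos (hφ v)]
      rw [this, one_mul]
      by_cases h2 : Injective φ ∧ Forest ends (univ.image φ)
      · rw [if_pos h2, if_pos ⟨⟨h2.1, hφ⟩, h2.2⟩]
      · rw [if_neg h2, if_neg (fun h => h2 ⟨h.1.1, h.2⟩)]
    · rw [if_neg (fun h => hφ h.1.2)]
      push Not at hφ
      obtain ⟨v, hv⟩ := hφ
      have : ∏ v, inc ends W x K v (φ v) = 0 := by
        apply Finset.prod_eq_zero (Finset.mem_univ v)
        simp only [inc, Matrix.of_apply]
        rw [if_neg]
        rintro ⟨h1, h2⟩
        exact hv h1 h2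
      rw [this, zero_mul]
  rw [Finset.sum_congr rfl (fun φ _ => h1 φ), ← Finset.sum_filter, Finset.sum_const, nsmul_one]
  set A := (univ.filter fun φ : {v : V // v ∈ W ∧ v ≠ x} → E =>
    (Injective φ ∧ (∀ v, φ v ∈ K ∧ (v : V) ∈ ends (φ v))) ∧ Forest ends (univ.image φ)) with hA
  have hmaps : ∀ φ ∈ A, (univ.image φ : Finset E) ∈ STrees ends W K := by
    intro φ hφ
    rw [hA, Finset.mem_filter] at hφ
    obtain ⟨_, ⟨h1, h2⟩, h3⟩ := hφ
    unfold STrees
    rw [Finset.mem_filter, Finset.mem_powerset]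
    refine ⟨?_, ?_, h3⟩
    · intro e he
      obtain ⟨v, _, rfl⟩ := Finset.mem_image.1 he
      exact (h2 v).1
    · rw [Finset.card_image_of_injective _ h1, Finset.card_univ, card_sub W x hx]
  rw [Finset.card_eq_sum_card_fiberwise hmaps]
  rw [Nat.cast_sum, Finset.card_eq_sum_ones, Nat.cast_sum]
  apply Finset.sum_congr rfl
  intro T hT
  unfold STrees at hT
  rw [Finset.mem_filter, Finset.mem_powerset] at hT
  have h2 := card_arb W x hx T hT.2.1 (fun e he => hl e (hT.1 he)) (fun e he => hW e (hT.1 he))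
  rw [if_pos hT.2.2] at h2
  rw [Nat.cast_one, ← h2]
  congr 2
  ext φ
  rw [hA, Finset.mem_filter, Finset.mem_filter]
  simp only [Arb, mem_filter, mem_univ, true_and]
  constructor
  · rintro ⟨h3, h4⟩
    have himg : (univ.image φ : Finset E) = T := by
      apply Finset.eq_of_subset_of_card_le
      · intro e he
        obtain ⟨a, _, rfl⟩ := Finset.mem_image.1 he
        exact (h4 a).1
      · rw [Finset.card_image_of_injective _ h3, Finset.card_univ]
        have := card_sub W x hx
        omega
    exact ⟨⟨⟨h3, fun v => ⟨hT.1 (h4 v).1, (h4 v).2⟩⟩, by rw [himg]; exact hT.2.2⟩, himg⟩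
  · rintro ⟨⟨⟨h3, h4⟩, _⟩, h6⟩
    exact ⟨h3, fun v => ⟨by rw [← h6]; exact Finset.mem_image_of_mem _ (Finset.mem_univ v),
      (h4 v).2⟩⟩

private theorem zmod2_cases' (z : ZMod 2) : z = 0 ∨ z = 1 := by
  revert z; decide

theorem natCast_odd {a : ℕ} : ((a : ZMod 2) = 1) ↔ Odd a := by
  rw [← Nat.not_even_iff_odd, ← ZMod.natCast_eq_zero_iff_even]
  rcases zmod2_cases' (a : ZMod 2) with h | h
  · rw [h]; simp
  · rw [h]; simp

theorem natCast_ite_odd (a : ℕ) : (a : ZMod 2) = if Odd a then 1 else 0 := by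
  by_cases h : Odd a
  · rw [if_pos h]; exact natCast_odd.2 h
  · rw [if_neg h, ZMod.natCast_eq_zero_iff_even]
    exact Nat.not_odd_iff_even.1 h

open Classical in
theorem vecMul_inc (W : Finset V) (x : V) (K : Finset E) (Q : Finset V) (hQ : Q ⊆ W) (hxQ : x ∉ Q)
    (v : {v : V // v ∈ W ∧ v ≠ x}) :
    Matrix.vecMul (fun u : {v : V // v ∈ W ∧ v ≠ x} => if (u : V) ∈ Q then (1 : ZMod 2) else 0)
      (inc ends W x K * (inc ends W x K).transpose) v = (deg ends (cut ends K Q) (v : V) : ZMod 2) := by
  rw [← Matrix.vecMul_vecMul]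
  have h1 : ∀ e, Matrix.vecMul (fun u : {v : V // v ∈ W ∧ v ≠ x} =>
      if (u : V) ∈ Q then (1 : ZMod 2) else 0) (inc ends W x K) e =
      if e ∈ cut ends K Q then 1 else 0 := by
    intro e
    rw [Matrix.vecMul, dotProduct]
    simp only [inc, Matrix.of_apply]
    by_cases he : e ∈ K
    · simp only [he, true_and]
      have h2 : (∑ u : {v : V // v ∈ W ∧ v ≠ x}, (if (u : V) ∈ Q then (1 : ZMod 2) else 0) *
          (if (u : V) ∈ ends e then 1 else 0)) = ((Q.filter fun u => u ∈ ends e).card : ZMod 2) := by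
        have h3 : ∀ u : {v : V // v ∈ W ∧ v ≠ x}, (if (u : V) ∈ Q then (1 : ZMod 2) else 0) *
          (if (u : V) ∈ ends e then 1 else 0) =
          if (u : V) ∈ Q.filter (fun u => u ∈ ends e) then 1 else 0 := by
          intro u
          by_cases h4 : (u : V) ∈ Q <;> by_cases h5 : (u : V) ∈ ends e <;>
            simp [Finset.mem_filter, h4, h5]
        rw [Finset.sum_congr rfl (fun u _ => h3 u), ← Finset.sum_filter, Finset.sum_const,
          nsmul_one]
        congr 1
        apply Finset.card_bij (fun (u : {v : V // v ∈ W ∧ v ≠ x}) _ => (u : V))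
        · intro u hu
          exact (Finset.mem_filter.1 hu).2
        · intro u _ u' _ h
          exact Subtype.ext h
        · intro u hu
          have hu' := Finset.mem_filter.1 hu
          refine ⟨⟨u, hQ hu'.1, fun h => hxQ (h ▸ hu'.1)⟩, ?_, rfl⟩
          rw [Finset.mem_filter]
          exact ⟨Finset.mem_univ _, hu⟩
      rw [h2, natCast_ite_odd]
      simp [mem_cut, he]
    · have : e ∉ cut ends K Q := fun h => he (mem_cut.1 h).1
      simp [he, this]
  rw [Matrix.vecMul, dotProduct]
  simp only [h1]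
  simp only [Matrix.transpose_apply, inc, Matrix.of_apply]
  unfold deg
  rw [Finset.card_filter, Nat.cast_sum]
  rw [← Finset.sum_filter_add_sum_filter_not univ (fun e => e ∈ cut ends K Q)]
  have h5 : (univ.filter fun e => e ∈ cut ends K Q) = cut ends K Q := by ext; simp
  rw [h5]
  have h6 : (∑ e ∈ univ.filter (fun e => ¬ e ∈ cut ends K Q), (if e ∈ cut ends K Q then (1 : ZMod 2) else 0) *
      (if e ∈ K ∧ (v : V) ∈ ends e then 1 else 0)) = 0 := by
    apply Finset.sum_eq_zero
    intro e he
    rw [Finset.mem_filter] at he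
    rw [if_neg he.2, zero_mul]
  rw [h6, add_zero]
  apply Finset.sum_congr rfl
  intro e he
  rw [if_pos he, one_mul]
  have := (mem_cut.1 he).1
  by_cases h7 : (v : V) ∈ ends e <;> simp [this, h7]

theorem cut_compl {W : Finset V} {K : Finset E}
    (hl : ∀ e ∈ K, ¬ (ends e).IsDiag) (hW : ∀ e ∈ K, ∀ v ∈ ends e, v ∈ W) {Q : Finset V}
    (hQ : Q ⊆ W) : cut ends K (W \ Q) = cut ends K Q := by
  unfold cut
  apply Finset.filter_congr
  intro e he
  have h1 : (Q.filter fun u => u ∈ ends e).card + ((W \ Q).filter fun u => u ∈ ends e).card = 2 := by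
    rw [← Finset.card_union_of_disjoint (Finset.disjoint_filter_filter Finset.disjoint_sdiff),
      ← Finset.filter_union, Finset.union_sdiff_of_subset hQ,
      ← Sym2.card_toFinset_of_not_isDiag _ (hl e he)]
    congr 1
    ext v
    rw [Finset.mem_filter, Sym2.mem_toFinset]
    exact ⟨fun h => h.2, fun h => ⟨hW e he v h, h⟩⟩
  have h2 : Even ((Q.filter fun u => u ∈ ends e).card + ((W \ Q).filter fun u => u ∈ ends e).card) := by
    rw [h1]; exact even_two
  rw [Nat.even_add] at h2
  rw [← Nat.not_even_iff_odd, ← Nat.not_even_iff_odd, h2]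

/-- The number of spanning trees is odd if and only if no proper cut is even. -/
theorem odd_STrees (W : Finset V) (hWne : W.Nonempty) (K : Finset E)
    (hl : ∀ e ∈ K, ¬ (ends e).IsDiag) (hW : ∀ e ∈ K, ∀ v ∈ ends e, v ∈ W) :
    Odd (STrees ends W K).card ↔
      ∀ Q ⊆ W, (∀ v ∈ W, Even (deg ends (cut ends K Q) v)) → Q = ∅ ∨ Q = W := by
  classical
  obtain ⟨x, hx⟩ := hWne
  have hev : ∀ Q : Finset V, (∀ v ∈ W, v ≠ x → Even (deg ends (cut ends K Q) v)) →
      ∀ v, Even (deg ends (cut ends K Q) v) := by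
    intro Q h
    apply even_last _ (fun e he => hl e (cut_sub K Q he)) x
    intro v hv
    by_cases hvW : v ∈ W
    · exact h v hvW hv
    · have : deg ends (cut ends K Q) v = 0 := by
        rw [deg_eq_zero]
        intro e he hve
        exact hvW (hW e (cut_sub K Q he) v hve)
      rw [this]
      exact Even.zero
  rw [← natCast_odd, card_STrees W x hx K hl hW]
  constructor
  · intro hdet
    have key : ∀ Q ⊆ W, x ∉ Q → (∀ v ∈ W, Even (deg ends (cut ends K Q) v)) → Q = ∅ := by
      intro Q hQ hxQ hQe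
      by_contra hne
      obtain ⟨q, hq⟩ := Finset.nonempty_iff_ne_empty.2 hne
      have h0 : (inc ends W x K * (inc ends W x K).transpose).det = 0 := by
        rw [← Matrix.exists_vecMul_eq_zero_iff]
        refine ⟨fun u => if (u : V) ∈ Q then (1 : ZMod 2) else 0, ?_, ?_⟩
        · intro h
          have := congrFun h ⟨q, hQ hq, fun h' => hxQ (h' ▸ hq)⟩
          simp [hq] at this
        · funext v
          rw [vecMul_inc W x K Q hQ hxQ v, Pi.zero_apply, ZMod.natCast_eq_zero_iff_even]
          exact hQe v v.2.1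
      rw [h0] at hdet
      exact absurd hdet (by decide)
    intro Q hQ hQe
    by_cases hxQ : x ∈ Q
    · right
      have h1 := key (W \ Q) Finset.sdiff_subset (fun h => (Finset.mem_sdiff.1 h).2 hxQ) (by
        rw [cut_compl hl hW hQ]
        exact hQe)
      rw [Finset.sdiff_eq_empty_iff_subset] at h1
      exact Finset.Subset.antisymm hQ h1
    · left
      exact key Q hQ hxQ hQe
  · intro h
    by_contra hdet
    have h0 : (inc ends W x K * (inc ends W x K).transpose).det = 0 := by
      rcases zmod2_cases' (inc ends W x K * (inc ends W x K).transpose).det with h | h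
      · exact h
      · exact absurd h hdet
    rw [← Matrix.exists_vecMul_eq_zero_iff] at h0
    obtain ⟨y, hy, hy0⟩ := h0
    set Q : Finset V := W.filter fun v => ∃ h : v ∈ W ∧ v ≠ x, y ⟨v, h⟩ = 1 with hQ
    have hxQ : x ∉ Q := by
      rw [hQ, Finset.mem_filter]
      rintro ⟨_, h, _⟩
      exact h.2 rfl
    have hyQ : y = fun u : {v : V // v ∈ W ∧ v ≠ x} => if (u : V) ∈ Q then (1 : ZMod 2) else 0 := by
      funext u
      by_cases hu : (u : V) ∈ Q
      · rw [if_pos hu]
        rw [hQ, Finset.mem_filter] at hu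
        obtain ⟨_, h1, h2⟩ := hu
        exact h2
      · rw [if_neg hu]
        rcases zmod2_cases' (y u) with h1 | h1
        · exact h1
        · exfalso
          apply hu
          rw [hQ, Finset.mem_filter]
          exact ⟨u.2.1, u.2, h1⟩
    have h1 := h Q (Finset.filter_subset _ _) (fun v _ => hev Q (fun v hv hvx => by
      have h2 := congrFun hy0 ⟨v, hv, hvx⟩
      rw [hyQ, vecMul_inc W x K Q (Finset.filter_subset _ _) hxQ, Pi.zero_apply,
        ZMod.natCast_eq_zero_iff_even] at h2
      exact h2) v)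
    rcases h1 with h1 | h1
    · apply hy
      rw [hyQ, h1]
      funext u
      simp
    · rw [h1] at hxQ
      exact hxQ hx

end MP_947208_co
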