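import Mathlib
import Pool.Agent.Work.MP_947208_co.MTree

/-! The spanning trees in which all vertices outside a given set are leaves. -/

set_option linter.unusedSectionVars false
set_option linter.unusedVariables false

namespace MP_947208_co

open Finset Function

variable {V E : Type} [Fintype V] [DecidableEq V] [Fintype E] [DecidableEq E]
variable {ends : E → Sym2 V}

open Classical in
/-- The edges of `K` inside `P`. -/
noncomputable def inside (ends : E → Sym2 V) (K : Finset E) (P : Finset V) : Finset E :=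
  K.filter fun e => ∀ v ∈ ends e, v ∈ P

open Classical in
/-- The edges of `K` from `v` to `P`. -/
noncomputable def att (ends : E → Sym2 V) (K : Finset E) (P : Finset V) (v : V) : Finset E :=
  K.filter fun e => v ∈ ends e ∧ ∃ u ∈ P, u ∈ ends e

/-- The condition on `P`. -/
def Star (ends : E → Sym2 V) (K : Finset E) (P : Finset V) : Prop :=
  P.Nonempty ∧ (∀ v, v ∉ P → Odd (att ends K P v).card) ∧
    ∀ Q ⊆ P, (∀ v ∈ P, Even (deg ends (cut ends (inside ends K P) Q) v)) → Q = ∅ ∨ Q = P

open Classical in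
/-- The spanning trees in which all vertices outside `P` are leaves. -/
noncomputable def aT (ends : E → Sym2 V) (K : Finset E) (P : Finset V) : Finset (Finset E) :=
  (STrees ends univ K).filter fun T => ∀ v, v ∉ P → deg ends T v = 1

theorem mem_STrees {W : Finset V} {K T : Finset E} :
    T ∈ STrees ends W K ↔ T ⊆ K ∧ T.card + 1 = W.card ∧ Forest ends T := by
  classical
  unfold STrees
  rw [Finset.mem_filter, Finset.mem_powerset]

theorem mem_STrees_univ {K T : Finset E} :
    T ∈ STrees ends univ K ↔ T ⊆ K ∧ Tree ends T := by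
  rw [mem_STrees, Finset.card_univ]
  rfl

theorem mem_inside {K : Finset E} {P : Finset V} {e : E} :
    e ∈ inside ends K P ↔ e ∈ K ∧ ∀ v ∈ ends e, v ∈ P := by
  classical
  unfold inside
  rw [Finset.mem_filter]

theorem mem_att {K : Finset E} {P : Finset V} {v : V} {e : E} :
    e ∈ att ends K P v ↔ e ∈ K ∧ v ∈ ends e ∧ ∃ u ∈ P, u ∈ ends e := by
  classical
  unfold att
  rw [Finset.mem_filter]

theorem mem_aT {K T : Finset E} {P : Finset V} :
    T ∈ aT ends K P ↔ (T ⊆ K ∧ Tree ends T) ∧ ∀ v, v ∉ P → deg ends T v = 1 := by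
  classical
  unfold aT
  rw [Finset.mem_filter, mem_STrees_univ]

theorem att_unique {K : Finset E} {P : Finset V} {v w : V} {e : E} (he : e ∈ att ends K P v)
    (hv : v ∉ P) (hw : w ∉ P) (hwe : w ∈ ends e) : w = v := by
  rw [mem_att] at he
  obtain ⟨_, hve, u, hu, hue⟩ := he
  have hvu : v ≠ u := by rintro rfl; exact hv hu
  have h1 : ends e = s(v, u) := (Sym2.mem_and_mem_iff hvu).1 ⟨hve, hue⟩
  rw [h1, Sym2.mem_iff] at hwe
  rcases hwe with h | h
  · exact h
  · exact absurd (h ▸ hu) hw

theorem eq_of_deg_one {T : Finset E} {v : V} (h : deg ends T v = 1) {e f : E} (he : e ∈ T)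
    (hve : v ∈ ends e) (hf : f ∈ T) (hvf : v ∈ ends f) : e = f := by
  unfold deg at h
  obtain ⟨g, hg⟩ := Finset.card_eq_one.1 h
  have h1 : e ∈ T.filter fun e => v ∈ ends e := Finset.mem_filter.2 ⟨he, hve⟩
  have h2 : f ∈ T.filter fun e => v ∈ ends e := Finset.mem_filter.2 ⟨hf, hvf⟩
  rw [hg, Finset.mem_singleton] at h1 h2
  rw [h1, h2]

theorem exists_of_deg_one {T : Finset E} {v : V} (h : deg ends T v = 1) :
    ∃ e, e ∈ T ∧ v ∈ ends e := by
  have h1 : 0 < deg ends T v := by omega
  obtain ⟨e, he⟩ := Finset.card_pos.1 h1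
  exact ⟨e, (Finset.mem_filter.1 he).1, (Finset.mem_filter.1 he).2⟩

/-- A leaf outside `P` hangs on a vertex of `P`. -/
theorem leaf_att {K T : Finset E} (hl : ∀ e ∈ K, ¬ (ends e).IsDiag) (hn : 3 ≤ Fintype.card V)
    {P : Finset V} (hT : T ∈ aT ends K P) {v : V} (hv : v ∉ P) {e : E} (he : e ∈ T)
    (hve : v ∈ ends e) : e ∈ att ends K P v := by
  classical
  rw [mem_aT] at hT
  obtain ⟨⟨hTK, hT1⟩, hT2⟩ := hT
  obtain ⟨u, hu⟩ := exists_other hve
  have huv : u ≠ v := by
    rintro rfl
    apply hl e (hTK he)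
    rw [hu]
    exact Sym2.mk_isDiag_iff.2 rfl
  rw [mem_att]
  refine ⟨hTK he, hve, u, ?_, by rw [hu]; exact Sym2.mem_mk_right _ _⟩
  by_contra huP
  have h1 : ({v, u} : Finset V) ≠ univ := by
    intro h
    have := congrArg Finset.card h
    rw [Finset.card_pair huv.symm, Finset.card_univ] at this
    omega
  obtain ⟨f, hf⟩ := hT1.cut_nonempty (fun e he => hl e (hTK he)) ⟨v, by simp⟩ h1
  rw [mem_cut] at hf
  obtain ⟨hfT, hodd⟩ := hf
  have hfe : f = e := by
    obtain ⟨w, hw⟩ := Finset.card_pos.1 hodd.pos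
    rw [Finset.mem_filter, Finset.mem_insert, Finset.mem_singleton] at hw
    rcases hw.1 with h | h
    · exact eq_of_deg_one (hT2 v hv) hfT (h ▸ hw.2) he hve
    · exact eq_of_deg_one (hT2 u huP) hfT (h ▸ hw.2) he
        (by rw [hu]; exact Sym2.mem_mk_right _ _)
  rw [hfe, hu] at hodd
  have : (({v, u} : Finset V).filter fun w => w ∈ s(v, u)) = {v, u} := by
    ext w
    simp only [mem_filter, mem_insert, mem_singleton, Sym2.mem_iff]
    tauto
  rw [this, Finset.card_pair huv.symm] at hodd
  exact absurd hodd (by decide)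

open Classical in
theorem card_aT (K : Finset E) (hl : ∀ e ∈ K, ¬ (ends e).IsDiag) (hn : 3 ≤ Fintype.card V)
    (P : Finset V) : (aT ends K P).card =
      (STrees ends P (inside ends K P)).card * ∏ v : {v : V // v ∉ P}, (att ends K P v).card := by
  rw [← Fintype.card_piFinset, ← Finset.card_product]
  symm
  have hinj : ∀ g : {v : V // v ∉ P} → E, (∀ v : {v : V // v ∉ P}, g v ∈ att ends K P (v : V)) → Injective g := by
    intro g hg u v huv
    have h1 := (mem_att.1 (hg v)).2.1
    rw [← huv] at h1
    exact Subtype.ext (att_unique (hg u) u.2 v.2 h1).symm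
  have hsub : Fintype.card {v : V // v ∉ P} + P.card = Fintype.card V := by
    rw [Fintype.card_subtype_compl, Fintype.card_coe]
    have := Finset.card_le_univ P
    omega
  have hnin : ∀ g : {v : V // v ∉ P} → E, (∀ v : {v : V // v ∉ P}, g v ∈ att ends K P (v : V)) →
      ∀ v, ∀ T', T' ⊆ inside ends K P → g v ∉ T' := by
    intro g hg v T' hT' h
    exact v.2 ((mem_inside.1 (hT' h)).2 v (mem_att.1 (hg v)).2.1)
  have hdeg : ∀ g : {v : V // v ∉ P} → E, (∀ v : {v : V // v ∉ P}, g v ∈ att ends K P (v : V)) →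
      ∀ T', T' ⊆ inside ends K P → ∀ v, v ∉ P → deg ends (T' ∪ univ.image g) v = 1 := by
    intro g hg T' hT' v hv
    unfold deg
    rw [Finset.card_eq_one]
    refine ⟨g ⟨v, hv⟩, ?_⟩
    ext e
    rw [Finset.mem_filter, Finset.mem_union, Finset.mem_singleton]
    constructor
    · rintro ⟨h1 | h1, h2⟩
      · exact absurd ((mem_inside.1 (hT' h1)).2 v h2) hv
      · obtain ⟨u, _, rfl⟩ := Finset.mem_image.1 h1
        congr 1
        exact Subtype.ext (att_unique (hg u) u.2 hv h2).symm
    · rintro rfl
      exact ⟨Or.inr (Finset.mem_image_of_mem _ (Finset.mem_univ _)), (mem_att.1 (hg _)).2.1⟩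
  apply Finset.card_bij (fun (p : Finset E × ({v : V // v ∉ P} → E)) _ => p.1 ∪ univ.image p.2)
  · rintro ⟨T', g⟩ hp
    rw [Finset.mem_product, mem_STrees, Fintype.mem_piFinset] at hp
    obtain ⟨⟨h1, h2, h3⟩, h4⟩ := hp
    rw [mem_aT]
    refine ⟨⟨?_, ?_, ?_⟩, hdeg g h4 T' h1⟩
    · intro e he
      rcases Finset.mem_union.1 he with he | he
      · exact (mem_inside.1 (h1 he)).1
      · obtain ⟨u, _, rfl⟩ := Finset.mem_image.1 he
        exact (mem_att.1 (h4 u)).1
    · rw [Finset.card_union_of_disjoint, Finset.card_image_of_injective _ (hinj g h4),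
        Finset.card_univ]
      · dsimp only at h2 ⊢
        omega
      · rw [Finset.disjoint_left]
        intro e he he'
        obtain ⟨u, _, rfl⟩ := Finset.mem_image.1 he'
        exact hnin g h4 u T' h1 he
    · intro R hR hev
      apply h3 R _ hev
      intro e he
      rcases Finset.mem_union.1 (hR he) with h5 | h5
      · exact h5
      · exfalso
        obtain ⟨u, _, rfl⟩ := Finset.mem_image.1 h5
        have h6 := deg_mono (ends := ends) hR (u : V)
        simp only at h6
        rw [hdeg g h4 T' h1 u u.2] at h6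
        have h7 : 0 < deg ends R (u : V) :=
          Finset.card_pos.2 ⟨g u, Finset.mem_filter.2 ⟨he, (mem_att.1 (h4 u)).2.1⟩⟩
        obtain ⟨a, ha⟩ := hev (u : V)
        omega
  · rintro ⟨T', g⟩ hp ⟨T'', g'⟩ hp' heq
    rw [Finset.mem_product, mem_STrees, Fintype.mem_piFinset] at hp hp'
    obtain ⟨⟨h1, h2, h3⟩, h4⟩ := hp
    obtain ⟨⟨h1', h2', h3'⟩, h4'⟩ := hp'
    simp only at h1 h2 h3 h4 h1' h2' h3' h4' heq
    have hT : T' = T'' := by
      ext e
      constructor
      · intro he
        have h5 : e ∈ T'' ∪ univ.image g' := by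
          rw [← heq]; exact Finset.mem_union_left _ he
        rcases Finset.mem_union.1 h5 with h | h
        · exact h
        · obtain ⟨u, _, rfl⟩ := Finset.mem_image.1 h
          exact absurd he (hnin g' h4' u T' h1)
      · intro he
        have h5 : e ∈ T' ∪ univ.image g := by
          rw [heq]; exact Finset.mem_union_left _ he
        rcases Finset.mem_union.1 h5 with h | h
        · exact h
        · obtain ⟨u, _, rfl⟩ := Finset.mem_image.1 h
          exact absurd he (hnin g h4 u T'' h1')
    have hg : g = g' := by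
      funext u
      apply eq_of_deg_one (hdeg g h4 T' h1 u u.2)
        (Finset.mem_union_right _ (Finset.mem_image_of_mem _ (Finset.mem_univ _)))
        (mem_att.1 (h4 u)).2.1 _ (mem_att.1 (h4' u)).2.1
      rw [heq]
      exact Finset.mem_union_right _ (Finset.mem_image_of_mem _ (Finset.mem_univ _))
    rw [hT, hg]
  · intro T hT
    have hT' := mem_aT.1 hT
    obtain ⟨⟨hTK, hT1⟩, hT2⟩ := hT'
    have hex : ∀ v : {v : V // v ∉ P}, ∃ e, e ∈ T ∧ (v : V) ∈ ends e :=
      fun v => exists_of_deg_one (hT2 v v.2)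
    choose g hg using hex
    have hga : ∀ v : {v : V // v ∉ P}, g v ∈ att ends K P (v : V) := fun v => leaf_att hl hn hT v.2 (hg v).1 (hg v).2
    have hun : inside ends T P ∪ univ.image g = T := by
      ext e
      rw [Finset.mem_union]
      constructor
      · rintro (h | h)
        · exact (mem_inside.1 h).1
        · obtain ⟨u, _, rfl⟩ := Finset.mem_image.1 h
          exact (hg u).1
      · intro he
        by_cases h : ∀ v ∈ ends e, v ∈ P
        · exact Or.inl (mem_inside.2 ⟨he, h⟩)
        · right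
          push Not at h
          obtain ⟨v, hv, hvP⟩ := h
          rw [Finset.mem_image]
          exact ⟨⟨v, hvP⟩, Finset.mem_univ _, eq_of_deg_one (hT2 v hvP) (hg _).1 (hg _).2 he hv⟩
    have hins : inside ends T P ⊆ inside ends K P := by
      intro e he
      rw [mem_inside] at he ⊢
      exact ⟨hTK he.1, he.2⟩
    refine ⟨(inside ends T P, g), ?_, hun⟩
    rw [Finset.mem_product, mem_STrees, Fintype.mem_piFinset]
    refine ⟨⟨hins, ?_, ?_⟩, hga⟩
    · have h5 := hT1.1
      rw [← hun, Finset.card_union_of_disjoint, Finset.card_image_of_injective _ (hinj g hga),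
        Finset.card_univ] at h5
      · simp only
        omega
      · rw [Finset.disjoint_left]
        intro e he he'
        obtain ⟨u, _, rfl⟩ := Finset.mem_image.1 he'
        exact hnin g hga u _ hins he
    · exact Forest.mono hT1.2 (fun e he => (mem_inside.1 he).1)

theorem odd_prod {ι : Type} [Fintype ι] (f : ι → ℕ) : Odd (∏ i, f i) ↔ ∀ i, Odd (f i) := by
  rw [← Nat.not_even_iff_odd, even_iff_two_dvd, Nat.prime_two.prime.dvd_finsetProd_iff]
  constructor
  · intro h i
    rw [← Nat.not_even_iff_odd, even_iff_two_dvd]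
    intro h'
    exact h ⟨i, Finset.mem_univ i, h'⟩
  · rintro h ⟨i, _, hi⟩
    have := h i
    rw [← Nat.not_even_iff_odd, even_iff_two_dvd] at this
    exact this hi

/-- The parity of the number of spanning trees with given leaves. -/
theorem odd_aT (K : Finset E) (hl : ∀ e ∈ K, ¬ (ends e).IsDiag) (hn : 3 ≤ Fintype.card V)
    (P : Finset V) : Odd (aT ends K P).card ↔ Star ends K P := by
  classical
  by_cases hP : P.Nonempty
  · rw [card_aT K hl hn P, Nat.odd_mul, odd_prod,
      odd_STrees P hP (inside ends K P) (fun e he => hl e (mem_inside.1 he).1)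
        (fun e he => (mem_inside.1 he).2)]
    unfold Star
    constructor
    · rintro ⟨h1, h2⟩
      exact ⟨hP, fun v hv => h2 ⟨v, hv⟩, h1⟩
    · rintro ⟨_, h2, h1⟩
      exact ⟨h1, fun v => h2 v v.2⟩
  · constructor
    · intro h
      exfalso
      obtain ⟨T, hT⟩ := Finset.card_pos.1 h.pos
      rw [mem_aT] at hT
      rw [Finset.not_nonempty_iff_eq_empty] at hP
      have h1 := handshake T (fun e he => hl e (hT.1.1 he))
      rw [Finset.sum_congr rfl (fun v _ => hT.2 v (by rw [hP]; exact Finset.notMem_empty v)),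
        Finset.sum_const, smul_eq_mul, Finset.card_univ] at h1
      have := hT.1.2.1
      omega
    · intro h
      exact absurd h.1 hP

end MP_947208_co
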