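import Mathlib
import Pool.Agent.Work.MP_947208_co.CycOrd
import Pool.Agent.Work.MP_947208_co.Star

/-! The even sets of edges of the union of two Hamiltonian cycles, coded by sets of vertices. -/

set_option linter.unusedSectionVars false
set_option linter.unusedVariables false

namespace MP_947208_co

open Finset Function

variable {V E : Type} [Fintype V] [DecidableEq V] [Fintype E] [DecidableEq E]
variable {ends : E → Sym2 V}

/-- Two vertices in the same order in both cycles. -/
def Adj2 (a b : V → ℕ) (u v : V) : Prop := (a u < a v ∧ b u < b v) ∨ (a v < a u ∧ b v < b u)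

theorem Adj2.symm {a b : V → ℕ} {u v : V} (h : Adj2 a b u v) : Adj2 a b v u := by
  unfold Adj2 at *
  tauto

open Classical in
/-- The graph of the relation `Adj2`. -/
noncomputable def KK (a b : V → ℕ) : Finset (Sym2 V) :=
  univ.filter fun e => ∃ u v, e = s(u, v) ∧ Adj2 a b u v

theorem mem_KK {a b : V → ℕ} {u v : V} : s(u, v) ∈ KK a b ↔ Adj2 a b u v := by
  classical
  unfold KK
  rw [Finset.mem_filter]
  constructor
  · rintro ⟨_, u', v', h1, h2⟩
    rw [Sym2.eq_iff] at h1
    rcases h1 with ⟨rfl, rfl⟩ | ⟨rfl, rfl⟩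
    · exact h2
    · exact h2.symm
  · intro h
    exact ⟨Finset.mem_univ _, u, v, rfl, h⟩

theorem KK_loopless {a b : V → ℕ} : ∀ e ∈ KK a b, ¬ e.IsDiag := by
  intro e he
  induction e with
  | h u v =>
    rw [mem_KK] at he
    intro h
    rw [Sym2.mk_isDiag_iff] at h
    subst h
    unfold Adj2 at he
    omega

/-- The dictionary between even sets of edges and sets of vertices. -/
structure Dict (ends : E → Sym2 V) (F : Finset E) (r : V) (f₁ f₂ f₃ f₄ : V → E)
    (A : Finset V → Finset E) (K : Finset (Sym2 V)) : Prop where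
  edges : ∀ v, F.filter (fun e => v ∈ ends e) = {f₁ v, f₂ v, f₃ v, f₄ v}
  n12 : ∀ v, f₁ v ≠ f₂ v
  n13 : ∀ v, f₁ v ≠ f₃ v
  n14 : ∀ v, f₁ v ≠ f₄ v
  n23 : ∀ v, f₂ v ≠ f₃ v
  n24 : ∀ v, f₂ v ≠ f₄ v
  n34 : ∀ v, f₃ v ≠ f₄ v
  sub : ∀ P, A P ⊆ F
  c12 : ∀ P v, f₂ v ∈ A P ↔ (f₁ v ∈ A P ↔ v ∉ P)
  c34 : ∀ P v, f₄ v ∈ A P ↔ (f₃ v ∈ A P ↔ v ∉ P)
  c23 : ∀ P v, f₃ v ∈ A P ↔ (f₂ v ∈ A P ↔ Even (P.filter fun u => s(u, v) ∈ K).card)
  root : ∀ P, f₁ r ∉ A P
  surj : ∀ S ⊆ F, (∀ v, Even (deg ends S v)) → f₁ r ∉ S → ∃ P, A P = S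
  loopless : ∀ e ∈ K, ¬ e.IsDiag

theorem card_le_lt {a : V → ℕ} (ha : Injective a) (P : Finset V) (v : V) :
    (P.filter fun u => a u ≤ a v).card = (P.filter fun u => a u < a v).card +
      (if v ∈ P then 1 else 0) := by
  classical
  have h1 : (P.filter fun u => a u ≤ a v) = (P.filter fun u => a u < a v) ∪ (P.filter (· = v)) := by
    ext u
    simp only [mem_filter, mem_union]
    constructor
    · rintro ⟨h, h'⟩
      rcases h'.lt_or_eq with h2 | h2
      · exact Or.inl ⟨h, h2⟩
      · exact Or.inr ⟨h, ha h2⟩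
    · rintro (⟨h, h'⟩ | ⟨h, rfl⟩)
      · exact ⟨h, h'.le⟩
      · exact ⟨h, le_rfl⟩
  rw [h1, Finset.card_union_of_disjoint]
  · congr 1
    by_cases hv : v ∈ P
    · rw [if_pos hv, Finset.filter_eq' P v, if_pos hv, Finset.card_singleton]
    · rw [if_neg hv, Finset.filter_eq' P v, if_neg hv, Finset.card_empty]
  · rw [Finset.disjoint_left]
    intro u hu hu'
    simp only [mem_filter] at hu hu'
    rw [hu'.2] at hu
    exact lt_irrefl _ hu.2

theorem parity_identity {a b : V → ℕ} (ha : Injective a) (hb : Injective b) (P : Finset V) (v : V) :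
    Even (P.card + (P.filter fun u => b u < b v).card + (P.filter fun u => a u ≤ a v).card +
      (P.filter fun u => s(u, v) ∈ KK a b).card) := by
  classical
  rw [Finset.card_eq_sum_ones P, Finset.card_filter, Finset.card_filter, Finset.card_filter,
    ← Finset.sum_add_distrib, ← Finset.sum_add_distrib, ← Finset.sum_add_distrib]
  apply Finset.even_sum
  intro u _
  simp only [mem_KK, Adj2]
  by_cases huv : u = v
  · subst huv
    simp
  · have h1 : a u ≠ a v := fun h => huv (ha h)
    have h2 : b u ≠ b v := fun h => huv (hb h)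
    rcases lt_or_gt_of_ne h1 with h3 | h3 <;> rcases lt_or_gt_of_ne h2 with h4 | h4
    · rw [if_pos h4, if_pos h3.le, if_pos (Or.inl ⟨h3, h4⟩)]
      exact ⟨2, rfl⟩
    · rw [if_neg (by omega), if_pos h3.le, if_neg (by omega)]
      exact ⟨1, rfl⟩
    · rw [if_pos h4, if_neg (by omega), if_neg (by omega)]
      exact ⟨1, rfl⟩
    · rw [if_neg (by omega), if_neg (by omega), if_pos (Or.inr ⟨h3, h4⟩)]
      exact ⟨1, rfl⟩

open Classical in
theorem deg_four_edges {F S : Finset E} {v : V} {e₁ e₂ e₃ e₄ : E}
    (h : F.filter (fun e => v ∈ ends e) = {e₁, e₂, e₃, e₄}) (h12 : e₁ ≠ e₂) (h13 : e₁ ≠ e₃)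
    (h14 : e₁ ≠ e₄) (h23 : e₂ ≠ e₃) (h24 : e₂ ≠ e₄) (h34 : e₃ ≠ e₄) (hS : S ⊆ F) :
    deg ends S v = (if e₁ ∈ S then 1 else 0) + (if e₂ ∈ S then 1 else 0) +
      (if e₃ ∈ S then 1 else 0) + (if e₄ ∈ S then 1 else 0) := by
  have h1 : S.filter (fun e => v ∈ ends e) = ({e₁, e₂, e₃, e₄} : Finset E).filter (· ∈ S) := by
    rw [← h, Finset.filter_filter]
    ext g
    simp only [mem_filter]
    constructor
    · rintro ⟨h1, h2⟩; exact ⟨hS h1, h2, h1⟩
    · rintro ⟨h1, h2, h3⟩; exact ⟨h3, h2⟩
  unfold deg
  rw [h1, Finset.card_filter, Finset.sum_insert (by simp [h12, h13, h14]),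
    Finset.sum_insert (by simp [h23, h24]), Finset.sum_insert (by simp [h34]),
    Finset.sum_singleton]
  ring

/-- The dictionary exists. -/
theorem exists_dict (F : Finset E) (hl : ∀ e ∈ F, ¬ (ends e).IsDiag)
    (hn : 3 ≤ Fintype.card V) {H : Finset E} (hH : H ∈ HH ends F) (r : V) :
    ∃ (f₁ f₂ f₃ f₄ : V → E) (A : Finset V → Finset E) (K : Finset (Sym2 V)),
      Dict ends F r f₁ f₂ f₃ f₄ A K := by
  classical
  rw [mem_HH] at hH
  obtain ⟨hHF, hH1, hH2⟩ := hH
  obtain ⟨a, o₁, i₁, ha, han, har, ho₁, ho₁C, ho₁s, hi₁, hi₁n, u₁, hu₁, hi₁r⟩ :=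
    hH1.exists_order (fun e he => hl e (hHF he)) hn r
  obtain ⟨b, o₂, i₂, hb, hbn, hbr, ho₂, ho₂C, ho₂s, hi₂, hi₂n, u₂, hu₂, hi₂r⟩ :=
    hH2.exists_order (fun e he => hl e (Finset.sdiff_subset he)) hn r
  have hdis : ∀ e, e ∈ H → e ∈ F \ H → False := fun e h h' => (Finset.mem_sdiff.1 h').2 h
  set A : Finset V → Finset E := fun P =>
    (univ.filter fun v => Odd (P.filter fun u => a u ≤ a v).card).image o₁ ∪
    (univ.filter fun v => Odd (P.card + (P.filter fun u => b u ≤ b v).card)).image o₂ with hA
  have hA2 : ∀ P v, o₁ v ∈ A P ↔ Odd (P.filter fun u => a u ≤ a v).card := by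
    intro P v
    rw [hA]
    simp only [mem_union, mem_image, mem_filter, mem_univ, true_and]
    constructor
    · rintro (⟨u, h1, h2⟩ | ⟨u, h1, h2⟩)
      · rw [← ho₁ h2]; exact h1
      · exact absurd (h2 ▸ ho₂C u) (fun h => hdis _ (ho₁C v) h)
    · intro h
      exact Or.inl ⟨v, h, rfl⟩
  have hA4 : ∀ P v, o₂ v ∈ A P ↔ Odd (P.card + (P.filter fun u => b u ≤ b v).card) := by
    intro P v
    rw [hA]
    simp only [mem_union, mem_image, mem_filter, mem_univ, true_and]
    constructor
    · rintro (⟨u, h1, h2⟩ | ⟨u, h1, h2⟩)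
      · exact absurd (h2 ▸ ho₁C u) (fun h => hdis _ h (ho₂C v))
      · rw [← ho₂ h2]; exact h1
    · intro h
      exact Or.inr ⟨v, h, rfl⟩
  have hlast : ∀ (c : V → ℕ) (P : Finset V) (u : V), (∀ w, c w < Fintype.card V) →
      c u + 1 = Fintype.card V → (P.filter fun w => c w ≤ c u) = P := by
    intro c P u hc hu
    rw [Finset.filter_eq_self]
    intro w _
    have := hc w
    omega
  have hA1 : ∀ P v, (if v = r then i₂ r else i₁ v) ∈ A P ↔
      Odd (P.filter fun u => a u < a v).card := by
    intro P v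
    by_cases hv : v = r
    · rw [if_pos hv, hi₂r, hA4, hlast b P u₂ hbn hu₂, hv, har]
      constructor
      · intro h
        obtain ⟨k, hk⟩ := h
        omega
      · intro h
        simp at h
    · rw [if_neg hv]
      obtain ⟨u, hu, hiu⟩ := hi₁n v hv
      rw [hiu, hA2]
      have : (P.filter fun w => a w ≤ a u) = (P.filter fun w => a w < a v) := by
        apply Finset.filter_congr
        intro w _
        omega
      rw [this]
  have hA3 : ∀ P v, (if v = r then i₁ r else i₂ v) ∈ A P ↔
      Odd (P.card + (P.filter fun u => b u < b v).card) := by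
    intro P v
    by_cases hv : v = r
    · rw [if_pos hv, hi₁r, hA2, hlast a P u₁ han hu₁, hv, hbr]
      have : (P.filter fun u => b u < 0) = ∅ := by
        rw [Finset.filter_eq_empty_iff]
        intro w _
        omega
      rw [this, Finset.card_empty, add_zero]
    · rw [if_neg hv]
      obtain ⟨u, hu, hiu⟩ := hi₂n v hv
      rw [hiu, hA4]
      have : (P.filter fun w => b w ≤ b u) = (P.filter fun w => b w < b v) := by
        apply Finset.filter_congr
        intro w _
        omega
      rw [this]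
  -- the four edges at a vertex are distinct
  have d1 : ∀ v, i₁ v ∈ H := fun v => (hi₁ v).1
  have d2 : ∀ v, i₂ v ∈ F \ H := fun v => (hi₂ v).1
  have hne : ∀ e f, e ∈ H → f ∈ F \ H → e ≠ f := by
    intro e f he hf hef
    exact hdis e he (hef ▸ hf)
  have n12 : ∀ v, (if v = r then i₂ r else i₁ v) ≠ o₁ v := by
    intro v
    by_cases hv : v = r
    · rw [if_pos hv]
      exact (hne _ _ (ho₁C v) (d2 r)).symm
    · rw [if_neg hv]
      exact (hi₁ v).2.2.2
  have n34 : ∀ v, (if v = r then i₁ r else i₂ v) ≠ o₂ v := by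
    intro v
    by_cases hv : v = r
    · rw [if_pos hv]
      exact hne _ _ (d1 r) (ho₂C v)
    · rw [if_neg hv]
      exact (hi₂ v).2.2.2
  have n13 : ∀ v, (if v = r then i₂ r else i₁ v) ≠ (if v = r then i₁ r else i₂ v) := by
    intro v
    by_cases hv : v = r
    · rw [if_pos hv, if_pos hv]
      exact (hne _ _ (d1 r) (d2 r)).symm
    · rw [if_neg hv, if_neg hv]
      exact hne _ _ (d1 v) (d2 v)
  have n14 : ∀ v, (if v = r then i₂ r else i₁ v) ≠ o₂ v := by
    intro v
    by_cases hv : v = r
    · rw [if_pos hv, hv]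
      exact (hi₂ r).2.2.2
    · rw [if_neg hv]
      exact hne _ _ (d1 v) (ho₂C v)
  have n23 : ∀ v, o₁ v ≠ (if v = r then i₁ r else i₂ v) := by
    intro v
    by_cases hv : v = r
    · rw [if_pos hv, hv]
      exact (hi₁ r).2.2.2.symm
    · rw [if_neg hv]
      exact hne _ _ (ho₁C v) (d2 v)
  have n24 : ∀ v, o₁ v ≠ o₂ v := fun v => hne _ _ (ho₁C v) (ho₂C v)
  have h4 : ∀ v, deg ends F v = 4 := by
    intro v
    have := deg_sdiff (ends := ends) hHF v
    rw [hH1.1 v, hH2.1 v] at this
    exact this.symm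
  have hedges : ∀ v, F.filter (fun e => v ∈ ends e) =
      {(if v = r then i₂ r else i₁ v), o₁ v, (if v = r then i₁ r else i₂ v), o₂ v} := by
    intro v
    symm
    apply Finset.eq_of_subset_of_card_le
    · intro e he
      simp only [mem_insert, mem_singleton] at he
      rw [Finset.mem_filter]
      by_cases hv : v = r
      · subst hv
        simp only [if_true] at he
        rcases he with rfl | rfl | rfl | rfl
        · exact ⟨Finset.sdiff_subset (d2 _), (hi₂ _).2.1⟩
        · exact ⟨hHF (ho₁C _), (hi₁ _).2.2.1⟩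
        · exact ⟨hHF (d1 _), (hi₁ _).2.1⟩
        · exact ⟨Finset.sdiff_subset (ho₂C _), (hi₂ _).2.2.1⟩
      · rw [if_neg hv, if_neg hv] at he
        rcases he with rfl | rfl | rfl | rfl
        · exact ⟨hHF (d1 _), (hi₁ _).2.1⟩
        · exact ⟨hHF (ho₁C _), (hi₁ _).2.2.1⟩
        · exact ⟨Finset.sdiff_subset (d2 _), (hi₂ _).2.1⟩
        · exact ⟨Finset.sdiff_subset (ho₂C _), (hi₂ _).2.2.1⟩
    · have : ({(if v = r then i₂ r else i₁ v), o₁ v, (if v = r then i₁ r else i₂ v), o₂ v} :
          Finset E).card = 4 := by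
        rw [Finset.card_insert_of_notMem, Finset.card_insert_of_notMem, Finset.card_pair (n34 v)]
        · simp only [mem_insert, mem_singleton, not_or]
          exact ⟨n23 v, n24 v⟩
        · simp only [mem_insert, mem_singleton, not_or]
          exact ⟨n12 v, n13 v, n14 v⟩
      rw [this]
      exact (h4 v).le
  refine ⟨fun v => if v = r then i₂ r else i₁ v, o₁, fun v => if v = r then i₁ r else i₂ v, o₂, A,
    KK a b, hedges, n12, n13, n14, n23, n24, n34, ?_, ?_, ?_, ?_, ?_, ?_, KK_loopless⟩
  · intro P e he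
    rw [hA] at he
    rcases Finset.mem_union.1 he with he | he
    · obtain ⟨v, _, rfl⟩ := Finset.mem_image.1 he
      exact hHF (ho₁C v)
    · obtain ⟨v, _, rfl⟩ := Finset.mem_image.1 he
      exact Finset.sdiff_subset (ho₂C v)
  · intro P v
    rw [hA2, hA1, card_le_lt ha P v]
    by_cases hv : v ∈ P
    · rw [if_pos hv, Nat.odd_add_one]
      simp [hv]
    · rw [if_neg hv, add_zero]
      simp [hv]
  · intro P v
    rw [hA4, hA3, card_le_lt hb P v, ← add_assoc]
    by_cases hv : v ∈ P
    · rw [if_pos hv, Nat.odd_add_one]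
      simp [hv]
    · rw [if_neg hv, add_zero]
      simp [hv]
  · intro P v
    rw [hA3, hA2]
    have := parity_identity ha hb P v
    rw [Nat.even_add, Nat.even_add, ← Nat.not_odd_iff_even (n := P.card + _),
      ← Nat.not_odd_iff_even (n := (P.filter fun u => a u ≤ a v).card)] at this
    tauto
  · intro P
    rw [hA1, har]
    simp
  · intro S hS hev hr
    simp only [if_true] at hr
    set P : Finset V := univ.filter fun v =>
      ¬ ((if v = r then i₂ r else i₁ v) ∈ S ↔ o₁ v ∈ S) with hP
    have hPm : ∀ v, v ∈ P ↔ ¬ ((if v = r then i₂ r else i₁ v) ∈ S ↔ o₁ v ∈ S) := by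
      intro v
      rw [hP, Finset.mem_filter]
      simp
    have hSd : ∀ v, ((if v = r then i₁ r else i₂ v) ∈ S ↔ o₂ v ∈ S) ↔ v ∉ P := by
      intro v
      have h5 := hev v
      rw [deg_four_edges (hedges v) (n12 v) (n13 v) (n14 v) (n23 v) (n24 v) (n34 v) hS] at h5
      rw [hPm]
      revert h5
      generalize (if v = r then i₂ r else i₁ v) = e1
      generalize (if v = r then i₁ r else i₂ v) = e3
      by_cases h1 : e1 ∈ S <;> by_cases h2 : o₁ v ∈ S <;>
        by_cases h3 : e3 ∈ S <;> by_cases h4 : o₂ v ∈ S <;>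
        simp [h1, h2, h3, h4, Nat.even_iff]
    have key1 : ∀ m v, a v = m → (o₁ v ∈ S ↔ Odd (P.filter fun u => a u ≤ a v).card) := by
      intro m
      induction m with
      | zero =>
        intro v hv
        have hvr : v = r := ha (hv.trans har.symm)
        subst hvr
        have h6 := hPm v
        rw [if_pos rfl] at h6
        rw [card_le_lt ha P v]
        have : (P.filter fun u => a u < a v) = ∅ := by
          rw [Finset.filter_eq_empty_iff, hv]
          intro w _
          omega
        rw [this, Finset.card_empty, zero_add]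
        by_cases h7 : v ∈ P
        · rw [if_pos h7]
          simp only [odd_one, iff_true]
          by_contra h8
          exact (h6.1 h7) (by tauto)
        · rw [if_neg h7]
          have : ¬ Odd 0 := by decide
          simp only [this, iff_false]
          tauto
      | succ m ih =>
        intro v hv
        have hvr : v ≠ r := by
          rintro rfl
          omega
        have h6 := hPm v
        rw [if_neg hvr] at h6
        obtain ⟨u, hu, hiu⟩ := hi₁n v hvr
        have h7 := ih u (by omega)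
        have h8 : (P.filter fun w => a w ≤ a u) = (P.filter fun w => a w < a v) := by
          apply Finset.filter_congr
          intro w _
          omega
        rw [h8] at h7
        rw [card_le_lt ha P v]
        rw [hiu] at h6
        by_cases h9 : v ∈ P
        · rw [if_pos h9, Nat.odd_add_one, ← h7]
          have := h6.1 h9
          tauto
        · rw [if_neg h9, add_zero, ← h7]
          have : (o₁ u ∈ S ↔ o₁ v ∈ S) := by
            by_contra h10
            exact h9 (h6.2 h10)
          exact this.symm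
    have key2 : ∀ m v, b v = m → (o₂ v ∈ S ↔ Odd (P.card + (P.filter fun u => b u ≤ b v).card)) := by
      intro m
      induction m with
      | zero =>
        intro v hv
        have hvr : v = r := hb (hv.trans hbr.symm)
        subst hvr
        have h6 := hSd v
        rw [if_pos rfl, hi₁r, key1 _ u₁ rfl, hlast a P u₁ han hu₁] at h6
        rw [card_le_lt hb P v]
        have : (P.filter fun u => b u < b v) = ∅ := by
          rw [Finset.filter_eq_empty_iff, hv]
          intro w _
          omega
        rw [this, Finset.card_empty, zero_add]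
        by_cases h7 : v ∈ P
        · rw [if_pos h7, Nat.odd_add_one]
          have : ¬ (Odd P.card ↔ o₂ v ∈ S) := fun h => (h6.1 h) h7
          tauto
        · rw [if_neg h7, add_zero]
          exact (h6.2 h7).symm
      | succ m ih =>
        intro v hv
        have hvr : v ≠ r := by
          rintro rfl
          omega
        have h6 := hSd v
        rw [if_neg hvr] at h6
        obtain ⟨u, hu, hiu⟩ := hi₂n v hvr
        have h7 := ih u (by omega)
        have h8 : (P.filter fun w => b w ≤ b u) = (P.filter fun w => b w < b v) := by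
          apply Finset.filter_congr
          intro w _
          omega
        rw [h8] at h7
        rw [card_le_lt hb P v, ← add_assoc]
        rw [hiu] at h6
        by_cases h9 : v ∈ P
        · rw [if_pos h9, Nat.odd_add_one, ← h7]
          have : ¬ (o₂ u ∈ S ↔ o₂ v ∈ S) := fun h => (h6.1 h) h9
          tauto
        · rw [if_neg h9, add_zero, ← h7]
          exact (h6.2 h9).symm
    refine ⟨P, ?_⟩
    ext e
    constructor
    · intro he
      have he' := he
      rw [hA] at he'
      rcases Finset.mem_union.1 he' with h5 | h5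
      · obtain ⟨v, hv, rfl⟩ := Finset.mem_image.1 h5
        rw [hA2] at he
        exact (key1 _ v rfl).2 he
      · obtain ⟨v, hv, rfl⟩ := Finset.mem_image.1 h5
        rw [hA4] at he
        exact (key2 _ v rfl).2 he
    · intro he
      by_cases heH : e ∈ H
      · obtain ⟨v, rfl⟩ := ho₁s e heH
        rw [hA2]
        exact (key1 _ v rfl).1 he
      · obtain ⟨v, rfl⟩ := ho₂s e (Finset.mem_sdiff.2 ⟨hS he, heH⟩)
        rw [hA4]
        exact (key2 _ v rfl).1 he

end MP_947208_co
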