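import Mathlib
import Pool.Agent.Work.MP_947208_co.Euler

/-! Decompositions of a 4-regular multigraph and the condition `Star`. -/

set_option linter.unusedSectionVars false
set_option linter.unusedVariables false

namespace MP_947208_co

open Finset Function

variable {V E : Type} [Fintype V] [DecidableEq V] [Fintype E] [DecidableEq E]
variable {ends : E → Sym2 V}

/-- The number of neighbours of `v` in `P`. -/
def dd (K : Finset (Sym2 V)) (P : Finset V) (v : V) : ℕ := (P.filter fun u => s(u, v) ∈ K).card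

theorem att_card {K : Finset (Sym2 V)} {P : Finset V} {v : V} (hv : v ∉ P) :
    (att id K P v).card = dd K P v := by
  classical
  unfold dd
  symm
  apply Finset.card_bij (fun u _ => s(u, v))
  · intro u hu
    rw [Finset.mem_filter] at hu
    rw [mem_att]
    exact ⟨hu.2, Sym2.mem_mk_right _ _, u, hu.1, Sym2.mem_mk_left _ _⟩
  · intro u _ u' _ h
    exact Sym2.congr_left.1 h
  · intro e he
    rw [mem_att] at he
    obtain ⟨he1, he2, u, hu, hue⟩ := he
    have huv : u ≠ v := by rintro rfl; exact hv hu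
    have h1 : e = s(u, v) := (Sym2.mem_and_mem_iff huv).1 ⟨hue, he2⟩
    exact ⟨u, Finset.mem_filter.2 ⟨hu, h1 ▸ he1⟩, h1.symm⟩

theorem odd_filter_pair {Q : Finset V} {u v : V} (huv : u ≠ v) :
    Odd (Q.filter fun w => w ∈ s(u, v)).card ↔ ¬ (u ∈ Q ↔ v ∈ Q) := by
  classical
  have h1 : (Q.filter fun w => w ∈ s(u, v)) = ({u, v} : Finset V).filter (· ∈ Q) := by
    ext w
    simp only [mem_filter, Sym2.mem_iff, mem_insert, mem_singleton]
    tauto
  rw [h1, Finset.card_filter, Finset.sum_pair huv]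
  by_cases hu : u ∈ Q <;> by_cases hv : v ∈ Q <;> simp [hu, hv]

theorem cut_deg {K : Finset (Sym2 V)} (hK : ∀ e ∈ K, ¬ e.IsDiag) {P Q : Finset V} (hQ : Q ⊆ P)
    {v : V} (hv : v ∈ P) : Even (deg id (cut id (inside id K P) Q) v) ↔
      ((v ∈ Q ∧ Odd (dd K P v)) ↔ Odd (dd K Q v)) := by
  classical
  have h1 : deg id (cut id (inside id K P) Q) v =
      (P.filter fun u => s(u, v) ∈ K ∧ ¬ (u ∈ Q ↔ v ∈ Q)).card := by
    unfold deg
    symm
    apply Finset.card_bij (fun u _ => s(u, v))
    · intro u hu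
      rw [Finset.mem_filter] at hu
      have huv : u ≠ v := by
        rintro rfl
        exact hK _ hu.2.1 (Sym2.mk_isDiag_iff.2 rfl)
      rw [Finset.mem_filter, mem_cut, mem_inside]
      refine ⟨⟨⟨hu.2.1, ?_⟩, ?_⟩, Sym2.mem_mk_right _ _⟩
      · intro w hw
        rcases Sym2.mem_iff.1 hw with h | h
        · exact h ▸ hu.1
        · exact h ▸ hv
      · exact (odd_filter_pair huv).2 hu.2.2
    · intro u _ u' _ h
      exact Sym2.congr_left.1 h
    · intro e he
      rw [Finset.mem_filter, mem_cut, mem_inside] at he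
      obtain ⟨⟨⟨he1, he2⟩, he3⟩, he4⟩ := he
      obtain ⟨u, hu⟩ : ∃ u, e = s(u, v) := by
        have h5 : v ∈ e := he4
        exact ⟨_, by rw [Sym2.eq_swap]; exact (Sym2.other_spec h5).symm⟩
      have huv : u ≠ v := by
        rintro rfl
        rw [hu] at he1
        exact hK _ he1 (Sym2.mk_isDiag_iff.2 rfl)
      refine ⟨u, ?_, hu.symm⟩
      rw [Finset.mem_filter]
      refine ⟨he2 u (by rw [hu]; exact Sym2.mem_mk_left _ _), hu ▸ he1, ?_⟩
      rw [← odd_filter_pair huv, ← hu]
      exact he3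
  rw [h1]
  unfold dd
  by_cases hvQ : v ∈ Q
  · have h2 : (P.filter fun u => s(u, v) ∈ K ∧ ¬ (u ∈ Q ↔ v ∈ Q)) =
        (P.filter fun u => s(u, v) ∈ K) \ (Q.filter fun u => s(u, v) ∈ K) := by
      ext u
      simp only [mem_filter, mem_sdiff]
      constructor
      · rintro ⟨h3, h4, h5⟩
        exact ⟨⟨h3, h4⟩, fun h => h5 ⟨fun _ => hvQ, fun _ => h.1⟩⟩
      · rintro ⟨⟨h3, h4⟩, h5⟩
        exact ⟨h3, h4, fun h => h5 ⟨h.2 hvQ, h4⟩⟩
    have h3 : (Q.filter fun u => s(u, v) ∈ K) ⊆ (P.filter fun u => s(u, v) ∈ K) :=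
      Finset.filter_subset_filter _ hQ
    have h4 := Finset.card_sdiff_add_card_eq_card h3
    rw [h2]
    have h5 : (v ∈ Q ∧ Odd (P.filter fun u => s(u, v) ∈ K).card) ↔
        Odd (P.filter fun u => s(u, v) ∈ K).card := by tauto
    rw [h5, ← h4, Nat.odd_add, ← Nat.not_even_iff_odd, ← Nat.not_even_iff_odd]
    tauto
  · have h2 : (P.filter fun u => s(u, v) ∈ K ∧ ¬ (u ∈ Q ↔ v ∈ Q)) =
        (Q.filter fun u => s(u, v) ∈ K) := by
      ext u
      simp only [mem_filter]
      constructor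
      · rintro ⟨h3, h4, h5⟩
        refine ⟨?_, h4⟩
        by_contra h6
        exact h5 ⟨fun h => absurd h h6, fun h => absurd h hvQ⟩
      · rintro ⟨h3, h4⟩
        exact ⟨hQ h3, h4, fun h => hvQ (h.1 h3)⟩
    rw [h2]
    have h5 : (v ∈ Q ∧ Odd (P.filter fun u => s(u, v) ∈ K).card) ↔ False := by tauto
    rw [h5, ← Nat.not_even_iff_odd]
    tauto

variable {F : Finset E} {r : V} {f₁ f₂ f₃ f₄ : V → E} {A : Finset V → Finset E}
  {K : Finset (Sym2 V)}

theorem Dict.deg_eq (D : Dict ends F r f₁ f₂ f₃ f₄ A K) {S : Finset E} (hS : S ⊆ F) (v : V) :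
    deg ends S v = (if f₁ v ∈ S then 1 else 0) + (if f₂ v ∈ S then 1 else 0) +
      (if f₃ v ∈ S then 1 else 0) + (if f₄ v ∈ S then 1 else 0) :=
  deg_four_edges (D.edges v) (D.n12 v) (D.n13 v) (D.n14 v) (D.n23 v) (D.n24 v) (D.n34 v) hS

theorem Dict.deg_two (D : Dict ends F r f₁ f₂ f₃ f₄ A K) (P : Finset V) (v : V) :
    deg ends (A P) v = 2 ↔ (v ∈ P ∨ Odd (dd K P v)) := by
  rw [D.deg_eq (D.sub P), ← Nat.not_even_iff_odd]
  have h2 := D.c12 P v
  have h3 := D.c23 P v
  have h4 := D.c34 P v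
  change f₃ v ∈ A P ↔ (f₂ v ∈ A P ↔ Even (dd K P v)) at h3
  rw [h2] at h3
  rw [h3] at h4
  simp only [h2, h3, h4]
  by_cases a1 : f₁ v ∈ A P <;> by_cases a2 : v ∈ P <;> by_cases a3 : Even (dd K P v) <;>
    simp [a1, a2, a3]

theorem Dict.deg_even (D : Dict ends F r f₁ f₂ f₃ f₄ A K) (P : Finset V) (v : V) :
    Even (deg ends (A P) v) := by
  rw [D.deg_eq (D.sub P)]
  have h2 := D.c12 P v
  have h3 := D.c23 P v
  have h4 := D.c34 P v
  change f₃ v ∈ A P ↔ (f₂ v ∈ A P ↔ Even (dd K P v)) at h3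
  rw [h2] at h3
  rw [h3] at h4
  simp only [h2, h3, h4]
  by_cases a1 : f₁ v ∈ A P <;> by_cases a2 : v ∈ P <;> by_cases a3 : Even (dd K P v) <;>
    simp [a1, a2, a3, Nat.even_iff]

theorem Dict.inter_even (D : Dict ends F r f₁ f₂ f₃ f₄ A K) (P Q : Finset V) (v : V) :
    Even (deg ends (A P ∩ A Q) v) ↔
      ((v ∈ P ∧ Odd (dd K Q v)) ↔ (v ∈ Q ∧ Odd (dd K P v))) := by
  rw [D.deg_eq (Finset.inter_subset_left.trans (D.sub P)), ← Nat.not_even_iff_odd,
    ← Nat.not_even_iff_odd]
  have h2 := D.c12 P v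
  have h3 := D.c23 P v
  have h4 := D.c34 P v
  change f₃ v ∈ A P ↔ (f₂ v ∈ A P ↔ Even (dd K P v)) at h3
  rw [h2] at h3
  rw [h3] at h4
  have g2 := D.c12 Q v
  have g3 := D.c23 Q v
  have g4 := D.c34 Q v
  change f₃ v ∈ A Q ↔ (f₂ v ∈ A Q ↔ Even (dd K Q v)) at g3
  rw [g2] at g3
  rw [g3] at g4
  simp only [Finset.mem_inter, h2, h3, h4, g2, g3, g4]
  by_cases a1 : f₁ v ∈ A P <;> by_cases a2 : v ∈ P <;> by_cases a3 : Even (dd K P v) <;>
    by_cases b1 : f₁ v ∈ A Q <;> by_cases b2 : v ∈ Q <;> by_cases b3 : Even (dd K Q v) <;>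
    simp [a1, a2, a3, b1, b2, b3, Nat.even_iff]

theorem Dict.mem_P (D : Dict ends F r f₁ f₂ f₃ f₄ A K) (P : Finset V) (v : V) :
    v ∈ P ↔ ¬ (f₁ v ∈ A P ↔ f₂ v ∈ A P) := by
  have := D.c12 P v
  tauto

theorem Dict.inj (D : Dict ends F r f₁ f₂ f₃ f₄ A K) {P Q : Finset V} (h : A P = A Q) : P = Q := by
  ext v
  rw [D.mem_P P v, D.mem_P Q v, h]

theorem Dict.empty (D : Dict ends F r f₁ f₂ f₃ f₄ A K) : A ∅ = ∅ := by
  obtain ⟨P, hP⟩ := D.surj ∅ (Finset.empty_subset _) (fun v => by simp [deg])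
    (Finset.notMem_empty _)
  have h1 : P = ∅ := by
    rw [Finset.eq_empty_iff_forall_notMem]
    intro v hv
    rw [D.mem_P P v, hP] at hv
    simp at hv
  rw [← h1]
  exact hP

/-- If the intersection with `A P` is even then `Q` is a subset of `P` with an even cut. -/
theorem Dict.star_cases (D : Dict ends F r f₁ f₂ f₃ f₄ A K) {P : Finset V} (hP : Star id K P)
    {Q : Finset V} (h : ∀ v, Even (deg ends (A P ∩ A Q) v)) : Q = ∅ ∨ Q = P := by
  have hodd : ∀ v, v ∉ P → Odd (dd K P v) := by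
    intro v hv
    rw [← att_card hv]
    exact hP.2.1 v hv
  have hQ : Q ⊆ P := by
    intro v hv
    by_contra hvP
    have h1 := (D.inter_even P Q v).1 (h v)
    exact hvP (h1.2 ⟨hv, hodd v hvP⟩).1
  apply hP.2.2 Q hQ
  intro v hv
  rw [cut_deg D.loopless hQ hv]
  have h1 := (D.inter_even P Q v).1 (h v)
  tauto

theorem Dict.mem_HH_iff (D : Dict ends F r f₁ f₂ f₃ f₄ A K) (hl : ∀ e ∈ F, ¬ (ends e).IsDiag)
    (h4 : ∀ v, deg ends F v = 4) (P : Finset V) : A P ∈ HH ends F ↔ Star id K P := by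
  classical
  have hr4 : f₁ r ∈ F := by
    have : f₁ r ∈ F.filter fun e => r ∈ ends e := by rw [D.edges r]; simp
    exact (Finset.mem_filter.1 this).1
  have hcompl : ∀ v, deg ends (F \ A P) v + deg ends (A P) v = 4 := by
    intro v
    rw [deg_sdiff (D.sub P), h4 v]
  rw [mem_HH]
  constructor
  · rintro ⟨-, hH1, hH2⟩
    have hP : ∀ v, v ∉ P → Odd (dd K P v) := by
      intro v hv
      rcases (D.deg_two P v).1 (hH1.1 v) with h | h
      · exact absurd h hv
      · exact h
    refine ⟨?_, ?_, ?_⟩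
    · rw [Finset.nonempty_iff_ne_empty]
      intro h
      have h5 := hH1.1 r
      rw [h, D.empty] at h5
      simp [deg] at h5
    · intro v hv
      rw [att_card hv]
      exact hP v hv
    · intro Q hQ hQe
      have hint : ∀ v, Even (deg ends (A P ∩ A Q) v) := by
        intro v
        rw [D.inter_even P Q v]
        by_cases hv : v ∈ P
        · have := (cut_deg D.loopless hQ hv).1 (hQe v hv)
          tauto
        · have hvQ : v ∉ Q := fun h => hv (hQ h)
          tauto
      have hsd : ∀ v, Even (deg ends (A Q \ A P) v) := by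
        intro v
        have h5 : deg ends (A Q \ A P) v + deg ends (A P ∩ A Q) v = deg ends (A Q) v := by
          rw [← deg_union, Finset.inter_comm, Finset.sdiff_union_inter]
          rw [Finset.inter_comm]
          exact Finset.disjoint_sdiff_inter _ _
        have h6 := D.deg_even Q v
        rw [← h5, Nat.even_add] at h6
        exact h6.2 (hint v)
      -- even subsets of a Hamiltonian cycle
      have hsub : ∀ (C S : Finset E), IsHam ends C → S ⊆ C → (∀ v, Even (deg ends S v)) →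
          S = ∅ ∨ S = C := by
        intro C S hC hS hev
        by_cases h7 : C ⊆ S
        · exact Or.inr (Finset.Subset.antisymm hS h7)
        · left
          obtain ⟨e, he, heS⟩ := Finset.not_subset.1 h7
          apply hC.forest_erase he S _ hev
          intro g hg
          exact Finset.mem_erase.2 ⟨fun h => heS (h ▸ hg), hS hg⟩
      rcases hsub _ _ hH2 (by
        intro e he
        rw [Finset.mem_sdiff] at he ⊢
        exact ⟨D.sub Q he.1, he.2⟩) hsd with h8 | h8
      · rcases hsub _ _ hH1 Finset.inter_subset_left hint with h9 | h9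
        · left
          apply D.inj
          rw [D.empty]
          have : A Q = (A Q \ A P) ∪ (A P ∩ A Q) := by
            rw [Finset.inter_comm, Finset.sdiff_union_inter]
          rw [this, h8, h9, Finset.union_empty]
        · right
          apply D.inj
          apply Finset.Subset.antisymm
          · rw [Finset.sdiff_eq_empty_iff_subset] at h8
            exact h8
          · exact Finset.inter_eq_left.1 h9
      · exfalso
        have h9 : f₁ r ∈ F \ A P := Finset.mem_sdiff.2 ⟨hr4, D.root P⟩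
        rw [← h8] at h9
        exact D.root Q (Finset.mem_sdiff.1 h9).1
  · intro hP
    have hodd : ∀ v, v ∉ P → Odd (dd K P v) := by
      intro v hv
      rw [← att_card hv]
      exact hP.2.1 v hv
    have hd1 : ∀ v, deg ends (A P) v = 2 := by
      intro v
      rw [D.deg_two]
      by_cases hv : v ∈ P
      · exact Or.inl hv
      · exact Or.inr (hodd v hv)
    have hd2 : ∀ v, deg ends (F \ A P) v = 2 := by
      intro v
      have := hcompl v
      rw [hd1 v] at this
      omega
    refine ⟨D.sub P, ?_, ?_⟩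
    · obtain ⟨e, he⟩ : ∃ e, e ∈ A P := by
        have h5 : 0 < deg ends (A P) r := by rw [hd1 r]; norm_num
        obtain ⟨e, he⟩ := Finset.card_pos.1 h5
        exact ⟨e, (Finset.mem_filter.1 he).1⟩
      apply isHam_of_forest hd1 he
      intro S hS hev
      have hSA : S ⊆ A P := hS.trans (Finset.erase_subset _ _)
      obtain ⟨Q, hQ⟩ := D.surj S (hSA.trans (D.sub P)) hev (fun h => D.root P (hSA h))
      have h5 : A P ∩ A Q = S := by
        rw [hQ, Finset.inter_eq_right]
        exact hSA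
      rcases D.star_cases hP (Q := Q) (fun v => by rw [h5]; exact hev v) with h6 | h6
      · rw [← hQ, h6, D.empty]
      · exfalso
        rw [← hQ, h6] at hS
        exact Finset.notMem_erase e (A P) (hS he)
    · apply isHam_of_forest hd2 (e := f₁ r) (Finset.mem_sdiff.2 ⟨hr4, D.root P⟩)
      intro S hS hev
      have hSA : S ⊆ F \ A P := hS.trans (Finset.erase_subset _ _)
      obtain ⟨Q, hQ⟩ := D.surj S (hSA.trans Finset.sdiff_subset) hev
        (fun h => Finset.notMem_erase _ _ (hS h))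
      have h5 : A P ∩ A Q = ∅ := by
        rw [hQ, Finset.eq_empty_iff_forall_notMem]
        intro e he
        rw [Finset.mem_inter] at he
        exact (Finset.mem_sdiff.1 (hSA he.2)).2 he.1
      rcases D.star_cases hP (Q := Q) (fun v => by rw [h5]; simp [deg]) with h6 | h6
      · rw [← hQ, h6, D.empty]
      · exfalso
        rw [h6, Finset.inter_self] at h5
        have h7 := hd1 r
        rw [h5] at h7
        simp [deg] at h7

open Classical in
theorem Dict.card_HH_eq (D : Dict ends F r f₁ f₂ f₃ f₄ A K) (hl : ∀ e ∈ F, ¬ (ends e).IsDiag)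
    (h4 : ∀ v, deg ends F v = 4) : ((HH ends F).filter fun H => f₁ r ∉ H).card =
      (univ.filter fun P : Finset V => Star id K P).card := by
  symm
  apply Finset.card_bij (fun P _ => A P)
  · intro P hP
    rw [Finset.mem_filter] at hP ⊢
    exact ⟨(D.mem_HH_iff hl h4 P).2 hP.2, D.root P⟩
  · intro P _ Q _ h
    exact D.inj h
  · intro H hH
    rw [Finset.mem_filter] at hH
    have hH' := mem_HH.1 hH.1
    obtain ⟨P, hP⟩ := D.surj H hH'.1 (fun v => by rw [hH'.2.1.1 v]; exact even_two) hH.2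
    refine ⟨P, ?_, hP⟩
    rw [Finset.mem_filter]
    refine ⟨Finset.mem_univ _, ?_⟩
    rw [← D.mem_HH_iff hl h4 P, hP]
    exact hH.1

end MP_947208_co
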