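import Mathlib
import Pool.Agent.Work.MP_947208_co.Count

/-! Grouping the cycles of a Hamiltonian decomposition. -/

set_option linter.unusedSectionVars false
set_option linter.unusedVariables false

namespace MP_947208_co

open Finset Function

variable {V E : Type} [Fintype V] [DecidableEq V] [Fintype E] [DecidableEq E]
variable {ends : E → Sym2 V}

/-- Every member of `D` is contained in `A` or disjoint from `A`. -/
def Compat (A : Finset E) (D : Finset (Finset E)) : Prop := ∀ C ∈ D, C ⊆ A ∨ Disjoint C A

open Classical in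
/-- The decompositions of `F` compatible with `A` are the pairs of decompositions of `A` and of
the complement. -/
theorem card_compat [Nonempty V] {F A : Finset E} (hA : A ⊆ F) :
    (Decs ends A).card * (Decs ends (F \ A)).card =
      ((Decs ends F).filter (Compat A)).card := by
  rw [← Finset.card_product]
  have hnoA : ∀ {D₂ : Finset (Finset E)}, IsDec ends (F \ A) D₂ → ∀ C ∈ D₂, ¬ C ⊆ A := by
    intro D₂ h2 C hC hCA
    obtain ⟨x, hx⟩ := (h2.1 C hC).nonempty
    exact (Finset.mem_sdiff.1 (h2.sub hC hx)).2 (hCA hx)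
  have hf1 : ∀ {D₁ D₂ : Finset (Finset E)}, IsDec ends A D₁ → IsDec ends (F \ A) D₂ →
      (D₁ ∪ D₂).filter (fun C => C ⊆ A) = D₁ := by
    intro D₁ D₂ h1 h2
    ext C
    rw [Finset.mem_filter, Finset.mem_union]
    constructor
    · rintro ⟨h | h, h'⟩
      · exact h
      · exact absurd h' (hnoA h2 C h)
    · intro h
      exact ⟨Or.inl h, h1.sub h⟩
  have hf2 : ∀ {D₁ D₂ : Finset (Finset E)}, IsDec ends A D₁ → IsDec ends (F \ A) D₂ →
      (D₁ ∪ D₂).filter (fun C => ¬ C ⊆ A) = D₂ := by
    intro D₁ D₂ h1 h2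
    ext C
    rw [Finset.mem_filter, Finset.mem_union]
    constructor
    · rintro ⟨h | h, h'⟩
      · exact absurd (h1.sub h) h'
      · exact h
    · intro h
      exact ⟨Or.inr h, hnoA h2 C h⟩
  apply Finset.card_bij (fun p _ => p.1 ∪ p.2)
  · rintro ⟨D₁, D₂⟩ hp
    rw [Finset.mem_product, mem_Decs, mem_Decs] at hp
    obtain ⟨h1, h2⟩ := hp
    rw [Finset.mem_filter, mem_Decs]
    refine ⟨⟨?_, ?_, ?_⟩, ?_⟩
    · intro C hC
      rcases Finset.mem_union.1 hC with h | h
      · exact h1.1 C h
      · exact h2.1 C h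
    · intro C hC C' hC' hne
      have hd : ∀ {X Y : Finset E}, X ⊆ A → Y ⊆ F \ A → Disjoint X Y := by
        intro X Y hX hY
        rw [Finset.disjoint_left]
        intro x hx hy
        exact (Finset.mem_sdiff.1 (hY hy)).2 (hX hx)
      rcases Finset.mem_union.1 (Finset.mem_coe.1 hC) with h | h <;>
        rcases Finset.mem_union.1 (Finset.mem_coe.1 hC') with h' | h'
      · exact h1.disj h h' hne
      · exact hd (h1.sub h) (h2.sub h')
      · exact (hd (h1.sub h') (h2.sub h)).symm
      · exact h2.disj h h' hne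
    · show (D₁ ∪ D₂).biUnion id = F
      have e1 : D₁.biUnion id = A := h1.2.2
      have e2 : D₂.biUnion id = F \ A := h2.2.2
      rw [Finset.union_biUnion, e1, e2, Finset.union_sdiff_of_subset hA]
    · intro C hC
      rcases Finset.mem_union.1 hC with h | h
      · exact Or.inl (h1.sub h)
      · refine Or.inr ?_
        rw [Finset.disjoint_left]
        intro x hx hxA
        exact (Finset.mem_sdiff.1 (h2.sub h hx)).2 hxA
  · rintro ⟨D₁, D₂⟩ hp ⟨D₁', D₂'⟩ hp' heq
    rw [Finset.mem_product, mem_Decs, mem_Decs] at hp hp'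
    simp only at heq hp hp'
    have e1 : D₁ = D₁' := by
      rw [← hf1 hp.1 hp.2, heq, hf1 hp'.1 hp'.2]
    have e2 : D₂ = D₂' := by
      rw [← hf2 hp.1 hp.2, heq, hf2 hp'.1 hp'.2]
    rw [e1, e2]
  · intro D hD
    rw [Finset.mem_filter, mem_Decs] at hD
    obtain ⟨h1, h2⟩ := hD
    refine ⟨(D.filter (fun C => C ⊆ A), D.filter (fun C => ¬ C ⊆ A)), ?_, ?_⟩
    · rw [Finset.mem_product, mem_Decs, mem_Decs]
      refine ⟨⟨?_, ?_, ?_⟩, ⟨?_, ?_, ?_⟩⟩
      · intro C hC
        exact h1.1 C (Finset.mem_filter.1 hC).1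
      · intro C hC C' hC' hne
        exact h1.disj (Finset.mem_filter.1 (Finset.mem_coe.1 hC)).1
          (Finset.mem_filter.1 (Finset.mem_coe.1 hC')).1 hne
      · ext x
        rw [Finset.mem_biUnion]
        constructor
        · rintro ⟨C, hC, hx⟩
          exact (Finset.mem_filter.1 hC).2 hx
        · intro hx
          have hxF : x ∈ D.biUnion id := by rw [h1.2.2]; exact hA hx
          obtain ⟨C, hC, hxC⟩ := Finset.mem_biUnion.1 hxF
          refine ⟨C, Finset.mem_filter.2 ⟨hC, ?_⟩, hxC⟩
          rcases h2 C hC with h | h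
          · exact h
          · exact absurd hx (Finset.disjoint_left.1 h hxC)
      · intro C hC
        exact h1.1 C (Finset.mem_filter.1 hC).1
      · intro C hC C' hC' hne
        exact h1.disj (Finset.mem_filter.1 (Finset.mem_coe.1 hC)).1
          (Finset.mem_filter.1 (Finset.mem_coe.1 hC')).1 hne
      · ext x
        rw [Finset.mem_biUnion, Finset.mem_sdiff]
        constructor
        · rintro ⟨C, hC, hx⟩
          obtain ⟨hCD, hCA⟩ := Finset.mem_filter.1 hC
          refine ⟨h1.sub hCD hx, ?_⟩
          rcases h2 C hCD with h | h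
          · exact absurd h hCA
          · exact Finset.disjoint_left.1 h hx
        · rintro ⟨hxF, hxA⟩
          have hxF : x ∈ D.biUnion id := by rw [h1.2.2]; exact hxF
          obtain ⟨C, hC, hxC⟩ := Finset.mem_biUnion.1 hxF
          exact ⟨C, Finset.mem_filter.2 ⟨hC, fun h => hxA (h hxC)⟩, hxC⟩
    · exact Finset.filter_union_filter_not_eq _ D

/-- The degrees in a union of disjoint Hamiltonian cycles. -/
theorem deg_biUnion {D : Finset (Finset E)} (h1 : ∀ C ∈ D, IsHam ends C)
    (h2 : (D : Set (Finset E)).PairwiseDisjoint id) (v : V) :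
    deg ends (D.biUnion id) v = 2 * D.card := by
  unfold deg
  rw [Finset.filter_biUnion, Finset.card_biUnion]
  · have h3 : ∀ C ∈ D, ((id C).filter fun e => v ∈ ends e).card = 2 := fun C hC => (h1 C hC).1 v
    rw [Finset.sum_congr rfl h3, Finset.sum_const, smul_eq_mul, mul_comm]
  · intro C hC C' hC' hne
    exact Finset.disjoint_filter_filter (h2 (Finset.mem_coe.2 hC) (Finset.mem_coe.2 hC') hne)

open Classical in
/-- The `2m`-regular sets of edges containing `e`. -/
noncomputable def Reg (ends : E → Sym2 V) (F : Finset E) (e : E) (m : ℕ) : Finset (Finset E) :=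
  F.powerset.filter fun A => e ∈ A ∧ ∀ v, deg ends A v = 2 * m

theorem mem_Reg {F : Finset E} {e : E} {m : ℕ} {A : Finset E} :
    A ∈ Reg ends F e m ↔ A ⊆ F ∧ e ∈ A ∧ ∀ v, deg ends A v = 2 * m := by
  classical
  unfold Reg
  rw [Finset.mem_filter, Finset.mem_powerset]

open Classical in
theorem card_reg_compat [Nonempty V] {F : Finset E} {D : Finset (Finset E)} (h : IsDec ends F D)
    {e : E} (he : e ∈ F) (m : ℕ) :
    ((Reg ends F e (m + 1)).filter fun A => Compat A D).card = (D.card - 1).choose m := by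
  have heF : e ∈ D.biUnion id := by rw [h.2.2]; exact he
  obtain ⟨H, hH, heH⟩ := Finset.mem_biUnion.1 heF
  have heH : e ∈ H := heH
  obtain ⟨v⟩ : Nonempty V := inferInstance
  rw [← Finset.card_erase_of_mem hH, ← Finset.card_powersetCard]
  symm
  have hU : ∀ {S : Finset (Finset E)}, S ⊆ D → ∀ v, deg ends (S.biUnion id) v = 2 * S.card := by
    intro S hS v
    exact deg_biUnion (fun C hC => h.1 C (hS hC)) (fun C hC C' hC' hne =>
      h.2.1 (Finset.mem_coe.2 (hS (Finset.mem_coe.1 hC)))
        (Finset.mem_coe.2 (hS (Finset.mem_coe.1 hC'))) hne) v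
  -- members of `D` inside a union of members
  have hin : ∀ {S : Finset (Finset E)}, S ⊆ D → ∀ C ∈ D, (C ⊆ S.biUnion id ↔ C ∈ S) := by
    intro S hS C hC
    constructor
    · intro hCS
      obtain ⟨x, hx⟩ := (h.1 C hC).nonempty
      obtain ⟨C', hC', hx'⟩ := Finset.mem_biUnion.1 (hCS hx)
      have : C = C' := by
        by_contra hne
        exact Finset.disjoint_left.1 (h.disj hC (hS hC') hne) hx hx'
      rw [this]
      exact hC'
    · intro hCS
      exact Finset.subset_biUnion_of_mem id hCS
  apply Finset.card_bij (fun S _ => (insert H S).biUnion id)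
  · intro S hS
    rw [Finset.mem_powersetCard] at hS
    have hSD : insert H S ⊆ D := by
      intro C hC
      rcases Finset.mem_insert.1 hC with rfl | hC
      · exact hH
      · exact Finset.mem_of_mem_erase (hS.1 hC)
    have hHS : H ∉ S := fun h' => Finset.notMem_erase H D (hS.1 h')
    rw [Finset.mem_filter, mem_Reg]
    refine ⟨⟨?_, ?_, ?_⟩, ?_⟩
    · intro x hx
      obtain ⟨C, hC, hxC⟩ := Finset.mem_biUnion.1 hx
      exact h.sub (hSD hC) hxC
    · exact Finset.mem_biUnion.2 ⟨H, Finset.mem_insert_self _ _, heH⟩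
    · intro v
      rw [hU hSD v, Finset.card_insert_of_notMem hHS, hS.2]
    · intro C hC
      by_cases hCS : C ∈ insert H S
      · exact Or.inl ((hin hSD C hC).2 hCS)
      · refine Or.inr ?_
        rw [Finset.disjoint_left]
        intro x hx hx'
        obtain ⟨C', hC', hxC'⟩ := Finset.mem_biUnion.1 hx'
        have hne : C ≠ C' := by
          rintro rfl
          exact hCS hC'
        exact Finset.disjoint_left.1 (h.disj hC (hSD hC') hne) hx hxC'
  · intro S hS S' hS' heq
    rw [Finset.mem_powersetCard] at hS hS'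
    have key : ∀ {S : Finset (Finset E)}, S ⊆ D.erase H →
        S = (D.erase H).filter (fun C => C ⊆ (insert H S).biUnion id) := by
      intro S hS
      have hSD : insert H S ⊆ D := by
        intro C hC
        rcases Finset.mem_insert.1 hC with rfl | hC
        · exact hH
        · exact Finset.mem_of_mem_erase (hS hC)
      ext C
      rw [Finset.mem_filter]
      constructor
      · intro hC
        exact ⟨hS hC, (hin hSD C (Finset.mem_of_mem_erase (hS hC))).2
          (Finset.mem_insert_of_mem hC)⟩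
      · rintro ⟨h1, h2⟩
        have h3 := (hin hSD C (Finset.mem_of_mem_erase h1)).1 h2
        rcases Finset.mem_insert.1 h3 with rfl | h3
        · exact absurd rfl (Finset.ne_of_mem_erase h1)
        · exact h3
    rw [key hS.1, key hS'.1, heq]
  · intro A hA
    rw [Finset.mem_filter, mem_Reg] at hA
    obtain ⟨⟨hAF, heA, hdeg⟩, hc⟩ := hA
    have hHA : H ⊆ A := by
      rcases hc H hH with h' | h'
      · exact h'
      · exact absurd heA (Finset.disjoint_left.1 h' heH)
    have hSD : insert H ((D.erase H).filter fun C => C ⊆ A) ⊆ D := by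
      intro C hC
      rcases Finset.mem_insert.1 hC with rfl | hC
      · exact hH
      · exact Finset.mem_of_mem_erase (Finset.mem_filter.1 hC).1
    have hHS : H ∉ (D.erase H).filter fun C => C ⊆ A := fun h' =>
      Finset.notMem_erase H D (Finset.mem_filter.1 h').1
    have hAeq : (insert H ((D.erase H).filter fun C => C ⊆ A)).biUnion id = A := by
      ext x
      rw [Finset.mem_biUnion]
      constructor
      · rintro ⟨C, hC, hx⟩
        rcases Finset.mem_insert.1 hC with rfl | hC
        · exact hHA hx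
        · exact (Finset.mem_filter.1 hC).2 hx
      · intro hx
        have hxF : x ∈ D.biUnion id := by rw [h.2.2]; exact hAF hx
        obtain ⟨C, hC, hxC⟩ := Finset.mem_biUnion.1 hxF
        refine ⟨C, ?_, hxC⟩
        by_cases hCH : C = H
        · rw [hCH]; exact Finset.mem_insert_self _ _
        · apply Finset.mem_insert_of_mem
          rw [Finset.mem_filter]
          refine ⟨Finset.mem_erase.2 ⟨hCH, hC⟩, ?_⟩
          rcases hc C hC with h' | h'
          · exact h'
          · exact absurd hx (Finset.disjoint_left.1 h' hxC)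
    refine ⟨(D.erase H).filter (fun C => C ⊆ A), ?_, hAeq⟩
    rw [Finset.mem_powersetCard]
    refine ⟨Finset.filter_subset _ _, ?_⟩
    have h1 := hU hSD v
    rw [hAeq, hdeg v, Finset.card_insert_of_notMem hHS] at h1
    omega

open Classical in
/-- Grouping: the number of decompositions of a `2k`-regular set of edges. -/
theorem choose_mul_card [Nonempty V] {F : Finset E} (hl : ∀ e ∈ F, ¬ (ends e).IsDiag) {k : ℕ}
    (hdeg : ∀ v, deg ends F v = 2 * k) {e : E} (he : e ∈ F) (m : ℕ) :
    (k - 1).choose m * (Decs ends F).card =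
      ∑ A ∈ Reg ends F e (m + 1), (Decs ends A).card * (Decs ends (F \ A)).card := by
  have h1 : ∀ A ∈ Reg ends F e (m + 1), (Decs ends A).card * (Decs ends (F \ A)).card =
      ∑ D ∈ Decs ends F, if Compat A D then 1 else 0 := by
    intro A hA
    rw [card_compat (mem_Reg.1 hA).1, Finset.card_filter]
  have hcD : ∀ D ∈ Decs ends F, D.card = k := by
    intro D hD
    have h2 := (mem_Decs.1 hD)
    obtain ⟨v⟩ : Nonempty V := inferInstance
    have h3 := deg_biUnion h2.1 h2.2.1 v
    rw [h2.2.2, hdeg v] at h3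
    omega
  rw [Finset.sum_congr rfl h1, Finset.sum_comm]
  have h2 : ∀ D ∈ Decs ends F, (∑ A ∈ Reg ends F e (m + 1), if Compat A D then 1 else 0) =
      (k - 1).choose m := by
    intro D hD
    rw [← Finset.card_filter, card_reg_compat (mem_Decs.1 hD) he m, hcD D hD]
  rw [Finset.sum_congr rfl h2, Finset.sum_const, smul_eq_mul, mul_comm]

/-- Divisibility by a power of two for `k = 2` gives divisibility by its power `k / 2`. -/
theorem group_dvd [Nonempty V] (a : ℕ)
    (hd : ∀ F : Finset E, (∀ e ∈ F, ¬ (ends e).IsDiag) → (∀ v, deg ends F v = 4) →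
      2 ^ a ∣ (Decs ends F).card) : ∀ (k : ℕ) (F : Finset E), (∀ e ∈ F, ¬ (ends e).IsDiag) →
      (∀ v, deg ends F v = 2 * k) → (2 ^ a) ^ (k / 2) ∣ (Decs ends F).card := by
  intro k
  induction k using Nat.strong_induction_on with
  | _ k ih =>
  intro F hl hdeg
  by_cases hk : k < 2
  · have : k / 2 = 0 := by omega
    rw [this, pow_zero]
    exact one_dvd _
  obtain ⟨v⟩ : Nonempty V := inferInstance
  obtain ⟨e, he⟩ : ∃ e, e ∈ F := by
    have h1 : 0 < deg ends F v := by rw [hdeg v]; omega
    obtain ⟨e, he⟩ := Finset.card_pos.1 h1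
    exact ⟨e, (Finset.mem_filter.1 he).1⟩
  have hrest : ∀ {A : Finset E} {m : ℕ}, A ∈ Reg ends F e m →
      (∀ f ∈ F \ A, ¬ (ends f).IsDiag) ∧ ∀ v, deg ends (F \ A) v = 2 * (k - m) := by
    intro A m hA
    rw [mem_Reg] at hA
    refine ⟨fun f hf => hl f (Finset.mem_sdiff.1 hf).1, fun v => ?_⟩
    have h1 := deg_sdiff (ends := ends) hA.1 v
    rw [hA.2.2 v, hdeg v] at h1
    omega
  rcases Nat.even_or_odd k with hev | hodd
  · -- even
    have h1 := choose_mul_card hl hdeg he 1
    rw [Nat.choose_one_right] at h1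
    have h2 : (2 ^ a) ^ (k / 2) ∣ (k - 1) * (Decs ends F).card := by
      rw [h1]
      refine Finset.dvd_sum fun A hA => ?_
      have h3 := hrest hA
      have h4 := ih (k - (1 + 1)) (by omega) (F \ A) h3.1 h3.2
      have h5 : 2 ^ a ∣ (Decs ends A).card := by
        rw [mem_Reg] at hA
        exact hd A (fun f hf => hl f (hA.1 hf)) (fun v => by rw [hA.2.2 v])
      have h6 : k / 2 = (k - (1 + 1)) / 2 + 1 := by omega
      rw [h6, pow_succ, mul_comm]
      exact Nat.mul_dvd_mul h5 h4
    have h7 : Nat.Coprime ((2 ^ a) ^ (k / 2)) (k - 1) := by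
      apply Nat.Coprime.pow_left
      apply Nat.Coprime.pow_left
      rw [Nat.coprime_two_left]
      obtain ⟨t, ht⟩ := hev
      exact ⟨t - 1, by omega⟩
    exact h7.dvd_of_dvd_mul_left h2
  · -- odd
    have h1 := choose_mul_card hl hdeg he 0
    rw [Nat.choose_zero_right, one_mul] at h1
    rw [h1]
    refine Finset.dvd_sum fun A hA => ?_
    have h3 := hrest hA
    have h4 := ih (k - (0 + 1)) (by omega) (F \ A) h3.1 h3.2
    have h6 : k / 2 = (k - (0 + 1)) / 2 := by
      obtain ⟨t, ht⟩ := hodd
      omega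
    rw [h6]
    exact h4.mul_left _

end MP_947208_co
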