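import Mathlib
import Pool.Agent.Work.MP_947208_co.EulStar
import Pool.Agent.Work.MP_947208_co.Group
import Pool.Agent.Work.MP_947208_co.Mod4.Bridge
import Pool.Agent.Work.MP_947208_co.Simple

/-! The number of Hamiltonian decompositions modulo powers of two when `n = 0, 3` modulo `4`. -/

set_option linter.unusedSectionVars false
set_option linter.unusedVariables false

namespace MP_947208_co

open Finset Function

variable {V E : Type} [Fintype V] [DecidableEq V] [Fintype E] [DecidableEq E]
variable {ends : E → Sym2 V}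

open Classical in
theorem card_decs_HH [Nonempty V] (F : Finset E) (hl : ∀ e ∈ F, ¬ (ends e).IsDiag)
    (h4 : ∀ v, deg ends F v = 4) {e : E} (he : e ∈ F) :
    (Decs ends F).card = ((HH ends F).filter fun H => e ∉ H).card := by
  symm
  apply Finset.card_bij (fun H _ => ({H, F \ H} : Finset (Finset E)))
  · intro H hH
    rw [Finset.mem_filter, mem_HH] at hH
    rw [mem_Decs]
    have h1 := isDec_pair hH.1.2.1 hH.1.2.2 Finset.disjoint_sdiff
    rwa [Finset.union_sdiff_of_subset hH.1.1] at h1
  · intro H hH H' hH' heq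
    rw [Finset.mem_filter, mem_HH] at hH hH'
    have h1 : H ∈ ({H', F \ H'} : Finset (Finset E)) := by rw [← heq]; simp
    rw [Finset.mem_insert, Finset.mem_singleton] at h1
    rcases h1 with h1 | h1
    · exact h1
    · exfalso
      apply hH.2
      rw [h1, Finset.mem_sdiff]
      exact ⟨he, hH'.2⟩
  · intro D hD
    rw [mem_Decs] at hD
    have hcard : F.card = 2 * Fintype.card V := by
      have h1 := handshake F hl
      rw [Finset.sum_congr rfl (fun v _ => h4 v), Finset.sum_const, smul_eq_mul,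
        Finset.card_univ] at h1
      omega
    have h2 := hD.card_mul hl
    rw [hcard] at h2
    have h3 : D.card = 2 := Nat.eq_of_mul_eq_mul_right Fintype.card_pos h2
    obtain ⟨C, C', hne, hCC⟩ := Finset.card_eq_two.1 h3
    have hC : C ∈ D := by rw [hCC]; simp
    have hC' : C' ∈ D := by rw [hCC]; simp
    have hdis := hD.disj hC hC' hne
    have hun : C ∪ C' = F := by
      rw [← hD.2.2, hCC, Finset.biUnion_insert, Finset.singleton_biUnion]
      rfl
    have s1 : F \ C' = C := by
      rw [← hun, Finset.union_sdiff_right, Finset.sdiff_eq_self_of_disjoint hdis]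
    have s2 : F \ C = C' := by
      rw [← hun, Finset.union_sdiff_left, Finset.sdiff_eq_self_of_disjoint hdis.symm]
    by_cases heC : e ∈ C
    · have heC' : e ∉ C' := fun h => Finset.disjoint_left.1 hdis heC h
      refine ⟨C', ?_, ?_⟩
      · rw [Finset.mem_filter, mem_HH, s1]
        exact ⟨⟨hD.sub hC', hD.1 C' hC', hD.1 C hC⟩, heC'⟩
      · rw [s1, hCC, Finset.pair_comm]
    · refine ⟨C, ?_, ?_⟩
      · rw [Finset.mem_filter, mem_HH, s2]
        exact ⟨⟨hD.sub hC, hD.1 C hC, hD.1 C' hC'⟩, heC⟩
      · rw [s2, hCC]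

/-- The number of Hamiltonian decompositions of a 4-regular multigraph is divisible by four if
the number of vertices is `0` or `3` modulo `4`. -/
theorem four_dvd_decs (h3 : 3 ≤ Fintype.card V)
    (hn : Fintype.card V % 4 = 0 ∨ Fintype.card V % 4 = 3) (F : Finset E)
    (hl : ∀ e ∈ F, ¬ (ends e).IsDiag) (h4 : ∀ v, deg ends F v = 4) :
    4 ∣ (Decs ends F).card := by
  classical
  obtain ⟨r⟩ : Nonempty V := by
    rw [← Fintype.card_pos_iff]
    omega
  have : Nonempty V := ⟨r⟩
  by_cases hne : (Decs ends F) = ∅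
  · rw [hne, Finset.card_empty]
    exact dvd_zero 4
  · have hex : (HH ends F).Nonempty := by
      have h0 : 0 < deg ends F r := by rw [h4 r]; norm_num
      obtain ⟨e, he⟩ := Finset.card_pos.1 h0
      have h1 := card_decs_HH F hl h4 (Finset.mem_filter.1 he).1
      have h2 : 0 < (Decs ends F).card :=
        Finset.card_pos.2 (Finset.nonempty_iff_ne_empty.2 hne)
      rw [h1] at h2
      obtain ⟨H, hH⟩ := Finset.card_pos.1 h2
      exact ⟨H, (Finset.mem_filter.1 hH).1⟩
    obtain ⟨H, hH⟩ := hex
    obtain ⟨f₁, f₂, f₃, f₄, A, K, D⟩ := exists_dict F hl h3 hH r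
    have hr4 : f₁ r ∈ F := by
      have : f₁ r ∈ F.filter fun e => r ∈ ends e := by rw [D.edges r]; simp
      exact (Finset.mem_filter.1 this).1
    rw [card_decs_HH F hl h4 hr4, D.card_HH_eq hl h4]
    exact Mod4.four_dvd_star K D.loopless h3 hn

theorem two_pow_dvd_decs (h3 : 3 ≤ Fintype.card V)
    (hn : Fintype.card V % 4 = 0 ∨ Fintype.card V % 4 = 3) {k : ℕ} (hk : Even k) (F : Finset E)
    (hl : ∀ e ∈ F, ¬ (ends e).IsDiag) (hdeg : ∀ v, deg ends F v = 2 * k) :
    2 ^ k ∣ {D | IsDec ends F D}.ncard := by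
  classical
  have : Nonempty V := by
    rw [← Fintype.card_pos_iff]
    omega
  have h1 := group_dvd (ends := ends) 2 (fun F' hl' h4 => four_dvd_decs h3 hn F' hl' h4) k F hl hdeg
  obtain ⟨m, rfl⟩ := hk
  have h2 : ((2 : ℕ) ^ 2) ^ ((m + m) / 2) = 2 ^ (m + m) := by
    rw [← pow_mul]
    congr 1
    omega
  rw [h2] at h1
  have h5 : {D | IsDec ends F D} = ((Decs ends F : Finset _) : Set _) := by
    ext D
    rw [Set.mem_ofPred_eq, Finset.mem_coe, mem_Decs]
  rw [h5, Set.ncard_coe_finset]
  exact h1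

theorem two_pow_dvd_simple {V : Type} [Fintype V] [DecidableEq V] [Nonempty V] (G : SimpleGraph V)
    [DecidableRel G.Adj] (hn : Fintype.card V % 4 = 0 ∨ Fintype.card V % 4 = 3) {k : ℕ}
    (hk : Even k) (hG : G.IsRegularOfDegree (2 * k)) :
    2 ^ k ∣ {D | SDec G D}.ncard := by
  classical
  by_cases hk0 : k = 0
  · rw [hk0, pow_zero]
    exact one_dvd _
  obtain ⟨v⟩ : Nonempty V := inferInstance
  have h3 : 3 ≤ Fintype.card V := by
    have h1 := G.degree_lt_card_verts v
    rw [hG v] at h1
    omega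
  have hdeg : ∀ v, deg id G.edgeFinset v = 2 * k := by
    intro v
    rw [← hG v]
    unfold deg
    rw [← G.card_incidenceFinset_eq_degree]
    congr 1
    ext e
    rw [Finset.mem_filter, SimpleGraph.mem_incidenceFinset, SimpleGraph.mem_edgeFinset]
    rfl
  have h1 := two_pow_dvd_decs (ends := (id : Sym2 V → Sym2 V)) h3 hn hk G.edgeFinset
    (fun e he => G.not_isDiag_of_mem_edgeFinset he) hdeg
  have h2 : {D | SDec G D} = {D | IsDec id G.edgeFinset D} := by
    ext D
    rw [Set.mem_ofPred_eq, Set.mem_ofPred_eq, sdec_iff]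
  rw [h2]
  exact h1

end MP_947208_co
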