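import Pool.Agent.Work.MP_947208_co.ParDec

/-!
# The parity theorem for Hamiltonian decompositions with prescribed pairings
-/

set_option autoImplicit false
set_option linter.unusedSectionVars false

namespace MP_947208_co

open Finset Function

namespace Par

variable {V E : Type} [Fintype V] [DecidableEq V] [Fintype E] [DecidableEq E]
  {ends : E → Sym2 V} {F : Finset E}

theorem card_flags (v : V) :
    (univ.filter fun x : Flag ends F => x.1.2 = v).card = deg ends F v := by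
  unfold deg
  apply Finset.card_bij (fun x _ => x.1.1)
  · intro x hx
    rw [Finset.mem_filter] at hx ⊢
    exact ⟨x.2.1, hx.2 ▸ x.2.2⟩
  · intro x hx y hy h
    rw [Finset.mem_filter] at hx hy
    exact flag_ext h (hx.2.trans hy.2.symm)
  · intro e he
    rw [Finset.mem_filter] at he
    exact ⟨⟨(e, v), he.1, he.2⟩, Finset.mem_filter.2 ⟨mem_univ _, rfl⟩, rfl⟩

theorem deg_dec {D : Finset (Finset E)} (hD : IsDec ends F D) (v : V) :
    deg ends F v = 2 * D.card := by
  have h1 : (F.filter fun e => v ∈ ends e) =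
      D.biUnion fun C => C.filter fun e => v ∈ ends e := by
    rw [← hD.2.2, Finset.filter_biUnion]
    rfl
  unfold deg
  have h0 : ∀ C ∈ D, (C.filter fun e => v ∈ ends e).card = 2 := fun C hC => (hD.1 C hC).1 v
  rw [h1, Finset.card_biUnion, Finset.sum_congr rfl h0, Finset.sum_const, smul_eq_mul, mul_comm]
  intro C hC C' hC' hne
  have h2 : Disjoint C C' := hD.2.1 hC hC' hne
  exact Finset.disjoint_of_subset_left (Finset.filter_subset _ _)
    (Finset.disjoint_of_subset_right (Finset.filter_subset _ _) h2)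

/-- The properties of the data of a decomposition. -/
structure Good (D₀ : Finset (Finset E)) (d : Dat (Flag ends F) V D₀) : Prop where
  hdi : ∀ x, d.i x = oth x
  hda : ∀ x, d.a x = x.1.2
  pia : ∀ x, (d.pi x).1.2 = x.1.2
  fil : ∀ x, ((cyc D₀ x.1.1).filter fun e => x.1.2 ∈ ends e) = {x.1.1, (d.pi x).1.1}
  uniq : ∀ x y : Flag ends F, x.1.2 = y.1.2 → cyc D₀ x.1.1 = cyc D₀ y.1.1 → y = x ∨ y = d.pi x
  col : ∀ x, ((d.s₀ x).1 : Finset E) = cyc D₀ x.1.1
  s0i : ∀ x, d.s₀ (oth x) = fl (d.s₀ x)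
  s0p : ∀ x, d.s₀ (d.pi x) = fl (d.s₀ x)

theorem exists_dat {D₀ : Finset (Finset E)} (hD₀ : IsDec ends F D₀)
    (hl : ∀ e ∈ F, ¬ (ends e).IsDiag) {J : Finset V} {u w₁ w₂ : V} (hu : u ∈ J) (hw : w₁ ≠ w₂)
    (hw₁ : w₁ ∉ J) (hw₂ : w₂ ∉ J) :
    ∃ d : Dat (Flag ends F) V D₀, d.J = J ∧ d.u = u ∧ Good D₀ d := by
  obtain ⟨pr, h1, h2, h3, h4, h5, h6⟩ := exists_pr hD₀
  let i : Equiv.Perm (Flag ends F) := ⟨oth, oth, oth_oth, oth_oth⟩
  have hi0 : ∀ x, i x ≠ x := oth_ne hl
  obtain ⟨o, ho1, ho2⟩ := exists_orient (i := i) (p := pr) oth_oth hi0 h1 h2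
  let s₀ : Flag ends F → D₀ × Bool := fun x => (⟨cyc D₀ x.1.1, (cyc_mem hD₀ x.2.1).1⟩, o x)
  refine ⟨⟨i, fun x => x.1.2, J, u, w₁, w₂, pr, s₀, oth_oth, hi0, ?_, hu, hw, hw₁, hw₂, ?_, ?_,
    ?_⟩, rfl, rfl, fun _ => rfl, fun _ => rfl, h3, h5, h6, fun _ => rfl, ?_, ?_⟩
  · intro v
    rw [card_flags, deg_dec hD₀, Fintype.card_coe]
  · intro x _; exact h3 x
  · intro x _; exact h1 x
  · intro x _; exact h2 x
  · intro x
    exact Prod.ext rfl (ho1 x)
  · intro x
    exact Prod.ext (Subtype.ext (h4 x)) (ho2 x)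


theorem exists_flag {e : E} (he : e ∈ F) : ∃ x : Flag ends F, x.1.1 = e :=
  ⟨⟨(e, (ends e).out.1), he, Sym2.out_fst_mem _⟩, rfl⟩

theorem exists_flag_at {D : Finset (Finset E)} (hD : IsDec ends F D) {C : Finset E} (hC : C ∈ D)
    (v : V) : ∃ x : Flag ends F, x.1.2 = v ∧ x.1.1 ∈ C := by
  have h : deg ends C v = 2 := (hD.1 C hC).1 v
  have h2 : (C.filter fun e => v ∈ ends e).Nonempty := by
    rw [← Finset.card_pos]
    unfold deg at h
    omega
  obtain ⟨e, he⟩ := h2
  rw [Finset.mem_filter] at he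
  exact ⟨⟨(e, v), mem_of_mem hD hC he.1, he.2⟩, rfl, he.1⟩

section Bij

variable {D₀ : Finset (Finset E)} {d : Dat (Flag ends F) V D₀}

theorem Good.oths (hg : Good D₀ d) {s : Flag ends F → D₀ × Bool} (hs : d.Ss s) :
    ∀ x, s (oth x) = fl (s x) := fun x => by rw [← hg.hdi]; exact hs.1 x

theorem Good.inj (hg : Good D₀ d) {s : Flag ends F → D₀ × Bool} (hs : d.Ss s) (v : V) :
    InjAt (fun x : Flag ends F => x.1.2) s v := by
  have hda' : d.a = fun x : Flag ends F => x.1.2 := funext hg.hda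
  rw [← hda']
  exact hs.2.1 v

/-- The colour classes of a state form a decomposition. -/
theorem dec_of_state (hD₀ : IsDec ends F D₀) (hg : Good D₀ d) {s : Flag ends F → D₀ × Bool}
    (hs : d.Ss s) (hH : ∀ c, IsHam ends (cls s c)) :
    IsDec ends F (univ.image (cls s)) ∧
      ∀ v ∈ d.J, pairsAt ends (univ.image (cls s)) v = pairsAt ends D₀ v := by
  have hsi := hg.oths hs
  refine ⟨⟨?_, ?_, ?_⟩, ?_⟩
  · intro C hC
    obtain ⟨c, -, rfl⟩ := Finset.mem_image.1 hC
    exact hH c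
  · intro C hC C' hC' hne
    obtain ⟨c, -, rfl⟩ := Finset.mem_image.1 (Finset.mem_coe.1 hC)
    obtain ⟨c', -, rfl⟩ := Finset.mem_image.1 (Finset.mem_coe.1 hC')
    show Disjoint (cls s c) (cls s c')
    rw [Finset.disjoint_left]
    intro e he he'
    obtain ⟨x, hx, rfl⟩ := mem_cls.1 he
    rw [mem_cls' hsi, hx] at he'
    exact hne (by rw [he'])
  · ext e
    rw [Finset.mem_biUnion]
    constructor
    · rintro ⟨C, hC, he⟩
      obtain ⟨c, -, rfl⟩ := Finset.mem_image.1 hC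
      exact cls_sub he
    · intro he
      obtain ⟨x, rfl⟩ := exists_flag (ends := ends) he
      exact ⟨cls s (s x).1, Finset.mem_image_of_mem _ (mem_univ _), (mem_cls' hsi x).2 rfl⟩
  · intro v hv
    have key : ∀ x : Flag ends F, x.1.2 = v →
        ((cls s (s x).1).filter fun e => v ∈ ends e) =
          (cyc D₀ x.1.1).filter fun e => v ∈ ends e := by
      intro x hx
      have h1 : d.a x ∈ d.J := by rw [hg.hda, hx]; exact hv
      have h2 := hg.fil x
      rw [hx] at h2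
      rw [h2]
      exact cls_filter hsi (hg.inj hs v) hx ((hg.pia x).trans hx) (hs.2.2.1 x h1)
    ext S
    unfold pairsAt
    rw [Finset.mem_image, Finset.mem_image]
    constructor
    · rintro ⟨C, hC, rfl⟩
      obtain ⟨c, -, rfl⟩ := Finset.mem_image.1 hC
      obtain ⟨x, hx, hxs⟩ := hs.surj v (c, true)
      rw [hg.hda] at hx
      refine ⟨cyc D₀ x.1.1, (cyc_mem hD₀ x.2.1).1, ?_⟩
      rw [← key x hx, hxs]
    · rintro ⟨C, hC, rfl⟩
      obtain ⟨x, hx, hxC⟩ := exists_flag_at hD₀ hC v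
      refine ⟨cls s (s x).1, Finset.mem_image_of_mem _ (mem_univ _), ?_⟩
      rw [key x hx, cyc_eq hD₀.2.1 hC hxC]

/-- A state is determined by its decomposition. -/
theorem state_inj (hg : Good D₀ d) {s s' : Flag ends F → D₀ × Bool} (hs : d.Ss s)
    (hH : ∀ c, IsHam ends (cls s c)) (hs' : d.Ss s')
    (h : (univ.image (cls s) : Finset (Finset E)) = univ.image (cls s')) : s = s' := by
  have hsi := hg.oths hs
  have hsi' := hg.oths hs'
  have hcl : ∀ c, cls s c = cls s' c := by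
    intro c
    have h1 : cls s c ∈ univ.image (cls s') := h ▸ Finset.mem_image_of_mem _ (mem_univ c)
    obtain ⟨c', -, hc'⟩ := Finset.mem_image.1 h1
    obtain ⟨x, hx, hxs⟩ := hs.surj d.u (c, true)
    have h2 : d.s₀ x = (c, true) := (hs.2.2.2 x hx).symm.trans hxs
    have h3 : s' x = (c, true) := (hs'.2.2.2 x hx).trans h2
    have h4 : x.1.1 ∈ cls s c := (mem_cls' hsi x).2 (by rw [hxs])
    rw [← hc', mem_cls' hsi', h3] at h4
    have h5 : c = c' := h4
    rw [← hc', h5]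
  have hcol : ∀ x, (s x).1 = (s' x).1 := by
    intro x
    have h1 := (mem_cls' hsi x).2 rfl
    rw [hcl, mem_cls' hsi'] at h1
    exact h1.symm
  funext x₀
  set c := (s x₀).1 with hc
  set Z : Finset V := univ.filter fun v => ∀ y : Flag ends F, y.1.2 = v → (s y).1 = c →
    s y = s' y with hZdef
  have hu : d.u ∈ Z := by
    rw [hZdef, Finset.mem_filter]
    refine ⟨mem_univ _, ?_⟩
    intro y hy _
    rw [← hg.hda] at hy
    rw [hs.2.2.2 y hy, hs'.2.2.2 y hy]
  have hZ : Z = univ := by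
    by_contra hne
    obtain ⟨e, he, a, ha, b, hb, hae, hbe⟩ := (hH c).2 Z ⟨d.u, hu⟩ hne
    set x : Flag ends F := ⟨(e, a), cls_sub he, hae⟩ with hx
    set y : Flag ends F := ⟨(e, b), cls_sub he, hbe⟩ with hy
    have hxy : y = oth x := by
      rcases eq_or_oth (x := x) (y := y) rfl with h1 | h1
      · exfalso
        have h2 : b = a := congrArg (fun x : Flag ends F => x.1.2) h1
        exact hb (h2 ▸ ha)
      · exact h1
    have hcx : (s x).1 = c := (mem_cls' hsi x).1 he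
    have hx' : s x = s' x := (Finset.mem_filter.1 ha).2 x rfl hcx
    have hy' : s y = s' y := by rw [hxy, hsi, hsi', hx']
    have hcy : (s y).1 = c := by rw [hxy, hsi, fl_fst, hcx]
    apply hb
    rw [hZdef, Finset.mem_filter]
    refine ⟨mem_univ _, ?_⟩
    intro z hz hzc
    rcases eq_or_fl (hzc.trans hcy.symm) with h1 | h1
    · have h2 := hg.inj hs b z y hz rfl h1
      rw [h2]; exact hy'
    · have h3 : (s' z).1 = (s' y).1 := by rw [← hcol, ← hcol, hzc, hcy]
      rcases eq_or_fl h3 with h4 | h4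
      · have h2 := hg.inj hs' b z y hz rfl h4
        rw [h2]; exact hy'
      · rw [h1, h4, hy']
  have h1 : x₀.1.2 ∈ Z := hZ ▸ mem_univ _
  exact (Finset.mem_filter.1 h1).2 x₀ rfl rfl

/-- Every decomposition with the prescribed pairings comes from a state. -/
theorem state_surj (hg : Good D₀ d) {D : Finset (Finset E)} (hD : IsDec ends F D)
    (hP : ∀ v ∈ d.J, pairsAt ends D v = pairsAt ends D₀ v) (hD₀ : IsDec ends F D₀) :
    ∃ s, d.Ss s ∧ (∀ c, IsHam ends (cls s c)) ∧ univ.image (cls s) = D := by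
  obtain ⟨pr, p1, p2, p3, p4, p5, p6⟩ := exists_pr hD
  obtain ⟨o, ho1, ho2⟩ := exists_orient d.hi d.hi0 p1 p2
  have hprpi : ∀ x : Flag ends F, x.1.2 ∈ d.J → pr x = d.pi x := by
    intro x hx
    have h1 : ((cyc D x.1.1).filter fun e => x.1.2 ∈ ends e) ∈ pairsAt ends D₀ x.1.2 := by
      rw [← hP _ hx]
      exact Finset.mem_image_of_mem _ (cyc_mem hD x.2.1).1
    rw [p5] at h1
    obtain ⟨C₀, hC₀, h2⟩ := Finset.mem_image.1 h1
    have h3 : x.1.1 ∈ C₀ := by
      have : x.1.1 ∈ C₀.filter fun e => x.1.2 ∈ ends e := by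
        rw [h2]; exact Finset.mem_insert_self _ _
      exact (Finset.mem_filter.1 this).1
    have h4 : (pr x).1.1 ∈ C₀ := by
      have : (pr x).1.1 ∈ C₀.filter fun e => x.1.2 ∈ ends e := by
        rw [h2]; exact Finset.mem_insert_of_mem (Finset.mem_singleton_self _)
      exact (Finset.mem_filter.1 this).1
    rcases hg.uniq x (pr x) (p3 x).symm
      ((cyc_eq hD₀.2.1 hC₀ h3).trans (cyc_eq hD₀.2.1 hC₀ h4).symm) with h5 | h5
    · exact absurd h5 (p2 x)
    · exact h5
  have hr : ∀ C : D, ∃ y : Flag ends F, y.1.2 = d.u ∧ cyc D y.1.1 = C := by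
    rintro ⟨C, hC⟩
    obtain ⟨y, hy1, hy2⟩ := exists_flag_at hD hC d.u
    exact ⟨y, hy1, cyc_eq hD.2.1 hC hy2⟩
  choose r hr1 hr2 using hr
  set R : Flag ends F → Flag ends F := fun x => r ⟨cyc D x.1.1, (cyc_mem hD x.2.1).1⟩ with hR
  have hR1 : ∀ x, (R x).1.2 = d.u := fun x => hr1 _
  have hR2 : ∀ x, cyc D (R x).1.1 = cyc D x.1.1 := fun x => hr2 _
  have hRR : ∀ x y, cyc D x.1.1 = cyc D y.1.1 → R x = R y := by
    intro x y h
    rw [hR]
    simp only [h]
  set s : Flag ends F → D₀ × Bool := fun x =>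
    ((d.s₀ (R x)).1, xor (xor (o x) (o (R x))) (d.s₀ (R x)).2) with hs
  have hsx : ∀ x, s x = ((d.s₀ (R x)).1, xor (xor (o x) (o (R x))) (d.s₀ (R x)).2) :=
    fun _ => rfl
  have hsi : ∀ x, s (d.i x) = fl (s x) := by
    intro x
    have h1 : R (d.i x) = R x := hRR _ _ (by rw [hg.hdi]; rfl)
    rw [hsx, hsx, h1, ho1]
    unfold fl
    simp
  have hsp : ∀ x, s (pr x) = fl (s x) := by
    intro x
    have h1 : R (pr x) = R x := hRR _ _ (p4 x)
    rw [hsx, hsx, h1, ho2]
    unfold fl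
    simp
  have huJ : ∀ x, (R x).1.2 ∈ d.J := fun x => by rw [hR1]; exact d.hu
  have hs0 : ∀ x, d.a x = d.u → s x = d.s₀ x := by
    intro x hx
    rw [hg.hda] at hx
    rcases p6 (R x) x ((hR1 x).trans hx.symm) (hR2 x) with h | h
    · rw [hsx, ← h]
      simp
    · have h1 : d.s₀ x = fl (d.s₀ (R x)) := by
        conv_lhs => rw [h, hprpi _ (huJ x)]
        exact hg.s0p _
      have h2 : o x = !o (R x) := by
        conv_lhs => rw [h]
        exact ho2 _
      rw [hsx, h1, h2]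
      unfold fl
      simp
  have hcD : ∀ x y, (s x).1 = (s y).1 → cyc D x.1.1 = cyc D y.1.1 := by
    intro x y h
    have h1 : (d.s₀ (R x)).1 = (d.s₀ (R y)).1 := h
    have h2 : cyc D₀ (R x).1.1 = cyc D₀ (R y).1.1 := by
      rw [← hg.col, ← hg.col, h1]
    rw [← hR2 x, ← hR2 y]
    rcases hg.uniq (R x) (R y) ((hR1 x).trans (hR1 y).symm) h2 with h3 | h3
    · rw [h3]
    · rw [h3, ← hprpi _ (huJ x), p4]
  have hDc : ∀ x y, cyc D x.1.1 = cyc D y.1.1 → (s x).1 = (s y).1 := by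
    intro x y h
    rw [hsx, hsx, hRR x y h]
  have hinj : ∀ v, InjAt d.a s v := by
    intro v x y hx hy hxy
    rw [hg.hda] at hx hy
    rcases p6 x y (hx.trans hy.symm) (hcD x y (congrArg Prod.fst hxy)) with h | h
    · exact h.symm
    · exfalso
      rw [h, hsp] at hxy
      exact fl_ne _ hxy.symm
  have hSs : d.Ss s := by
    refine ⟨hsi, hinj, ?_, hs0⟩
    intro x hx
    rw [hg.hda] at hx
    rw [← hprpi x hx]
    exact hsp x
  have hcls : ∀ x, cls s (s x).1 = cyc D x.1.1 := by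
    intro x
    ext e
    constructor
    · intro he
      obtain ⟨z, hz, rfl⟩ := mem_cls.1 he
      rw [← hcD z x hz]
      exact (cyc_mem hD z.2.1).2
    · intro he
      obtain ⟨z, rfl⟩ := exists_flag (ends := ends) (mem_of_mem hD (cyc_mem hD x.2.1).1 he)
      rw [mem_cls' (hg.oths hSs)]
      exact hDc z x (cyc_eq hD.2.1 (cyc_mem hD x.2.1).1 he)
  have hall : ∀ c, ∃ x : Flag ends F, cls s c = cyc D x.1.1 := by
    intro c
    obtain ⟨x, -, hx⟩ := hSs.surj d.u (c, true)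
    refine ⟨x, ?_⟩
    rw [← hcls x, hx]
  refine ⟨s, hSs, ?_, ?_⟩
  · intro c
    obtain ⟨x, hx⟩ := hall c
    rw [hx]
    exact hD.1 _ (cyc_mem hD x.2.1).1
  · ext C
    rw [Finset.mem_image]
    constructor
    · rintro ⟨c, -, rfl⟩
      obtain ⟨x, hx⟩ := hall c
      rw [hx]
      exact (cyc_mem hD x.2.1).1
    · intro hC
      obtain ⟨x, -, hx⟩ := exists_flag_at hD hC d.u
      refine ⟨(s x).1, mem_univ _, ?_⟩
      rw [hcls x, cyc_eq hD.2.1 hC hx]

end Bij

/-- **The parity theorem.** -/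
theorem even_dec (hl : ∀ e ∈ F, ¬ (ends e).IsDiag) {J : Finset V} (hJ : J.Nonempty)
    (hV : J.card + 2 ≤ Fintype.card V) {k : ℕ} (hk : 2 ^ (J.card - 1) < k)
    (hdeg : ∀ v, deg ends F v = 2 * k) (P : V → Finset (Finset E)) :
    Even {D | IsDec ends F D ∧ ∀ v ∈ J, pairsAt ends D v = P v}.ncard := by
  classical
  by_cases hne : ∃ D₀, IsDec ends F D₀ ∧ ∀ v ∈ J, pairsAt ends D₀ v = P v
  · obtain ⟨D₀, hD₀, hP⟩ := hne
    obtain ⟨u, hu⟩ := hJ
    obtain ⟨w₁, hw₁, w₂, hw₂, hw⟩ : ∃ a ∈ Jᶜ, ∃ b ∈ Jᶜ, a ≠ b := by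
      apply Finset.one_lt_card.1
      rw [Finset.card_compl]
      omega
    rw [Finset.mem_compl] at hw₁ hw₂
    obtain ⟨d, hdJ, hdu, hg⟩ := exists_dat hD₀ hl hu hw hw₁ hw₂
    have hcard : Fintype.card D₀ = k := by
      have h1 := deg_dec hD₀ u
      rw [hdeg] at h1
      rw [Fintype.card_coe]
      omega
    have h1 := even_Ss d (by rw [hdJ, hcard]; exact hk)
    have h2 := even_bad hg.hdi hg.hda
    have h3 : (univ.filter fun s => d.Ss s ∧ ∀ c, IsHam ends (cls s c)).card =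
        (univ.filter fun D => IsDec ends F D ∧ ∀ v ∈ J, pairsAt ends D v = P v).card := by
      apply Finset.card_bij (fun s _ => univ.image (cls s))
      · intro s hs
        rw [Finset.mem_filter] at hs ⊢
        obtain ⟨h1, h2⟩ := dec_of_state hD₀ hg hs.2.1 hs.2.2
        refine ⟨mem_univ _, h1, ?_⟩
        intro v hv
        rw [h2 v (hdJ ▸ hv), hP v hv]
      · intro s hs s' hs' h
        rw [Finset.mem_filter] at hs hs'
        exact state_inj hg hs.2.1 hs.2.2 hs'.2.1 h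
      · intro D hD
        rw [Finset.mem_filter] at hD
        obtain ⟨s, hs1, hs2, hs3⟩ := state_surj hg hD.2.1
          (fun v hv => by rw [hdJ] at hv; rw [hD.2.2 v hv, hP v hv]) hD₀
        exact ⟨s, Finset.mem_filter.2 ⟨mem_univ _, hs1, hs2⟩, hs3⟩
    have h4 : (univ.filter d.Ss).card =
        (univ.filter fun s => d.Ss s ∧ ∀ c, IsHam ends (cls s c)).card +
          (univ.filter fun s => d.Ss s ∧ ¬ ∀ c, IsHam ends (cls s c)).card := by
      rw [← Finset.filter_filter, ← Finset.filter_filter,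
        Finset.card_filter_add_card_filter_not]
    have h5 : {D | IsDec ends F D ∧ ∀ v ∈ J, pairsAt ends D v = P v} =
        ((univ.filter fun D => IsDec ends F D ∧ ∀ v ∈ J, pairsAt ends D v = P v : Finset _) :
          Set _) := by
      ext D; simp
    rw [h5, Set.ncard_coe_finset, ← h3, ← ZMod.natCast_eq_zero_iff_even]
    rw [h4, Nat.cast_add, h2, add_zero] at h1
    exact h1
  · have : {D | IsDec ends F D ∧ ∀ v ∈ J, pairsAt ends D v = P v} = ∅ := by
      ext D
      simp only [Set.mem_empty_iff_false, iff_false]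
      exact fun h => hne ⟨D, h⟩
    rw [this, Set.ncard_empty]
    exact Even.zero

end Par

end MP_947208_co
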