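import Pool.Agent.Work.MP_947208_co.Two5
import Pool.Agent.Work.MP_947208_co.ParMain
import Pool.Agent.Work.MP_947208_co.Simple

/-!
# Powers of two dividing the number of Hamiltonian decompositions
-/

set_option autoImplicit false
set_option linter.unusedSectionVars false

namespace MP_947208_co.Two

open Finset Function MP_947208_co.Par

variable {V E : Type} [Fintype V] [DecidableEq V] [Fintype E] [DecidableEq E]
  {ends : E → Sym2 V} {F : Finset E}

/-- The structure given by the data of a decomposition. -/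
theorem exists_str {D₀ : Finset (Finset E)} {d : Dat (Flag ends F) V D₀} (hg : Good D₀ d) :
    ∃ d' : Str (Flag ends F) V D₀, d'.i = d.i ∧ d'.a = d.a ∧ d'.u = d.u ∧ d'.s₀ = d.s₀ := by
  refine ⟨{ i := d.i, a := d.a, u := d.u, s₀ := d.s₀, hi := d.hi, hi0 := d.hi0,
            hcard := d.hcard, hs₀ := ?_ }, rfl, rfl, rfl, rfl⟩
  intro x y hx hy hxy
  rw [hg.hda] at hx hy
  have h1 : cyc D₀ x.1.1 = cyc D₀ y.1.1 := by
    rw [← hg.col, ← hg.col, hxy]
  rcases hg.uniq x y (hx.trans hy.symm) h1 with h2 | h2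
  · exact h2.symm
  · exfalso
    rw [h2, hg.s0p] at hxy
    exact fl_ne _ hxy.symm

theorem ham_iff {D₀ : Finset (Finset E)} {d : Dat (Flag ends F) V D₀} (hg : Good D₀ d)
    {d' : Str (Flag ends F) V D₀} (k1 : d'.i = d.i) (k2 : d'.a = d.a) (k3 : d'.u = d.u)
    {s : Flag ends F → D₀ × Bool} (hs : d.Ss s) (c : D₀) :
    d'.HamC s c ↔ IsHam ends (cls s c) := by
  have hsi := hg.oths hs
  constructor
  · intro h
    by_contra hc
    apply h
    have h1 : ¬ ∀ c' : Unit, IsHam ends ((fun _ : Unit => cls s c) c') := fun h' => hc (h' ())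
    obtain ⟨q, hq1, hq2, hq3⟩ := exists_bad (κ := fun _ : Unit => cls s c)
      (fun _ v => cls_deg hg.hdi hg.hda hs c v) d.u h1
    refine ⟨q.2, hq1, by rw [k3]; exact hq2, ?_⟩
    intro x hx hxZ
    rw [k2, hg.hda] at hxZ
    rw [k2, k1, hg.hda, hg.hdi]
    by_contra hcon
    exact hq3 x.1.1 ((mem_cls' hsi x).2 hx) _ hxZ _ hcon ⟨x.2.2, (oth x).2.2⟩
  · rintro h ⟨Z, z1, z2, z3⟩
    have hZ : Z ≠ univ := fun h' => z2 (h' ▸ mem_univ _)
    obtain ⟨e, he, v, hv, w, hw, hve, hwe⟩ := h.2 Z z1 hZ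
    set x : Flag ends F := ⟨(e, v), cls_sub he, hve⟩ with hx
    set y : Flag ends F := ⟨(e, w), cls_sub he, hwe⟩ with hy
    have hcx : (s x).1 = c := (mem_cls' hsi x).1 he
    have h3 := z3 x hcx (by rw [k2, hg.hda]; exact hv)
    rw [k2, k1, hg.hda, hg.hdi] at h3
    rcases eq_or_oth (x := x) (y := y) rfl with h1 | h1
    · have h2 : w = v := congrArg (fun x : Flag ends F => x.1.2) h1
      exact hw (h2 ▸ hv)
    · have h2 : w = (oth x).1.2 := congrArg (fun x : Flag ends F => x.1.2) h1
      exact hw (h2 ▸ h3)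

/-- **Decompositions with a prescribed pairing at one vertex.** -/
theorem dvd_dec (hl : ∀ e ∈ F, ¬ (ends e).IsDiag) (u : V) (hV : 4 ≤ Fintype.card V) {k : ℕ}
    (hdeg : ∀ v, deg ends F v = 2 * k) (P : Finset (Finset E)) :
    2 ^ (k - 1) ∣ {D | IsDec ends F D ∧ pairsAt ends D u = P}.ncard := by
  classical
  by_cases hne : ∃ D₀, IsDec ends F D₀ ∧ pairsAt ends D₀ u = P
  · obtain ⟨D₀, hD₀, hP⟩ := hne
    obtain ⟨w₁, hw₁, w₂, hw₂, hw⟩ : ∃ a ∈ ({u} : Finset V)ᶜ, ∃ b ∈ ({u} : Finset V)ᶜ, a ≠ b := by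
      apply Finset.one_lt_card.1
      rw [Finset.card_compl, Finset.card_singleton]
      omega
    rw [Finset.mem_compl] at hw₁ hw₂
    obtain ⟨d, hdJ, hdu, hg⟩ := exists_dat hD₀ hl (Finset.mem_singleton_self u) hw hw₁ hw₂
    obtain ⟨d', k1, k2, k3, k4⟩ := exists_str hg
    have hcard : Fintype.card D₀ = k := by
      have h1 := deg_dec hD₀ u
      rw [hdeg] at h1
      rw [Fintype.card_coe]
      omega
    have hFS : ∀ s, d'.Full s ↔ d.Ss s := by
      intro s
      unfold Str.Full Dat.Ss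
      rw [k1, k2, k3, k4]
      constructor
      · rintro ⟨h1, h2, h3⟩
        refine ⟨h1, h3, ?_, h2⟩
        intro x hx
        rw [hdJ, Finset.mem_singleton, ← hdu] at hx
        have hx' : d.a (d.pi x) = d.u := by
          rw [hg.hda, hg.pia, ← hg.hda]
          exact hx
        rw [h2 x hx, h2 _ hx', hg.s0p]
      · rintro ⟨h1, h2, h3, h4⟩
        exact ⟨h1, h4, h2⟩
    have h1 := dvd_ham hV (univ : Finset D₀).card (Flag ends F) D₀ d' univ le_rfl
    rw [hcard] at h1
    have h3 : (univ.filter fun s => d'.Full s ∧ ∀ c ∈ (univ : Finset D₀), d'.HamC s c).card =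
        (univ.filter fun D => IsDec ends F D ∧ pairsAt ends D u = P).card := by
      apply Finset.card_bij (fun s _ => univ.image (cls s))
      · intro s hs
        rw [Finset.mem_filter] at hs ⊢
        have hs1 := (hFS s).1 hs.2.1
        have hs2 : ∀ c, IsHam ends (cls s c) := fun c =>
          (ham_iff hg k1 k2 k3 hs1 c).1 (hs.2.2 c (mem_univ c))
        obtain ⟨h1, h2⟩ := dec_of_state hD₀ hg hs1 hs2
        refine ⟨mem_univ _, h1, ?_⟩
        rw [h2 u (by rw [hdJ]; exact Finset.mem_singleton_self u), hP]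
      · intro s hs s' hs' h
        rw [Finset.mem_filter] at hs hs'
        have hs1 := (hFS s).1 hs.2.1
        have hs2 : ∀ c, IsHam ends (cls s c) := fun c =>
          (ham_iff hg k1 k2 k3 hs1 c).1 (hs.2.2 c (mem_univ c))
        exact state_inj hg hs1 hs2 ((hFS s').1 hs'.2.1) h
      · intro D hD
        rw [Finset.mem_filter] at hD
        obtain ⟨s, hs1, hs2, hs3⟩ := state_surj hg hD.2.1
          (fun v hv => by
            rw [hdJ, Finset.mem_singleton] at hv
            rw [hv, hD.2.2, hP]) hD₀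
        exact ⟨s, Finset.mem_filter.2 ⟨mem_univ _, (hFS s).2 hs1, fun c _ =>
          (ham_iff hg k1 k2 k3 hs1 c).2 (hs2 c)⟩, hs3⟩
    have h5 : {D | IsDec ends F D ∧ pairsAt ends D u = P} =
        ((univ.filter fun D => IsDec ends F D ∧ pairsAt ends D u = P : Finset _) :
          Set _) := by
      ext D; simp
    rw [h5, Set.ncard_coe_finset, ← h3]
    exact_mod_cast h1
  · have : {D | IsDec ends F D ∧ pairsAt ends D u = P} = ∅ := by
      ext D
      simp only [Set.mem_empty_iff_false, iff_false]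
      exact fun h => hne ⟨D, h⟩
    rw [this, Set.ncard_empty]
    exact dvd_zero _

/-- Every property of the pairing at `u` holds for a number of decompositions divisible by
`2 ^ (k - 1)`. -/
theorem dvd_prop (hl : ∀ e ∈ F, ¬ (ends e).IsDiag) (u : V) (hV : 4 ≤ Fintype.card V) {k : ℕ}
    (hdeg : ∀ v, deg ends F v = 2 * k) (Q : Finset (Finset E) → Prop) :
    2 ^ (k - 1) ∣ {D | IsDec ends F D ∧ Q (pairsAt ends D u)}.ncard := by
  classical
  have h1 : {D | IsDec ends F D ∧ Q (pairsAt ends D u)} =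
      ((univ.filter fun D => IsDec ends F D ∧ Q (pairsAt ends D u) : Finset _) :
        Set (Finset (Finset E))) := by
    ext D; simp
  rw [h1, Set.ncard_coe_finset]
  have h2 : (univ.filter fun D => IsDec ends F D ∧ Q (pairsAt ends D u)).card =
      ∑ P ∈ (univ : Finset (Finset (Finset E))).filter Q,
        (univ.filter fun D => IsDec ends F D ∧ pairsAt ends D u = P).card := by
    rw [← Finset.card_biUnion]
    · congr 1
      ext D
      simp only [Finset.mem_filter, Finset.mem_univ, true_and, Finset.mem_biUnion]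
      constructor
      · rintro ⟨h3, h4⟩; exact ⟨_, h4, h3, rfl⟩
      · rintro ⟨P, h3, h4, rfl⟩; exact ⟨h4, h3⟩
    · intro P _ P' _ hne
      show Disjoint _ _
      rw [Finset.disjoint_left]
      intro D hD hD'
      rw [Finset.mem_filter] at hD hD'
      exact hne (hD.2.2.symm.trans hD'.2.2)
  rw [h2]
  apply Finset.dvd_sum
  intro P _
  have h3 := dvd_dec hl u hV hdeg P
  have h4 : {D | IsDec ends F D ∧ pairsAt ends D u = P} =
      ((univ.filter fun D => IsDec ends F D ∧ pairsAt ends D u = P : Finset _) :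
        Set (Finset (Finset E))) := by
    ext D; simp
  rw [h4, Set.ncard_coe_finset] at h3
  exact h3

/-- The theorem for simple graphs. -/
theorem dvd_simple (G : SimpleGraph V) [DecidableRel G.Adj] (u : V) {k : ℕ}
    (hG : G.IsRegularOfDegree (2 * k)) (Q : Finset (Finset (Sym2 V)) → Prop) :
    2 ^ (k - 1) ∣ {D | SDec G D ∧ Q (pairsAt id D u)}.ncard := by
  classical
  rcases Nat.lt_or_ge k 2 with hk2 | hk2
  · have : k - 1 = 0 := by omega
    rw [this, pow_zero]
    exact one_dvd _
  have : Nonempty V := ⟨u⟩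
  have hloop : ∀ e ∈ G.edgeFinset, ¬ (id e : Sym2 V).IsDiag := fun e he =>
    G.not_isDiag_of_mem_edgeFinset he
  have hdeg : ∀ v, deg (id : Sym2 V → Sym2 V) G.edgeFinset v = 2 * k := by
    intro v
    have h1 : {w | s(v, w) ∈ G.edgeFinset} = ((G.neighborFinset v : Finset V) : Set V) := by
      ext w
      simp
    rw [deg_id _ hloop, h1, Set.ncard_coe_finset]
    exact hG v
  have hcard : 2 * k < Fintype.card V := by
    rw [← hG u]
    exact G.degree_lt_card_verts u
  have h1 := dvd_prop hloop u (by omega) hdeg Q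
  have h2 : {D | SDec G D ∧ Q (pairsAt id D u)} =
      {D | IsDec (id : Sym2 V → Sym2 V) G.edgeFinset D ∧ Q (pairsAt id D u)} := by
    ext D
    show SDec G D ∧ Q (pairsAt id D u) ↔
      IsDec (id : Sym2 V → Sym2 V) G.edgeFinset D ∧ Q (pairsAt id D u)
    rw [sdec_iff]
  rw [h2]
  exact h1

end MP_947208_co.Two
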