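import Mathlib
import Pool.Agent.Work.MP_947208_co.Simple
import Pool.Agent.Work.MP_947208_co.Tri

/-! The cycles occurring in Hamiltonian decompositions. -/

namespace MP_947208_co

open Finset Function

variable {V E : Type} [Fintype V] [DecidableEq V] [Fintype E] [DecidableEq E]
variable {ends : E → Sym2 V}

theorem ext_eq (F : Finset E) (hne : ∀ U, IsHam ends U → U.Nonempty) :
    {C : Finset E | ∃ D, IsDec ends F D ∧ C ∈ D} = ((Ext ends F : Finset _) : Set _) := by
  ext C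
  rw [Set.mem_setOf_eq, Finset.mem_coe, mem_Ext]
  constructor
  · rintro ⟨D, hD, hC⟩
    exact ⟨hD.sub hC, hD.1 C hC, _, hD.erase hC⟩
  · rintro ⟨h1, h2, D, hD⟩
    exact ⟨_, hD.insert h2 h1, Finset.mem_insert_self _ _⟩

theorem cube_le_cycles (hn : 3 ≤ Fintype.card V) (F : Finset E)
    (hl : ∀ e ∈ F, ¬ (ends e).IsDiag) (D : Finset (Finset E)) (hD : IsDec ends F D) :
    D.card ^ 3 ≤ {C : Finset E | ∃ D', IsDec ends F D' ∧ C ∈ D'}.ncard := by
  haveI : Nonempty V := Fintype.card_pos_iff.1 (by omega)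
  rw [ext_eq F (fun U hU => hU.nonempty), Set.ncard_coe_finset]
  exact cube_le hD hl hn

theorem simple_cube {V : Type} [Fintype V] [DecidableEq V] (G : SimpleGraph V)
    [DecidableRel G.Adj] (D : Finset (Finset (Sym2 V))) (hD : SDec G D) :
    D.card ^ 3 ≤ {C : Finset (Sym2 V) | ∃ D', SDec G D' ∧ C ∈ D'}.ncard := by
  classical
  by_cases hDe : D = ∅
  · rw [hDe, Finset.card_empty]
    exact Nat.zero_le _
  · obtain ⟨S, hS⟩ := Finset.nonempty_iff_ne_empty.2 hDe
    obtain ⟨v, p, hp, -⟩ := hD.1 S hS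
    haveI : Nonempty V := ⟨v⟩
    have hn := three_le hp
    have h1 := cube_le_cycles (ends := (id : Sym2 V → Sym2 V)) hn G.edgeFinset
      (fun e he => G.not_isDiag_of_mem_edgeFinset he) D ((sdec_iff D).1 hD)
    have h2 : {C : Finset (Sym2 V) | ∃ D', SDec G D' ∧ C ∈ D'} =
        {C : Finset (Sym2 V) | ∃ D', IsDec id G.edgeFinset D' ∧ C ∈ D'} := by
      ext C
      rw [Set.mem_setOf_eq, Set.mem_setOf_eq]
      constructor
      · rintro ⟨D', h, h'⟩
        exact ⟨D', (sdec_iff D').1 h, h'⟩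
      · rintro ⟨D', h, h'⟩
        exact ⟨D', (sdec_iff D').2 h, h'⟩
    rw [h2]
    exact h1

theorem isHam_tri_iff {k : ℕ} (C : Finset (Fin 3 × Fin k)) :
    IsHam (tri k) C ↔ ∃ p : Fin k × Fin k × Fin k, mkT p.1 p.2.1 p.2.2 = C := by
  constructor
  · intro h
    have h0 := cls_card h
    have h1 : ∀ c, ∃ x, cls C c = {(c, x)} := by
      intro c
      obtain ⟨⟨c', x⟩, he⟩ := Finset.card_eq_one.1 (h0 c)
      have h2 : (c', x) ∈ cls C c := by rw [he]; simp
      have h3 : c' = c := (Finset.mem_filter.1 h2).2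
      exact ⟨x, by rw [he, h3]⟩
    choose f hf using h1
    have hmem : ∀ c x, (c, x) ∈ C ↔ x = f c := by
      intro c x
      have h4 : (c, x) ∈ cls C c ↔ (c, x) ∈ C := by
        unfold cls
        rw [Finset.mem_filter]
        exact ⟨fun h => h.1, fun h => ⟨h, rfl⟩⟩
      rw [← h4, hf c, Finset.mem_singleton, Prod.mk.injEq]
      exact ⟨fun h => h.2, fun h => ⟨rfl, h⟩⟩
    refine ⟨(f 0, f 1, f 2), ?_⟩
    ext ⟨c, x⟩
    rw [mem_mkT, hmem]
    constructor
    · rintro (⟨rfl, rfl⟩ | ⟨rfl, rfl⟩ | ⟨rfl, rfl⟩) <;> rfl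
    · rintro rfl
      fin_cases c
      · exact Or.inl ⟨rfl, rfl⟩
      · exact Or.inr (Or.inl ⟨rfl, rfl⟩)
      · exact Or.inr (Or.inr ⟨rfl, rfl⟩)
  · rintro ⟨p, rfl⟩
    exact isHam_mkT _ _ _

theorem mkT_injective {k : ℕ} :
    Injective fun p : Fin k × Fin k × Fin k => mkT p.1 p.2.1 p.2.2 := by
  rintro ⟨i, j, l⟩ ⟨i', j', l'⟩ h
  have h' : mkT i j l = mkT i' j' l' := h
  have e1 : i = i' := mkT_inj h'
  have h2 : ((1 : Fin 3), j) ∈ mkT i' j' l' := by rw [← h']; simp [mkT]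
  have h3 : ((2 : Fin 3), l) ∈ mkT i' j' l' := by rw [← h']; simp [mkT]
  rw [mem_mkT] at h2 h3
  have e2 : j = j' := by
    rcases h2 with h | h | h
    · exact absurd h.1 (by decide)
    · exact h.2
    · exact absurd h.1 (by decide)
  have e3 : l = l' := by
    rcases h3 with h | h | h
    · exact absurd h.1 (by decide)
    · exact absurd h.1 (by decide)
    · exact h.2
  rw [e1, e2, e3]

/-- The `k`-fold triangle has exactly `k³` Hamiltonian cycles. -/
theorem card_ham_tri (k : ℕ) : {C : Finset (Fin 3 × Fin k) | IsHam (tri k) C}.ncard = k ^ 3 := by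
  have h1 : {C : Finset (Fin 3 × Fin k) | IsHam (tri k) C} =
      Set.range fun p : Fin k × Fin k × Fin k => mkT p.1 p.2.1 p.2.2 := by
    ext C
    rw [Set.mem_setOf_eq, isHam_tri_iff]
    rfl
  rw [h1, ← Set.image_univ, Set.ncard_image_of_injective _ mkT_injective, Set.ncard_univ,
    Nat.card_eq_fintype_card, Fintype.card_prod, Fintype.card_prod, Fintype.card_fin]
  ring

end MP_947208_co
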