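import Pool.Agent.Work.MP_947208_co.ParMain
import Pool.Agent.Work.MP_947208_co.Count

/-!
# The minimum number of decompositions with the same pairings at `j` vertices
-/

set_option autoImplicit false
set_option linter.unusedSectionVars false

namespace MP_947208_co

open Finset Function

namespace Par

section Greedy

variable {α : Type} [DecidableEq α]

/-- Greedy colouring: if every subset of `A` with more than `M` elements contains a member of `𝒮`,
and `q * M < A.card`, then some element of `A` is in `q` members of `𝒮` which have pairwise no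
other common element. -/
theorem greedy (𝒮 : Finset α → Prop) {A : Finset α} {M q : ℕ}
    (h : ∀ I ⊆ A, M < I.card → ∃ S ⊆ I, 2 ≤ S.card ∧ 𝒮 S) (hq : q * M < A.card) :
    ∃ i ∈ A, ∃ Sf : Fin q → Finset α, (∀ a, Sf a ⊆ A ∧ i ∈ Sf a ∧ 𝒮 (Sf a)) ∧
      ∀ a b, a ≠ b → ∀ x, x ∈ Sf a → x ∈ Sf b → x = i := by
  classical
  rcases Nat.eq_zero_or_pos q with hq0 | hq0
  · subst hq0
    obtain ⟨i, hi⟩ := Finset.card_pos.1 (by omega : 0 < A.card)
    exact ⟨i, hi, fun a => a.elim0, fun a => a.elim0, fun a => a.elim0⟩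
  by_contra hcon
  have key : ∀ B ⊆ A, ∃ col : α → Fin q, ∀ a, ∀ S ⊆ B.filter fun x => col x = a,
      2 ≤ S.card → ¬ 𝒮 S := by
    intro B
    induction B using Finset.induction_on with
    | empty =>
      intro _
      refine ⟨fun _ => ⟨0, hq0⟩, ?_⟩
      intro a S hS hS2
      have : S = ∅ := Finset.subset_empty.1 (hS.trans (Finset.filter_subset _ _))
      rw [this, Finset.card_empty] at hS2
      omega
    | insert i B hi ih =>
      intro hBA
      obtain ⟨col, hcol⟩ := ih ((Finset.subset_insert i B).trans hBA)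
      by_contra hno
      push Not at hno
      have h1 : ∀ a : Fin q, ∃ S, S ⊆ insert i (B.filter fun x => col x = a) ∧ i ∈ S ∧ 𝒮 S := by
        intro a
        obtain ⟨a', S, hS, hS2, hS3⟩ := hno (Function.update col i a)
        have h2 : ∀ x ∈ B, Function.update col i a x = col x := by
          intro x hx
          have hxi : x ≠ i := by
            rintro rfl
            exact hi hx
          exact Function.update_of_ne hxi _ _
        have hiS : i ∈ S := by
          by_contra hiS
          apply hcol a' S _ hS2 hS3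
          intro x hx
          have h3 := hS hx
          rw [Finset.mem_filter, Finset.mem_insert] at h3
          have h4 : x ∈ B := by
            rcases h3.1 with h5 | h5
            · exact absurd (h5 ▸ hx) hiS
            · exact h5
          rw [Finset.mem_filter]
          refine ⟨h4, ?_⟩
          rw [← h2 x h4]
          exact h3.2
        have haa : a' = a := by
          have h3 := hS hiS
          rw [Finset.mem_filter, Function.update_self] at h3
          exact h3.2.symm
        refine ⟨S, ?_, hiS, hS3⟩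
        intro x hx
        have h3 := hS hx
        rw [Finset.mem_filter, Finset.mem_insert] at h3
        rw [Finset.mem_insert]
        rcases h3.1 with h5 | h5
        · exact Or.inl h5
        · right
          rw [Finset.mem_filter]
          refine ⟨h5, ?_⟩
          rw [← h2 x h5, h3.2, haa]
      choose Sf hSf1 hSf2 hSf3 using h1
      apply hcon
      refine ⟨i, hBA (Finset.mem_insert_self i B), Sf, ?_, ?_⟩
      · intro a
        refine ⟨?_, hSf2 a, hSf3 a⟩
        refine (hSf1 a).trans ?_
        exact (Finset.insert_subset_insert i (Finset.filter_subset _ _)).trans hBA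
      · intro a b hab x hxa hxb
        by_contra hxi
        have h2 := hSf1 a hxa
        have h3 := hSf1 b hxb
        rw [Finset.mem_insert, Finset.mem_filter] at h2 h3
        rcases h2 with h2 | h2
        · exact hxi h2
        · rcases h3 with h3 | h3
          · exact hxi h3
          · exact hab (h2.2.symm.trans h3.2)
  obtain ⟨col, hcol⟩ := key A (Finset.Subset.refl A)
  have h1 : ∀ a : Fin q, (A.filter fun x => col x = a).card ≤ M := by
    intro a
    by_contra hlt
    push Not at hlt
    obtain ⟨S, hS, hS2, hS3⟩ := h _ (Finset.filter_subset _ _) hlt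
    exact hcol a S hS hS2 hS3
  have h2 : A.card = ∑ a : Fin q, (A.filter fun x => col x = a).card :=
    Finset.card_eq_sum_card_fiberwise (fun x _ => mem_univ _)
  have h3 : ∑ a : Fin q, (A.filter fun x => col x = a).card ≤ ∑ _a : Fin q, M :=
    Finset.sum_le_sum (fun a _ => h1 a)
  rw [Finset.sum_const, Finset.card_univ, Fintype.card_fin, smul_eq_mul] at h3
  omega

end Greedy

variable {V E : Type} [Fintype V] [DecidableEq V] [Fintype E] [DecidableEq E]
  {ends : E → Sym2 V} {F : Finset E}

theorem pairsAt_union (A B : Finset (Finset E)) (v : V) :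
    pairsAt ends (A ∪ B) v = pairsAt ends A v ∪ pairsAt ends B v :=
  Finset.image_union _ _

theorem injOn_filter {D : Finset (Finset E)} (hD : IsDec ends F D) (v : V) :
    Set.InjOn (fun C : Finset E => C.filter fun e => v ∈ ends e) (D : Set (Finset E)) := by
  intro C hC C' hC' h
  obtain ⟨x, hx, hxC⟩ := exists_flag_at hD (Finset.mem_coe.1 hC) v
  have h1 : x.1.1 ∈ C.filter fun e => v ∈ ends e := Finset.mem_filter.2 ⟨hxC, hx ▸ x.2.2⟩
  simp only at h
  rw [h] at h1
  rw [← cyc_eq hD.2.1 (Finset.mem_coe.1 hC) hxC,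
    cyc_eq hD.2.1 (Finset.mem_coe.1 hC') (Finset.mem_filter.1 h1).1]

theorem pairsAt_sdiff {D A : Finset (Finset E)} (hD : IsDec ends F D) (hA : A ⊆ D) (v : V) :
    pairsAt ends (D \ A) v = pairsAt ends D v \ pairsAt ends A v :=
  Finset.image_sdiff_of_injOn (injOn_filter hD v) hA

/-- A subfamily of a decomposition decomposes its union. -/
theorem isDec_subset {D I : Finset (Finset E)} (hD : IsDec ends F D) (hI : I ⊆ D) :
    IsDec ends (I.biUnion id) I :=
  ⟨fun C hC => hD.1 C (hI hC), fun C hC C' hC' hne => hD.2.1 (hI hC) (hI hC') hne, rfl⟩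

/-- The cycles in `S` can be replaced, all of them, with the same pairings at `J`. -/
def Change (ends : E → Sym2 V) (J : Finset V) (S : Finset (Finset E)) : Prop :=
  ∃ S' : Finset (Finset E), IsDec ends (S.biUnion id) S' ∧ Disjoint S S' ∧
    ∀ v ∈ J, pairsAt ends S' v = pairsAt ends S v

/-- Every subfamily with more than `2 ^ (j - 1)` members contains a family that can be changed. -/
theorem exists_change (hl : ∀ e ∈ F, ¬ (ends e).IsDiag) {J : Finset V} (hJ : J.Nonempty)
    (hV : J.card + 2 ≤ Fintype.card V) {D I : Finset (Finset E)} (hD : IsDec ends F D)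
    (hI : I ⊆ D) (hIc : 2 ^ (J.card - 1) < I.card) :
    ∃ S ⊆ I, 2 ≤ S.card ∧ Change ends J S := by
  classical
  obtain ⟨u, hu⟩ := hJ
  have hDI := isDec_subset hD hI
  set G := I.biUnion id with hG
  have hlG : ∀ e ∈ G, ¬ (ends e).IsDiag := by
    intro e he
    obtain ⟨C, hC, heC⟩ := Finset.mem_biUnion.1 he
    exact hl e (mem_of_mem hD (hI hC) heC)
  have heven := even_dec hlG ⟨u, hu⟩ hV hIc (fun v => deg_dec hDI v) (pairsAt ends I)
  have hmem : I ∈ {D | IsDec ends G D ∧ ∀ v ∈ J, pairsAt ends D v = pairsAt ends I v} :=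
    ⟨hDI, fun v _ => rfl⟩
  have hpos : 0 < {D | IsDec ends G D ∧ ∀ v ∈ J, pairsAt ends D v = pairsAt ends I v}.ncard :=
    (Set.ncard_pos (Set.toFinite _)).2 ⟨I, hmem⟩
  have hone : 1 < {D | IsDec ends G D ∧ ∀ v ∈ J, pairsAt ends D v = pairsAt ends I v}.ncard := by
    obtain ⟨r, hr⟩ := heven
    omega
  obtain ⟨D', hD', hne⟩ := Set.exists_ne_of_one_lt_ncard hone I
  obtain ⟨hD'1, hD'2⟩ := hD'
  have hcard : D'.card = I.card := by
    have h1 := deg_dec hD'1 u
    have h2 := deg_dec hDI u
    omega
  set S := I \ D' with hS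
  set S' := D' \ I with hS'
  have hSI : S ⊆ I := Finset.sdiff_subset
  have hS'D : S' ⊆ D' := Finset.sdiff_subset
  -- the common part
  have hSeq : S = I \ (I ∩ D') := by rw [hS, Finset.sdiff_inter_self_left]
  have hS'eq : S' = D' \ (I ∩ D') := by
    rw [hS', Finset.inter_comm, Finset.sdiff_inter_self_left]
  have hunion : S'.biUnion id = S.biUnion id := by
    have h1 : ∀ e, e ∈ G ↔ ∃ C ∈ I, e ∈ C := by
      intro e; rw [hG, Finset.mem_biUnion]; rfl
    have h2 : ∀ e, e ∈ G ↔ ∃ C ∈ D', e ∈ C := by
      intro e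
      conv_lhs => rw [← hD'1.2.2]
      rw [Finset.mem_biUnion]; rfl
    ext e
    rw [Finset.mem_biUnion, Finset.mem_biUnion]
    constructor
    · rintro ⟨C, hC, he⟩
      obtain ⟨hC1, hC2⟩ := Finset.mem_sdiff.1 hC
      obtain ⟨C', hC', he'⟩ := (h1 e).1 ((h2 e).2 ⟨C, hC1, he⟩)
      refine ⟨C', Finset.mem_sdiff.2 ⟨hC', ?_⟩, he'⟩
      intro hC'D
      have h3 : C = C' := (cyc_eq hD'1.2.1 hC1 he).symm.trans (cyc_eq hD'1.2.1 hC'D he')
      exact hC2 (h3 ▸ hC')
    · rintro ⟨C, hC, he⟩
      obtain ⟨hC1, hC2⟩ := Finset.mem_sdiff.1 hC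
      obtain ⟨C', hC', he'⟩ := (h2 e).1 ((h1 e).2 ⟨C, hC1, he⟩)
      refine ⟨C', Finset.mem_sdiff.2 ⟨hC', ?_⟩, he'⟩
      intro hC'I
      have h3 : C = C' := (cyc_eq hDI.2.1 hC1 he).symm.trans (cyc_eq hDI.2.1 hC'I he')
      exact hC2 (h3 ▸ hC')
  have hS'dec : IsDec ends (S.biUnion id) S' := by
    have := isDec_subset hD'1 hS'D
    rw [hunion] at this
    exact this
  have hdis : Disjoint S S' := by
    rw [Finset.disjoint_left]
    intro C hC hC'
    exact (Finset.mem_sdiff.1 hC).2 (Finset.mem_sdiff.1 hC').1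
  have hpairs : ∀ v ∈ J, pairsAt ends S' v = pairsAt ends S v := by
    intro v hv
    rw [hSeq, hS'eq, pairsAt_sdiff hDI Finset.inter_subset_left,
      pairsAt_sdiff hD'1 Finset.inter_subset_right, hD'2 v hv]
  refine ⟨S, hSI, ?_, S', hS'dec, hdis, hpairs⟩
  have hSdec := isDec_subset hDI hSI
  have hcS : S'.card = S.card := by
    have h1 := deg_dec hS'dec u
    have h2 := deg_dec hSdec u
    omega
  by_contra hlt
  push Not at hlt
  rcases Nat.eq_zero_or_pos S.card with h0 | h0
  · apply hne
    have h1 : I ⊆ D' := Finset.sdiff_eq_empty_iff_subset.1 (Finset.card_eq_zero.1 h0)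
    exact (Finset.eq_of_subset_of_card_le h1 hcard.le).symm
  · obtain ⟨C, hC⟩ := Finset.card_eq_one.1 (by omega : S.card = 1)
    obtain ⟨C', hC'⟩ := Finset.card_eq_one.1 (by omega : S'.card = 1)
    rw [hC, hC', Finset.singleton_biUnion, Finset.singleton_biUnion] at hunion
    have h1 : C' = C := hunion
    rw [hC, hC', h1] at hdis
    exact Finset.disjoint_left.1 hdis (Finset.mem_singleton_self C)
      (Finset.mem_singleton_self C)

theorem isHam_eq_of_subset {A B : Finset E} (hA : IsHam ends A) (hB : IsHam ends B)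
    (h : A ⊆ B) : A = B := by
  apply Finset.Subset.antisymm h
  intro e he
  obtain ⟨v, hv⟩ : ∃ v, v ∈ ends e := ⟨_, Sym2.out_fst_mem _⟩
  have h1 : (A.filter fun e => v ∈ ends e) = B.filter fun e => v ∈ ends e := by
    apply Finset.eq_of_subset_of_card_le (Finset.filter_subset_filter _ h)
    have h2 : (A.filter fun e => v ∈ ends e).card = 2 := hA.1 v
    have h3 : (B.filter fun e => v ∈ ends e).card = 2 := hB.1 v
    omega
  have h2 : e ∈ B.filter fun e => v ∈ ends e := Finset.mem_filter.2 ⟨he, hv⟩
  rw [← h1] at h2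
  exact (Finset.mem_filter.1 h2).1

open Classical in
/-- The decompositions with the same pairings as `D` at `J`. -/
noncomputable def Same (ends : E → Sym2 V) (F : Finset E) (J : Finset V)
    (D : Finset (Finset E)) : Finset (Finset (Finset E)) :=
  univ.filter fun D' => IsDec ends F D' ∧ ∀ v ∈ J, pairsAt ends D' v = pairsAt ends D v

theorem mem_Same {J : Finset V} {D D' : Finset (Finset E)} :
    D' ∈ Same ends F J D ↔ IsDec ends F D' ∧ ∀ v ∈ J, pairsAt ends D' v = pairsAt ends D v := by
  classical
  unfold Same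
  rw [Finset.mem_filter]
  exact ⟨fun h => h.2, fun h => ⟨mem_univ _, h⟩⟩

/-- **The lower bound.** -/
theorem local_min {J : Finset V} (hJ : J.Nonempty) (hV : J.card + 2 ≤ Fintype.card V) :
    ∀ (k : ℕ) (F : Finset E) (_ : ∀ e ∈ F, ¬ (ends e).IsDiag) (D : Finset (Finset E))
      (_ : IsDec ends F D) (_ : D.card = k),
      ∏ l ∈ Finset.range k, (l / 2 ^ (J.card - 1) + 1) ≤ (Same ends F J D).card := by
  classical
  intro k
  induction k with
  | zero =>
    intro F _ D hD _
    rw [Finset.range_zero, Finset.prod_empty]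
    exact Finset.card_pos.2 ⟨D, mem_Same.2 ⟨hD, fun v _ => rfl⟩⟩
  | succ k ih =>
    intro F hl D hD hk
    set M := 2 ^ (J.card - 1) with hM
    have hMpos : 0 < M := by rw [hM]; positivity
    have hq : k / M * M < D.card := by
      have := Nat.div_mul_le_self k M
      omega
    obtain ⟨C, hC, Sf, hSf, hSf2⟩ := greedy (Change ends J)
      (fun I hI hIc => exists_change hl hJ hV hD hI hIc) hq
    have hex : ∀ a, ∃ S' : Finset (Finset E), IsDec ends ((Sf a).biUnion id) S' ∧
        Disjoint (Sf a) S' ∧ ∀ v ∈ J, pairsAt ends S' v = pairsAt ends (Sf a) v :=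
      fun a => (hSf a).2.2
    choose S' hS'1 hS'2 hS'3 using hex
    -- a marked edge
    obtain ⟨u, hu⟩ := hJ
    obtain ⟨x, -, hxC⟩ := exists_flag_at hD hC u
    set e := x.1.1 with he
    -- the decompositions
    set Da : Option (Fin (k / M)) → Finset (Finset E) := fun o =>
      match o with
      | none => D
      | some a => (D \ Sf a) ∪ S' a with hDa
    have hDa1 : ∀ o, IsDec ends F (Da o) := by
      intro o
      match o with
      | none => exact hD
      | some a => exact hD.replace (hSf a).1 rfl (hS'1 a)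
    have hDa2 : ∀ o, ∀ v ∈ J, pairsAt ends (Da o) v = pairsAt ends D v := by
      intro o v hv
      match o with
      | none => rfl
      | some a =>
        show pairsAt ends ((D \ Sf a) ∪ S' a) v = _
        rw [pairsAt_union, hS'3 a v hv, ← pairsAt_union,
          Finset.sdiff_union_of_subset (hSf a).1]
    set Xo : Option (Fin (k / M)) → Finset E := fun o => cyc (Da o) e with hXo
    have heF : e ∈ F := x.2.1
    have hX1 : ∀ o, Xo o ∈ Da o ∧ e ∈ Xo o := fun o => cyc_mem (hDa1 o) heF
    have hXn : Xo none = C := cyc_eq hD.2.1 hC hxC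
    have hXs : ∀ a, Xo (some a) ∈ S' a := by
      intro a
      have h1 : e ∈ (Sf a).biUnion id := Finset.mem_biUnion.2 ⟨C, (hSf a).2.1, hxC⟩
      obtain ⟨h2, h3⟩ := cyc_mem (hS'1 a) h1
      have h4 : cyc (S' a) e ∈ Da (some a) := Finset.mem_union_right _ h2
      have h5 : Xo (some a) = cyc (S' a) e := cyc_eq (hDa1 (some a)).2.1 h4 h3
      rw [h5]
      exact h2
    have hXsub : ∀ a, ∀ f ∈ Xo (some a), ∃ C' ∈ Sf a, f ∈ C' := by
      intro a f hf
      have h1 := mem_of_mem (hS'1 a) (hXs a) hf
      obtain ⟨C', hC', hf'⟩ := Finset.mem_biUnion.1 h1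
      exact ⟨C', hC', hf'⟩
    have hXneC : ∀ a, Xo (some a) ≠ C := by
      intro a h
      exact Finset.disjoint_left.1 (hS'2 a) (hSf a).2.1 (h ▸ hXs a)
    have hXinj : Injective Xo := by
      intro o o' hoo
      rcases o with _ | a <;> rcases o' with _ | b
      · rfl
      · exact absurd (hoo.symm.trans hXn) (hXneC b)
      · exact absurd (hoo.trans hXn) (hXneC a)
      · by_contra hab
        have hab' : a ≠ b := fun h => hab (congrArg some h)
        apply hXneC a
        apply isHam_eq_of_subset ((hS'1 a).1 _ (hXs a)) (hD.1 C hC)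
        intro f hf
        obtain ⟨C₁, hC₁, hf₁⟩ := hXsub a f hf
        have hf' : f ∈ Xo (some b) := by rw [← hoo]; exact hf
        obtain ⟨C₂, hC₂, hf₂⟩ := hXsub b f hf'
        have h3 : C₁ = C₂ := (cyc_eq hD.2.1 ((hSf a).1 hC₁) hf₁).symm.trans
          (cyc_eq hD.2.1 ((hSf b).1 hC₂) hf₂)
        have h4 := hSf2 a b hab' C₁ hC₁ (h3 ▸ hC₂)
        rw [← h4]
        exact hf₁
    -- the decompositions containing `Xo o`
    set W : Option (Fin (k / M)) → Finset (Finset (Finset E)) := fun o =>
      (Same ends (F \ Xo o) J ((Da o).erase (Xo o))).image fun D'' => insert (Xo o) D'' with hW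
    have hXF : ∀ o, Xo o ⊆ F := fun o => (hDa1 o).sub (hX1 o).1
    have hnot : ∀ o, ∀ D'' ∈ Same ends (F \ Xo o) J ((Da o).erase (Xo o)), Xo o ∉ D'' := by
      intro o D'' hD'' hmem
      have h1 := (mem_Same.1 hD'').1
      have h2 := mem_of_mem h1 hmem (hX1 o).2
      exact (Finset.mem_sdiff.1 h2).2 (hX1 o).2
    have hWcard : ∀ o, ∏ l ∈ Finset.range k, (l / M + 1) ≤ (W o).card := by
      intro o
      rw [hW]
      simp only
      rw [Finset.card_image_of_injOn]
      · apply ih
        · intro f hf
          exact hl f (Finset.mem_sdiff.1 hf).1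
        · exact (hDa1 o).erase (hX1 o).1
        · rw [Finset.card_erase_of_mem (hX1 o).1]
          have h1 := deg_dec (hDa1 o) u
          have h2 := deg_dec hD u
          omega
      · intro D₁ hD₁ D₂ hD₂ h12
        simp only at h12
        rw [← Finset.erase_insert (hnot o D₁ hD₁), h12, Finset.erase_insert (hnot o D₂ hD₂)]
    have hWsub : (univ : Finset (Option (Fin (k / M)))).biUnion W ⊆ Same ends F J D := by
      intro D₁ hD₁
      obtain ⟨o, -, ho⟩ := Finset.mem_biUnion.1 hD₁
      obtain ⟨D'', hD'', rfl⟩ := Finset.mem_image.1 ho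
      obtain ⟨h1, h2⟩ := mem_Same.1 hD''
      rw [mem_Same]
      refine ⟨h1.insert ((hDa1 o).1 _ (hX1 o).1) (hXF o), ?_⟩
      intro v hv
      rw [← hDa2 o v hv, Finset.insert_eq, pairsAt_union, h2 v hv, ← pairsAt_union,
        ← Finset.insert_eq, Finset.insert_erase (hX1 o).1]
    have hWdis : ((univ : Finset (Option (Fin (k / M)))) : Set _).PairwiseDisjoint W := by
      intro o _ o' _ hoo
      show Disjoint (W o) (W o')
      rw [Finset.disjoint_left]
      intro D₁ h1 h2
      apply hoo
      apply hXinj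
      have hdec := (mem_Same.1 (hWsub (Finset.mem_biUnion.2 ⟨o, mem_univ _, h1⟩))).1
      obtain ⟨D₂, -, rfl⟩ := Finset.mem_image.1 h1
      obtain ⟨D₃, -, h3⟩ := Finset.mem_image.1 h2
      have h4 : Xo o' ∈ insert (Xo o) D₂ := by rw [← h3]; exact Finset.mem_insert_self _ _
      rw [← cyc_eq hdec.2.1 (Finset.mem_insert_self _ _) (hX1 o).2,
        cyc_eq hdec.2.1 h4 (hX1 o').2]
    calc ∏ l ∈ Finset.range (k + 1), (l / M + 1)
        = (k / M + 1) * ∏ l ∈ Finset.range k, (l / M + 1) := by
          rw [Finset.prod_range_succ, mul_comm]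
      _ = ∑ _o : Option (Fin (k / M)), ∏ l ∈ Finset.range k, (l / M + 1) := by
          rw [Finset.sum_const, Finset.card_univ, Fintype.card_option, Fintype.card_fin,
            smul_eq_mul]
      _ ≤ ∑ o : Option (Fin (k / M)), (W o).card := Finset.sum_le_sum (fun o _ => hWcard o)
      _ = (univ.biUnion W).card := (Finset.card_biUnion (fun o ho o' ho' hne =>
          hWdis (Finset.mem_coe.2 ho) (Finset.mem_coe.2 ho') hne)).symm
      _ ≤ (Same ends F J D).card := Finset.card_le_card hWsub

end Par

end MP_947208_co
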