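import Pool.Agent.Work.MP_947208_co.ParSharp
import Pool.Agent.Work.MP_947208_co.LocMin

/-!
# Sharpness of the lower bound
-/

set_option autoImplicit false
set_option linter.unusedSectionVars false

namespace MP_947208_co

open Finset Function

namespace Par

variable {V : Type} [Fintype V] [DecidableEq V]

/-- The structure of the decompositions of the example with the same pairings at `J`. -/
theorem example_struct (w : Bool → V) (hw : w true ≠ w false) {k : ℕ} (τ : Fin k → V → Bool)
    (J : Finset V) (hJ : ∀ v, v ∈ J ↔ ∀ b, v ≠ w b) {v₁ : V} (hv₁ : v₁ ∈ J)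
    (hτ₁ : ∀ c, τ c v₁ = false) :
    ∃ σ : Fin k → Equiv.Perm V, (∀ c u, σ c u ≠ u) ∧
      IsDec (exEnds σ) univ (univ.image fun c => exC c) ∧
      ∀ D', IsDec (exEnds σ) univ D' →
        (∀ v ∈ J, pairsAt (exEnds σ) D' v = pairsAt (exEnds σ) (univ.image fun c => exC c) v) →
        ∀ C ∈ D', ∃ c₁ c₂, (∀ c, ((c, w false) ∈ C ↔ c = c₁)) ∧
          (∀ c, ((c, w true) ∈ C ↔ c = c₂)) ∧ (∀ v ∈ J, τ c₂ v = τ c₁ v) ∧
          ∀ c, ∀ u ∈ J, ((c, u) ∈ C ↔ (c, w (τ c u)) ∈ C) := by
  have hwJ : ∀ b, w b ∉ J := fun b h => (hJ _).1 h b rfl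
  have hcase : ∀ v, v ∈ J ∨ ∃ b, v = w b := by
    intro v
    by_cases h : v ∈ J
    · exact Or.inl h
    · rw [hJ] at h
      push Not at h
      exact Or.inr h
  have hch : ∀ c : Fin k, _ := fun c => exists_cyc w hw (τ c) J hwJ
  choose σ h1 h2 _ h4 using hch
  have hfix : ∀ c u, σ c u ≠ u := by
    intro c u
    rcases hcase u with h | ⟨b, rfl⟩
    · exact h1 c u h
    · exact h2 c b
  have hfix' : ∀ c u, (σ c).symm u ≠ u := by
    intro c u h
    apply hfix c ((σ c).symm u)
    rw [Equiv.apply_symm_apply, h]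
  have hham : ∀ c, IsHam (exEnds σ) (exC c) := by
    intro c
    refine ⟨?_, ?_⟩
    · intro v
      unfold deg
      rw [exC_filter, Finset.card_pair]
      intro h
      exact hfix' c v (congrArg Prod.snd h).symm
    · intro S hS hSu
      by_contra hcon
      push Not at hcon
      have hp : ∀ u, (σ c u ∈ S ↔ u ∈ S) := by
        intro u
        have h5 : u ∈ exEnds σ (c, u) := Sym2.mem_mk_left _ _
        have h6 : σ c u ∈ exEnds σ (c, u) := Sym2.mem_mk_right _ _
        constructor
        · intro h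
          by_contra h'
          exact hcon (c, u) (mem_exC.2 rfl) _ h _ h' h6 h5
        · intro h
          by_contra h'
          exact hcon (c, u) (mem_exC.2 rfl) _ h _ h' h5 h6
      obtain ⟨h5, h6⟩ := h4 c (fun v => v ∈ S) (fun u _ => hp u)
      have h7 : ∀ b, (w b ∈ S ↔ w (!b) ∈ S) := by
        intro b
        have h8 := h6 ((σ c).symm (w b)) b (Equiv.apply_symm_apply _ _)
        have h9 := hp ((σ c).symm (w b))
        rw [Equiv.apply_symm_apply] at h9
        rw [h9]
        exact h8
      have h8 : ∀ b, (w b ∈ S ↔ w true ∈ S) := by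
        intro b
        cases b
        · exact (h7 true).symm
        · exact Iff.rfl
      have h9 : ∀ v, (v ∈ S ↔ w true ∈ S) := by
        intro v
        rcases hcase v with h | ⟨b, rfl⟩
        · rw [h5 v h, h8]
        · exact h8 b
      obtain ⟨v, hv⟩ := hS
      apply hSu
      ext v'
      simp only [Finset.mem_univ, iff_true]
      rw [h9, ← h9 v]
      exact hv
  have hdec : IsDec (exEnds σ) univ (univ.image fun c => exC c) := by
    refine ⟨?_, ?_, ?_⟩
    · intro C hC
      obtain ⟨c, -, rfl⟩ := Finset.mem_image.1 hC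
      exact hham c
    · intro C hC C' hC' hne
      obtain ⟨c, -, rfl⟩ := Finset.mem_image.1 (Finset.mem_coe.1 hC)
      obtain ⟨c', -, rfl⟩ := Finset.mem_image.1 (Finset.mem_coe.1 hC')
      show Disjoint (exC c) (exC c')
      rw [Finset.disjoint_left]
      intro e he he'
      rw [mem_exC] at he he'
      exact hne (by rw [← he, ← he'])
    · ext e
      simp only [Finset.mem_univ, iff_true]
      rw [Finset.mem_biUnion]
      exact ⟨exC e.1, Finset.mem_image_of_mem _ (mem_univ _), mem_exC.2 rfl⟩
  refine ⟨σ, hfix, hdec, ?_⟩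
  intro D' hD' hpairs C hC
  -- the pairing at a vertex of `J`
  have hκ : ∀ v ∈ J, ∃ c', (∀ c, ((c, v) ∈ C ↔ c = c')) ∧
      ∀ c, ((c, (σ c).symm v) ∈ C ↔ c = c') := by
    intro v hv
    have h5 : (C.filter fun e => v ∈ exEnds σ e) ∈
        pairsAt (exEnds σ) (univ.image fun c => exC c) v := by
      rw [← hpairs v hv]
      exact Finset.mem_image_of_mem _ hC
    obtain ⟨C', hC', h6⟩ := Finset.mem_image.1 h5
    obtain ⟨c', -, rfl⟩ := Finset.mem_image.1 hC'
    rw [exC_filter] at h6
    refine ⟨c', ?_, ?_⟩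
    · intro c
      have h7 : (c, v) ∈ C ↔ (c, v) ∈ (C.filter fun e => v ∈ exEnds σ e) := by
        rw [Finset.mem_filter, mem_exEnds]
        exact ⟨fun h => ⟨h, Or.inl rfl⟩, fun h => h.1⟩
      rw [h7, ← h6, Finset.mem_insert, Finset.mem_singleton]
      constructor
      · rintro (h | h)
        · exact congrArg Prod.fst h
        · exact congrArg Prod.fst h
      · intro h
        left; rw [h]
    · intro c
      have h7 : (c, (σ c).symm v) ∈ C ↔
          (c, (σ c).symm v) ∈ (C.filter fun e => v ∈ exEnds σ e) := by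
        rw [Finset.mem_filter, mem_exEnds]
        exact ⟨fun h => ⟨h, Or.inr rfl⟩, fun h => h.1⟩
      rw [h7, ← h6, Finset.mem_insert, Finset.mem_singleton]
      constructor
      · rintro (h | h)
        · exact congrArg Prod.fst h
        · exact congrArg Prod.fst h
      · intro h
        right; rw [h]
  have hp : ∀ c u, σ c u ∈ J → ((c, σ c u) ∈ C ↔ (c, u) ∈ C) := by
    intro c u hu
    obtain ⟨c', h5, h6⟩ := hκ _ hu
    have h7 := h6 c
    rw [Equiv.symm_apply_apply] at h7
    rw [h5, h7]
  have h5 : ∀ c, (∀ v ∈ J, ((c, v) ∈ C ↔ (c, w (τ c v)) ∈ C)) ∧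
      ∀ u b, σ c u = w b → ((c, u) ∈ C ↔ (c, w (!b)) ∈ C) := fun c =>
    h4 c (fun v => (c, v) ∈ C) (hp c)
  obtain ⟨c₁, hc₁, -⟩ := hκ v₁ hv₁
  have hc₁' : ∀ c, ((c, w false) ∈ C ↔ c = c₁) := by
    intro c
    rw [← hc₁, (h5 c).1 v₁ hv₁, hτ₁]
  -- the degree at `w true`
  have hdeg : deg (exEnds σ) C (w true) = 2 := (hD'.1 C hC).1 _
  have hfil : (C.filter fun e => w true ∈ exEnds σ e) =
      ((univ.filter fun c => (c, w true) ∈ C).image fun c => (c, w true)) ∪
        {(c₁, (σ c₁).symm (w true))} := by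
    ext e
    obtain ⟨c, u⟩ := e
    rw [Finset.mem_filter, mem_exEnds, Finset.mem_union, Finset.mem_image,
      Finset.mem_singleton]
    constructor
    · rintro ⟨h6, h7 | h7⟩
      · left
        simp only [Prod.mk.injEq, true_and] at h7
        subst h7
        exact ⟨c, Finset.mem_filter.2 ⟨mem_univ _, h6⟩, rfl⟩
      · right
        simp only [Prod.mk.injEq, true_and] at h7
        subst h7
        have h8 := (h5 c).2 ((σ c).symm (w true)) true (Equiv.apply_symm_apply _ _)
        rw [h8] at h6
        have h9 := (hc₁' c).1 h6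
        rw [h9]
    · rintro (⟨c', h6, h7⟩ | h6)
      · rw [Finset.mem_filter] at h6
        simp only [Prod.mk.injEq] at h7
        obtain ⟨h7, h8⟩ := h7
        subst h7
        subst h8
        exact ⟨h6.2, Or.inl rfl⟩
      · simp only [Prod.mk.injEq] at h6
        obtain ⟨h7, h8⟩ := h6
        subst h7
        subst h8
        refine ⟨?_, Or.inr rfl⟩
        rw [(h5 c).2 ((σ c).symm (w true)) true (Equiv.apply_symm_apply _ _)]
        exact (hc₁' c).2 rfl
  have hone : (univ.filter fun c => (c, w true) ∈ C).card = 1 := by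
    unfold deg at hdeg
    rw [hfil, Finset.card_union_of_disjoint, Finset.card_singleton,
      Finset.card_image_of_injective _ (fun c c' h => congrArg Prod.fst h)] at hdeg
    · omega
    · rw [Finset.disjoint_singleton_right, Finset.mem_image]
      rintro ⟨c, -, h⟩
      simp only [Prod.mk.injEq] at h
      exact hfix' c₁ (w true) h.2.symm
  obtain ⟨c₂, hc₂⟩ := Finset.card_eq_one.1 hone
  have hc₂' : ∀ c, ((c, w true) ∈ C ↔ c = c₂) := by
    intro c
    rw [← Finset.mem_singleton, ← hc₂, Finset.mem_filter]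
    exact ⟨fun h => ⟨mem_univ _, h⟩, fun h => h.2⟩
  refine ⟨c₁, c₂, hc₁', hc₂', ?_, fun c => (h5 c).1⟩
  intro v hv
  obtain ⟨c, hc, -⟩ := hκ v hv
  cases e1 : τ c₁ v
  · cases e2 : τ c₂ v
    · rfl
    · exfalso
      have h6 : (c₁, v) ∈ C := by rw [(h5 c₁).1 v hv, e1]; exact (hc₁' _).2 rfl
      have h7 : (c₂, v) ∈ C := by rw [(h5 c₂).1 v hv, e2]; exact (hc₂' _).2 rfl
      rw [hc] at h6 h7
      rw [h6, ← h7, e2] at e1
      exact Bool.false_ne_true e1.symm
  · cases e2 : τ c₂ v
    · exfalso
      have h6 : (c, v) ∈ C := (hc c).2 rfl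
      rw [(h5 c).1 v hv] at h6
      cases e3 : τ c v
      · rw [e3, hc₁'] at h6
        rw [h6, e1] at e3
        exact Bool.false_ne_true e3.symm
      · rw [e3, hc₂'] at h6
        rw [h6, e2] at e3
        exact Bool.false_ne_true e3
    · rfl

/-- The number of decompositions of the example with the same pairings at `J`. -/
theorem example_count (w : Bool → V) (hw : w true ≠ w false) {k M : ℕ} (τ : Fin k → V → Bool)
    (J : Finset V) (hJ : ∀ v, v ∈ J ↔ ∀ b, v ≠ w b) {v₁ : V} (hv₁ : v₁ ∈ J)
    (hτ₁ : ∀ c, τ c v₁ = false) (t : Fin k → Fin M)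
    (ht : ∀ c c', (∀ v ∈ J, τ c v = τ c' v) → t c = t c') :
    ∃ ends : Fin k × V → Sym2 V, (∀ e, ¬ (ends e).IsDiag) ∧
      ∃ D : Finset (Finset (Fin k × V)), IsDec ends univ D ∧ D.card = k ∧
        (Same ends univ J D).card ≤ Fintype.card {g : Equiv.Perm (Fin k) // t ∘ g = t} := by
  classical
  obtain ⟨σ, hfix, hdec, hstr⟩ := example_struct w hw τ J hJ hv₁ hτ₁
  refine ⟨exEnds σ, ?_, univ.image fun c => exC c, hdec, ?_, ?_⟩
  · intro e he
    exact hfix e.1 e.2 (Sym2.mk_isDiag_iff.1 he).symm
  · rw [Finset.card_image_of_injective, Finset.card_univ, Fintype.card_fin]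
    intro c c' h
    have h5 : (c, v₁) ∈ (exC c : Finset (Fin k × V)) := mem_exC.2 rfl
    simp only at h
    rw [h, mem_exC] at h5
    exact h5
  · have hcase : ∀ v, v ∈ J ∨ ∃ b, v = w b := by
      intro v
      by_cases h : v ∈ J
      · exact Or.inl h
      · rw [hJ] at h
        push Not at h
        exact Or.inr h
    -- the permutation of a decomposition
    have hperm : ∀ D' ∈ Same (exEnds σ) univ J (univ.image fun c => exC c),
        ∃ g : {g : Equiv.Perm (Fin k) // t ∘ g = t},
          ∀ c, (g.1 c, w true) ∈ cyc D' (c, w false) := by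
      intro D' hD'
      obtain ⟨hD1, hD2⟩ := mem_Same.1 hD'
      have hc : ∀ c, cyc D' (c, w false) ∈ D' ∧ (c, w false) ∈ cyc D' (c, w false) :=
        fun c => cyc_mem hD1 (mem_univ _)
      have h1 : ∀ c, ∃ c₂, (c₂, w true) ∈ cyc D' (c, w false) ∧ t c₂ = t c := by
        intro c
        obtain ⟨c₁, c₂, h2, h3, h4, -⟩ := hstr D' hD1 hD2 _ (hc c).1
        have h5 : c = c₁ := (h2 c).1 (hc c).2
        refine ⟨c₂, (h3 c₂).2 rfl, ?_⟩
        rw [h5]
        exact ht c₂ c₁ h4
      choose g hg1 hg2 using h1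
      have hginj : Injective g := by
        intro c c' hcc
        have h6 : (g c, w true) ∈ cyc D' (c', w false) := by rw [hcc]; exact hg1 c'
        have h7 : cyc D' (c, w false) = cyc D' (c', w false) := by
          rw [← cyc_eq hD1.2.1 (hc c).1 (hg1 c), cyc_eq hD1.2.1 (hc c').1 h6]
        obtain ⟨c₁, c₂, h2, -, -, -⟩ := hstr D' hD1 hD2 _ (hc c).1
        have h8 := (h2 c).1 (hc c).2
        have h9 := (h2 c').1 (by rw [h7]; exact (hc c').2)
        rw [h8, h9]
      refine ⟨⟨Equiv.ofBijective g (Finite.injective_iff_bijective.1 hginj), ?_⟩, hg1⟩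
      funext c
      exact hg2 c
    have : Nonempty {g : Equiv.Perm (Fin k) // t ∘ g = t} := ⟨⟨1, rfl⟩⟩
    choose! G hG using hperm
    have hsub : ∀ D' ∈ Same (exEnds σ) univ J (univ.image fun c => exC c),
        ∀ D'' ∈ Same (exEnds σ) univ J (univ.image fun c => exC c), G D' = G D'' →
          D' ⊆ D'' := by
      intro D' hD' D'' hD'' hGG C hC
      obtain ⟨hD1, hD2⟩ := mem_Same.1 hD'
      obtain ⟨hE1, hE2⟩ := mem_Same.1 hD''
      obtain ⟨c₁, c₂, h2, h3, h4, h5⟩ := hstr D' hD1 hD2 C hC
      have h6 : (c₁, w false) ∈ C := (h2 c₁).2 rfl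
      have h7 : cyc D' (c₁, w false) = C := cyc_eq hD1.2.1 hC h6
      have h8 : (G D').1 c₁ = c₂ := (h3 _).1 (by rw [← h7]; exact hG D' hD' c₁)
      obtain ⟨h9, h10⟩ := cyc_mem hE1 (mem_univ (c₁, w false))
      obtain ⟨d₁, d₂, k2, k3, k4, k5⟩ := hstr D'' hE1 hE2 _ h9
      have h11 : c₁ = d₁ := (k2 c₁).1 h10
      have h12 : (G D'').1 c₁ = d₂ := (k3 _).1 (hG D'' hD'' c₁)
      have h13 : c₂ = d₂ := by rw [← h8, hGG, h12]
      have h14 : C = cyc D'' (c₁, w false) := by
        ext e
        obtain ⟨c, u⟩ := e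
        have hb : ∀ b, ((c, w b) ∈ C ↔ (c, w b) ∈ cyc D'' (c₁, w false)) := by
          intro b
          cases b
          · rw [h2, k2, h11]
          · rw [h3, k3, h13]
        rcases hcase u with h | ⟨b, rfl⟩
        · rw [h5 c u h, k5 c u h]
          exact hb _
        · exact hb b
      rw [h14]
      exact h9
    rw [← Finset.card_univ]
    apply Finset.card_le_card_of_injOn G (fun _ _ => mem_univ _)
    intro D' hD' D'' hD'' hGG
    rw [Finset.mem_coe] at hD' hD''
    exact Finset.Subset.antisymm (hsub D' hD' D'' hD'' hGG) (hsub D'' hD'' D' hD' hGG.symm)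

/-- The product of the factorials of the sizes of the residue classes. -/
theorem prod_types (M : ℕ) (hM : 0 < M) (k : ℕ) :
    ∏ i ∈ Finset.range M, (((Finset.range k).filter fun l => l % M = i).card).factorial =
      ∏ l ∈ Finset.range k, (l / M + 1) := by
  induction k with
  | zero => simp
  | succ k ih =>
    rw [Finset.prod_range_succ, ← ih]
    have hk : k % M ∈ Finset.range M := Finset.mem_range.2 (Nat.mod_lt k hM)
    have hc : ((Finset.range k).filter fun l => l % M = k % M).card = k / M := by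
      have h1 := Nat.count_modEq_card k hM k
      rw [Nat.count_eq_card_filter_range, if_neg (lt_irrefl _), add_zero] at h1
      exact h1
    rw [← Finset.mul_prod_erase _ _ hk, ← Finset.mul_prod_erase (Finset.range M) _ hk]
    have h1 : ((Finset.range (k + 1)).filter fun l => l % M = k % M).card = k / M + 1 := by
      rw [Finset.range_add_one, Finset.filter_insert, if_pos rfl, Finset.card_insert_of_notMem,
        hc]
      intro h
      exact absurd (Finset.mem_range.1 (Finset.mem_filter.1 h).1) (lt_irrefl _)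
    have h2 : ∀ i ∈ (Finset.range M).erase (k % M),
        (((Finset.range (k + 1)).filter fun l => l % M = i).card).factorial =
          (((Finset.range k).filter fun l => l % M = i).card).factorial := by
      intro i hi
      rw [Finset.range_add_one, Finset.filter_insert,
        if_neg (fun h => (Finset.mem_erase.1 hi).1 h.symm)]
    rw [h1, Finset.prod_congr rfl h2, hc, Nat.factorial_succ]
    ring

/-- The bound is best possible. -/
theorem local_sharp (j k : ℕ) (hj : 1 ≤ j) :
    ∃ (ends : Fin k × Fin (j + 2) → Sym2 (Fin (j + 2))) (J : Finset (Fin (j + 2)))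
      (D : Finset (Finset (Fin k × Fin (j + 2)))), (∀ e, ¬ (ends e).IsDiag) ∧
        J.card = j ∧ IsDec ends univ D ∧ D.card = k ∧
          (Same ends univ J D).card ≤ ∏ l ∈ Finset.range k, (l / 2 ^ (j - 1) + 1) := by
  classical
  set w : Bool → Fin (j + 2) := fun b => if b then 0 else Fin.last (j + 1) with hwdef
  have hwt : w true = 0 := rfl
  have hwf : w false = Fin.last (j + 1) := rfl
  have hw : w true ≠ w false := by
    rw [hwt, hwf]
    intro h
    have := congrArg Fin.val h
    simp at this
  set J : Finset (Fin (j + 2)) := univ.filter fun v => ∀ b, v ≠ w b with hJdef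
  have hJ : ∀ v, v ∈ J ↔ ∀ b, v ≠ w b := by
    intro v
    rw [hJdef, Finset.mem_filter]
    exact ⟨fun h => h.2, fun h => ⟨mem_univ _, h⟩⟩
  have hJc : J = univ \ {w true, w false} := by
    ext v
    rw [hJ, Finset.mem_sdiff, Finset.mem_insert, Finset.mem_singleton, not_or]
    constructor
    · intro h; exact ⟨mem_univ _, h true, h false⟩
    · rintro ⟨-, h1, h2⟩ b
      cases b
      · exact h2
      · exact h1
  have hJcard : J.card = j := by
    rw [hJc, Finset.card_univ_sdiff, Finset.card_pair hw, Fintype.card_fin]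
    omega
  have h1lt : 1 < j + 2 := by omega
  set v₁ : Fin (j + 2) := ⟨1, h1lt⟩ with hv₁def
  have hv₁ : v₁ ∈ J := by
    rw [hJ]
    intro b h
    cases b
    · rw [hwf] at h
      have := congrArg Fin.val h
      simp [hv₁def] at this
      omega
    · rw [hwt] at h
      have := congrArg Fin.val h
      simp [hv₁def] at this
  set M := 2 ^ (j - 1) with hM
  have hMpos : 0 < M := by rw [hM]; positivity
  have hpow : ((J.erase v₁).powerset).card = M := by
    rw [Finset.card_powerset, Finset.card_erase_of_mem hv₁, hJcard]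
  obtain ⟨A⟩ : Nonempty (Fin M ↪ ((J.erase v₁).powerset : Finset (Finset (Fin (j + 2))))) := by
    apply Function.Embedding.nonempty_of_card_le
    rw [Fintype.card_coe, hpow, Fintype.card_fin]
  have hA : ∀ c, (A c : Finset (Fin (j + 2))) ⊆ J.erase v₁ := fun c =>
    Finset.mem_powerset.1 (A c).2
  set t : Fin k → Fin M := fun c => ⟨c.val % M, Nat.mod_lt _ hMpos⟩ with htdef
  obtain ⟨ends, h1, D, h2, h3, h4⟩ := example_count w hw
    (fun c v => decide (v ∈ (A (t c) : Finset (Fin (j + 2))))) J hJ hv₁ (by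
      intro c
      rw [decide_eq_false_iff_not]
      intro h
      exact (Finset.mem_erase.1 (hA _ h)).1 rfl) t (by
      intro c c' h
      apply A.injective
      apply Subtype.ext
      ext v
      constructor
      · intro hv
        have := h v (Finset.mem_of_mem_erase (hA _ hv))
        rw [decide_eq_true hv] at this
        exact of_decide_eq_true this.symm
      · intro hv
        have := h v (Finset.mem_of_mem_erase (hA _ hv))
        rw [decide_eq_true hv] at this
        exact of_decide_eq_true this)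
  refine ⟨ends, J, D, h1, hJcard, h2, h3, h4.trans ?_⟩
  rw [DomMulAct.stabilizer_card, ← prod_types M hMpos k, Finset.prod_range]
  apply le_of_eq
  apply Finset.prod_congr rfl
  intro i _
  congr 1
  rw [Fintype.card_subtype]
  apply Finset.card_bij (fun c _ => c.val)
  · intro c hc
    rw [Finset.mem_filter] at hc ⊢
    exact ⟨Finset.mem_range.2 c.2, congrArg Fin.val hc.2⟩
  · intro c _ c' _ h
    exact Fin.ext h
  · intro l hl
    rw [Finset.mem_filter, Finset.mem_range] at hl
    exact ⟨⟨l, hl.1⟩, Finset.mem_filter.2 ⟨mem_univ _, Fin.ext hl.2⟩, rfl⟩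

end Par

end MP_947208_co
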