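import Mathlib

/-!
# Two involutions, and an even number of states

The combinatorial core of the parity theorem with prescribed transitions: a set `X` of flags with
two involutions `i`, `p`, states `C × Bool`, and the statement that the number of states compatible
with `p` is even.
-/

set_option autoImplicit false

namespace MP_947208_co.Par

open Finset Function

/-- Involutions without fixed points act only on sets of even size. -/
theorem even_of_invol {α : Type*} (A : Finset α) (g : α → α) (h1 : ∀ a ∈ A, g a ∈ A)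
    (h2 : ∀ a ∈ A, g a ≠ a) (h3 : ∀ a ∈ A, g (g a) = a) : (A.card : ZMod 2) = 0 := by
  have h : ∑ _a ∈ A, (1 : ZMod 2) = 0 := by
    apply Finset.sum_involution (fun a _ => g a)
    · intro a _; decide
    · intro a ha _; exact h2 a ha
    · intro a ha; exact h1 a ha
    · intro a ha; exact h3 a ha
  rw [Finset.sum_const, nsmul_eq_mul, mul_one] at h
  exact h

section Invol

variable {X : Type*} {i p : Equiv.Perm X}

/-- One step with one of the two involutions. -/
def Stp (i p : Equiv.Perm X) (x y : X) : Prop := y = i x ∨ y = p x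

/-- In the same component of `⟨i, p⟩`. -/
def Cmp (i p : Equiv.Perm X) : X → X → Prop := Relation.ReflTransGen (Stp i p)

theorem Cmp.refl (x : X) : Cmp i p x x := Relation.ReflTransGen.refl

theorem Cmp.trans {x y z : X} (h : Cmp i p x y) (h' : Cmp i p y z) : Cmp i p x z :=
  Relation.ReflTransGen.trans h h'

theorem Cmp.stepI {x y : X} (h : Cmp i p x y) : Cmp i p x (i y) :=
  Relation.ReflTransGen.tail h (Or.inl rfl)

theorem Cmp.stepP {x y : X} (h : Cmp i p x y) : Cmp i p x (p y) :=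
  Relation.ReflTransGen.tail h (Or.inr rfl)

theorem Cmp.symm (hi : ∀ x, i (i x) = x) (hp : ∀ x, p (p x) = x) {x y : X} (h : Cmp i p x y) :
    Cmp i p y x := by
  induction h with
  | refl => exact Cmp.refl _
  | tail _ h ih =>
    refine Relation.ReflTransGen.head ?_ ih
    rcases h with h | h
    · left; rw [h, hi]
    · right; rw [h, hp]

theorem Cmp.const {β : Type*} {f : X → β} (h1 : ∀ x, f (i x) = f x) (h2 : ∀ x, f (p x) = f x)
    {x y : X} (h : Cmp i p x y) : f y = f x := by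
  induction h with
  | refl => rfl
  | tail _ h ih =>
    rcases h with h | h
    · rw [h, h1, ih]
    · rw [h, h2, ih]

theorem i_pow (hi : ∀ x, i (i x) = x) (hp : ∀ x, p (p x) = x) (n : ℤ) (x : X) :
    i (((p * i) ^ n) x) = ((p * i) ^ (-n)) (i x) := by
  have hi' : i * i = 1 := Equiv.ext hi
  have hp' : p * p = 1 := Equiv.ext hp
  have h1 : i * (p * i) * i⁻¹ = (p * i)⁻¹ := by
    rw [mul_inv_rev, inv_eq_of_mul_eq_one_right hi', inv_eq_of_mul_eq_one_right hp']
    rw [mul_assoc, mul_assoc, hi', mul_one]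
  have h2 : i * (p * i) ^ n * i⁻¹ = (p * i) ^ (-n) := by
    rw [← conj_zpow, h1, inv_zpow, zpow_neg]
  have h3 : i * (p * i) ^ n = (p * i) ^ (-n) * i := by
    rw [← h2, inv_mul_cancel_right]
  exact congrArg (fun f : Equiv.Perm X => f x) h3

theorem p_pow (hi : ∀ x, i (i x) = x) (hp : ∀ x, p (p x) = x) (n : ℤ) (x : X) :
    p (((p * i) ^ n) x) = ((p * i) ^ (-n)) (p x) := by
  have hi' : i * i = 1 := Equiv.ext hi
  have hp' : p * p = 1 := Equiv.ext hp
  have h1 : p * (p * i) * p⁻¹ = (p * i)⁻¹ := by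
    rw [mul_inv_rev, inv_eq_of_mul_eq_one_right hi', inv_eq_of_mul_eq_one_right hp', ← mul_assoc,
      hp', one_mul]
  have h2 : p * (p * i) ^ n * p⁻¹ = (p * i) ^ (-n) := by
    rw [← conj_zpow, h1, inv_zpow, zpow_neg]
  have h3 : p * (p * i) ^ n = (p * i) ^ (-n) * p := by
    rw [← h2, inv_mul_cancel_right]
  exact congrArg (fun f : Equiv.Perm X => f x) h3

/-- The component of a fixed point of `p` is a path: it has exactly one other fixed point of `p`,
and states change sign from one end to the other. -/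
theorem other_end [Finite X] (hi : ∀ x, i (i x) = x) (hi0 : ∀ x, i x ≠ x)
    (hp : ∀ x, p (p x) = x) {h : X} (hh : p h = h) :
    ∃ e, p e = e ∧ e ≠ h ∧ Cmp i p h e ∧ (∀ y, Cmp i p h y → p y = y → y = h ∨ y = e) ∧
      (∀ (S : Type) (s : X → S) (fl : S → S), (∀ a, fl (fl a) = a) → (∀ x, s (i x) = fl (s x)) →
        (∀ x, p x ≠ x → s (p x) = fl (s x)) → s e = fl (s h)) := by
  classical
  set φ : Equiv.Perm X := p * i with hφ
  have hφx : ∀ x, φ x = p (i x) := fun x => rfl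
  set m : ℕ := minimalPeriod (fun x => φ • x) h with hm
  have hz : ∀ n : ℤ, (φ ^ n) h = h ↔ (m : ℤ) ∣ n := by
    intro n
    have := MulAction.zpow_smul_eq_iff_minimalPeriod_dvd (a := φ) (b := h) (n := n)
    rw [Equiv.Perm.smul_def] at this
    exact this
  have hmpos : 0 < m := by
    apply Function.minimalPeriod_pos_of_mem_periodicPts
    apply Function.Injective.mem_periodicPts
    exact φ.injective
  have hii : i h = (φ ^ (-1 : ℤ)) h := by
    rw [zpow_neg_one, Equiv.Perm.eq_inv_iff_eq, hφx, hi, hh]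
  have hin : ∀ n : ℤ, i ((φ ^ n) h) = (φ ^ (-n - 1)) h := by
    intro n
    rw [hφ, i_pow hi hp, ← hφ, hii, ← Equiv.Perm.mul_apply, ← zpow_add]
    congr 2
  have hpn : ∀ n : ℤ, p ((φ ^ n) h) = (φ ^ (-n)) h := by
    intro n
    rw [hφ, p_pow hi hp, ← hφ, hh]
  have heq : ∀ a b : ℤ, (φ ^ a) h = (φ ^ b) h ↔ (m : ℤ) ∣ a - b := by
    intro a b
    rw [← hz, sub_eq_neg_add, zpow_add, Equiv.Perm.mul_apply, zpow_neg, Equiv.Perm.inv_eq_iff_eq]
  obtain ⟨m', hm'⟩ : ∃ m', m = 2 * m' := by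
    rcases Nat.even_or_odd' m with ⟨c, hc | hc⟩
    · exact ⟨c, hc⟩
    · exfalso
      apply hi0 ((φ ^ (c : ℤ)) h)
      rw [hin, heq, hc]
      exact ⟨-1, by push_cast; ring⟩
  have hm'pos : 0 < m' := by omega
  have hpe : p ((φ ^ (m' : ℤ)) h) = (φ ^ (m' : ℤ)) h := by
    rw [hpn, heq, hm']
    exact ⟨-1, by push_cast; ring⟩
  have hcmp : ∀ n : ℕ, Cmp i p h ((φ ^ (n : ℤ)) h) := by
    intro n
    induction n with
    | zero => exact Cmp.refl _
    | succ n ih =>
      have : (φ ^ ((n + 1 : ℕ) : ℤ)) h = p (i ((φ ^ (n : ℤ)) h)) := by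
        rw [← hφx, ← Equiv.Perm.mul_apply]
        congr 1
        push_cast
        rw [zpow_add, zpow_one]
        exact (Commute.zpow_left (Commute.refl φ) n)
      rw [this]
      exact ih.stepI.stepP
  have hall : ∀ y, Cmp i p h y → ∃ n : ℤ, y = (φ ^ n) h := by
    intro y hy
    induction hy with
    | refl => exact ⟨0, rfl⟩
    | tail _ hs ih =>
      obtain ⟨n, hn⟩ := ih
      rcases hs with hs | hs
      · exact ⟨-n - 1, by rw [hs, hn, hin]⟩
      · exact ⟨-n, by rw [hs, hn, hpn]⟩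
  refine ⟨(φ ^ (m' : ℤ)) h, hpe, ?_, hcmp m', ?_, ?_⟩
  · intro h0
    rw [hz, hm'] at h0
    obtain ⟨c, hc⟩ := h0
    have : (0 : ℤ) < m' := by exact_mod_cast hm'pos
    push_cast at hc
    have hc1 : c < 1 := by nlinarith
    have hc0 : 0 < c := by nlinarith
    omega
  · intro y hy hpy
    obtain ⟨n, rfl⟩ := hall y hy
    rw [hpn, heq] at hpy
    obtain ⟨c, hc⟩ := hpy
    rw [hm'] at hc
    push_cast at hc
    have hn : n = -(m' * c) := by linarith
    rcases Int.even_or_odd' c with ⟨d, hd | hd⟩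
    · left
      rw [hz, hm', hn, hd]
      exact ⟨-d, by push_cast; ring⟩
    · right
      rw [heq, hm', hn, hd]
      exact ⟨-(d + 1), by push_cast; ring⟩
  · intro S s fl hfl hsi hsp
    have hst : ∀ t : ℕ, t < m' → s ((φ ^ (t : ℤ)) h) = s h := by
      intro t
      induction t with
      | zero => intro _; rfl
      | succ t ih =>
        intro ht
        have h1 : (φ ^ ((t + 1 : ℕ) : ℤ)) h = p (i ((φ ^ (t : ℤ)) h)) := by
          rw [hin, hpn]
          congr 2
          push_cast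
          ring
        have h2 : p (i ((φ ^ (t : ℤ)) h)) ≠ i ((φ ^ (t : ℤ)) h) := by
          rw [hin, hpn]
          intro h0
          rw [heq, hm'] at h0
          obtain ⟨c, hc⟩ := h0
          push_cast at hc
          have hc' : (m' : ℤ) * c = t + 1 := by linarith
          have h3 : (t : ℤ) + 1 < m' := by exact_mod_cast ht
          have h4 : (0 : ℤ) < t + 1 := by positivity
          have h5 : (0 : ℤ) < m' := by exact_mod_cast hm'pos
          have hc1 : c < 1 := by nlinarith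
          have hc0 : 0 < c := by nlinarith
          omega
        rw [h1, hsp _ h2, hsi, hfl]
        exact ih (by omega)
    have h1 : (φ ^ (m' : ℤ)) h = i ((φ ^ ((m' - 1 : ℕ) : ℤ)) h) := by
      rw [hin, heq, hm']
      refine ⟨1, ?_⟩
      push_cast [Nat.cast_sub hm'pos]
      ring
    rw [h1, hsi, hst _ (by omega)]

/-- Two involutions without fixed points have a common 2-colouring. -/
theorem exists_orient [Finite X] (hi : ∀ x, i (i x) = x) (hi0 : ∀ x, i x ≠ x)
    (hp : ∀ x, p (p x) = x) (hp0 : ∀ x, p x ≠ x) :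
    ∃ o : X → Bool, (∀ x, o (i x) = !o x) ∧ (∀ x, o (p x) = !o x) := by
  classical
  set φ : Equiv.Perm X := p * i with hφ
  have hφx : ∀ x, φ x = p (i x) := fun x => rfl
  have key : ∀ x, ¬ φ.SameCycle x (i x) := by
    rintro x ⟨m, hm⟩
    rcases Int.even_or_odd' m with ⟨a, ha | ha⟩
    · apply hi0 ((φ ^ a) x)
      rw [hφ, i_pow hi hp, ← hφ, ← hm, ← Equiv.Perm.mul_apply, ← zpow_add]
      congr 2
      omega
    · apply hp0 ((φ ^ (a + 1)) x)
      have h1 : p x = (φ ^ (1 + m)) x := by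
        rw [zpow_add, zpow_one, Equiv.Perm.mul_apply, hm, hφx, hi]
      rw [hφ, p_pow hi hp, ← hφ, h1, ← Equiv.Perm.mul_apply, ← zpow_add]
      congr 2
      omega
  set st := Equiv.Perm.SameCycle.setoid φ with hst
  have : Finite (Quotient st) := inferInstance
  obtain ⟨N, ⟨E⟩⟩ := Finite.exists_equiv_fin (Quotient st)
  set r : X → ℕ := fun x => (E (Quotient.mk st x) : ℕ) with hr
  have hrr : ∀ x y, r x = r y ↔ φ.SameCycle x y := by
    intro x y
    rw [hr]
    simp only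
    rw [← Fin.ext_iff, E.injective.eq_iff]
    exact Quotient.eq (r := st)
  have hne : ∀ x, r x ≠ r (i x) := fun x h => key x ((hrr _ _).1 h)
  have hphi : ∀ x, r (φ x) = r x := fun x => (hrr _ _).2 (by
    exact (Equiv.Perm.sameCycle_apply_left).2 (Equiv.Perm.SameCycle.refl _ _))
  refine ⟨fun x => decide (r x < r (i x)), ?_, ?_⟩
  · intro x
    have h1 := hne x
    show decide (r (i x) < r (i (i x))) = !decide (r x < r (i x))
    rw [hi]
    by_cases h : r x < r (i x)
    · rw [decide_eq_true h, decide_eq_false (by omega)]; rfl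
    · rw [decide_eq_false h, decide_eq_true (by omega)]; rfl
  · intro x
    have h1 := hne x
    have h2 : r (p x) = r (i x) := by
      rw [← hphi (i x), hφx, hi]
    have h3 : r (i (p x)) = r x := by
      rw [← hphi (i (p x)), hφx, hi, hp]
    show decide (r (p x) < r (i (p x))) = !decide (r x < r (i x))
    rw [h2, h3]
    by_cases h : r x < r (i x)
    · rw [decide_eq_true h, decide_eq_false (by omega)]; rfl
    · rw [decide_eq_false h, decide_eq_true (by omega)]; rfl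

end Invol

section States

variable {X V C : Type}

/-- Change of sign of a state. -/
def fl (a : C × Bool) : C × Bool := (a.1, !a.2)

@[simp] theorem fl_fl (a : C × Bool) : fl (fl a) = a := by simp [fl]

@[simp] theorem fl_fst (a : C × Bool) : (fl a).1 = a.1 := rfl

theorem fl_ne (a : C × Bool) : fl a ≠ a := by
  intro h
  have := congrArg Prod.snd h
  simp [fl] at this

theorem fl_inj {a b : C × Bool} (h : fl a = fl b) : a = b := by
  rw [← fl_fl a, h, fl_fl]

theorem eq_or_fl {a b : C × Bool} (h : a.1 = b.1) : a = b ∨ a = fl b := by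
  obtain ⟨a1, a2⟩ := a
  obtain ⟨b1, b2⟩ := b
  simp only at h
  subst h
  cases a2 <;> cases b2 <;> simp [fl]

section

variable [DecidableEq C]

/-- The exchange of the states `a` and `b` (and of `fl a` and `fl b`). -/
def sw (a b x : C × Bool) : C × Bool :=
  if x.1 = a.1 then (b.1, xor (xor x.2 a.2) b.2)
  else if x.1 = b.1 then (a.1, xor (xor x.2 a.2) b.2) else x

theorem sw_fl (a b x : C × Bool) : sw a b (fl x) = fl (sw a b x) := by
  unfold sw
  by_cases h1 : x.1 = a.1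
  · simp [fl, h1]
  · by_cases h2 : x.1 = b.1
    · have h3 : ¬ b.1 = a.1 := h2 ▸ h1
      simp [fl, h2, h3]
    · simp [fl, h1, h2]

theorem sw_left (a b : C × Bool) : sw a b a = b := by
  obtain ⟨a1, a2⟩ := a
  obtain ⟨b1, b2⟩ := b
  simp [sw]

theorem sw_right (a b : C × Bool) : sw a b b = a := by
  obtain ⟨a1, a2⟩ := a
  obtain ⟨b1, b2⟩ := b
  by_cases h : b1 = a1
  · subst h
    cases a2 <;> cases b2 <;> simp [sw]
  · cases a2 <;> cases b2 <;> simp [sw, h]

theorem sw_sw (a b x : C × Bool) : sw a b (sw a b x) = x := by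
  obtain ⟨a1, a2⟩ := a
  obtain ⟨b1, b2⟩ := b
  obtain ⟨x1, x2⟩ := x
  by_cases h1 : x1 = a1
  · subst h1
    by_cases h : b1 = x1
    · subst h
      cases a2 <;> cases b2 <;> cases x2 <;> simp [sw]
    · cases a2 <;> cases b2 <;> cases x2 <;> simp [sw, h]
  · by_cases h2 : x1 = b1
    · subst h2
      cases a2 <;> cases b2 <;> cases x2 <;> simp [sw, h1]
    · simp [sw, h1, h2]

theorem sw_comm (a b x : C × Bool) : sw a b x = sw b a x := by
  obtain ⟨a1, a2⟩ := a
  obtain ⟨b1, b2⟩ := b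
  obtain ⟨x1, x2⟩ := x
  by_cases h1 : x1 = a1
  · subst h1
    by_cases h : x1 = b1
    · subst h
      cases a2 <;> cases b2 <;> cases x2 <;> simp [sw]
    · cases a2 <;> cases b2 <;> cases x2 <;> simp [sw, h]
  · by_cases h2 : x1 = b1
    · subst h2
      cases a2 <;> cases b2 <;> cases x2 <;> simp [sw, h1]
    · simp [sw, h1, h2]

end

/-- Apply `g` to the states of the flags in `K`. -/
noncomputable def modif (K : X → Prop) (g : C × Bool → C × Bool) (s : X → C × Bool) :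
    X → C × Bool := by
  classical exact fun x => if K x then g (s x) else s x

theorem modif_pos {K : X → Prop} {g : C × Bool → C × Bool} {s : X → C × Bool} {x : X} (h : K x) :
    modif K g s x = g (s x) := by
  unfold modif; rw [if_pos h]

theorem modif_neg {K : X → Prop} {g : C × Bool → C × Bool} {s : X → C × Bool} {x : X}
    (h : ¬ K x) : modif K g s x = s x := by
  unfold modif; rw [if_neg h]

/-- `s` is injective on the flags at `v`. -/
def InjAt (at' : X → V) (s : X → C × Bool) (v : V) : Prop :=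
  ∀ x y, at' x = v → at' y = v → s x = s y → x = y

theorem InjAt.modif {at' : X → V} {s : X → C × Bool} {v : V} (h : InjAt at' s v) {K : X → Prop}
    {g : C × Bool → C × Bool} (hg : ∀ a b, g a = g b → a = b)
    (hK : ∀ x, at' x = v → K x → ∃ y, at' y = v ∧ K y ∧ s y = g (s x)) :
    InjAt at' (modif K g s) v := by
  intro x y hx hy hxy
  by_cases h1 : K x <;> by_cases h2 : K y
  · rw [modif_pos h1, modif_pos h2] at hxy
    exact h x y hx hy (hg _ _ hxy)
  · rw [modif_pos h1, modif_neg h2] at hxy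
    obtain ⟨z, hz, hKz, hsz⟩ := hK x hx h1
    have := h z y hz hy (hsz.trans hxy)
    exact absurd (this ▸ hKz) h2
  · rw [modif_neg h1, modif_pos h2] at hxy
    obtain ⟨z, hz, hKz, hsz⟩ := hK y hy h2
    have := h z x hz hx (hsz.trans hxy.symm)
    exact absurd (this ▸ hKz) h1
  · rw [modif_neg h1, modif_neg h2] at hxy
    exact h x y hx hy hxy

/-- The data: flags `X` with the involution `i` (other flag of the edge) and vertices `a`, the
vertices `J` with prescribed pairing `pi`, a root `u ∈ J` with prescribed states, and two more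
vertices `w₁`, `w₂`. -/
structure Dat (X V C : Type) [Fintype X] [DecidableEq V] [Fintype C] where
  i : Equiv.Perm X
  a : X → V
  J : Finset V
  u : V
  w₁ : V
  w₂ : V
  pi : X → X
  s₀ : X → C × Bool
  hi : ∀ x, i (i x) = x
  hi0 : ∀ x, i x ≠ x
  hcard : ∀ v, (univ.filter fun x => a x = v).card = 2 * Fintype.card C
  hu : u ∈ J
  hw : w₁ ≠ w₂
  hw₁ : w₁ ∉ J
  hw₂ : w₂ ∉ J
  pia : ∀ x, a x ∈ J → a (pi x) = a x
  hpi : ∀ x, a x ∈ J → pi (pi x) = x
  hpi0 : ∀ x, a x ∈ J → pi x ≠ x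

variable [Fintype X] [DecidableEq V] [Fintype C]

/-- States compatible with `p`. -/
def Dat.Sp (d : Dat X V C) (p : Equiv.Perm X) (s : X → C × Bool) : Prop :=
  (∀ x, s (d.i x) = fl (s x)) ∧ (∀ v ∈ d.J, InjAt d.a s v) ∧ InjAt d.a s d.w₁ ∧
    InjAt d.a s d.w₂ ∧ (∀ x, d.a x ≠ d.w₁ → d.a x ≠ d.w₂ → s (p x) = fl (s x)) ∧
    ∀ x, d.a x = d.u → s x = d.s₀ x

/-- Pairings `p` of the flags: the prescribed one at `J`, none at `w₁`, `w₂`. -/
def Dat.Pp (d : Dat X V C) (p : Equiv.Perm X) : Prop :=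
  (∀ x, p (p x) = x) ∧ (∀ x, d.a (p x) = d.a x) ∧ (∀ x, d.a x ∈ d.J → p x = d.pi x) ∧
    (∀ x, d.a x = d.w₁ ∨ d.a x = d.w₂ → p x = x) ∧
    ∀ x, d.a x ∉ d.J → d.a x ≠ d.w₁ → d.a x ≠ d.w₂ → p x ≠ x

theorem InjAt.surj (d : Dat X V C) {s : X → C × Bool} {v : V} (h : InjAt d.a s v)
    (b : C × Bool) : ∃ x, d.a x = v ∧ s x = b := by
  classical
  have h1 : ((univ.filter fun x => d.a x = v).image s) = univ := by
    apply Finset.eq_univ_of_card
    rw [Finset.card_image_of_injOn, d.hcard, Fintype.card_prod, Fintype.card_bool, mul_comm]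
    intro x hx y hy hxy
    rw [Finset.mem_coe, Finset.mem_filter] at hx hy
    exact h x y hx.2 hy.2 hxy
  have h2 : b ∈ ((univ.filter fun x => d.a x = v).image s) := by rw [h1]; exact mem_univ b
  obtain ⟨x, hx, hxb⟩ := Finset.mem_image.1 h2
  exact ⟨x, (Finset.mem_filter.1 hx).2, hxb⟩

/-- Modifications of compatible states. -/
theorem Dat.Sp.modif {d : Dat X V C} {p : Equiv.Perm X} (hp : d.Pp p) {s : X → C × Bool}
    (hs : d.Sp p s) {K : X → Prop} {g : C × Bool → C × Bool} (hg : ∀ a b, g a = g b → a = b)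
    (hgf : ∀ a, g (fl a) = fl (g a)) (hKi : ∀ x, K x → K (d.i x)) (hKp : ∀ x, K x → K (p x))
    (hKu : ∀ x, K x → d.a x ≠ d.u)
    (hK : ∀ v, v ∈ d.J ∨ v = d.w₁ ∨ v = d.w₂ → ∀ x, d.a x = v → K x →
      ∃ y, d.a y = v ∧ K y ∧ s y = g (s x)) : d.Sp p (modif K g s) := by
  have hKi' : ∀ x, K (d.i x) → K x := fun x h => by have := hKi _ h; rwa [d.hi] at this
  have hKp' : ∀ x, K (p x) → K x := fun x h => by have := hKp _ h; rwa [hp.1] at this
  obtain ⟨h1, h2, h3, h4, h5, h6⟩ := hs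
  refine ⟨?_, ?_, ?_, ?_, ?_, ?_⟩
  · intro x
    by_cases hx : K x
    · rw [modif_pos (hKi x hx), modif_pos hx, h1, hgf]
    · rw [modif_neg (fun h => hx (hKi' x h)), modif_neg hx, h1]
  · intro v hv
    exact (h2 v hv).modif hg (hK v (Or.inl hv))
  · exact h3.modif hg (hK _ (Or.inr (Or.inl rfl)))
  · exact h4.modif hg (hK _ (Or.inr (Or.inr rfl)))
  · intro x hx1 hx2
    by_cases hx : K x
    · rw [modif_pos (hKp x hx), modif_pos hx, h5 x hx1 hx2, hgf]
    · rw [modif_neg (fun h => hx (hKp' x h)), modif_neg hx, h5 x hx1 hx2]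
  · intro x hx
    rw [modif_neg (fun h => hKu x h hx)]
    exact h6 x hx

theorem Cmp.col {d : Dat X V C} {p : Equiv.Perm X} (hp : d.Pp p) {s : X → C × Bool}
    (hs : d.Sp p s) {x y : X} (h : Cmp d.i p x y) : (s y).1 = (s x).1 := by
  refine Cmp.const (f := fun x => (s x).1) (fun x => by simp only [hs.1 x, fl_fst]) ?_ h
  intro x
  by_cases h1 : d.a x = d.w₁
  · simp only [hp.2.2.2.1 x (Or.inl h1)]
  · by_cases h2 : d.a x = d.w₂
    · simp only [hp.2.2.2.1 x (Or.inr h2)]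
    · simp only [hs.2.2.2.2.1 x h1 h2, fl_fst]

theorem Dat.fix_iff {d : Dat X V C} {p : Equiv.Perm X} (hp : d.Pp p) (x : X) :
    p x = x ↔ (d.a x = d.w₁ ∨ d.a x = d.w₂) := by
  constructor
  · intro h
    by_contra hcon
    push Not at hcon
    by_cases hJ : d.a x ∈ d.J
    · exact d.hpi0 x hJ ((hp.2.2.1 x hJ).symm.trans h)
    · exact hp.2.2.2.2 x hJ hcon.1 hcon.2 h
  · exact hp.2.2.2.1 x

theorem Dat.ne_of_mem {d : Dat X V C} {v : V} (h : v ∈ d.J) : v ≠ d.w₁ ∧ v ≠ d.w₂ :=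
  ⟨fun h' => d.hw₁ (h' ▸ h), fun h' => d.hw₂ (h' ▸ h)⟩

/-- Changing signs. -/
theorem Dat.Sp.flip {d : Dat X V C} {p : Equiv.Perm X} (hp : d.Pp p) {s : X → C × Bool}
    (hs : d.Sp p s) {K : X → Prop} (hKi : ∀ x, K x → K (d.i x)) (hKp : ∀ x, K x → K (p x))
    (hKu : ∀ x, K x → d.a x ≠ d.u)
    (hK : ∀ v, v = d.w₁ ∨ v = d.w₂ → ∀ x, d.a x = v → K x →
      ∃ y, d.a y = v ∧ K y ∧ s y = fl (s x)) : d.Sp p (Par.modif K fl s) := by
  refine Dat.Sp.modif hp hs (fun _ _ => fl_inj) (fun _ => rfl) hKi hKp hKu ?_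
  rintro v (hv | hv) x hx hKx
  · refine ⟨p x, (hp.2.1 x).trans hx, hKp x hKx, ?_⟩
    have := Dat.ne_of_mem hv
    exact hs.2.2.2.2.1 x (hx ▸ this.1) (hx ▸ this.2)
  · exact hK v hv x hx hKx

/-- The case of a component which contains two flags at `w₁`. -/
theorem even_of_two [DecidableEq X] [DecidableEq C] (d : Dat X V C) (p : Equiv.Perm X)
    [DecidablePred (d.Sp p)] (hp : d.Pp p) {h h' : X}
    (hh : d.a h = d.w₁) (hh' : d.a h' = d.w₁) (hne : h ≠ h') (hc : Cmp d.i p h h') :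
    ((univ.filter (d.Sp p)).card : ZMod 2) = 0 := by
  classical
  have hfix : p h = h := hp.2.2.2.1 h (Or.inl hh)
  have hfix' : p h' = h' := hp.2.2.2.1 h' (Or.inl hh')
  obtain ⟨e, he1, he2, he3, he4, he5⟩ := other_end d.hi d.hi0 hp.1 hfix
  have hee : h' = e := by
    rcases he4 h' hc hfix' with h0 | h0
    · exact absurd h0.symm hne
    · exact h0
  have hw2 : ∀ x, Cmp d.i p h x → d.a x ≠ d.w₂ := by
    intro x hx hxw
    rcases he4 x hx (hp.2.2.2.1 x (Or.inr hxw)) with h0 | h0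
    · rw [h0, hh] at hxw; exact d.hw hxw
    · rw [h0, ← hee, hh'] at hxw; exact d.hw hxw
  have hw1 : ∀ x, Cmp d.i p h x → d.a x = d.w₁ → x = h ∨ x = h' := by
    intro x hx hxw
    rcases he4 x hx (hp.2.2.2.1 x (Or.inl hxw)) with h0 | h0
    · exact Or.inl h0
    · exact Or.inr (h0.trans hee.symm)
  have hsh : ∀ s, d.Sp p s → s h' = fl (s h) := by
    intro s hs
    rcases eq_or_fl (Cmp.col hp hs hc) with h0 | h0
    · exact absurd (hs.2.2.1 h' h hh' hh h0).symm hne
    · exact h0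
  by_cases hu : ∃ y, Cmp d.i p h y ∧ d.a y = d.u
  · obtain ⟨y, hy, hyu⟩ := hu
    set c : C := (d.s₀ y).1 with hcdef
    have hcol : ∀ s, d.Sp p s → (s h).1 = c := by
      intro s hs
      rw [← Cmp.col hp hs hy, hs.2.2.2.2.2 y hyu]
    have hKi : ∀ s, d.Sp p s → ∀ x, ((s x).1 = c ∧ ¬ Cmp d.i p h x) →
        ((s (d.i x)).1 = c ∧ ¬ Cmp d.i p h (d.i x)) := by
      rintro s hs x ⟨hx1, hx2⟩
      refine ⟨by rw [hs.1, fl_fst, hx1], fun hx => hx2 ?_⟩
      have := hx.stepI
      rwa [d.hi] at this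
    have hKp : ∀ s, d.Sp p s → ∀ x, ((s x).1 = c ∧ ¬ Cmp d.i p h x) →
        ((s (p x)).1 = c ∧ ¬ Cmp d.i p h (p x)) := by
      rintro s hs x ⟨hx1, hx2⟩
      refine ⟨?_, fun hx => hx2 ?_⟩
      · have := Cmp.col hp hs (Cmp.refl x).stepP
        rw [this, hx1]
      · have := hx.stepP
        rwa [hp.1] at this
    have hKu : ∀ s, d.Sp p s → ∀ x, ((s x).1 = c ∧ ¬ Cmp d.i p h x) → d.a x ≠ d.u := by
      rintro s hs x ⟨hx1, hx2⟩ hxu
      have h1 : (s x).1 = (s y).1 := by rw [hx1, hs.2.2.2.2.2 y hyu]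
      have hun := Dat.ne_of_mem d.hu
      rcases eq_or_fl h1 with h0 | h0
      · exact hx2 ((hs.2.1 d.u d.hu x y hxu hyu h0) ▸ hy)
      · rw [← hs.2.2.2.2.1 y (hyu ▸ hun.1) (hyu ▸ hun.2)] at h0
        exact hx2 ((hs.2.1 d.u d.hu x (p y) hxu ((hp.2.1 y).trans hyu) h0) ▸ hy.stepP)
    apply even_of_invol (univ.filter (d.Sp p))
      (fun s => Par.modif (fun x => (s x).1 = c ∧ ¬ Cmp d.i p h x) fl s)
    · intro s hs
      rw [Finset.mem_filter] at hs ⊢
      refine ⟨mem_univ _, Dat.Sp.flip hp hs.2 (hKi s hs.2) (hKp s hs.2) (hKu s hs.2) ?_⟩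
      rintro v (rfl | rfl) x hx ⟨hx1, hx2⟩
      · exfalso
        rcases eq_or_fl (hx1.trans (hcol s hs.2).symm) with h0 | h0
        · apply hx2
          rw [hs.2.2.2.1 x h hx hh h0]
          exact Cmp.refl h
        · rw [← hsh s hs.2] at h0
          exact hx2 ((hs.2.2.2.1 x h' hx hh' h0) ▸ hc)
      · obtain ⟨z, hz, hsz⟩ := InjAt.surj d hs.2.2.2.2.1 (fl (s x))
        refine ⟨z, hz, ⟨by rw [hsz, fl_fst, hx1], fun hzc => hw2 z hzc hz⟩, hsz⟩
    · intro s hs h0
      rw [Finset.mem_filter] at hs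
      obtain ⟨z, hz, hsz⟩ := InjAt.surj d hs.2.2.2.2.1 (c, true)
      have h1 := congrFun h0 z
      have h2 : (s z).1 = c ∧ ¬ Cmp d.i p h z :=
        ⟨by rw [hsz], fun hzc => hw2 z hzc hz⟩
      rw [modif_pos (K := fun x => (s x).1 = c ∧ ¬ Cmp d.i p h x) h2] at h1
      exact fl_ne _ h1
    · intro s hs
      rw [Finset.mem_filter] at hs
      have hcc : ∀ x, (Par.modif (fun x => (s x).1 = c ∧ ¬ Cmp d.i p h x) fl s x).1 = (s x).1 := by
        intro x
        by_cases hx : (s x).1 = c ∧ ¬ Cmp d.i p h x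
        · rw [modif_pos (K := fun x => (s x).1 = c ∧ ¬ Cmp d.i p h x) hx, fl_fst]
        · rw [modif_neg (K := fun x => (s x).1 = c ∧ ¬ Cmp d.i p h x) hx]
      simp only [hcc]
      funext x
      by_cases hx : (s x).1 = c ∧ ¬ Cmp d.i p h x
      · rw [modif_pos (K := fun x => (s x).1 = c ∧ ¬ Cmp d.i p h x) hx,
          modif_pos (K := fun x => (s x).1 = c ∧ ¬ Cmp d.i p h x) hx, fl_fl]
      · rw [modif_neg (K := fun x => (s x).1 = c ∧ ¬ Cmp d.i p h x) hx,
          modif_neg (K := fun x => (s x).1 = c ∧ ¬ Cmp d.i p h x) hx]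
  · push Not at hu
    apply even_of_invol (univ.filter (d.Sp p)) (fun s => Par.modif (Cmp d.i p h) fl s)
    · intro s hs
      rw [Finset.mem_filter] at hs ⊢
      refine ⟨mem_univ _, Dat.Sp.flip hp hs.2 (fun x hx => hx.stepI) (fun x hx => hx.stepP)
        hu ?_⟩
      rintro v (rfl | rfl) x hx hKx
      · rcases hw1 x hKx hx with rfl | rfl
        · exact ⟨h', hh', hc, hsh s hs.2⟩
        · exact ⟨h, hh, Cmp.refl _, by rw [hsh s hs.2, fl_fl]⟩
      · exact absurd hx (hw2 x hKx)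
    · intro s hs h0
      have h1 := congrFun h0 h
      rw [modif_pos (Cmp.refl h)] at h1
      exact fl_ne _ h1
    · intro s hs
      funext x
      by_cases hx : Cmp d.i p h x
      · rw [modif_pos hx, modif_pos hx, fl_fl]
      · rw [modif_neg hx, modif_neg hx]

section Swap

variable [DecidableEq C]

/-- For two strands with the same visited vertices: the states of the first one occur, exchanged,
on the second one. -/
theorem closed_half {d : Dat X V C} {p : Equiv.Perm X} (hp : d.Pp p) {s : X → C × Bool}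
    (hs : d.Sp p s) {h₁ h₂ : X} (hh₁ : d.a h₁ = d.w₁) (hh₂ : d.a h₂ = d.w₁)
    (hNB : ∀ h h', d.a h = d.w₁ → d.a h' = d.w₁ → Cmp d.i p h h' → h = h')
    (hJ : ∀ v ∈ d.J, (∃ x, d.a x = v ∧ Cmp d.i p h₁ x) → ∃ x, d.a x = v ∧ Cmp d.i p h₂ x)
    {v : V} (hv : v ∈ d.J ∨ v = d.w₁ ∨ v = d.w₂) {x : X} (hx : d.a x = v)
    (hK : Cmp d.i p h₁ x) :
    ∃ y, d.a y = v ∧ Cmp d.i p h₂ y ∧ s y = sw (s h₁) (s h₂) (s x) := by
  have hfix₁ : p h₁ = h₁ := hp.2.2.2.1 h₁ (Or.inl hh₁)
  have hfix₂ : p h₂ = h₂ := hp.2.2.2.1 h₂ (Or.inl hh₂)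
  have hfl : ∀ y : X, d.a y ≠ d.w₁ → d.a y ≠ d.w₂ → s (p y) = fl (s y) := hs.2.2.2.2.1
  have hspp : ∀ y, p y ≠ y → s (p y) = fl (s y) := by
    intro y hy
    rw [Ne, Dat.fix_iff hp] at hy
    push Not at hy
    exact hfl y hy.1 hy.2
  rcases hv with hv | rfl | rfl
  · obtain ⟨z, hz, hzc⟩ := hJ v hv ⟨x, hx, hK⟩
    have hvn := Dat.ne_of_mem hv
    have hpz : s (p z) = fl (s z) := hfl z (hz ▸ hvn.1) (hz ▸ hvn.2)
    rcases eq_or_fl (Cmp.col hp hs hK) with h0 | h0 <;>
      rcases eq_or_fl (Cmp.col hp hs hzc) with h1 | h1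
    · exact ⟨z, hz, hzc, by rw [h0, sw_left, h1]⟩
    · exact ⟨p z, (hp.2.1 z).trans hz, hzc.stepP, by rw [h0, sw_left, hpz, h1, fl_fl]⟩
    · exact ⟨p z, (hp.2.1 z).trans hz, hzc.stepP, by rw [h0, sw_fl, sw_left, hpz, h1]⟩
    · exact ⟨z, hz, hzc, by rw [h0, sw_fl, sw_left, h1]⟩
  · rw [← hNB h₁ x hh₁ hx hK, sw_left]
    exact ⟨h₂, hh₂, Cmp.refl _, rfl⟩
  · obtain ⟨e, he1, he2, he3, he4, he5⟩ := other_end d.hi d.hi0 hp.1 hfix₁
    obtain ⟨e', he1', he2', he3', he4', he5'⟩ := other_end d.hi d.hi0 hp.1 hfix₂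
    have hxe : x = e := by
      rcases he4 x hK (hp.2.2.2.1 x (Or.inr hx)) with h0 | h0
      · rw [h0, hh₁] at hx
        exact absurd hx d.hw
      · exact h0
    have he'w : d.a e' = d.w₂ := by
      rcases (Dat.fix_iff hp e').1 he1' with h0 | h0
      · exact absurd (hNB h₂ e' hh₂ h0 he3').symm he2'
      · exact h0
    refine ⟨e', he'w, he3', ?_⟩
    rw [hxe, he5 _ s fl fl_fl hs.1 hspp, he5' _ s fl fl_fl hs.1 hspp, sw_fl, sw_left]

/-- The case of two strands avoiding `u` with the same visited vertices. -/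
theorem even_of_swap [DecidableEq X] (d : Dat X V C) (p : Equiv.Perm X)
    [DecidablePred (d.Sp p)] (hp : d.Pp p) {h₁ h₂ : X} (hne : h₁ ≠ h₂)
    (hh₁ : d.a h₁ = d.w₁) (hh₂ : d.a h₂ = d.w₁)
    (hNB : ∀ h h', d.a h = d.w₁ → d.a h' = d.w₁ → Cmp d.i p h h' → h = h')
    (hu₁ : ∀ y, d.a y = d.u → ¬ Cmp d.i p h₁ y) (hu₂ : ∀ y, d.a y = d.u → ¬ Cmp d.i p h₂ y)
    (hJ : ∀ v ∈ d.J, (∃ x, d.a x = v ∧ Cmp d.i p h₁ x) ↔ ∃ x, d.a x = v ∧ Cmp d.i p h₂ x) :
    ((univ.filter (d.Sp p)).card : ZMod 2) = 0 := by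
  classical
  set K : X → Prop := fun x => Cmp d.i p h₁ x ∨ Cmp d.i p h₂ x with hKdef
  have hK1 : K h₁ := Or.inl (Cmp.refl _)
  have hK2 : K h₂ := Or.inr (Cmp.refl _)
  apply even_of_invol (univ.filter (d.Sp p)) (fun s => Par.modif K (sw (s h₁) (s h₂)) s)
  · intro s hs
    rw [Finset.mem_filter] at hs ⊢
    refine ⟨mem_univ _, Dat.Sp.modif hp hs.2 ?_ (sw_fl _ _) ?_ ?_ ?_ ?_⟩
    · intro a b hab
      rw [← sw_sw (s h₁) (s h₂) a, hab, sw_sw]
    · rintro x (hx | hx)
      · exact Or.inl hx.stepI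
      · exact Or.inr hx.stepI
    · rintro x (hx | hx)
      · exact Or.inl hx.stepP
      · exact Or.inr hx.stepP
    · rintro x (hx | hx) hxu
      · exact hu₁ x hxu hx
      · exact hu₂ x hxu hx
    · rintro v hv x hx (hKx | hKx)
      · obtain ⟨y, hy1, hy2, hy3⟩ := closed_half hp hs.2 hh₁ hh₂ hNB
          (fun v hv => (hJ v hv).1) hv hx hKx
        exact ⟨y, hy1, Or.inr hy2, hy3⟩
      · obtain ⟨y, hy1, hy2, hy3⟩ := closed_half hp hs.2 hh₂ hh₁ hNB
          (fun v hv => (hJ v hv).2) hv hx hKx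
        exact ⟨y, hy1, Or.inl hy2, by rw [hy3, sw_comm]⟩
  · intro s hs h0
    rw [Finset.mem_filter] at hs
    have h1 := congrFun h0 h₁
    rw [modif_pos hK1, sw_left] at h1
    exact hne (hs.2.2.2.1 h₁ h₂ hh₁ hh₂ h1.symm)
  · intro s hs
    have e1 : Par.modif K (sw (s h₁) (s h₂)) s h₁ = s h₂ := by rw [modif_pos hK1, sw_left]
    have e2 : Par.modif K (sw (s h₁) (s h₂)) s h₂ = s h₁ := by rw [modif_pos hK2, sw_right]
    simp only [e1, e2]
    funext x
    by_cases hx : K x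
    · rw [modif_pos hx, modif_pos hx, sw_comm, sw_sw]
    · rw [modif_neg hx, modif_neg hx]

/-- **Main parity statement for a fixed pairing `p`.** -/
theorem even_Sp [DecidableEq X] (d : Dat X V C) (hk : 2 ^ (d.J.card - 1) < Fintype.card C)
    (p : Equiv.Perm X) [DecidablePred (d.Sp p)] (hp : d.Pp p) :
    ((univ.filter (d.Sp p)).card : ZMod 2) = 0 := by
  classical
  by_cases hne : ∃ s, d.Sp p s
  swap
  · rw [Finset.filter_false_of_mem (fun s _ hs => hne ⟨s, hs⟩), Finset.card_empty, Nat.cast_zero]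
  obtain ⟨s, hs⟩ := hne
  by_cases hB : ∃ h h', d.a h = d.w₁ ∧ d.a h' = d.w₁ ∧ h ≠ h' ∧ Cmp d.i p h h'
  · obtain ⟨h, h', h1, h2, h3, h4⟩ := hB
    exact even_of_two d p hp h1 h2 h3 h4
  have hNB : ∀ h h', d.a h = d.w₁ → d.a h' = d.w₁ → Cmp d.i p h h' → h = h' := by
    intro h h' h1 h2 h3
    by_contra h4
    exact hB ⟨h, h', h1, h2, h4, h3⟩
  -- the flags at `w₁` whose strand meets `u`
  set W := univ.filter fun x => d.a x = d.w₁ with hW
  set Wb := W.filter fun h => ∃ y, d.a y = d.u ∧ Cmp d.i p h y with hWb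
  set Wg := W.filter fun h => ¬ ∃ y, d.a y = d.u ∧ Cmp d.i p h y with hWg
  have hWcard : Wb.card + Wg.card = 2 * Fintype.card C := by
    rw [← d.hcard d.w₁, ← hW]
    exact Finset.card_filter_add_card_filter_not _
  have hun := Dat.ne_of_mem d.hu
  have hWbm : ∀ h, h ∈ Wb ↔ d.a h = d.w₁ ∧ ∃ y, d.a y = d.u ∧ Cmp d.i p h y := by
    intro h
    rw [hWb, hW, Finset.mem_filter, Finset.mem_filter]
    simp
  have hWgm : ∀ h, h ∈ Wg ↔ d.a h = d.w₁ ∧ ¬ ∃ y, d.a y = d.u ∧ Cmp d.i p h y := by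
    intro h
    rw [hWg, hW, Finset.mem_filter, Finset.mem_filter]
    simp
  have hWb2 : 2 * Wb.card ≤ 2 * Fintype.card C := by
    rw [← d.hcard d.u]
    choose! Y hY1 hY2 using fun h (hh : h ∈ Wb) => ((hWbm h).1 hh).2
    have hinj : Set.InjOn (fun q : X × Bool => if q.2 then p (Y q.1) else Y q.1)
        ((Wb ×ˢ (univ : Finset Bool) : Finset (X × Bool)) : Set (X × Bool)) := by
      rintro ⟨h, b⟩ hh ⟨h', b'⟩ hh' heq
      rw [Finset.mem_coe, Finset.mem_product] at hh hh'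
      have c1 : Cmp d.i p h (if b then p (Y h) else Y h) := by
        cases b
        · exact hY2 h hh.1
        · exact (hY2 h hh.1).stepP
      have c2 : Cmp d.i p h' (if b' then p (Y h') else Y h') := by
        cases b'
        · exact hY2 h' hh'.1
        · exact (hY2 h' hh'.1).stepP
      simp only at heq
      rw [← heq] at c2
      have c3 : Cmp d.i p h h' := c1.trans (c2.symm d.hi hp.1)
      have c4 : h = h' := hNB h h' ((hWbm h).1 hh.1).1 ((hWbm h').1 hh'.1).1 c3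
      subst c4
      have c5 : p (Y h) ≠ Y h := by
        rw [Ne, Dat.fix_iff hp, hY1 h hh.1]
        push Not
        exact hun
      cases b <;> cases b'
      · rfl
      · exact absurd heq.symm c5
      · exact absurd heq c5
      · rfl
    have hmaps : ∀ q ∈ Wb ×ˢ (univ : Finset Bool),
        (if q.2 then p (Y q.1) else Y q.1) ∈ univ.filter fun x => d.a x = d.u := by
      rintro ⟨h, b⟩ hq
      rw [Finset.mem_product] at hq
      rw [Finset.mem_filter]
      refine ⟨mem_univ _, ?_⟩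
      cases b
      · exact hY1 h hq.1
      · exact (hp.2.1 _).trans (hY1 h hq.1)
    have := Finset.card_le_card_of_injOn _ hmaps hinj
    rw [Finset.card_product, Finset.card_univ, Fintype.card_bool] at this
    omega
  have hWg2 : Fintype.card C ≤ Wg.card := by omega
  have hlt : ((d.J.erase d.u).powerset).card < Wg.card := by
    rw [Finset.card_powerset, Finset.card_erase_of_mem d.hu]
    omega
  obtain ⟨h₁, hh₁, h₂, hh₂, hne, hA⟩ := Finset.exists_ne_map_eq_of_card_lt_of_maps_to hlt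
    (f := fun h => (d.J.erase d.u).filter fun v => ∃ x, d.a x = v ∧ Cmp d.i p h x)
    (fun h _ => Finset.mem_powerset.2 (Finset.filter_subset _ _))
  rw [hWgm] at hh₁ hh₂
  have hu₁ : ∀ y, d.a y = d.u → ¬ Cmp d.i p h₁ y := fun y h1 h2 => hh₁.2 ⟨y, h1, h2⟩
  have hu₂ : ∀ y, d.a y = d.u → ¬ Cmp d.i p h₂ y := fun y h1 h2 => hh₂.2 ⟨y, h1, h2⟩
  apply even_of_swap d p hp hne hh₁.1 hh₂.1 hNB hu₁ hu₂
  intro v hv
  by_cases hvu : v = d.u
  · subst hvu
    constructor
    · rintro ⟨x, h1, h2⟩; exact absurd h2 (hu₁ x h1)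
    · rintro ⟨x, h1, h2⟩; exact absurd h2 (hu₂ x h1)
  · have h1 : v ∈ d.J.erase d.u := Finset.mem_erase.2 ⟨hvu, hv⟩
    have h2 := congrArg (fun A => v ∈ A) hA
    simp only [Finset.mem_filter, h1, true_and, eq_iff_iff] at h2
    exact h2

end Swap

end States

end MP_947208_co.Par
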