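import Pool.Agent.Work.MP_947208_co.ParRes
import Pool.Agent.Work.MP_947208_co.Defs

/-!
# From states to Hamiltonian decompositions
-/

set_option autoImplicit false
set_option linter.unusedSectionVars false

namespace MP_947208_co

open Finset Function

/-- The pairing of the edges at `v` induced by the set `D` of cycles: the pairs of edges at `v`
which belong to the same cycle. -/
def pairsAt {V E : Type} [DecidableEq V] [DecidableEq E] (ends : E → Sym2 V)
    (D : Finset (Finset E)) (v : V) : Finset (Finset E) :=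
  D.image fun C => C.filter fun e => v ∈ ends e

namespace Par

variable {V E : Type} [Fintype V] [DecidableEq V] [Fintype E] [DecidableEq E]
  {ends : E → Sym2 V} {F : Finset E}

/-- Flags: an edge of `F` together with one of its ends. -/
abbrev Flag (ends : E → Sym2 V) (F : Finset E) : Type := {q : E × V // q.1 ∈ F ∧ q.2 ∈ ends q.1}

/-- The other flag of the same edge. -/
noncomputable def oth (x : Flag ends F) : Flag ends F :=
  ⟨(x.1.1, Sym2.Mem.other x.2.2), x.2.1, Sym2.other_mem x.2.2⟩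

theorem oth_fst (x : Flag ends F) : (oth x).1.1 = x.1.1 := rfl

theorem oth_oth (x : Flag ends F) : oth (oth x) = x := by
  apply Subtype.ext
  apply Prod.ext
  · rfl
  · exact Sym2.other_invol _ _

theorem oth_ne (hl : ∀ e ∈ F, ¬ (ends e).IsDiag) (x : Flag ends F) : oth x ≠ x := by
  intro h
  have h' := congrArg (fun x : Flag ends F => x.1.2) h
  exact Sym2.other_ne (hl _ x.2.1) x.2.2 h'

theorem eq_or_oth {x y : Flag ends F} (h : x.1.1 = y.1.1) : y = x ∨ y = oth x := by
  have h1 : y.1.2 ∈ ends x.1.1 := by rw [h]; exact y.2.2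
  have h2 : y.1.2 ∈ s(x.1.2, Sym2.Mem.other x.2.2) := by
    rw [Sym2.other_spec x.2.2]; exact h1
  rcases Sym2.mem_iff.1 h2 with h3 | h3
  · left; exact Subtype.ext (Prod.ext h.symm h3)
  · right; exact Subtype.ext (Prod.ext h.symm h3)

theorem flag_ext {x y : Flag ends F} (h1 : x.1.1 = y.1.1) (h2 : x.1.2 = y.1.2) : x = y :=
  Subtype.ext (Prod.ext h1 h2)

/-- The member of `D` containing the edge `e`. -/
def cyc (D : Finset (Finset E)) (e : E) : Finset E := (D.filter fun C => e ∈ C).biUnion id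

theorem cyc_eq {D : Finset (Finset E)} (hD : (D : Set (Finset E)).PairwiseDisjoint id)
    {C : Finset E} (hC : C ∈ D) {e : E} (he : e ∈ C) : cyc D e = C := by
  have : D.filter (fun C => e ∈ C) = {C} := by
    ext C'
    rw [Finset.mem_filter, Finset.mem_singleton]
    constructor
    · rintro ⟨h1, h2⟩
      by_contra hne
      exact Finset.disjoint_left.1 (hD h1 hC hne) h2 he
    · rintro rfl; exact ⟨hC, he⟩
  rw [cyc, this, Finset.singleton_biUnion]; rfl

theorem cyc_mem {D : Finset (Finset E)} (hD : IsDec ends F D) {e : E} (he : e ∈ F) :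
    cyc D e ∈ D ∧ e ∈ cyc D e := by
  rw [← hD.2.2] at he
  obtain ⟨C, hC, heC⟩ := Finset.mem_biUnion.1 he
  rw [cyc_eq hD.2.1 hC heC]
  exact ⟨hC, heC⟩

theorem mem_of_mem {D : Finset (Finset E)} (hD : IsDec ends F D) {C : Finset E} (hC : C ∈ D)
    {e : E} (he : e ∈ C) : e ∈ F := by
  rw [← hD.2.2]; exact Finset.mem_biUnion.2 ⟨C, hC, he⟩

/-- The pairing of the flags induced by a decomposition. -/
theorem exists_pr {D : Finset (Finset E)} (hD : IsDec ends F D) :
    ∃ pr : Equiv.Perm (Flag ends F), (∀ x, pr (pr x) = x) ∧ (∀ x, pr x ≠ x) ∧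
      (∀ x, (pr x).1.2 = x.1.2) ∧ (∀ x, cyc D (pr x).1.1 = cyc D x.1.1) ∧
      (∀ x, ((cyc D x.1.1).filter fun e => x.1.2 ∈ ends e) = {x.1.1, (pr x).1.1}) ∧
      ∀ x y : Flag ends F, x.1.2 = y.1.2 → cyc D x.1.1 = cyc D y.1.1 → y = x ∨ y = pr x := by
  have h1 : ∀ x : Flag ends F, ∃ y : Flag ends F, y.1.2 = x.1.2 ∧ y ≠ x ∧
      ((cyc D x.1.1).filter fun e => x.1.2 ∈ ends e) = {x.1.1, y.1.1} := by
    intro x
    obtain ⟨hc1, hc2⟩ := cyc_mem hD x.2.1
    have h2 : deg ends (cyc D x.1.1) x.1.2 = 2 := (hD.1 _ hc1).1 x.1.2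
    unfold deg at h2
    have h3 : x.1.1 ∈ (cyc D x.1.1).filter fun e => x.1.2 ∈ ends e :=
      Finset.mem_filter.2 ⟨hc2, x.2.2⟩
    obtain ⟨e', h4, h5⟩ : ∃ e', e' ≠ x.1.1 ∧
        ((cyc D x.1.1).filter fun e => x.1.2 ∈ ends e) = {x.1.1, e'} := by
      obtain ⟨a, b, hab, hab'⟩ := Finset.card_eq_two.1 h2
      rw [hab'] at h3 ⊢
      rcases Finset.mem_insert.1 h3 with h | h
      · exact ⟨b, by rw [h]; exact hab.symm, by rw [h]⟩
      · rw [Finset.mem_singleton] at h
        exact ⟨a, by rw [h]; exact hab, by rw [h, Finset.pair_comm]⟩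
    have h6 : e' ∈ (cyc D x.1.1).filter fun e => x.1.2 ∈ ends e := by
      rw [h5]; exact Finset.mem_insert_of_mem (Finset.mem_singleton_self _)
    rw [Finset.mem_filter] at h6
    refine ⟨⟨(e', x.1.2), mem_of_mem hD hc1 h6.1, h6.2⟩, rfl, ?_, h5⟩
    intro h
    exact h4 (congrArg (fun x : Flag ends F => x.1.1) h)
  choose q hq1 hq2 hq3 using h1
  have hmem : ∀ x, (q x).1.1 ∈ cyc D x.1.1 := by
    intro x
    have : (q x).1.1 ∈ ((cyc D x.1.1).filter fun e => x.1.2 ∈ ends e) := by
      rw [hq3]; exact Finset.mem_insert_of_mem (Finset.mem_singleton_self _)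
    exact (Finset.mem_filter.1 this).1
  have hcyc : ∀ x, cyc D (q x).1.1 = cyc D x.1.1 := fun x =>
    cyc_eq hD.2.1 (cyc_mem hD x.2.1).1 (hmem x)
  have huniq : ∀ x y : Flag ends F, x.1.2 = y.1.2 → cyc D x.1.1 = cyc D y.1.1 →
      y = x ∨ y = q x := by
    intro x y hv hc
    have h1 : y.1.1 ∈ ((cyc D x.1.1).filter fun e => x.1.2 ∈ ends e) := by
      rw [Finset.mem_filter, hc, hv]
      exact ⟨(cyc_mem hD y.2.1).2, y.2.2⟩
    rw [hq3, Finset.mem_insert, Finset.mem_singleton] at h1
    rcases h1 with h1 | h1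
    · left; exact flag_ext h1 hv.symm
    · right; exact flag_ext h1 (hv.symm.trans (hq1 x).symm)
  have hqq : ∀ x, q (q x) = x := by
    intro x
    rcases huniq (q x) x (hq1 x) (hcyc x) with h | h
    · exact absurd h.symm (hq2 x)
    · exact h.symm
  exact ⟨⟨q, q, hqq, hqq⟩, hqq, hq2, hq1, hcyc, hq3, huniq⟩

/-- The edges with a given colour. -/
def cls {C : Type} [DecidableEq C] (s : Flag ends F → C × Bool) (c : C) : Finset E :=
  ((univ : Finset (Flag ends F)).filter fun x => (s x).1 = c).image fun x => x.1.1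

theorem mem_cls {C : Type} [DecidableEq C] {s : Flag ends F → C × Bool} {c : C} {e : E} :
    e ∈ cls s c ↔ ∃ x : Flag ends F, (s x).1 = c ∧ x.1.1 = e := by
  unfold cls
  rw [Finset.mem_image]
  constructor
  · rintro ⟨x, hx, h⟩; exact ⟨x, (Finset.mem_filter.1 hx).2, h⟩
  · rintro ⟨x, hx, h⟩; exact ⟨x, Finset.mem_filter.2 ⟨mem_univ _, hx⟩, h⟩

theorem mem_cls' {C : Type} [DecidableEq C] {s : Flag ends F → C × Bool}
    (hs : ∀ x, s (oth x) = fl (s x)) {c : C} (x : Flag ends F) :
    x.1.1 ∈ cls s c ↔ (s x).1 = c := by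
  rw [mem_cls]
  constructor
  · rintro ⟨y, hy, h⟩
    rcases eq_or_oth h with h' | h'
    · rw [h']; exact hy
    · rw [h', hs]; exact hy
  · intro h; exact ⟨x, h, rfl⟩

theorem cls_sub {C : Type} [DecidableEq C] {s : Flag ends F → C × Bool} {c : C} {e : E}
    (h : e ∈ cls s c) : e ∈ F := by
  obtain ⟨x, -, rfl⟩ := mem_cls.1 h
  exact x.2.1

/-- The edges of colour `c` at a vertex. -/
theorem cls_filter {C : Type} [DecidableEq C] {s : Flag ends F → C × Bool}
    (hs : ∀ x, s (oth x) = fl (s x)) {v : V} (hv : InjAt (fun x : Flag ends F => x.1.2) s v)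
    {x y : Flag ends F} (hx : x.1.2 = v) (hy : y.1.2 = v) (hxy : s y = fl (s x)) :
    ((cls s (s x).1).filter fun e => v ∈ ends e) = {x.1.1, y.1.1} := by
  ext e
  rw [Finset.mem_filter, Finset.mem_insert, Finset.mem_singleton]
  constructor
  · rintro ⟨h1, h2⟩
    set z : Flag ends F := ⟨(e, v), cls_sub h1, h2⟩ with hz
    have h3 : z.1.1 ∈ cls s (s x).1 := h1
    rw [mem_cls' hs] at h3
    rcases eq_or_fl h3 with h | h
    · left
      have := hv z x rfl hx h
      exact congrArg (fun x : Flag ends F => x.1.1) this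
    · right
      have := hv z y rfl hy (h.trans hxy.symm)
      exact congrArg (fun x : Flag ends F => x.1.1) this
  · rintro (h | h)
    · subst h
      exact ⟨(mem_cls' hs x).2 rfl, hx ▸ x.2.2⟩
    · subst h
      refine ⟨(mem_cls' hs y).2 (by rw [hxy, fl_fst]), hy ▸ y.2.2⟩


theorem modif_fl_fst {X C : Type} {K : X → Prop} {s : X → C × Bool} (x : X) :
    (modif K fl s x).1 = (s x).1 := by
  by_cases h : K x
  · rw [modif_pos h, fl_fst]
  · rw [modif_neg h]

theorem cls_congr {C : Type} [DecidableEq C] {s s' : Flag ends F → C × Bool}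
    (h : ∀ x, (s x).1 = (s' x).1) (c : C) : cls s c = cls s' c := by
  unfold cls
  simp only [h]

theorem cls_deg {C : Type} [DecidableEq C] [Fintype C] {d : Dat (Flag ends F) V C}
    (hdi : ∀ x, d.i x = oth x) (hda : ∀ x, d.a x = x.1.2) {s : Flag ends F → C × Bool}
    (hs : d.Ss s) (c : C) (v : V) : deg ends (cls s c) v = 2 := by
  obtain ⟨x, hx, hxs⟩ := hs.surj v (c, true)
  obtain ⟨y, hy, hys⟩ := hs.surj v (c, false)
  rw [hda] at hx hy
  have hda' : d.a = fun x : Flag ends F => x.1.2 := funext hda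
  have hinj := hs.2.1 v
  rw [hda'] at hinj
  have h1 := cls_filter (fun x => by rw [← hdi]; exact hs.1 x) hinj hx hy
    (by rw [hxs, hys]; rfl)
  rw [hxs] at h1
  unfold deg
  rw [h1, Finset.card_pair]
  intro h
  have hxy := flag_ext h (hx.trans hy.symm)
  rw [hxy, hys] at hxs
  have := congrArg Prod.snd hxs
  exact Bool.false_ne_true this

/-- A set of vertices witnessing that a colour class is not connected. -/
def Bad (ends : E → Sym2 V) {C : Type} (u : V) (κ : C → Finset E) (q : C × Finset V) : Prop :=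
  q.2.Nonempty ∧ u ∉ q.2 ∧ ∀ e ∈ κ q.1, ∀ v ∈ q.2, ∀ w, w ∉ q.2 → ¬ (v ∈ ends e ∧ w ∈ ends e)

theorem exists_bad {C : Type} {κ : C → Finset E} (hκ : ∀ c v, deg ends (κ c) v = 2) (u : V)
    (h : ¬ ∀ c, IsHam ends (κ c)) : ∃ q, Bad ends u κ q := by
  push Not at h
  obtain ⟨c, hc⟩ := h
  have h1 : ∃ S : Finset V, S.Nonempty ∧ S ≠ univ ∧
      ∀ e ∈ κ c, ∀ v ∈ S, ∀ w, w ∉ S → ¬ (v ∈ ends e ∧ w ∈ ends e) := by
    by_contra hcon
    push Not at hcon
    apply hc
    refine ⟨hκ c, ?_⟩
    intro S hS hSu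
    obtain ⟨e, he, v, hv, w, hw, h1, h2⟩ := hcon S hS hSu
    exact ⟨e, he, v, hv, w, hw, h1, h2⟩
  obtain ⟨S, hS, hSu, hS'⟩ := h1
  by_cases hu : u ∈ S
  · refine ⟨(c, Sᶜ), ?_, ?_, ?_⟩
    · show (Sᶜ).Nonempty
      rw [Finset.nonempty_iff_ne_empty]
      intro h0
      exact hSu ((Finset.compl_eq_empty_iff S).1 h0)
    · show u ∉ Sᶜ
      rw [Finset.mem_compl]; exact fun h => h hu
    · intro e he v hv w hw hvw
      have hv' : v ∉ S := Finset.mem_compl.1 hv
      have hw' : w ∈ S := by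
        by_contra hcon
        exact hw (Finset.mem_compl.2 hcon)
      exact hS' e he w hw' v hv' ⟨hvw.2, hvw.1⟩
  · exact ⟨(c, S), hS, hu, hS'⟩

/-- States with a disconnected colour class come in pairs. -/
theorem even_bad {C : Type} [DecidableEq C] [Fintype C] {d : Dat (Flag ends F) V C}
    (hdi : ∀ x, d.i x = oth x) (hda : ∀ x, d.a x = x.1.2)
    [DecidablePred fun s => d.Ss s ∧ ¬ ∀ c, IsHam ends (cls s c)] :
    ((univ.filter fun s => d.Ss s ∧ ¬ ∀ c, IsHam ends (cls s c)).card : ZMod 2) = 0 := by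
  classical
  rcases isEmpty_or_nonempty C with hC | hC
  · rw [Finset.filter_false_of_mem, Finset.card_empty, Nat.cast_zero]
    intro s _ h
    exact h.2 fun c => hC.elim c
  obtain ⟨c₀⟩ := hC
  have : Nonempty (C × Finset V) := ⟨(c₀, ∅)⟩
  set pick : (C → Finset E) → C × Finset V := fun κ => Classical.epsilon (Bad ends d.u κ)
    with hpick
  have hbad : ∀ s, d.Ss s → (¬ ∀ c, IsHam ends (cls s c)) →
      Bad ends d.u (fun c => cls s c) (pick fun c => cls s c) := by
    intro s hs hs'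
    exact Classical.epsilon_spec (exists_bad (fun c v => cls_deg hdi hda hs c v) d.u hs')
  set K : (Flag ends F → C × Bool) → Flag ends F → Prop := fun s x =>
    (s x).1 = (pick fun c => cls s c).1 ∧ x.1.2 ∈ (pick fun c => cls s c).2 with hK
  have hcls : ∀ s : Flag ends F → C × Bool, (fun c => cls (modif (K s) fl s) c) =
      fun c => cls s c := by
    intro s
    funext c
    exact cls_congr (fun x => modif_fl_fst x) c
  have hKK : ∀ s : Flag ends F → C × Bool, ∀ x, K (modif (K s) fl s) x ↔ K s x := by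
    intro s x
    show (modif (K s) fl s x).1 = (pick fun c => cls (modif (K s) fl s) c).1 ∧
      x.1.2 ∈ (pick fun c => cls (modif (K s) fl s) c).2 ↔ _
    rw [hcls s, modif_fl_fst]
  have hKi : ∀ s, d.Ss s → (¬ ∀ c, IsHam ends (cls s c)) → ∀ x, K s x → K s (oth x) := by
    intro s hs hs' x hx
    have hsi : ∀ x, s (oth x) = fl (s x) := fun x => by rw [← hdi]; exact hs.1 x
    refine ⟨by rw [hsi, fl_fst]; exact hx.1, ?_⟩
    by_contra hcon
    have h1 := (hbad s hs hs').2.2 x.1.1 ((mem_cls' hsi x).2 hx.1) _ hx.2 _ hcon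
    exact h1 ⟨x.2.2, (oth x).2.2⟩
  apply even_of_invol _ (fun s => modif (K s) fl s)
  · intro s hs
    rw [Finset.mem_filter] at hs ⊢
    obtain ⟨-, hs, hs'⟩ := hs
    have hs'' : ¬ ∀ c, IsHam ends (cls (modif (K s) fl s) c) := by
      intro h
      apply hs'
      intro c
      rw [← congrFun (hcls s) c]
      exact h c
    refine ⟨mem_univ _, ⟨?_, ?_, ?_, ?_⟩, hs''⟩
    · intro x
      by_cases hx : K s x
      · have hx' : K s (d.i x) := by rw [hdi]; exact hKi s hs hs' x hx
        rw [modif_pos hx', modif_pos hx, hs.1]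
      · have hx' : ¬ K s (d.i x) := by
          intro h
          apply hx
          rw [hdi] at h
          have := hKi s hs hs' _ h
          rwa [oth_oth] at this
        rw [modif_neg hx', modif_neg hx, hs.1]
    · intro v
      refine (hs.2.1 v).modif (fun _ _ => fl_inj) ?_
      intro x hx hKx
      obtain ⟨y, hy, hys⟩ := hs.surj v (fl (s x))
      refine ⟨y, hy, ⟨by rw [hys, fl_fst]; exact hKx.1, ?_⟩, hys⟩
      rw [← hda, hy, ← hx, hda]
      exact hKx.2
    · intro x hx
      have h1 : K s (d.pi x) ↔ K s x := by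
        have h2 := d.pia x hx
        rw [hda, hda] at h2
        rw [hK]
        simp only [hs.2.2.1 x hx, fl_fst, h2]
      by_cases hKx : K s x
      · rw [modif_pos (h1.2 hKx), modif_pos hKx, hs.2.2.1 x hx]
      · rw [modif_neg (fun h => hKx (h1.1 h)), modif_neg hKx, hs.2.2.1 x hx]
    · intro x hx
      have : ¬ K s x := by
        intro h
        apply (hbad s hs hs').2.1
        rw [← hx, hda]
        exact h.2
      rw [modif_neg this]
      exact hs.2.2.2 x hx
  · intro s hs hcon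
    rw [Finset.mem_filter] at hs
    obtain ⟨-, hs, hs'⟩ := hs
    obtain ⟨v, hv⟩ := (hbad s hs hs').1
    obtain ⟨x, hx, hxs⟩ := hs.surj v ((pick fun c => cls s c).1, true)
    have hKx : K s x := by
      refine ⟨by rw [hxs], ?_⟩
      rw [← hda, hx]
      exact hv
    have := congrFun hcon x
    simp only [modif_pos hKx] at this
    exact fl_ne _ this
  · intro s _
    funext x
    show modif (K (modif (K s) fl s)) fl (modif (K s) fl s) x = s x
    by_cases hx : K s x
    · have hx' := (hKK s x).2 hx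
      rw [modif_pos hx', modif_pos hx, fl_fl]
    · have hx' : ¬ K (modif (K s) fl s) x := fun h => hx ((hKK s x).1 h)
      rw [modif_neg hx', modif_neg hx]

end Par

end MP_947208_co
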