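import Pool.Agent.Work.MP_947208_co.ParCore

/-!
# Resolution of the states at the remaining vertices

The number of states which are injective at every vertex and compatible with the prescribed
pairing at `J` is even.
-/

set_option autoImplicit false

namespace MP_947208_co.Par

open Finset Function

variable {X V C : Type} [Fintype X] [DecidableEq V] [Fintype C]

/-- The states we count: compatible with the edges, a bijection onto the states at every vertex,
compatible with the prescribed pairing at `J`, and prescribed at the root. -/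
def Dat.Ss (d : Dat X V C) (s : X → C × Bool) : Prop :=
  (∀ x, s (d.i x) = fl (s x)) ∧ (∀ v, InjAt d.a s v) ∧
    (∀ x, d.a x ∈ d.J → s (d.pi x) = fl (s x)) ∧ ∀ x, d.a x = d.u → s x = d.s₀ x

theorem Dat.Ss.surj {d : Dat X V C} {s : X → C × Bool} (hs : d.Ss s) (v : V) (b : C × Bool) :
    ∃ x, d.a x = v ∧ s x = b := InjAt.surj d (hs.2.1 v) b

/-- Injective states have exactly one compatible pairing. -/
theorem exists_pairing [DecidableEq X] (d : Dat X V C) {s : X → C × Bool} (hs : d.Ss s) :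
    ∃ p : Equiv.Perm X, d.Pp p ∧ d.Sp p s ∧ ∀ p', d.Pp p' → d.Sp p' s → p' = p := by
  classical
  have hch : ∀ x, ∃ y, d.a y = d.a x ∧ s y = fl (s x) := fun x => hs.surj (d.a x) (fl (s x))
  choose q hq1 hq2 using hch
  set r : X → X := fun x => if d.a x = d.w₁ ∨ d.a x = d.w₂ then x else q x with hr
  have hr1 : ∀ x, d.a x = d.w₁ ∨ d.a x = d.w₂ → r x = x := fun x h => by
    rw [hr]; simp only [h, if_true]
  have hr2 : ∀ x, ¬ (d.a x = d.w₁ ∨ d.a x = d.w₂) → r x = q x := fun x h => by
    rw [hr]; simp only [h, if_false]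
  have hra : ∀ x, d.a (r x) = d.a x := by
    intro x
    by_cases h : d.a x = d.w₁ ∨ d.a x = d.w₂
    · rw [hr1 x h]
    · rw [hr2 x h, hq1]
  have hrr : ∀ x, r (r x) = x := by
    intro x
    by_cases h : d.a x = d.w₁ ∨ d.a x = d.w₂
    · rw [hr1 x h, hr1 x h]
    · have h' : ¬ (d.a (r x) = d.w₁ ∨ d.a (r x) = d.w₂) := by rw [hra]; exact h
      rw [hr2 _ h']
      apply hs.2.1 (d.a x)
      · rw [hq1, hra]
      · rfl
      · rw [hq2, hr2 x h, hq2, fl_fl]
  have hrs : ∀ x, ¬ (d.a x = d.w₁ ∨ d.a x = d.w₂) → s (r x) = fl (s x) := by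
    intro x h
    rw [hr2 x h, hq2]
  let p : Equiv.Perm X := ⟨r, r, hrr, hrr⟩
  have hpx : ∀ x, p x = r x := fun _ => rfl
  have hP : d.Pp p := by
    refine ⟨hrr, hra, ?_, hr1, ?_⟩
    · intro x hx
      have hne := Dat.ne_of_mem hx
      apply hs.2.1 (d.a x)
      · exact hra x
      · exact d.pia x hx
      · rw [hpx, hrs x (not_or.2 hne), hs.2.2.1 x hx]
    · intro x _ h1 h2 h3
      have := hrs x (not_or.2 ⟨h1, h2⟩)
      rw [← hpx, h3] at this
      exact fl_ne _ this.symm
  refine ⟨p, hP, ?_, ?_⟩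
  · refine ⟨hs.1, fun v _ => hs.2.1 v, hs.2.1 _, hs.2.1 _, ?_, hs.2.2.2⟩
    intro x h1 h2
    exact hrs x (not_or.2 ⟨h1, h2⟩)
  · intro p' hp' hs'
    apply Equiv.ext
    intro x
    by_cases h : d.a x = d.w₁ ∨ d.a x = d.w₂
    · rw [hp'.2.2.2.1 x h, hpx, hr1 x h]
    · apply hs.2.1 (d.a x)
      · exact hp'.2.1 x
      · exact hra x
      · rw [hs'.2.2.2.2.1 x (fun h' => h (Or.inl h')) (fun h' => h (Or.inr h')), hpx, hrs x h]

/-- States with a collision have an even number of compatible pairings. -/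
theorem even_pairings [DecidableEq X] (d : Dat X V C) (s : X → C × Bool)
    [DecidablePred fun p : Equiv.Perm X => d.Pp p ∧ d.Sp p s]
    {x y : X} (hxy : x ≠ y) (hv : d.a x = d.a y) (hs : s x = s y) (hJ : d.a x ∉ d.J)
    (h1 : d.a x ≠ d.w₁) (h2 : d.a x ≠ d.w₂) :
    ((univ.filter fun p : Equiv.Perm X => d.Pp p ∧ d.Sp p s).card : ZMod 2) = 0 := by
  classical
  set σ : Equiv.Perm X := Equiv.swap x y with hσ
  have hσσ : ∀ z, σ (σ z) = z := fun z => Equiv.swap_apply_self x y z
  have hσa : ∀ z, d.a (σ z) = d.a z := by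
    intro z
    rw [hσ, Equiv.swap_apply_def]
    split_ifs with h h'
    · rw [h, hv]
    · rw [h', hv]
    · rfl
  have hσs : ∀ z, s (σ z) = s z := by
    intro z
    rw [hσ, Equiv.swap_apply_def]
    split_ifs with h h'
    · rw [h, hs]
    · rw [h', hs]
    · rfl
  have hσv : ∀ z, d.a z ≠ d.a x → σ z = z := by
    intro z hz
    rw [hσ]
    apply Equiv.swap_apply_of_ne_of_ne
    · rintro rfl; exact hz rfl
    · rintro rfl; exact hz hv.symm
  have hσx : σ x = y := Equiv.swap_apply_left x y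
  apply even_of_invol _ (fun p => σ * p * σ)
  · intro p hp
    rw [Finset.mem_filter] at hp ⊢
    obtain ⟨-, hP, hS⟩ := hp
    have hc : ∀ z, (σ * p * σ) z = σ (p (σ z)) := fun _ => rfl
    refine ⟨mem_univ _, ⟨?_, ?_, ?_, ?_, ?_⟩, hS.1, hS.2.1, hS.2.2.1, hS.2.2.2.1, ?_,
      hS.2.2.2.2.2⟩
    · intro z
      rw [hc, hc, hσσ, hP.1, hσσ]
    · intro z
      rw [hc, hσa, hP.2.1, hσa]
    · intro z hz
      have h3 : σ z = z := hσv z (fun h => hJ (h ▸ hz))
      rw [hc, h3, hP.2.2.1 z hz]
      apply hσv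
      rw [d.pia z hz]
      exact fun h => hJ (h ▸ hz)
    · intro z hz
      have h3 : σ z = z := hσv z (fun h => by
        rcases hz with hz | hz
        · exact h1 (h ▸ hz)
        · exact h2 (h ▸ hz))
      rw [hc, h3, hP.2.2.2.1 z hz, h3]
    · intro z hz1 hz2 hz3 hz4
      rw [hc] at hz4
      apply hP.2.2.2.2 (σ z) (by rwa [hσa]) (by rwa [hσa]) (by rwa [hσa])
      have := congrArg σ hz4
      rwa [hσσ] at this
    · intro z hz1 hz2
      rw [hc, hσs, hS.2.2.2.2.1 (σ z) (by rwa [hσa]) (by rwa [hσa]), hσs]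
  · intro p hp hcon
    rw [Finset.mem_filter] at hp
    obtain ⟨-, hP, hS⟩ := hp
    have h3 : σ (p (σ (σ x))) = p (σ x) := congrArg (fun f : Equiv.Perm X => f (σ x)) hcon
    rw [hσσ, hσx] at h3
    have h4 : p x ≠ x := hP.2.2.2.2 x hJ h1 h2
    have h5 : p x ≠ y := by
      intro h
      have := hS.2.2.2.2.1 x h1 h2
      rw [h, ← hs] at this
      exact fl_ne _ this.symm
    have h6 : σ (p x) = p x := by
      rw [hσ]; exact Equiv.swap_apply_of_ne_of_ne h4 h5
    rw [h6] at h3
    exact hxy (p.injective h3)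
  · intro p _
    apply Equiv.ext
    intro z
    show σ (σ (p (σ (σ z)))) = p z
    rw [hσσ, hσσ]

/-- The number of states which are injective everywhere is even. -/
theorem even_Ss [DecidableEq X] (d : Dat X V C) (hk : 2 ^ (d.J.card - 1) < Fintype.card C)
    [DecidablePred d.Ss] [DecidableEq C] :
    ((univ.filter d.Ss).card : ZMod 2) = 0 := by
  classical
  have h1 : ∑ p : Equiv.Perm X, ∑ s : X → C × Bool,
      (if d.Pp p ∧ d.Sp p s then (1 : ZMod 2) else 0) = 0 := by
    apply Finset.sum_eq_zero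
    intro p _
    by_cases hp : d.Pp p
    · have := even_Sp d hk p hp
      rw [← Finset.sum_boole] at this
      refine Eq.trans ?_ this
      apply Finset.sum_congr rfl
      intro s _
      simp only [hp, true_and]
    · apply Finset.sum_eq_zero
      intro s _
      simp only [hp, false_and, if_false]
  rw [Finset.sum_comm] at h1
  rw [← h1, ← Finset.sum_boole]
  apply Finset.sum_congr rfl
  intro s _
  rw [Finset.sum_boole]
  by_cases hs : d.Ss s
  · rw [if_pos hs]
    obtain ⟨p, hp1, hp2, hp3⟩ := exists_pairing d hs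
    have : (univ.filter fun p : Equiv.Perm X => d.Pp p ∧ d.Sp p s) = {p} := by
      ext p'
      rw [Finset.mem_filter, Finset.mem_singleton]
      constructor
      · rintro ⟨-, h, h'⟩; exact hp3 p' h h'
      · rintro rfl; exact ⟨mem_univ _, hp1, hp2⟩
    rw [this, Finset.card_singleton, Nat.cast_one]
  · rw [if_neg hs]
    symm
    by_cases hne : ∃ p : Equiv.Perm X, d.Pp p ∧ d.Sp p s
    · obtain ⟨p, hp, hps⟩ := hne
      have : ∃ v, ¬ InjAt d.a s v := by
        by_contra hcon
        push Not at hcon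
        apply hs
        refine ⟨hps.1, hcon, ?_, hps.2.2.2.2.2⟩
        intro x hx
        have hne := Dat.ne_of_mem hx
        rw [← hp.2.2.1 x hx]
        exact hps.2.2.2.2.1 x hne.1 hne.2
      obtain ⟨v, hv⟩ := this
      have hvJ : v ∉ d.J := fun h => hv (hps.2.1 v h)
      have hv1 : v ≠ d.w₁ := fun h => hv (h ▸ hps.2.2.1)
      have hv2 : v ≠ d.w₂ := fun h => hv (h ▸ hps.2.2.2.1)
      unfold InjAt at hv
      push Not at hv
      obtain ⟨x, y, hx, hy, hxy, hne⟩ := hv
      exact even_pairings d s hne (hx.trans hy.symm) hxy (hx ▸ hvJ) (hx ▸ hv1) (hx ▸ hv2)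
    · rw [Finset.filter_false_of_mem, Finset.card_empty, Nat.cast_zero]
      intro p _ h
      exact hne ⟨p, h⟩

end MP_947208_co.Par
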