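import Pool.Agent.Work.MP_947208_co.ParMain

/-!
# Sharpness of the parity theorem
-/

set_option autoImplicit false
set_option linter.unusedSectionVars false

namespace MP_947208_co

open Finset Function

namespace Par

section Perm

variable {V : Type} [Fintype V] [DecidableEq V]

/-- A cyclic permutation with two roots `w true`, `w false`; the vertex `v` of `T` lies on the arc
beginning at the root `w (τ v)`. -/
theorem exists_cyc (w : Bool → V) (hw : w true ≠ w false) (τ : V → Bool) (T : Finset V)
    (hT : ∀ b, w b ∉ T) : ∃ σ : Equiv.Perm V, (∀ u ∈ T, σ u ≠ u) ∧ (∀ b, σ (w b) ≠ w b) ∧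
      (∀ u, u ∉ T → (∀ b, u ≠ w b) → σ u = u) ∧
      ∀ p : V → Prop, (∀ u, σ u ∈ T → (p (σ u) ↔ p u)) →
        (∀ v ∈ T, (p v ↔ p (w (τ v)))) ∧ ∀ u b, σ u = w b → (p u ↔ p (w (!b))) := by
  induction T using Finset.induction_on with
  | empty =>
    refine ⟨Equiv.swap (w true) (w false), ?_, ?_, ?_, ?_⟩
    · intro u hu; exact absurd hu (Finset.notMem_empty u)
    · intro b
      cases b
      · rw [Equiv.swap_apply_right]; exact hw
      · rw [Equiv.swap_apply_left]; exact hw.symm
    · intro u _ hu
      exact Equiv.swap_apply_of_ne_of_ne (hu true) (hu false)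
    · intro p _
      refine ⟨fun v hv => absurd hv (Finset.notMem_empty v), ?_⟩
      intro u b hu
      have h1 : u = Equiv.swap (w true) (w false) (w b) := by
        rw [← hu, Equiv.swap_apply_self]
      cases b
      · rw [Equiv.swap_apply_right] at h1
        rw [h1]; rfl
      · rw [Equiv.swap_apply_left] at h1
        rw [h1]; rfl
  | insert v T hv ih =>
    obtain ⟨σ, h1, h2, h3, h4⟩ := ih (fun b h => hT b (Finset.mem_insert_of_mem h))
    have hvw : ∀ b, v ≠ w b := fun b h => hT b (h ▸ Finset.mem_insert_self v T)
    have hσv : σ v = v := h3 v hv hvw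
    set r : V := w (τ v) with hr
    have e1 : (σ * Equiv.swap r v) r = v := by
      rw [Equiv.Perm.mul_apply, Equiv.swap_apply_left, hσv]
    have e2 : (σ * Equiv.swap r v) v = σ r := by
      rw [Equiv.Perm.mul_apply, Equiv.swap_apply_right]
    have e3 : ∀ u, u ≠ r → u ≠ v → (σ * Equiv.swap r v) u = σ u := by
      intro u hu1 hu2
      rw [Equiv.Perm.mul_apply, Equiv.swap_apply_of_ne_of_ne hu1 hu2]
    have hvr : σ r ≠ v := by
      intro h
      exact hvw (τ v) (σ.injective (hσv.trans h.symm))
    refine ⟨σ * Equiv.swap r v, ?_, ?_, ?_, ?_⟩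
    · intro u hu
      by_cases hur : u = r
      · rw [hur, e1]; exact hvw (τ v)
      · by_cases huv : u = v
        · rw [huv, e2]; exact hvr
        · rw [e3 u hur huv]
          exact h1 u (Finset.mem_of_mem_insert_of_ne hu huv)
    · intro b
      by_cases hur : w b = r
      · rw [hur, e1]; exact hvw (τ v)
      · rw [e3 _ hur (fun h => hvw b h.symm)]
        exact h2 b
    · intro u hu1 hu2
      rw [Finset.mem_insert, not_or] at hu1
      rw [e3 u (hu2 _) hu1.1]
      exact h3 u hu1.2 hu2
    · intro p hp
      have hpv : p v ↔ p r := by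
        have := hp r (by rw [e1]; exact Finset.mem_insert_self v T)
        rwa [e1] at this
      have hp' : ∀ u, σ u ∈ T → (p (σ u) ↔ p u) := by
        intro u hu
        by_cases hur : u = r
        · have := hp v (by rw [e2, ← hur]; exact Finset.mem_insert_of_mem hu)
          rw [e2, ← hur] at this
          rw [this, hpv, hur]
        · by_cases huv : u = v
          · rw [huv, hσv]
          · have := hp u (by rw [e3 u hur huv]; exact Finset.mem_insert_of_mem hu)
            rwa [e3 u hur huv] at this
      obtain ⟨h5, h6⟩ := h4 p hp'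
      refine ⟨?_, ?_⟩
      · intro v' hv'
        rcases Finset.mem_insert.1 hv' with h | h
        · rw [h]; exact hpv
        · exact h5 v' h
      · intro u b hu
        by_cases hur : u = r
        · exfalso
          rw [hur, e1] at hu
          exact hvw b hu
        · by_cases huv : u = v
          · rw [huv, e2] at hu
            rw [huv, hpv]
            exact h6 r b hu
          · rw [e3 u hur huv] at hu
            exact h6 u b hu

/-- The ends of the edges of the example: the edge `(c, v)` joins `v` to the next vertex of the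
cycle `c`. -/
def exEnds {k : ℕ} (σ : Fin k → Equiv.Perm V) (e : Fin k × V) : Sym2 V := s(e.2, σ e.1 e.2)

/-- The cycle `c` of the example. -/
def exC {k : ℕ} (c : Fin k) : Finset (Fin k × V) := univ.filter fun e => e.1 = c

theorem mem_exC {k : ℕ} {c : Fin k} {e : Fin k × V} : e ∈ exC c ↔ e.1 = c := by
  unfold exC
  rw [Finset.mem_filter]
  exact ⟨fun h => h.2, fun h => ⟨mem_univ _, h⟩⟩

theorem mem_exEnds {k : ℕ} {σ : Fin k → Equiv.Perm V} {e : Fin k × V} {v : V} :
    v ∈ exEnds σ e ↔ e = (e.1, v) ∨ e = (e.1, (σ e.1).symm v) := by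
  obtain ⟨c, u⟩ := e
  unfold exEnds
  rw [Sym2.mem_iff]
  simp only [Prod.mk.injEq, true_and]
  rw [Equiv.eq_symm_apply]
  exact or_congr eq_comm eq_comm

theorem exC_filter {k : ℕ} {σ : Fin k → Equiv.Perm V} (c : Fin k) (v : V) :
    ((exC c).filter fun e => v ∈ exEnds σ e) = {(c, v), (c, (σ c).symm v)} := by
  ext e
  rw [Finset.mem_filter, mem_exC, mem_exEnds, Finset.mem_insert, Finset.mem_singleton]
  constructor
  · rintro ⟨h1, h2⟩
    rw [h1] at h2
    exact h2
  · rintro (h | h)
    · rw [h]; exact ⟨rfl, Or.inl rfl⟩
    · rw [h]; exact ⟨rfl, Or.inr rfl⟩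

/-- The example: a decomposition which is determined by its pairings at `J`. -/
theorem sharp_aux (w : Bool → V) (hw : w true ≠ w false) {k : ℕ} (τ : Fin k → V → Bool)
    (J : Finset V) (hJ : ∀ v, v ∈ J ↔ ∀ b, v ≠ w b) {v₁ : V} (hv₁ : v₁ ∈ J)
    (hτ₁ : ∀ c, τ c v₁ = false) (hinj : ∀ c c', (∀ v ∈ J, τ c v = τ c' v) → c = c') :
    ∃ ends : Fin k × V → Sym2 V, (∀ e, ¬ (ends e).IsDiag) ∧
      ∃ D : Finset (Finset (Fin k × V)), IsDec ends univ D ∧ D.card = k ∧
        ∀ D', IsDec ends univ D' → (∀ v ∈ J, pairsAt ends D' v = pairsAt ends D v) → D' = D := by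
  have hwJ : ∀ b, w b ∉ J := fun b h => (hJ _).1 h b rfl
  have hcase : ∀ v, v ∈ J ∨ ∃ b, v = w b := by
    intro v
    by_cases h : v ∈ J
    · exact Or.inl h
    · rw [hJ] at h
      push Not at h
      exact Or.inr h
  have hch : ∀ c : Fin k, _ := fun c => exists_cyc w hw (τ c) J hwJ
  choose σ h1 h2 _ h4 using hch
  have hfix : ∀ c u, σ c u ≠ u := by
    intro c u
    rcases hcase u with h | ⟨b, rfl⟩
    · exact h1 c u h
    · exact h2 c b
  have hfix' : ∀ c u, (σ c).symm u ≠ u := by
    intro c u h
    apply hfix c ((σ c).symm u)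
    rw [Equiv.apply_symm_apply, h]
  have hham : ∀ c, IsHam (exEnds σ) (exC c) := by
    intro c
    refine ⟨?_, ?_⟩
    · intro v
      unfold deg
      rw [exC_filter, Finset.card_pair]
      intro h
      exact hfix' c v (congrArg Prod.snd h).symm
    · intro S hS hSu
      by_contra hcon
      push Not at hcon
      have hp : ∀ u, (σ c u ∈ S ↔ u ∈ S) := by
        intro u
        have h5 : u ∈ exEnds σ (c, u) := Sym2.mem_mk_left _ _
        have h6 : σ c u ∈ exEnds σ (c, u) := Sym2.mem_mk_right _ _
        constructor
        · intro h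
          by_contra h'
          exact hcon (c, u) (mem_exC.2 rfl) _ h _ h' h6 h5
        · intro h
          by_contra h'
          exact hcon (c, u) (mem_exC.2 rfl) _ h _ h' h5 h6
      obtain ⟨h5, h6⟩ := h4 c (fun v => v ∈ S) (fun u _ => hp u)
      have h7 : ∀ b, (w b ∈ S ↔ w (!b) ∈ S) := by
        intro b
        have h8 := h6 ((σ c).symm (w b)) b (Equiv.apply_symm_apply _ _)
        have h9 := hp ((σ c).symm (w b))
        rw [Equiv.apply_symm_apply] at h9
        rw [h9]
        exact h8
      have h8 : ∀ b, (w b ∈ S ↔ w true ∈ S) := by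
        intro b
        cases b
        · exact (h7 true).symm
        · exact Iff.rfl
      have h9 : ∀ v, (v ∈ S ↔ w true ∈ S) := by
        intro v
        rcases hcase v with h | ⟨b, rfl⟩
        · rw [h5 v h, h8]
        · exact h8 b
      obtain ⟨v, hv⟩ := hS
      apply hSu
      ext v'
      simp only [Finset.mem_univ, iff_true]
      rw [h9, ← h9 v]
      exact hv
  have hinjC : ∀ c c' : Fin k, (exC c : Finset (Fin k × V)) = exC c' → c = c' := by
    intro c c' h
    have h5 : (c, v₁) ∈ (exC c : Finset (Fin k × V)) := mem_exC.2 rfl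
    rw [h, mem_exC] at h5
    exact h5
  have hdec : IsDec (exEnds σ) univ (univ.image fun c => exC c) := by
    refine ⟨?_, ?_, ?_⟩
    · intro C hC
      obtain ⟨c, -, rfl⟩ := Finset.mem_image.1 hC
      exact hham c
    · intro C hC C' hC' hne
      obtain ⟨c, -, rfl⟩ := Finset.mem_image.1 (Finset.mem_coe.1 hC)
      obtain ⟨c', -, rfl⟩ := Finset.mem_image.1 (Finset.mem_coe.1 hC')
      show Disjoint (exC c) (exC c')
      rw [Finset.disjoint_left]
      intro e he he'
      rw [mem_exC] at he he'
      exact hne (by rw [← he, ← he'])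
    · ext e
      simp only [Finset.mem_univ, iff_true]
      rw [Finset.mem_biUnion]
      exact ⟨exC e.1, Finset.mem_image_of_mem _ (mem_univ _), mem_exC.2 rfl⟩
  refine ⟨exEnds σ, ?_, univ.image fun c => exC c, hdec, ?_, ?_⟩
  · intro e he
    exact hfix e.1 e.2 (Sym2.mk_isDiag_iff.1 he).symm
  · rw [Finset.card_image_of_injective _ (fun c c' h => hinjC c c' h), Finset.card_univ,
      Fintype.card_fin]
  · intro D' hD' hpairs
    have key : ∀ C ∈ D', ∃ c, C = exC c := by
      intro C hC
      -- the pairing at a vertex of `J`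
      have hκ : ∀ v ∈ J, ∃ c', (∀ c, ((c, v) ∈ C ↔ c = c')) ∧
          ∀ c, ((c, (σ c).symm v) ∈ C ↔ c = c') := by
        intro v hv
        have h5 : (C.filter fun e => v ∈ exEnds σ e) ∈
            pairsAt (exEnds σ) (univ.image fun c => exC c) v := by
          rw [← hpairs v hv]
          exact Finset.mem_image_of_mem _ hC
        obtain ⟨C', hC', h6⟩ := Finset.mem_image.1 h5
        obtain ⟨c', -, rfl⟩ := Finset.mem_image.1 hC'
        rw [exC_filter] at h6
        refine ⟨c', ?_, ?_⟩
        · intro c
          have h7 : (c, v) ∈ C ↔ (c, v) ∈ (C.filter fun e => v ∈ exEnds σ e) := by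
            rw [Finset.mem_filter, mem_exEnds]
            exact ⟨fun h => ⟨h, Or.inl rfl⟩, fun h => h.1⟩
          rw [h7, ← h6, Finset.mem_insert, Finset.mem_singleton]
          constructor
          · rintro (h | h)
            · exact congrArg Prod.fst h
            · exact congrArg Prod.fst h
          · intro h
            left; rw [h]
        · intro c
          have h7 : (c, (σ c).symm v) ∈ C ↔
              (c, (σ c).symm v) ∈ (C.filter fun e => v ∈ exEnds σ e) := by
            rw [Finset.mem_filter, mem_exEnds]
            exact ⟨fun h => ⟨h, Or.inr rfl⟩, fun h => h.1⟩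
          rw [h7, ← h6, Finset.mem_insert, Finset.mem_singleton]
          constructor
          · rintro (h | h)
            · exact congrArg Prod.fst h
            · exact congrArg Prod.fst h
          · intro h
            right; rw [h]
      have hp : ∀ c u, σ c u ∈ J → ((c, σ c u) ∈ C ↔ (c, u) ∈ C) := by
        intro c u hu
        obtain ⟨c', h5, h6⟩ := hκ _ hu
        have h7 := h6 c
        rw [Equiv.symm_apply_apply] at h7
        rw [h5, h7]
      have h5 : ∀ c, (∀ v ∈ J, ((c, v) ∈ C ↔ (c, w (τ c v)) ∈ C)) ∧
          ∀ u b, σ c u = w b → ((c, u) ∈ C ↔ (c, w (!b)) ∈ C) := fun c =>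
        h4 c (fun v => (c, v) ∈ C) (hp c)
      obtain ⟨c₁, hc₁, -⟩ := hκ v₁ hv₁
      have hc₁' : ∀ c, ((c, w false) ∈ C ↔ c = c₁) := by
        intro c
        rw [← hc₁, (h5 c).1 v₁ hv₁, hτ₁]
      -- the degree at `w true`
      have hdeg : deg (exEnds σ) C (w true) = 2 := (hD'.1 C hC).1 _
      have hfil : (C.filter fun e => w true ∈ exEnds σ e) =
          ((univ.filter fun c => (c, w true) ∈ C).image fun c => (c, w true)) ∪
            {(c₁, (σ c₁).symm (w true))} := by
        ext e
        obtain ⟨c, u⟩ := e
        rw [Finset.mem_filter, mem_exEnds, Finset.mem_union, Finset.mem_image,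
          Finset.mem_singleton]
        constructor
        · rintro ⟨h6, h7 | h7⟩
          · left
            simp only [Prod.mk.injEq, true_and] at h7
            subst h7
            exact ⟨c, Finset.mem_filter.2 ⟨mem_univ _, h6⟩, rfl⟩
          · right
            simp only [Prod.mk.injEq, true_and] at h7
            subst h7
            have h8 := (h5 c).2 ((σ c).symm (w true)) true (Equiv.apply_symm_apply _ _)
            rw [h8] at h6
            have h9 := (hc₁' c).1 h6
            rw [h9]
        · rintro (⟨c', h6, h7⟩ | h6)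
          · rw [Finset.mem_filter] at h6
            simp only [Prod.mk.injEq] at h7
            obtain ⟨h7, h8⟩ := h7
            subst h7
            subst h8
            exact ⟨h6.2, Or.inl rfl⟩
          · simp only [Prod.mk.injEq] at h6
            obtain ⟨h7, h8⟩ := h6
            subst h7
            subst h8
            refine ⟨?_, Or.inr rfl⟩
            rw [(h5 c).2 ((σ c).symm (w true)) true (Equiv.apply_symm_apply _ _)]
            exact (hc₁' c).2 rfl
      have hone : (univ.filter fun c => (c, w true) ∈ C).card = 1 := by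
        unfold deg at hdeg
        rw [hfil, Finset.card_union_of_disjoint, Finset.card_singleton,
          Finset.card_image_of_injective _ (fun c c' h => congrArg Prod.fst h)] at hdeg
        · omega
        · rw [Finset.disjoint_singleton_right, Finset.mem_image]
          rintro ⟨c, -, h⟩
          simp only [Prod.mk.injEq] at h
          exact hfix' c₁ (w true) h.2.symm
      obtain ⟨c₂, hc₂⟩ := Finset.card_eq_one.1 hone
      have hc₂' : ∀ c, ((c, w true) ∈ C ↔ c = c₂) := by
        intro c
        rw [← Finset.mem_singleton, ← hc₂, Finset.mem_filter]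
        exact ⟨fun h => ⟨mem_univ _, h⟩, fun h => h.2⟩
      have h12 : c₂ = c₁ := by
        apply hinj
        intro v hv
        obtain ⟨c, hc, -⟩ := hκ v hv
        cases e1 : τ c₁ v
        · cases e2 : τ c₂ v
          · rfl
          · exfalso
            have h6 : (c₁, v) ∈ C := by rw [(h5 c₁).1 v hv, e1]; exact (hc₁' _).2 rfl
            have h7 : (c₂, v) ∈ C := by rw [(h5 c₂).1 v hv, e2]; exact (hc₂' _).2 rfl
            rw [hc] at h6 h7
            rw [h6, ← h7, e2] at e1
            exact Bool.false_ne_true e1.symm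
        · cases e2 : τ c₂ v
          · exfalso
            have h6 : (c, v) ∈ C := (hc c).2 rfl
            rw [(h5 c).1 v hv] at h6
            cases e3 : τ c v
            · rw [e3, hc₁'] at h6
              rw [h6, e1] at e3
              exact Bool.false_ne_true e3.symm
            · rw [e3, hc₂'] at h6
              rw [h6, e2] at e3
              exact Bool.false_ne_true e3
          · rfl
      refine ⟨c₁, ?_⟩
      ext e
      obtain ⟨c, u⟩ := e
      rw [mem_exC]
      have hb : ∀ b, ((c, w b) ∈ C ↔ c = c₁) := by
        intro b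
        cases b
        · exact hc₁' c
        · rw [hc₂', h12]
      rcases hcase u with h | ⟨b, rfl⟩
      · rw [(h5 c).1 u h]
        exact hb _
      · exact hb b
    ext C
    rw [Finset.mem_image]
    constructor
    · intro hC
      obtain ⟨c, hc⟩ := key C hC
      exact ⟨c, mem_univ _, hc.symm⟩
    · rintro ⟨c, -, rfl⟩
      have h5 : (c, v₁) ∈ D'.biUnion id := by rw [hD'.2.2]; exact mem_univ _
      obtain ⟨C, hC, h6⟩ := Finset.mem_biUnion.1 h5
      obtain ⟨c', hc'⟩ := key C hC
      have h7 : (c, v₁) ∈ C := h6
      rw [hc', mem_exC] at h7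
      have h8 : c = c' := h7
      rw [h8, ← hc']
      exact hC

end Perm

end Par

end MP_947208_co
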