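import Mathlib
import Pool.Agent.Work.MP_947208_co.Star

/-! Pairs of spanning trees without a common leaf. -/

set_option linter.unusedSectionVars false
set_option linter.unusedVariables false

namespace MP_947208_co

open Finset Function

/-- Two commuting involutions without fixed points, whose product has no fixed points either. -/
theorem four_dvd_of_invol {α : Type} [DecidableEq α] (f g : α → α) : ∀ (m : ℕ) (s : Finset α),
    s.card = m → (∀ x ∈ s, f x ∈ s) → (∀ x ∈ s, g x ∈ s) → (∀ x ∈ s, f (f x) = x) →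
    (∀ x ∈ s, g (g x) = x) → (∀ x ∈ s, f (g x) = g (f x)) → (∀ x ∈ s, f x ≠ x) →
    (∀ x ∈ s, g x ≠ x) → (∀ x ∈ s, f (g x) ≠ x) → 4 ∣ m := by
  intro m
  induction m using Nat.strong_induction_on with
  | _ m ih =>
    intro s hs hf hg hff hgg hfg h1 h2 h3
    by_cases hne : s = ∅
    · rw [← hs, hne]
      exact dvd_zero 4
    · obtain ⟨x, hx⟩ := Finset.nonempty_iff_ne_empty.2 hne
      have a1 : x ≠ f x := (h1 x hx).symm
      have a2 : x ≠ g x := (h2 x hx).symm
      have a3 : x ≠ f (g x) := (h3 x hx).symm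
      have a4 : f x ≠ g x := by
        intro h
        apply h3 x hx
        rw [← h, hff x hx]
      have a5 : f x ≠ f (g x) := by
        intro h
        apply h2 x hx
        have := congrArg f h
        rw [hff x hx, hff _ (hg x hx)] at this
        exact this.symm
      have a6 : g x ≠ f (g x) := (h1 _ (hg x hx)).symm
      set t : Finset α := {x, f x, g x, f (g x)} with ht
      have htc : t.card = 4 := by
        rw [ht, Finset.card_insert_of_notMem, Finset.card_insert_of_notMem,
          Finset.card_pair a6]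
        · simp only [mem_insert, mem_singleton, not_or]
          exact ⟨a4, a5⟩
        · simp only [mem_insert, mem_singleton, not_or]
          exact ⟨a1, a2, a3⟩
      have hts : t ⊆ s := by
        intro y hy
        rw [ht] at hy
        simp only [mem_insert, mem_singleton] at hy
        rcases hy with rfl | rfl | rfl | rfl
        · exact hx
        · exact hf x hx
        · exact hg x hx
        · exact hf _ (hg x hx)
      have hft : ∀ y ∈ t, f y ∈ t := by
        intro y hy
        rw [ht] at hy ⊢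
        simp only [mem_insert, mem_singleton] at hy ⊢
        rcases hy with rfl | rfl | rfl | rfl
        · tauto
        · rw [hff x hx]; tauto
        · tauto
        · rw [hff _ (hg x hx)]; tauto
      have hgt : ∀ y ∈ t, g y ∈ t := by
        intro y hy
        rw [ht] at hy ⊢
        simp only [mem_insert, mem_singleton] at hy ⊢
        rcases hy with rfl | rfl | rfl | rfl
        · tauto
        · rw [← hfg x hx]; tauto
        · rw [hgg x hx]; tauto
        · rw [← hfg _ (hg x hx), hgg x hx]; tauto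
      have hcard : (s \ t).card = m - 4 := by
        rw [Finset.card_sdiff_of_subset hts, hs, htc]
      have h4m : 4 ≤ m := by
        rw [← hs, ← htc]
        exact Finset.card_le_card hts
      have h5 := ih (m - 4) (by omega) (s \ t) hcard
        (fun y hy => by
          rw [Finset.mem_sdiff] at hy ⊢
          refine ⟨hf y hy.1, fun h => hy.2 ?_⟩
          have := hft _ h
          rwa [hff y hy.1] at this)
        (fun y hy => by
          rw [Finset.mem_sdiff] at hy ⊢
          refine ⟨hg y hy.1, fun h => hy.2 ?_⟩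
          have := hgt _ h
          rwa [hgg y hy.1] at this)
        (fun y hy => hff y (Finset.sdiff_subset hy)) (fun y hy => hgg y (Finset.sdiff_subset hy))
        (fun y hy => hfg y (Finset.sdiff_subset hy)) (fun y hy => h1 y (Finset.sdiff_subset hy))
        (fun y hy => h2 y (Finset.sdiff_subset hy)) (fun y hy => h3 y (Finset.sdiff_subset hy))
      omega

variable {V E : Type} [Fintype V] [DecidableEq V] [Fintype E] [DecidableEq E]
variable {ends : E → Sym2 V}

/-- Contracting an edge loses at most one component. -/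
theorem exists_label (ends : E → Sym2 V) (J : Finset E) :
    ∃ κ : V → V, (∀ e ∈ J, ∀ u ∈ ends e, ∀ v ∈ ends e, κ u = κ v) ∧
      Fintype.card V ≤ (univ.image κ).card + J.card := by
  induction J using Finset.induction_on with
  | empty =>
    refine ⟨id, fun e he => absurd he (Finset.notMem_empty e), ?_⟩
    rw [Finset.image_id, Finset.card_univ]
    omega
  | insert e J he ih =>
    obtain ⟨κ, h1, h2⟩ := ih
    obtain ⟨a, b, hab⟩ : ∃ a b, ends e = s(a, b) := by
      induction ends e with | h a b => exact ⟨a, b, rfl⟩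
    refine ⟨fun v => if κ v = κ b then κ a else κ v, ?_, ?_⟩
    · intro f hf u hu v hv
      simp only
      rcases Finset.mem_insert.1 hf with rfl | hf
      · rw [hab, Sym2.mem_iff] at hu hv
        rcases hu with rfl | rfl <;> rcases hv with rfl | rfl <;> simp
      · rw [h1 f hf u hu v hv]
    · have h3 : univ.image κ ⊆
          insert (κ b) (univ.image fun v => if κ v = κ b then κ a else κ v) := by
        intro y hy
        obtain ⟨v, _, rfl⟩ := Finset.mem_image.1 hy
        by_cases h : κ v = κ b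
        · rw [h]; exact Finset.mem_insert_self _ _
        · apply Finset.mem_insert_of_mem
          rw [Finset.mem_image]
          exact ⟨v, Finset.mem_univ v, if_neg h⟩
      have h4 := (Finset.card_le_card h3).trans (Finset.card_insert_le _ _)
      rw [Finset.card_insert_of_notMem he]
      omega

/-- A set of vertices left by no edge of `J` and at most three edges of `U`. -/
def Good (ends : E → Sym2 V) (J U : Finset E) (Q : Finset V) : Prop :=
  Q.Nonempty ∧ Q ≠ univ ∧ cut ends J Q = ∅ ∧ (cut ends U Q).card ≤ 3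

theorem exists_good (J U : Finset E) (hJU : J ⊆ U) (hn : J.card + 2 ≤ Fintype.card V)
    (h : (U \ J).card < 2 * (Fintype.card V - J.card)) (hl : ∀ e ∈ U, ¬ (ends e).IsDiag) :
    ∃ Q, Good ends J U Q := by
  classical
  obtain ⟨κ, h1, h2⟩ := exists_label ends J
  by_contra hcon
  push Not at hcon
  have hJ0 : ∀ l, cut ends J (univ.filter fun v => κ v = l) = ∅ := by
    intro l
    rw [Finset.eq_empty_iff_forall_notMem]
    intro e he
    rw [mem_cut] at he
    obtain ⟨heJ, hodd⟩ := he
    obtain ⟨w, hw⟩ := Finset.card_pos.1 hodd.pos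
    rw [Finset.mem_filter, Finset.mem_filter] at hw
    have h3 : ((univ.filter fun v => κ v = l).filter fun u => u ∈ ends e) = (ends e).toFinset := by
      ext u
      rw [Finset.mem_filter, Finset.mem_filter, Sym2.mem_toFinset]
      constructor
      · rintro ⟨_, h⟩; exact h
      · intro h
        refine ⟨⟨Finset.mem_univ _, ?_⟩, h⟩
        rw [h1 e heJ u h w hw.2, hw.1.2]
    rw [h3, Sym2.card_toFinset_of_not_isDiag _ (hl e (hJU heJ))] at hodd
    exact absurd hodd (by decide)
  have h4 : ∀ l ∈ univ.image κ, 4 ≤ (cut ends U (univ.filter fun v => κ v = l)).card := by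
    intro l hl'
    by_contra hlt
    apply hcon (univ.filter fun v => κ v = l)
    obtain ⟨v, _, rfl⟩ := Finset.mem_image.1 hl'
    refine ⟨⟨v, by simp⟩, ?_, hJ0 _, by omega⟩
    intro hu
    have h5 : univ.image κ ⊆ {κ v} := by
      intro y hy
      obtain ⟨w, _, rfl⟩ := Finset.mem_image.1 hy
      have := Finset.mem_univ w
      rw [← hu, Finset.mem_filter] at this
      rw [Finset.mem_singleton]
      exact this.2
    have h6 := Finset.card_le_card h5
    rw [Finset.card_singleton] at h6
    omega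
  have h5 : 4 * (univ.image κ).card ≤
      ∑ l ∈ univ.image κ, (cut ends U (univ.filter fun v => κ v = l)).card := by
    rw [mul_comm, ← smul_eq_mul, ← Finset.sum_const]
    exact Finset.sum_le_sum h4
  have h6 : ∑ l ∈ univ.image κ, (cut ends U (univ.filter fun v => κ v = l)).card ≤
      2 * (U \ J).card := by
    have h7 : ∀ l, (cut ends U (univ.filter fun v => κ v = l)).card =
        ∑ e ∈ U \ J, if e ∈ cut ends U (univ.filter fun v => κ v = l) then 1 else 0 := by
      intro l
      rw [← Finset.card_filter]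
      congr 1
      ext e
      rw [Finset.mem_filter, Finset.mem_sdiff]
      constructor
      · intro he
        refine ⟨⟨(mem_cut.1 he).1, fun heJ => ?_⟩, he⟩
        have : e ∈ cut ends J (univ.filter fun v => κ v = l) := mem_cut.2 ⟨heJ, (mem_cut.1 he).2⟩
        rw [hJ0 l] at this
        exact Finset.notMem_empty e this
      · rintro ⟨_, he⟩; exact he
    rw [Finset.sum_congr rfl (fun l _ => h7 l), Finset.sum_comm, mul_comm, ← smul_eq_mul,
      ← Finset.sum_const]
    apply Finset.sum_le_sum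
    intro e he
    rw [← Finset.card_filter]
    obtain ⟨a, b, hab⟩ : ∃ a b, ends e = s(a, b) := by
      induction ends e with | h a b => exact ⟨a, b, rfl⟩
    refine le_trans (Finset.card_le_card (t := {κ a, κ b}) ?_) Finset.card_le_two
    intro l hl'
    rw [Finset.mem_filter, mem_cut] at hl'
    obtain ⟨w, hw⟩ := Finset.card_pos.1 hl'.2.2.pos
    rw [Finset.mem_filter, Finset.mem_filter, hab, Sym2.mem_iff] at hw
    rw [Finset.mem_insert, Finset.mem_singleton, ← hw.1.2]
    rcases hw.2 with h | h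
    · left; rw [h]
    · right; rw [h]
  omega

/-- An exchange of two edges across `Q`. -/
def Ex (ends : E → Sym2 V) (T₁ T₂ : Finset E) (Q : Finset V) (p : E × E) : Prop :=
  p.1 ∈ cut ends T₁ Q ∧ p.2 ∈ cut ends T₂ Q ∧ Tree ends (insert p.2 (T₁.erase p.1)) ∧
    Tree ends (insert p.1 (T₂.erase p.2))

theorem ex_symm {T₁ T₂ : Finset E} {Q : Finset V} {p : E × E} :
    Ex ends T₁ T₂ Q p ↔ Ex ends T₂ T₁ Q p.swap := by
  unfold Ex
  constructor
  · rintro ⟨h1, h2, h3, h4⟩; exact ⟨h2, h1, h4, h3⟩
  · rintro ⟨h1, h2, h3, h4⟩; exact ⟨h2, h1, h4, h3⟩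

theorem ex_one {T₁ T₂ : Finset E} (h₁ : Tree ends T₁) (h₂ : Tree ends T₂)
    (hl₁ : ∀ e ∈ T₁, ¬ (ends e).IsDiag) (hl₂ : ∀ e ∈ T₂, ¬ (ends e).IsDiag) {Q : Finset V}
    (hJ : cut ends (T₁ ∩ T₂) Q = ∅) (hc₁ : (cut ends T₁ Q).card = 1)
    (hc₂ : (cut ends T₂ Q).card ≤ 2) : ∃! p, Ex ends T₁ T₂ Q p := by
  classical
  obtain ⟨e, he⟩ := Finset.card_eq_one.1 hc₁
  have hec : e ∈ cut ends T₁ Q := by rw [he]; exact Finset.mem_singleton_self e
  have hnot : ∀ g, g ∈ cut ends T₁ Q → g ∉ T₂ := by
    intro g hg hg2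
    have : g ∈ cut ends (T₁ ∩ T₂) Q :=
      mem_cut.2 ⟨Finset.mem_inter.2 ⟨(mem_cut.1 hg).1, hg2⟩, (mem_cut.1 hg).2⟩
    rw [hJ] at this
    exact Finset.notMem_empty g this
  have hnot' : ∀ g, g ∈ cut ends T₂ Q → g ∉ T₁ := by
    intro g hg hg2
    have : g ∈ cut ends (T₁ ∩ T₂) Q :=
      mem_cut.2 ⟨Finset.mem_inter.2 ⟨hg2, (mem_cut.1 hg).1⟩, (mem_cut.1 hg).2⟩
    rw [hJ] at this
    exact Finset.notMem_empty g this
  have heT : e ∉ T₂ := hnot e hec
  have heodd := (mem_cut.1 hec).2
  obtain ⟨Z, hZ, heZ, hZe⟩ := h₂.exists_cycle hl₂ heT (hl₁ e (mem_cut.1 hec).1)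
  have hcutZ : cut ends Z Q = insert e (Z ∩ cut ends T₂ Q) := by
    ext g
    rw [mem_cut, Finset.mem_insert, Finset.mem_inter, mem_cut]
    constructor
    · rintro ⟨h1, h2⟩
      rcases Finset.mem_insert.1 (hZ h1) with h | h
      · exact Or.inl h
      · exact Or.inr ⟨h1, h, h2⟩
    · rintro (h | ⟨h1, h2, h3⟩)
      · rw [h]; exact ⟨heZ, heodd⟩
      · exact ⟨h1, h3⟩
  have hcard : (Z ∩ cut ends T₂ Q).card = 1 := by
    have h1 := cut_even hZe Q
    rw [hcutZ, Finset.card_insert_of_notMem (by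
      intro h
      exact heT (mem_cut.1 (Finset.mem_inter.1 h).2).1)] at h1
    have h2 : (Z ∩ cut ends T₂ Q).card ≤ 2 :=
      (Finset.card_le_card Finset.inter_subset_right).trans hc₂
    obtain ⟨a, ha⟩ := h1
    omega
  obtain ⟨g, hg⟩ := Finset.card_eq_one.1 hcard
  have hgm : g ∈ Z ∩ cut ends T₂ Q := by rw [hg]; exact Finset.mem_singleton_self g
  obtain ⟨hgZ, hgc⟩ := Finset.mem_inter.1 hgm
  have hgT : g ∉ T₁ := hnot' g hgc
  refine ⟨(e, g), ⟨hec, hgc, ?_, ?_⟩, ?_⟩
  · simp only
    obtain ⟨Z', hZ', hgZ', hZe'⟩ := h₁.exists_cycle hl₁ hgT (hl₂ g (mem_cut.1 hgc).1)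
    rw [h₁.exchange_iff hgT hZ' hgZ' hZe' (mem_cut.1 hec).1]
    have h1 := cut_even hZe' Q
    by_contra heZ'
    have h2 : cut ends Z' Q = {g} := by
      ext f
      rw [mem_cut, Finset.mem_singleton]
      constructor
      · rintro ⟨h3, h4⟩
        rcases Finset.mem_insert.1 (hZ' h3) with h | h
        · exact h
        · exfalso
          have h5 : f ∈ cut ends T₁ Q := mem_cut.2 ⟨h, h4⟩
          rw [he, Finset.mem_singleton] at h5
          exact heZ' (h5 ▸ h3)
      · rintro rfl
        exact ⟨hgZ', (mem_cut.1 hgc).2⟩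
    rw [h2, Finset.card_singleton] at h1
    exact absurd h1 (by decide)
  · simp only
    rw [h₂.exchange_iff heT hZ heZ hZe (mem_cut.1 hgc).1]
    exact hgZ
  · rintro ⟨e', f'⟩ ⟨h1, h2, h3, h4⟩
    simp only at h1 h2 h3 h4
    have h5 : e' = e := by
      rw [he, Finset.mem_singleton] at h1
      exact h1
    subst h5
    rw [h₂.exchange_iff heT hZ heZ hZe (mem_cut.1 h2).1] at h4
    have h6 : f' ∈ Z ∩ cut ends T₂ Q := Finset.mem_inter.2 ⟨h4, h2⟩
    rw [hg, Finset.mem_singleton] at h6
    rw [h6]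

theorem cut_union (T₁ T₂ : Finset E) (Q : Finset V) :
    cut ends (T₁ ∪ T₂) Q = cut ends T₁ Q ∪ cut ends T₂ Q := Finset.filter_union _ _ _

theorem cut_inter (T₁ T₂ : Finset E) (Q : Finset V) :
    cut ends (T₁ ∩ T₂) Q = cut ends T₁ Q ∩ cut ends T₂ Q := by
  unfold cut
  rw [Finset.filter_inter_distrib]

theorem ex_unique {T₁ T₂ : Finset E} (h₁ : Tree ends T₁) (h₂ : Tree ends T₂)
    (hl₁ : ∀ e ∈ T₁, ¬ (ends e).IsDiag) (hl₂ : ∀ e ∈ T₂, ¬ (ends e).IsDiag) {Q : Finset V}
    (hQ : Good ends (T₁ ∩ T₂) (T₁ ∪ T₂) Q) : ∃! p, Ex ends T₁ T₂ Q p := by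
  obtain ⟨hQ1, hQ2, hQ3, hQ4⟩ := hQ
  rw [cut_union, Finset.card_union_of_disjoint (by
    rw [Finset.disjoint_iff_inter_eq_empty, ← cut_inter]
    exact hQ3)] at hQ4
  have p1 := Finset.card_pos.2 (h₁.cut_nonempty hl₁ hQ1 hQ2)
  have p2 := Finset.card_pos.2 (h₂.cut_nonempty hl₂ hQ1 hQ2)
  by_cases h : (cut ends T₁ Q).card = 1
  · exact ex_one h₁ h₂ hl₁ hl₂ hQ3 h (by omega)
  · obtain ⟨p, hp, hu⟩ := ex_one h₂ h₁ hl₂ hl₁ (Q := Q) (by rw [Finset.inter_comm]; exact hQ3)
      (by omega) (by omega)
    refine ⟨p.swap, ?_, ?_⟩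
    · have := ex_symm.1 hp
      exact this
    · intro q hq
      have := hu q.swap (ex_symm.1 hq)
      rw [← this, Prod.swap_swap]

open Classical in
/-- The chosen set of vertices. -/
noncomputable def chQ (ends : E → Sym2 V) (J U : Finset E) : Finset V :=
  if h : ∃ Q, Good ends J U Q then h.choose else ∅

theorem chQ_good {J U : Finset E} (h : ∃ Q, Good ends J U Q) : Good ends J U (chQ ends J U) := by
  unfold chQ
  rw [dif_pos h]
  exact h.choose_spec

open Classical in
/-- The chosen exchange. -/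
noncomputable def chP (ends : E → Sym2 V) (x : Finset E × Finset E) : Option (E × E) :=
  if h : ∃ p, Ex ends x.1 x.2 (chQ ends (x.1 ∩ x.2) (x.1 ∪ x.2)) p then some h.choose else none

/-- The exchange map. -/
noncomputable def xch (ends : E → Sym2 V) (x : Finset E × Finset E) : Finset E × Finset E :=
  match chP ends x with
  | some p => (insert p.2 (x.1.erase p.1), insert p.1 (x.2.erase p.2))
  | none => x

theorem xch_eq {x : Finset E × Finset E} {p : E × E}
    (hu : ∃! p, Ex ends x.1 x.2 (chQ ends (x.1 ∩ x.2) (x.1 ∪ x.2)) p)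
    (hp : Ex ends x.1 x.2 (chQ ends (x.1 ∩ x.2) (x.1 ∪ x.2)) p) :
    xch ends x = (insert p.2 (x.1.erase p.1), insert p.1 (x.2.erase p.2)) := by
  have h : ∃ p, Ex ends x.1 x.2 (chQ ends (x.1 ∩ x.2) (x.1 ∪ x.2)) p := ⟨p, hp⟩
  have h1 : chP ends x = some p := by
    unfold chP
    rw [dif_pos h]
    congr 1
    exact hu.unique h.choose_spec hp
  unfold xch
  rw [h1]

theorem swap_sets {T₁ T₂ : Finset E} {e f : E} (he1 : e ∈ T₁) (he2 : e ∉ T₂) (hf1 : f ∉ T₁)
    (hf2 : f ∈ T₂) :
    insert f (T₁.erase e) ∩ insert e (T₂.erase f) = T₁ ∩ T₂ ∧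
    insert f (T₁.erase e) ∪ insert e (T₂.erase f) = T₁ ∪ T₂ ∧
    insert e ((insert f (T₁.erase e)).erase f) = T₁ ∧
    insert f ((insert e (T₂.erase f)).erase e) = T₂ := by
  have hef : e ≠ f := by rintro rfl; exact hf1 he1
  refine ⟨?_, ?_, ?_, ?_⟩
  · ext g
    simp only [mem_inter, mem_insert, mem_erase]
    by_cases h1 : g = e
    · subst h1; simp [he1, he2, hef]
    · by_cases h2 : g = f
      · subst h2; simp [hf1, hf2, h1]
      · simp [h1, h2]
  · ext g
    simp only [mem_union, mem_insert, mem_erase]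
    by_cases h1 : g = e
    · subst h1; simp [he1, he2, hef]
    · by_cases h2 : g = f
      · subst h2; simp [hf1, hf2, h1]
      · simp [h1, h2]
  · ext g
    simp only [mem_insert, mem_erase]
    by_cases h1 : g = e
    · subst h1; simp [he1]
    · by_cases h2 : g = f
      · subst h2; simp [hf1, h1]
      · simp [h1, h2]
  · ext g
    simp only [mem_insert, mem_erase]
    by_cases h1 : g = e
    · subst h1; simp [he2, hef]
    · by_cases h2 : g = f
      · subst h2; simp [hf2]
      · simp [h1, h2]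

theorem deg_add (T₁ T₂ : Finset E) (v : V) :
    deg ends T₁ v + deg ends T₂ v = deg ends (T₁ ∪ T₂) v + deg ends (T₁ ∩ T₂) v := by
  unfold deg
  rw [Finset.filter_union, Finset.filter_inter_distrib, Finset.card_union_add_card_inter]

open Classical in
/-- Pairs of spanning trees that differ in at least two edges and have no common leaf. -/
noncomputable def XX (ends : E → Sym2 V) (K : Finset E) : Finset (Finset E × Finset E) :=
  (STrees ends univ K ×ˢ STrees ends univ K).filter fun x =>
    2 ≤ (x.1 \ x.2).card ∧ ∀ v, 3 ≤ deg ends x.1 v + deg ends x.2 v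

theorem mem_XX {K : Finset E} {x : Finset E × Finset E} : x ∈ XX ends K ↔
    ((x.1 ⊆ K ∧ Tree ends x.1) ∧ (x.2 ⊆ K ∧ Tree ends x.2)) ∧ 2 ≤ (x.1 \ x.2).card ∧
      ∀ v, 3 ≤ deg ends x.1 v + deg ends x.2 v := by
  classical
  unfold XX
  rw [Finset.mem_filter, Finset.mem_product, mem_STrees_univ, mem_STrees_univ]

theorem XX_spec {K : Finset E} (hl : ∀ e ∈ K, ¬ (ends e).IsDiag) {x : Finset E × Finset E}
    (hx : x ∈ XX ends K) : Good ends (x.1 ∩ x.2) (x.1 ∪ x.2) (chQ ends (x.1 ∩ x.2) (x.1 ∪ x.2)) ∧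
      ∃! p, Ex ends x.1 x.2 (chQ ends (x.1 ∩ x.2) (x.1 ∪ x.2)) p := by
  classical
  rw [mem_XX] at hx
  obtain ⟨⟨⟨h1, h2⟩, ⟨h3, h4⟩⟩, h5, h6⟩ := hx
  have c1 : (x.1 \ x.2).card + (x.1 ∩ x.2).card = x.1.card := Finset.card_sdiff_add_card_inter _ _
  have c2 : (x.2 \ x.1).card + (x.2 ∩ x.1).card = x.2.card := Finset.card_sdiff_add_card_inter _ _
  have c3 : (x.2 ∩ x.1).card = (x.1 ∩ x.2).card := by rw [Finset.inter_comm]
  have c4 := h2.1
  have c5 := h4.1
  have c6 : ((x.1 ∪ x.2) \ (x.1 ∩ x.2)).card = (x.1 \ x.2).card + (x.2 \ x.1).card := by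
    rw [← Finset.card_union_of_disjoint (by
      rw [Finset.disjoint_left]
      intro e he he'
      exact (Finset.mem_sdiff.1 he').2 (Finset.mem_sdiff.1 he).1)]
    congr 1
    ext e
    simp only [mem_sdiff, mem_union, mem_inter]
    tauto
  have hg : ∃ Q, Good ends (x.1 ∩ x.2) (x.1 ∪ x.2) Q := by
    apply exists_good
    · intro e he
      exact Finset.mem_union_left _ (Finset.mem_inter.1 he).1
    · omega
    · omega
    · intro e he
      rcases Finset.mem_union.1 he with he | he
      · exact hl e (h1 he)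
      · exact hl e (h3 he)
  have hg' := chQ_good hg
  exact ⟨hg', ex_unique h2 h4 (fun e he => hl e (h1 he)) (fun e he => hl e (h3 he)) hg'⟩

theorem four_dvd_XX (K : Finset E) (hl : ∀ e ∈ K, ¬ (ends e).IsDiag) : 4 ∣ (XX ends K).card := by
  classical
  have main : ∀ x ∈ XX ends K, xch ends x ∈ XX ends K ∧ xch ends (xch ends x) = x ∧
      (xch ends x).swap = xch ends x.swap ∧ xch ends x ≠ x ∧ (xch ends x).swap ≠ x := by
    intro x hx
    obtain ⟨hg, hu⟩ := XX_spec hl hx
    obtain ⟨p, hp, hpu⟩ := hu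
    have hu' : ∃! p, Ex ends x.1 x.2 (chQ ends (x.1 ∩ x.2) (x.1 ∪ x.2)) p := ⟨p, hp, hpu⟩
    have hx' := mem_XX.1 hx
    obtain ⟨⟨⟨h1, h2⟩, ⟨h3, h4⟩⟩, h5, h6⟩ := hx'
    have he := xch_eq hu' hp
    obtain ⟨q1, q2, q3, q4⟩ := hp
    have hempty : ∀ g, g ∈ x.1 → g ∈ x.2 →
        Odd ((chQ ends (x.1 ∩ x.2) (x.1 ∪ x.2)).filter fun u => u ∈ ends g).card → False := by
      intro g hg1 hg2 hodd
      have : g ∈ cut ends (x.1 ∩ x.2) (chQ ends (x.1 ∩ x.2) (x.1 ∪ x.2)) :=
        mem_cut.2 ⟨Finset.mem_inter.2 ⟨hg1, hg2⟩, hodd⟩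
      rw [hg.2.2.1] at this
      exact Finset.notMem_empty g this
    have e1 := (mem_cut.1 q1).1
    have f2 := (mem_cut.1 q2).1
    have e2 : p.1 ∉ x.2 := fun h => hempty _ e1 h (mem_cut.1 q1).2
    have f1 : p.2 ∉ x.1 := fun h => hempty _ h f2 (mem_cut.1 q2).2
    obtain ⟨s1, s2, s3, s4⟩ := swap_sets e1 e2 f1 f2
    have hin : xch ends x ∈ XX ends K := by
      rw [mem_XX, he]
      simp only
      refine ⟨⟨⟨?_, q3⟩, ⟨?_, q4⟩⟩, ?_, ?_⟩
      · intro g hg
        rcases Finset.mem_insert.1 hg with h | h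
        · exact h ▸ h3 f2
        · exact h1 (Finset.mem_of_mem_erase h)
      · intro g hg
        rcases Finset.mem_insert.1 hg with h | h
        · exact h ▸ h1 e1
        · exact h3 (Finset.mem_of_mem_erase h)
      · have c1 : (x.1 \ x.2).card + (x.1 ∩ x.2).card = x.1.card :=
          Finset.card_sdiff_add_card_inter _ _
        have c2 := Finset.card_sdiff_add_card_inter (insert p.2 (x.1.erase p.1))
          (insert p.1 (x.2.erase p.2))
        rw [s1] at c2
        have c3 := q3.1
        have c4 := h2.1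
        omega
      · intro v
        rw [deg_add, s1, s2, ← deg_add]
        exact h6 v
    have hinv : xch ends (xch ends x) = x := by
      have h7 := (XX_spec hl hin).2
      rw [he] at h7 ⊢
      have h8 := xch_eq (p := p.swap) h7 (by
        simp only [s1, s2]
        refine ⟨?_, ?_, ?_, ?_⟩
        · rw [Prod.fst_swap, mem_cut]
          exact ⟨Finset.mem_insert_self _ _, (mem_cut.1 q2).2⟩
        · rw [Prod.snd_swap, mem_cut]
          exact ⟨Finset.mem_insert_self _ _, (mem_cut.1 q1).2⟩
        · rw [Prod.fst_swap, Prod.snd_swap, s3]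
          exact h2
        · rw [Prod.fst_swap, Prod.snd_swap, s4]
          exact h4)
      rw [h8]
      simp only [Prod.fst_swap, Prod.snd_swap]
      rw [s3, s4]
    have hcomm : (xch ends x).swap = xch ends x.swap := by
      have h9 : ∃! q, Ex ends x.swap.1 x.swap.2
          (chQ ends (x.swap.1 ∩ x.swap.2) (x.swap.1 ∪ x.swap.2)) q := by
        rw [Prod.fst_swap, Prod.snd_swap, Finset.inter_comm, Finset.union_comm]
        refine ⟨p.swap, ex_symm.1 ⟨q1, q2, q3, q4⟩, ?_⟩
        intro q hq
        have := hpu q.swap (ex_symm.1 hq)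
        rw [← this, Prod.swap_swap]
      have h10 := xch_eq (p := p.swap) h9 (by
        rw [Prod.fst_swap, Prod.snd_swap, Finset.inter_comm, Finset.union_comm]
        exact ex_symm.1 ⟨q1, q2, q3, q4⟩)
      rw [he, h10]
      simp only [Prod.fst_swap, Prod.snd_swap, Prod.swap_prod_mk]
    refine ⟨hin, hinv, hcomm, ?_, ?_⟩
    · rw [he]
      intro h
      have h7 := congrArg Prod.fst h
      simp only at h7
      apply f1
      rw [← h7]
      exact Finset.mem_insert_self _ _
    · rw [he]
      intro h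
      have h7 := congrArg Prod.fst h
      simp only [Prod.swap_prod_mk] at h7
      have h8 : x.1 \ x.2 ⊆ {p.1} := by
        intro g hg
        rw [Finset.mem_sdiff, ← h7] at hg
        rcases Finset.mem_insert.1 hg.1 with h | h
        · rw [h]; exact Finset.mem_singleton_self _
        · exact absurd (Finset.mem_of_mem_erase h) hg.2
      have h9 := Finset.card_le_card h8
      rw [Finset.card_singleton] at h9
      omega
  have hsw : ∀ x ∈ XX ends K, x.swap ∈ XX ends K := by
    intro x hx
    rw [mem_XX] at hx ⊢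
    obtain ⟨⟨h1, h2⟩, h5, h6⟩ := hx
    rw [Prod.fst_swap, Prod.snd_swap]
    refine ⟨⟨h2, h1⟩, ?_, ?_⟩
    · have c1 : (x.1 \ x.2).card + (x.1 ∩ x.2).card = x.1.card :=
        Finset.card_sdiff_add_card_inter _ _
      have c2 : (x.2 \ x.1).card + (x.2 ∩ x.1).card = x.2.card :=
        Finset.card_sdiff_add_card_inter _ _
      rw [Finset.inter_comm] at c2
      have c4 := h1.2.1
      have c5 := h2.2.1
      omega
    · intro v
      rw [add_comm]
      exact h6 v
  apply four_dvd_of_invol (fun x => x.swap) (xch ends) _ (XX ends K) rfl hsw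
    (fun x hx => (main x hx).1) (fun x _ => Prod.swap_swap x) (fun x hx => (main x hx).2.1)
    (fun x hx => (main x hx).2.2.1)
  · intro x hx h
    rw [mem_XX] at hx
    have h1 : x.1 = x.2 := by
      have := congrArg Prod.snd h
      simpa using this
    have h2 := hx.2.1
    rw [h1, Finset.sdiff_self, Finset.card_empty] at h2
    omega
  · exact fun x hx => (main x hx).2.2.2.1
  · exact fun x hx => (main x hx).2.2.2.2

end MP_947208_co
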