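import Pool.Agent.Work.MP_947208_co.ParCore

/-!
# The core with additional prescribed transitions

As in `ParCore`, with a set `ts` of flags at further vertices: the colour of a flag in `ts` is not
used by other pairs at its vertex.
-/

set_option autoImplicit false
set_option linter.unusedSectionVars false

namespace MP_947208_co.Par

open Finset Function

variable {X V C : Type} [Fintype X] [DecidableEq V] [Fintype C]

theorem modif_fl_fst' {K : X → Prop} {s : X → C × Bool} (x : X) :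
    (modif K fl s x).1 = (s x).1 := by
  by_cases h : K x
  · rw [modif_pos h, fl_fst]
  · rw [modif_neg h]

/-- Sign changes on sets which depend on the colours only. -/
theorem even_flip [DecidableEq X] {d : Dat X V C} {p : Equiv.Perm X} (hp : d.Pp p)
    (K : (X → C) → X → Prop)
    (hKi : ∀ s, d.Sp p s → ∀ x, K (fun x => (s x).1) x → K (fun x => (s x).1) (d.i x))
    (hKp : ∀ s, d.Sp p s → ∀ x, K (fun x => (s x).1) x → K (fun x => (s x).1) (p x))
    (hKu : ∀ s, d.Sp p s → ∀ x, K (fun x => (s x).1) x → d.a x ≠ d.u)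
    (hK : ∀ s, d.Sp p s → ∀ v, v = d.w₁ ∨ v = d.w₂ → ∀ x, d.a x = v →
      K (fun x => (s x).1) x → ∃ y, d.a y = v ∧ K (fun x => (s x).1) y ∧ s y = fl (s x))
    (hne : ∀ s, d.Sp p s → ∃ x, K (fun x => (s x).1) x)
    (R : (X → C) → Prop) [DecidablePred fun s => d.Sp p s ∧ R fun x => (s x).1] :
    ((univ.filter fun s => d.Sp p s ∧ R fun x => (s x).1).card : ZMod 2) = 0 := by
  classical
  have hcol : ∀ s : X → C × Bool, (fun x => (modif (K fun x => (s x).1) fl s x).1) =
      fun x => (s x).1 := by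
    intro s
    funext x
    exact modif_fl_fst' x
  apply even_of_invol _ (fun s => modif (K fun x => (s x).1) fl s)
  · intro s hs
    rw [Finset.mem_filter] at hs ⊢
    obtain ⟨-, hs, hR⟩ := hs
    refine ⟨mem_univ _, Dat.Sp.flip hp hs (hKi s hs) (hKp s hs) (hKu s hs) (hK s hs), ?_⟩
    rw [hcol s]
    exact hR
  · intro s hs h0
    rw [Finset.mem_filter] at hs
    obtain ⟨x, hx⟩ := hne s hs.2.1
    have h1 := congrFun h0 x
    rw [modif_pos hx] at h1
    exact fl_ne _ h1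
  · intro s hs
    show modif (K fun x => (modif (K fun x => (s x).1) fl s x).1) fl
      (modif (K fun x => (s x).1) fl s) = s
    rw [hcol s]
    funext x
    by_cases hx : K (fun x => (s x).1) x
    · rw [modif_pos hx, modif_pos hx, fl_fl]
    · rw [modif_neg hx, modif_neg hx]

/-- A component through `u` without flags at `w₂`, and with no or two flags at `w₁`. -/
theorem even_comp [DecidableEq X] {d : Dat X V C} {p : Equiv.Perm X} (hp : d.Pp p) {y : X}
    (hy : d.a y = d.u) (hw2 : ∀ x, d.a x = d.w₂ → ¬ Cmp d.i p y x)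
    (hw1 : (∀ x, d.a x = d.w₁ → ¬ Cmp d.i p y x) ∨
      ∃ h h', d.a h = d.w₁ ∧ d.a h' = d.w₁ ∧ h ≠ h' ∧ Cmp d.i p y h ∧ Cmp d.i p y h')
    (R : (X → C) → Prop) [DecidablePred fun s => d.Sp p s ∧ R fun x => (s x).1] :
    ((univ.filter fun s => d.Sp p s ∧ R fun x => (s x).1).card : ZMod 2) = 0 := by
  classical
  set c : C := (d.s₀ y).1 with hcdef
  have hcy : ∀ s, d.Sp p s → (s y).1 = c := by
    intro s hs
    rw [hs.2.2.2.2.2 y hy]
  apply even_flip hp (fun κ x => κ x = c ∧ ¬ Cmp d.i p y x)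
  · rintro s hs x ⟨hx1, hx2⟩
    simp only at hx1
    refine ⟨by simp only; rw [hs.1, fl_fst, hx1], fun hx => hx2 ?_⟩
    have := hx.stepI
    rwa [d.hi] at this
  · rintro s hs x ⟨hx1, hx2⟩
    simp only at hx1
    refine ⟨?_, fun hx => hx2 ?_⟩
    · have := Cmp.col hp hs (Cmp.refl x).stepP
      simp only
      rw [this, hx1]
    · have := hx.stepP
      rwa [hp.1] at this
  · rintro s hs x ⟨hx1, hx2⟩ hxu
    simp only at hx1
    have h1 : (s x).1 = (s y).1 := by rw [hx1, hcy s hs]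
    have hun := Dat.ne_of_mem d.hu
    rcases eq_or_fl h1 with h0 | h0
    · have h3 := hs.2.1 d.u d.hu x y hxu hy h0
      exact hx2 (by rw [h3]; exact Cmp.refl y)
    · rw [← hs.2.2.2.2.1 y (hy ▸ hun.1) (hy ▸ hun.2)] at h0
      have h3 := hs.2.1 d.u d.hu x (p y) hxu ((hp.2.1 y).trans hy) h0
      exact hx2 (by rw [h3]; exact (Cmp.refl y).stepP)
  · rintro s hs v (rfl | rfl) x hx ⟨hx1, hx2⟩
    · simp only at hx1
      rcases hw1 with hw1 | ⟨h, h', hh, hh', hne, hc, hc'⟩
      · obtain ⟨z, hz, hsz⟩ := InjAt.surj d hs.2.2.1 (fl (s x))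
        exact ⟨z, hz, ⟨by simp only; rw [hsz, fl_fst, hx1], hw1 z hz⟩, hsz⟩
      · exfalso
        have hch : (s h).1 = c := (Cmp.col hp hs hc).trans (hcy s hs)
        have hch' : (s h').1 = c := (Cmp.col hp hs hc').trans (hcy s hs)
        rcases eq_or_fl (hx1.trans hch.symm) with h0 | h0
        · exact hx2 ((hs.2.2.1 x h hx hh h0) ▸ hc)
        · rcases eq_or_fl (hx1.trans hch'.symm) with h1 | h1
          · exact hx2 ((hs.2.2.1 x h' hx hh' h1) ▸ hc')
          · exact hne (hs.2.2.1 h h' hh hh' (fl_inj (h0.symm.trans h1)))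
    · simp only at hx1
      obtain ⟨z, hz, hsz⟩ := InjAt.surj d hs.2.2.2.1 (fl (s x))
      exact ⟨z, hz, ⟨by simp only; rw [hsz, fl_fst, hx1], hw2 z hz⟩, hsz⟩
  · intro s hs
    obtain ⟨z, hz, hsz⟩ := InjAt.surj d hs.2.2.2.1 (c, true)
    exact ⟨z, by simp only; rw [hsz], hw2 z hz⟩

/-- A component with two flags at `w₁`. -/
theorem even_of_two' [DecidableEq X] {d : Dat X V C} {p : Equiv.Perm X} (hp : d.Pp p) {h h' : X}
    (hh : d.a h = d.w₁) (hh' : d.a h' = d.w₁) (hne : h ≠ h') (hc : Cmp d.i p h h')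
    (R : (X → C) → Prop) [DecidablePred fun s => d.Sp p s ∧ R fun x => (s x).1] :
    ((univ.filter fun s => d.Sp p s ∧ R fun x => (s x).1).card : ZMod 2) = 0 := by
  classical
  have hfix : p h = h := hp.2.2.2.1 h (Or.inl hh)
  have hfix' : p h' = h' := hp.2.2.2.1 h' (Or.inl hh')
  obtain ⟨e, he1, he2, he3, he4, he5⟩ := other_end d.hi d.hi0 hp.1 hfix
  have hee : h' = e := by
    rcases he4 h' hc hfix' with h0 | h0
    · exact absurd h0.symm hne
    · exact h0
  have hw2 : ∀ x, Cmp d.i p h x → d.a x ≠ d.w₂ := by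
    intro x hx hxw
    rcases he4 x hx (hp.2.2.2.1 x (Or.inr hxw)) with h0 | h0
    · rw [h0, hh] at hxw; exact d.hw hxw
    · rw [h0, ← hee, hh'] at hxw; exact d.hw hxw
  have hw1 : ∀ x, Cmp d.i p h x → d.a x = d.w₁ → x = h ∨ x = h' := by
    intro x hx hxw
    rcases he4 x hx (hp.2.2.2.1 x (Or.inl hxw)) with h0 | h0
    · exact Or.inl h0
    · exact Or.inr (h0.trans hee.symm)
  have hsh : ∀ s, d.Sp p s → s h' = fl (s h) := by
    intro s hs
    rcases eq_or_fl (Cmp.col hp hs hc) with h0 | h0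
    · exact absurd (hs.2.2.1 h' h hh' hh h0).symm hne
    · exact h0
  by_cases hu : ∃ y, Cmp d.i p h y ∧ d.a y = d.u
  · obtain ⟨y, hy, hyu⟩ := hu
    have hy' : Cmp d.i p y h := hy.symm d.hi hp.1
    exact even_comp hp hyu (fun x hx hyx => hw2 x (hy.trans hyx) hx)
      (Or.inr ⟨h, h', hh, hh', hne, hy', hy'.trans hc⟩) R
  · push Not at hu
    apply even_flip hp (fun _ x => Cmp d.i p h x)
    · intro s _ x hx; exact hx.stepI
    · intro s _ x hx; exact hx.stepP
    · intro s _ x hx; exact hu x hx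
    · rintro s hs v (rfl | rfl) x hx hKx
      · rcases hw1 x hKx hx with rfl | rfl
        · exact ⟨h', hh', hc, hsh s hs⟩
        · exact ⟨h, hh, Cmp.refl _, by rw [hsh s hs, fl_fl]⟩
      · exact absurd hx (hw2 x hKx)
    · intro s _; exact ⟨h, Cmp.refl h⟩

section Swap

variable [DecidableEq C]

/-- Exchange of the states of two strands with the same visited vertices. -/
theorem Sp_swap {d : Dat X V C} {p : Equiv.Perm X} (hp : d.Pp p) {s : X → C × Bool}
    (hs : d.Sp p s) {h₁ h₂ : X} (hh₁ : d.a h₁ = d.w₁) (hh₂ : d.a h₂ = d.w₁)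
    (hNB : ∀ h h', d.a h = d.w₁ → d.a h' = d.w₁ → Cmp d.i p h h' → h = h')
    (hu₁ : ∀ y, d.a y = d.u → ¬ Cmp d.i p h₁ y) (hu₂ : ∀ y, d.a y = d.u → ¬ Cmp d.i p h₂ y)
    (hJ : ∀ v ∈ d.J, (∃ x, d.a x = v ∧ Cmp d.i p h₁ x) ↔ ∃ x, d.a x = v ∧ Cmp d.i p h₂ x) :
    d.Sp p (Par.modif (fun x => Cmp d.i p h₁ x ∨ Cmp d.i p h₂ x) (sw (s h₁) (s h₂)) s) := by
  refine Dat.Sp.modif hp hs ?_ (sw_fl _ _) ?_ ?_ ?_ ?_
  · intro a b hab
    rw [← sw_sw (s h₁) (s h₂) a, hab, sw_sw]
  · rintro x (hx | hx)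
    · exact Or.inl hx.stepI
    · exact Or.inr hx.stepI
  · rintro x (hx | hx)
    · exact Or.inl hx.stepP
    · exact Or.inr hx.stepP
  · rintro x (hx | hx) hxu
    · exact hu₁ x hxu hx
    · exact hu₂ x hxu hx
  · rintro v hv x hx (hKx | hKx)
    · obtain ⟨y, hy1, hy2, hy3⟩ := closed_half hp hs hh₁ hh₂ hNB
        (fun v hv => (hJ v hv).1) hv hx hKx
      exact ⟨y, hy1, Or.inr hy2, hy3⟩
    · obtain ⟨y, hy1, hy2, hy3⟩ := closed_half hp hs hh₂ hh₁ hNB
        (fun v hv => (hJ v hv).2) hv hx hKx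
      exact ⟨y, hy1, Or.inl hy2, by rw [hy3, sw_comm]⟩

/-- The colour of a flag in `ts` is not used by other pairs at its vertex. -/
def Dat.TC (d : Dat X V C) (ts : Finset X) (κ : X → C) : Prop :=
  ∀ x ∈ ts, ∀ y, d.a y = d.a x → κ y = κ x → y = x ∨ y = d.pi x

/-- **Main parity statement for a fixed pairing `p`.** -/
theorem even_SpT [DecidableEq X] (d : Dat X V C) (ts : Finset X)
    (hk : 2 ^ (d.J.card - 1) + ts.card < Fintype.card C) {p : Equiv.Perm X}
    [DecidablePred fun s => d.Sp p s ∧ d.TC ts fun x => (s x).1] (hp : d.Pp p) :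
    ((univ.filter fun s => d.Sp p s ∧ d.TC ts fun x => (s x).1).card : ZMod 2) = 0 := by
  classical
  by_cases hne : ∃ s, d.Sp p s
  swap
  · rw [Finset.filter_false_of_mem (fun s _ hs => hne ⟨s, hs.1⟩), Finset.card_empty,
      Nat.cast_zero]
  obtain ⟨s₁, hs₁⟩ := hne
  by_cases hB : ∃ h h', d.a h = d.w₁ ∧ d.a h' = d.w₁ ∧ h ≠ h' ∧ Cmp d.i p h h'
  · obtain ⟨h, h', h1, h2, h3, h4⟩ := hB
    exact even_of_two' hp h1 h2 h3 h4 _
  have hNB : ∀ h h', d.a h = d.w₁ → d.a h' = d.w₁ → Cmp d.i p h h' → h = h' := by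
    intro h h' h1 h2 h3
    by_contra h4
    exact hB ⟨h, h', h1, h2, h4, h3⟩
  by_cases hU : ∃ y, d.a y = d.u ∧ ∀ x, d.a x = d.w₁ → ¬ Cmp d.i p y x
  · obtain ⟨y, hy, hyw⟩ := hU
    refine even_comp hp hy ?_ (Or.inl hyw) _
    intro x hx hyx
    have hspp : ∀ y, p y ≠ y → s₁ (p y) = fl (s₁ y) := by
      intro y hy
      rw [Ne, Dat.fix_iff hp] at hy
      push Not at hy
      exact hs₁.2.2.2.2.1 y hy.1 hy.2
    obtain ⟨h, hh, hsh⟩ := InjAt.surj d hs₁.2.2.1 (fl (s₁ x))
    obtain ⟨e, he1, he2, he3, he4, he5⟩ := other_end d.hi d.hi0 hp.1 (hp.2.2.2.1 h (Or.inl hh))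
    have hew : d.a e = d.w₂ := by
      rcases (Dat.fix_iff hp e).1 he1 with h0 | h0
      · exact absurd (hNB h e hh h0 he3).symm he2
      · exact h0
    have hse : s₁ e = s₁ x := by
      rw [he5 _ s₁ fl fl_fl hs₁.1 hspp, hsh, fl_fl]
    have hex : e = x := hs₁.2.2.2.1 e x hew hx hse
    apply hyw h hh
    exact hyx.trans ((hex ▸ he3).symm d.hi hp.1)
  have hU' : ∀ y, d.a y = d.u → ∃ h, d.a h = d.w₁ ∧ Cmp d.i p y h := by
    intro y hy
    by_contra hcon
    push Not at hcon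
    exact hU ⟨y, hy, hcon⟩
  -- the flags at `w₁` whose strand meets `u`
  set W := univ.filter fun x => d.a x = d.w₁ with hW
  set Wb := W.filter fun h => ∃ y, d.a y = d.u ∧ Cmp d.i p h y with hWb
  set Wg := W.filter fun h => ¬ ∃ y, d.a y = d.u ∧ Cmp d.i p h y with hWg
  have hWcard : Wb.card + Wg.card = 2 * Fintype.card C := by
    rw [← d.hcard d.w₁, ← hW]
    exact Finset.card_filter_add_card_filter_not _
  have hun := Dat.ne_of_mem d.hu
  have hWbm : ∀ h, h ∈ Wb ↔ d.a h = d.w₁ ∧ ∃ y, d.a y = d.u ∧ Cmp d.i p h y := by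
    intro h
    rw [hWb, hW, Finset.mem_filter, Finset.mem_filter]
    simp
  have hWgm : ∀ h, h ∈ Wg ↔ d.a h = d.w₁ ∧ ¬ ∃ y, d.a y = d.u ∧ Cmp d.i p h y := by
    intro h
    rw [hWg, hW, Finset.mem_filter, Finset.mem_filter]
    simp
  have hWb2 : 2 * Wb.card ≤ 2 * Fintype.card C := by
    rw [← d.hcard d.u]
    choose! Y hY1 hY2 using fun h (hh : h ∈ Wb) => ((hWbm h).1 hh).2
    have hinj : Set.InjOn (fun q : X × Bool => if q.2 then p (Y q.1) else Y q.1)
        ((Wb ×ˢ (univ : Finset Bool) : Finset (X × Bool)) : Set (X × Bool)) := by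
      rintro ⟨h, b⟩ hh ⟨h', b'⟩ hh' heq
      rw [Finset.mem_coe, Finset.mem_product] at hh hh'
      have c1 : Cmp d.i p h (if b then p (Y h) else Y h) := by
        cases b
        · exact hY2 h hh.1
        · exact (hY2 h hh.1).stepP
      have c2 : Cmp d.i p h' (if b' then p (Y h') else Y h') := by
        cases b'
        · exact hY2 h' hh'.1
        · exact (hY2 h' hh'.1).stepP
      simp only at heq
      rw [← heq] at c2
      have c3 : Cmp d.i p h h' := c1.trans (c2.symm d.hi hp.1)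
      have c4 : h = h' := hNB h h' ((hWbm h).1 hh.1).1 ((hWbm h').1 hh'.1).1 c3
      subst c4
      have c5 : p (Y h) ≠ Y h := by
        rw [Ne, Dat.fix_iff hp, hY1 h hh.1]
        push Not
        exact hun
      cases b <;> cases b'
      · rfl
      · exact absurd heq.symm c5
      · exact absurd heq c5
      · rfl
    have hmaps : ∀ q ∈ Wb ×ˢ (univ : Finset Bool),
        (if q.2 then p (Y q.1) else Y q.1) ∈ univ.filter fun x => d.a x = d.u := by
      rintro ⟨h, b⟩ hq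
      rw [Finset.mem_product] at hq
      rw [Finset.mem_filter]
      refine ⟨mem_univ _, ?_⟩
      cases b
      · exact hY1 h hq.1
      · exact (hp.2.1 _).trans (hY1 h hq.1)
    have := Finset.card_le_card_of_injOn _ hmaps hinj
    rw [Finset.card_product, Finset.card_univ, Fintype.card_bool] at this
    omega
  have hWg2 : Fintype.card C ≤ Wg.card := by omega
  -- the good flags whose colour occurs in `ts`
  set b : (X → C) → Finset X := fun κ => Wg.filter fun h => ∃ x ∈ ts, κ x = κ h with hb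
  have hbm : ∀ κ h, h ∈ b κ ↔ h ∈ Wg ∧ ∃ x ∈ ts, κ x = κ h := by
    intro κ h
    rw [hb, Finset.mem_filter]
  have hcolinj : ∀ s, d.Sp p s → ∀ h ∈ Wg, ∀ h' ∈ Wg, (s h).1 = (s h').1 → h = h' := by
    intro s hs h hh h' hh' hcc
    by_contra hhne
    obtain ⟨y, hy, hsy⟩ := InjAt.surj d (hs.2.1 d.u d.hu) ((s h).1, true)
    obtain ⟨g, hg, hyg⟩ := hU' y hy
    have hgh : (s g).1 = (s h).1 := by rw [Cmp.col hp hs hyg, hsy]
    rw [hWgm] at hh hh'
    have hng : g ≠ h := by
      rintro rfl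
      exact hh.2 ⟨y, hy, hyg.symm d.hi hp.1⟩
    have hng' : g ≠ h' := by
      rintro rfl
      exact hh'.2 ⟨y, hy, hyg.symm d.hi hp.1⟩
    rcases eq_or_fl hgh with h0 | h0
    · exact hng (hs.2.2.1 g h hg hh.1 h0)
    · rcases eq_or_fl (hgh.trans hcc) with h1 | h1
      · exact hng' (hs.2.2.1 g h' hg hh'.1 h1)
      · exact hhne (hs.2.2.1 h h' hh.1 hh'.1 (fl_inj (h0.symm.trans h1)))
  have hbcard : ∀ s, d.Sp p s → (b fun x => (s x).1).card ≤ ts.card := by
    intro s hs
    choose! f hf1 hf2 using fun h (hh : h ∈ b fun x => (s x).1) => ((hbm _ h).1 hh).2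
    apply Finset.card_le_card_of_injOn f hf1
    intro h hh h' hh' heq
    rw [Finset.mem_coe] at hh hh'
    have e1 := hf2 h hh
    have e2 := hf2 h' hh'
    rw [heq] at e1
    exact hcolinj s hs h ((hbm _ h).1 hh).1 h' ((hbm _ h').1 hh').1 (e1.symm.trans e2)
  -- the choice of two strands
  set tr : X → Finset V := fun h => (d.J.erase d.u).filter fun v =>
    ∃ x, d.a x = v ∧ Cmp d.i p h x with htr
  set G : Finset X → X × X → Prop := fun B q => q.1 ∈ Wg ∧ q.1 ∉ B ∧ q.2 ∈ Wg ∧ q.2 ∉ B ∧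
    q.1 ≠ q.2 ∧ tr q.1 = tr q.2 with hG
  have hGex : ∀ s, d.Sp p s → ∃ q, G (b fun x => (s x).1) q := by
    intro s hs
    have h1 := hbcard s hs
    have h2 : Wg.card - (b fun x => (s x).1).card ≤ (Wg \ b fun x => (s x).1).card :=
      Finset.le_card_sdiff _ _
    have hlt : ((d.J.erase d.u).powerset).card < (Wg \ b fun x => (s x).1).card := by
      rw [Finset.card_powerset, Finset.card_erase_of_mem d.hu]
      omega
    obtain ⟨h₁, hh₁, h₂, hh₂, hne, hA⟩ := Finset.exists_ne_map_eq_of_card_lt_of_maps_to hlt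
      (f := tr) (fun h _ => Finset.mem_powerset.2 (Finset.filter_subset _ _))
    rw [Finset.mem_sdiff] at hh₁ hh₂
    exact ⟨(h₁, h₂), hh₁.1, hh₁.2, hh₂.1, hh₂.2, hne, hA⟩
  obtain ⟨q₀, -⟩ := hGex s₁ hs₁
  have : Nonempty (X × X) := ⟨q₀⟩
  set pk : Finset X → X × X := fun B => Classical.epsilon (G B) with hpk
  have hpkG : ∀ s, d.Sp p s → G (b fun x => (s x).1) (pk (b fun x => (s x).1)) := fun s hs =>
    Classical.epsilon_spec (hGex s hs)
  set KK : X × X → X → Prop := fun q x => Cmp d.i p q.1 x ∨ Cmp d.i p q.2 x with hKK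
  set g : (X → C × Bool) → X → C × Bool := fun s =>
    modif (KK (pk (b fun x => (s x).1)))
      (sw (s (pk (b fun x => (s x).1)).1) (s (pk (b fun x => (s x).1)).2)) s with hg
  -- facts for a given state
  have facts : ∀ s, d.Sp p s → ∀ q : X × X, G (b fun x => (s x).1) q →
      (modif (KK q) (sw (s q.1) (s q.2)) s q.1 = s q.2) ∧
      (modif (KK q) (sw (s q.1) (s q.2)) s q.2 = s q.1) ∧
      (∀ x ∈ ts, modif (KK q) (sw (s q.1) (s q.2)) s x = s x) ∧
      (∀ h ∈ Wg, h ≠ q.1 → h ≠ q.2 → modif (KK q) (sw (s q.1) (s q.2)) s h = s h) ∧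
      (∀ x ∈ ts, ∀ y, KK q y → (s y).1 ≠ (s x).1 ∧
        (modif (KK q) (sw (s q.1) (s q.2)) s y).1 ≠ (s x).1) := by
    intro s hs q hq
    obtain ⟨q1, q2, q3, q4, q5, q6⟩ := hq
    have k1 : KK q q.1 := Or.inl (Cmp.refl _)
    have k2 : KK q q.2 := Or.inr (Cmp.refl _)
    have n1 : ∀ x ∈ ts, (s x).1 ≠ (s q.1).1 := fun x hx h => q2 ((hbm _ _).2 ⟨q1, x, hx, h⟩)
    have n2 : ∀ x ∈ ts, (s x).1 ≠ (s q.2).1 := fun x hx h => q4 ((hbm _ _).2 ⟨q3, x, hx, h⟩)
    have n3 : ∀ y, KK q y → (s y).1 = (s q.1).1 ∨ (s y).1 = (s q.2).1 := by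
      rintro y (hy | hy)
      · exact Or.inl (Cmp.col hp hs hy)
      · exact Or.inr (Cmp.col hp hs hy)
    have n4 : ∀ x ∈ ts, ¬ KK q x := by
      intro x hx hk
      rcases n3 x hk with h | h
      · exact n1 x hx h
      · exact n2 x hx h
    refine ⟨?_, ?_, ?_, ?_, ?_⟩
    · rw [modif_pos k1, sw_left]
    · rw [modif_pos k2, sw_right]
    · intro x hx
      exact modif_neg (n4 x hx)
    · intro h hh hn1 hn2
      apply modif_neg
      rintro (hk | hk)
      · exact hn1 (hNB q.1 h ((hWgm _).1 q1).1 ((hWgm _).1 hh).1 hk).symm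
      · exact hn2 (hNB q.2 h ((hWgm _).1 q3).1 ((hWgm _).1 hh).1 hk).symm
    · intro x hx y hy
      have h3 := n3 y hy
      constructor
      · rcases h3 with h | h
        · rw [h]; exact (n1 x hx).symm
        · rw [h]; exact (n2 x hx).symm
      · rw [modif_pos hy]
        rcases hy with hy | hy
        · rcases eq_or_fl (Cmp.col hp hs hy) with h | h
          · rw [h, sw_left]; exact (n2 x hx).symm
          · rw [h, sw_fl, sw_left, fl_fst]; exact (n2 x hx).symm
        · rcases eq_or_fl (Cmp.col hp hs hy) with h | h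
          · rw [h, sw_right]; exact (n1 x hx).symm
          · rw [h, sw_fl, sw_right, fl_fst]; exact (n1 x hx).symm
  have hbinv : ∀ s, d.Sp p s → b (fun x => (g s x).1) = b fun x => (s x).1 := by
    intro s hs
    have hq := hpkG s hs
    set q := pk (b fun x => (s x).1) with hqdef
    obtain ⟨f1, f2, f3, f4, f5⟩ := facts s hs q hq
    have hgs : g s = modif (KK q) (sw (s q.1) (s q.2)) s := rfl
    obtain ⟨q1, q2, q3, q4, q5, q6⟩ := hq
    ext h
    rw [hbm, hbm]
    apply and_congr_right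
    intro hh
    rw [hgs]
    by_cases e1 : h = q.1
    · rw [e1]
      constructor
      · rintro ⟨x, hx, hx'⟩
        rw [f3 x hx, f1] at hx'
        exact absurd ((hbm _ _).2 ⟨q3, x, hx, hx'⟩) q4
      · intro h'
        exact absurd ((hbm _ _).2 ⟨q1, h'⟩) q2
    · by_cases e2 : h = q.2
      · rw [e2]
        constructor
        · rintro ⟨x, hx, hx'⟩
          rw [f3 x hx, f2] at hx'
          exact absurd ((hbm _ _).2 ⟨q1, x, hx, hx'⟩) q2
        · intro h'
          exact absurd ((hbm _ _).2 ⟨q3, h'⟩) q4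
      · constructor
        · rintro ⟨x, hx, hx'⟩
          rw [f3 x hx, f4 h hh e1 e2] at hx'
          exact ⟨x, hx, hx'⟩
        · rintro ⟨x, hx, hx'⟩
          refine ⟨x, hx, ?_⟩
          rw [f3 x hx, f4 h hh e1 e2]
          exact hx'
  apply even_of_invol _ g
  · intro s hs
    rw [Finset.mem_filter] at hs ⊢
    obtain ⟨-, hs, hT⟩ := hs
    have hq := hpkG s hs
    set q := pk (b fun x => (s x).1) with hqdef
    have hgs : g s = modif (KK q) (sw (s q.1) (s q.2)) s := rfl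
    obtain ⟨f1, f2, f3, f4, f5⟩ := facts s hs q hq
    obtain ⟨q1, q2, q3, q4, q5, q6⟩ := hq
    rw [hWgm] at q1 q3
    have hu₁ : ∀ y, d.a y = d.u → ¬ Cmp d.i p q.1 y := fun y h1 h2 => q1.2 ⟨y, h1, h2⟩
    have hu₂ : ∀ y, d.a y = d.u → ¬ Cmp d.i p q.2 y := fun y h1 h2 => q3.2 ⟨y, h1, h2⟩
    refine ⟨mem_univ _, ?_, ?_⟩
    · rw [hgs]
      apply Sp_swap hp hs q1.1 q3.1 hNB hu₁ hu₂
      intro v hv
      by_cases hvu : v = d.u
      · subst hvu
        constructor
        · rintro ⟨x, h1, h2⟩; exact absurd h2 (hu₁ x h1)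
        · rintro ⟨x, h1, h2⟩; exact absurd h2 (hu₂ x h1)
      · have h1 : v ∈ d.J.erase d.u := Finset.mem_erase.2 ⟨hvu, hv⟩
        have h2 := congrArg (fun A => v ∈ A) q6
        simp only [htr, Finset.mem_filter, h1, true_and, eq_iff_iff] at h2
        exact h2
    · intro x hx y hy hyx
      simp only [hgs] at hyx
      rw [f3 x hx] at hyx
      by_cases hKy : KK q y
      · exact absurd hyx (f5 x hx y hKy).2
      · rw [modif_neg hKy] at hyx
        exact hT x hx y hy hyx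
  · intro s hs h0
    rw [Finset.mem_filter] at hs
    obtain ⟨-, hs, hT⟩ := hs
    have hq := hpkG s hs
    set q := pk (b fun x => (s x).1) with hqdef
    obtain ⟨f1, f2, f3, f4, f5⟩ := facts s hs q hq
    have hgs : g s = modif (KK q) (sw (s q.1) (s q.2)) s := rfl
    have h1 := congrFun h0 q.1
    rw [hgs, f1] at h1
    obtain ⟨q1, q2, q3, q4, q5, q6⟩ := hq
    rw [hWgm] at q1 q3
    exact q5 (hs.2.2.1 q.1 q.2 q1.1 q3.1 h1.symm)
  · intro s hs
    rw [Finset.mem_filter] at hs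
    obtain ⟨-, hs, hT⟩ := hs
    have hq := hpkG s hs
    have hb' := hbinv s hs
    set q := pk (b fun x => (s x).1) with hqdef
    obtain ⟨f1, f2, f3, f4, f5⟩ := facts s hs q hq
    have hgs : g s = modif (KK q) (sw (s q.1) (s q.2)) s := rfl
    have hgg : g (g s) = modif (KK q) (sw (g s q.1) (g s q.2)) (g s) := by
      show modif (KK (pk (b fun x => (g s x).1)))
        (sw (g s (pk (b fun x => (g s x).1)).1) (g s (pk (b fun x => (g s x).1)).2)) (g s) = _
      rw [hb']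
    rw [hgg, hgs, f1, f2]
    funext x
    by_cases hx : KK q x
    · rw [modif_pos hx, modif_pos hx, sw_comm, sw_sw]
    · rw [modif_neg hx, modif_neg hx]

end Swap

end MP_947208_co.Par
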