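import Pool.Agent.Work.MP_947208_co.TrRes
import Pool.Agent.Work.MP_947208_co.ParMain

/-!
# The parity theorem with additional prescribed transitions
-/

set_option autoImplicit false
set_option linter.unusedSectionVars false

namespace MP_947208_co

open Finset Function

/-- The triples `(v, e, f)` of `T` such that `e` and `f` lie in a common member of `D`. -/
def usedIn {V E : Type} [DecidableEq V] [DecidableEq E] (D : Finset (Finset E))
    (T : Finset (V × E × E)) : Finset (V × E × E) :=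
  T.filter fun t => ∃ C ∈ D, t.2.1 ∈ C ∧ t.2.2 ∈ C

namespace Par

variable {V E : Type} [Fintype V] [DecidableEq V] [Fintype E] [DecidableEq E]
  {ends : E → Sym2 V} {F : Finset E}

/-- States with a disconnected colour class come in pairs. -/
theorem even_badT {C : Type} [DecidableEq C] [Fintype C] {d : Dat (Flag ends F) V C}
    (hdi : ∀ x, d.i x = oth x) (hda : ∀ x, d.a x = x.1.2) {ts : Finset (Flag ends F)}
    (htpi : ∀ x ∈ ts, d.a (d.pi x) = d.a x)
    [DecidablePred fun s => d.SsT ts s ∧ ¬ ∀ c, IsHam ends (cls s c)] :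
    ((univ.filter fun s => d.SsT ts s ∧ ¬ ∀ c, IsHam ends (cls s c)).card : ZMod 2) = 0 := by
  classical
  rcases isEmpty_or_nonempty C with hC | hC
  · rw [Finset.filter_false_of_mem, Finset.card_empty, Nat.cast_zero]
    intro s _ h
    exact h.2 fun c => hC.elim c
  obtain ⟨c₀⟩ := hC
  have : Nonempty (C × Finset V) := ⟨(c₀, ∅)⟩
  set pick : (C → Finset E) → C × Finset V := fun κ => Classical.epsilon (Bad ends d.u κ)
    with hpick
  have hbad : ∀ s, d.Ss s → (¬ ∀ c, IsHam ends (cls s c)) →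
      Bad ends d.u (fun c => cls s c) (pick fun c => cls s c) := by
    intro s hs hs'
    exact Classical.epsilon_spec (exists_bad (fun c v => cls_deg hdi hda hs c v) d.u hs')
  set K : (Flag ends F → C × Bool) → Flag ends F → Prop := fun s x =>
    (s x).1 = (pick fun c => cls s c).1 ∧ x.1.2 ∈ (pick fun c => cls s c).2 with hK
  have hcls : ∀ s : Flag ends F → C × Bool, (fun c => cls (modif (K s) fl s) c) =
      fun c => cls s c := by
    intro s
    funext c
    exact cls_congr (fun x => modif_fl_fst x) c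
  have hKK : ∀ s : Flag ends F → C × Bool, ∀ x, K (modif (K s) fl s) x ↔ K s x := by
    intro s x
    show (modif (K s) fl s x).1 = (pick fun c => cls (modif (K s) fl s) c).1 ∧
      x.1.2 ∈ (pick fun c => cls (modif (K s) fl s) c).2 ↔ _
    rw [hcls s, modif_fl_fst]
  have hKi : ∀ s, d.Ss s → (¬ ∀ c, IsHam ends (cls s c)) → ∀ x, K s x → K s (oth x) := by
    intro s hs hs' x hx
    have hsi : ∀ x, s (oth x) = fl (s x) := fun x => by rw [← hdi]; exact hs.1 x
    refine ⟨by rw [hsi, fl_fst]; exact hx.1, ?_⟩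
    by_contra hcon
    have h1 := (hbad s hs hs').2.2 x.1.1 ((mem_cls' hsi x).2 hx.1) _ hx.2 _ hcon
    exact h1 ⟨x.2.2, (oth x).2.2⟩
  have hKpi : ∀ s : Flag ends F → C × Bool, ∀ x, d.a (d.pi x) = d.a x →
      s (d.pi x) = fl (s x) → modif (K s) fl s (d.pi x) = fl (modif (K s) fl s x) := by
    intro s x h2 h3
    rw [hda, hda] at h2
    have h1 : K s (d.pi x) ↔ K s x := by
      rw [hK]
      simp only [h3, fl_fst, h2]
    by_cases hKx : K s x
    · rw [modif_pos (h1.2 hKx), modif_pos hKx, h3]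
    · rw [modif_neg (fun h => hKx (h1.1 h)), modif_neg hKx, h3]
  apply even_of_invol _ (fun s => modif (K s) fl s)
  · intro s hs
    rw [Finset.mem_filter] at hs ⊢
    obtain ⟨-, ⟨hs, hsT⟩, hs'⟩ := hs
    have hs'' : ¬ ∀ c, IsHam ends (cls (modif (K s) fl s) c) := by
      intro h
      apply hs'
      intro c
      rw [← congrFun (hcls s) c]
      exact h c
    refine ⟨mem_univ _, ⟨⟨?_, ?_, ?_, ?_⟩, ?_⟩, hs''⟩
    · intro x
      by_cases hx : K s x
      · have hx' : K s (d.i x) := by rw [hdi]; exact hKi s hs hs' x hx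
        rw [modif_pos hx', modif_pos hx, hs.1]
      · have hx' : ¬ K s (d.i x) := by
          intro h
          apply hx
          rw [hdi] at h
          have := hKi s hs hs' _ h
          rwa [oth_oth] at this
        rw [modif_neg hx', modif_neg hx, hs.1]
    · intro v
      refine (hs.2.1 v).modif (fun _ _ => fl_inj) ?_
      intro x hx hKx
      obtain ⟨y, hy, hys⟩ := hs.surj v (fl (s x))
      refine ⟨y, hy, ⟨by rw [hys, fl_fst]; exact hKx.1, ?_⟩, hys⟩
      rw [← hda, hy, ← hx, hda]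
      exact hKx.2
    · intro x hx
      exact hKpi s x (d.pia x hx) (hs.2.2.1 x hx)
    · intro x hx
      have : ¬ K s x := by
        intro h
        apply (hbad s hs hs').2.1
        rw [← hx, hda]
        exact h.2
      rw [modif_neg this]
      exact hs.2.2.2 x hx
    · intro x hx
      exact hKpi s x (htpi x hx) (hsT x hx)
  · intro s hs hcon
    rw [Finset.mem_filter] at hs
    obtain ⟨-, ⟨hs, -⟩, hs'⟩ := hs
    obtain ⟨v, hv⟩ := (hbad s hs hs').1
    obtain ⟨x, hx, hxs⟩ := hs.surj v ((pick fun c => cls s c).1, true)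
    have hKx : K s x := by
      refine ⟨by rw [hxs], ?_⟩
      rw [← hda, hx]
      exact hv
    have := congrFun hcon x
    simp only [modif_pos hKx] at this
    exact fl_ne _ this
  · intro s _
    funext x
    show modif (K (modif (K s) fl s)) fl (modif (K s) fl s) x = s x
    by_cases hx : K s x
    · have hx' := (hKK s x).2 hx
      rw [modif_pos hx', modif_pos hx, fl_fl]
    · have hx' : ¬ K (modif (K s) fl s) x := fun h => hx ((hKK s x).1 h)
      rw [modif_neg hx', modif_neg hx]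

theorem exists_dat' {D₀ : Finset (Finset E)} (hD₀ : IsDec ends F D₀)
    (hl : ∀ e ∈ F, ¬ (ends e).IsDiag) {J : Finset V} {u w₁ w₂ : V} (hu : u ∈ J) (hw : w₁ ≠ w₂)
    (hw₁ : w₁ ∉ J) (hw₂ : w₂ ∉ J) :
    ∃ d : Dat (Flag ends F) V D₀, d.J = J ∧ d.u = u ∧ d.w₁ = w₁ ∧ d.w₂ = w₂ ∧ Good D₀ d := by
  obtain ⟨pr, h1, h2, h3, h4, h5, h6⟩ := exists_pr hD₀
  let i : Equiv.Perm (Flag ends F) := ⟨oth, oth, oth_oth, oth_oth⟩
  have hi0 : ∀ x, i x ≠ x := oth_ne hl
  obtain ⟨o, ho1, ho2⟩ := exists_orient (i := i) (p := pr) oth_oth hi0 h1 h2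
  let s₀ : Flag ends F → D₀ × Bool := fun x => (⟨cyc D₀ x.1.1, (cyc_mem hD₀ x.2.1).1⟩, o x)
  refine ⟨⟨i, fun x => x.1.2, J, u, w₁, w₂, pr, s₀, oth_oth, hi0, ?_, hu, hw, hw₁, hw₂, ?_, ?_,
    ?_⟩, rfl, rfl, rfl, rfl, fun _ => rfl, fun _ => rfl, h3, h5, h6, fun _ => rfl, ?_, ?_⟩
  · intro v
    rw [card_flags, deg_dec hD₀, Fintype.card_coe]
  · intro x _; exact h3 x
  · intro x _; exact h1 x
  · intro x _; exact h2 x
  · intro x
    exact Prod.ext rfl (ho1 x)
  · intro x
    exact Prod.ext (Subtype.ext (h4 x)) (ho2 x)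

/-- **The parity theorem with additional prescribed transitions.** -/
theorem even_decT (hl : ∀ e ∈ F, ¬ (ends e).IsDiag) {J : Finset V} (hJ : J.Nonempty)
    {T : Finset (V × E × E)} (hV : (J ∪ T.image Prod.fst).card + 2 ≤ Fintype.card V) {k : ℕ}
    (hk : 2 ^ (J.card - 1) + T.card < k) (hdeg : ∀ v, deg ends F v = 2 * k)
    (hT : ∀ t ∈ T, t.2.1 ≠ t.2.2 ∧ t.1 ∈ ends t.2.1 ∧ t.1 ∈ ends t.2.2)
    (P : V → Finset (Finset E)) :
    Even {D | IsDec ends F D ∧ (∀ v ∈ J, pairsAt ends D v = P v) ∧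
      ∀ t ∈ T, ∃ C ∈ D, t.2.1 ∈ C ∧ t.2.2 ∈ C}.ncard := by
  classical
  by_cases hne : ∃ D₀, IsDec ends F D₀ ∧ (∀ v ∈ J, pairsAt ends D₀ v = P v) ∧
      ∀ t ∈ T, ∃ C ∈ D₀, t.2.1 ∈ C ∧ t.2.2 ∈ C
  · obtain ⟨D₀, hD₀, hP, hT₀⟩ := hne
    obtain ⟨u, hu⟩ := hJ
    obtain ⟨w₁, hw₁, w₂, hw₂, hw⟩ : ∃ a ∈ (J ∪ T.image Prod.fst)ᶜ,
        ∃ b ∈ (J ∪ T.image Prod.fst)ᶜ, a ≠ b := by
      apply Finset.one_lt_card.1
      rw [Finset.card_compl]
      omega
    rw [Finset.mem_compl, Finset.mem_union, not_or] at hw₁ hw₂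
    obtain ⟨d, hdJ, hdu, hdw₁, hdw₂, hg⟩ := exists_dat' hD₀ hl hu hw hw₁.1 hw₂.1
    have hcard : Fintype.card D₀ = k := by
      have h1 := deg_dec hD₀ u
      rw [hdeg] at h1
      rw [Fintype.card_coe]
      omega
    set ts : Finset (Flag ends F) := univ.filter fun x => ∃ f, (x.1.2, x.1.1, f) ∈ T with hts
    have htsm : ∀ x, x ∈ ts ↔ ∃ f, (x.1.2, x.1.1, f) ∈ T := by
      intro x
      rw [hts, Finset.mem_filter]
      exact ⟨fun h => h.2, fun h => ⟨mem_univ _, h⟩⟩
    have htscard : ts.card ≤ T.card := by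
      have hφ0 : ∀ x : Flag ends F, ∃ f, x ∈ ts → (x.1.2, x.1.1, f) ∈ T := by
        intro x
        by_cases hx : x ∈ ts
        · obtain ⟨f, hf⟩ := (htsm x).1 hx
          exact ⟨f, fun _ => hf⟩
        · exact ⟨x.1.1, fun h => absurd h hx⟩
      choose φ hφ using hφ0
      apply Finset.card_le_card_of_injOn (fun x : Flag ends F => (x.1.2, x.1.1, φ x))
        (fun x hx => hφ x hx)
      intro x _ y _ hxy
      simp only [Prod.mk.injEq] at hxy
      exact flag_ext hxy.2.1 hxy.1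
    -- the partner of a flag in `ts` under a decomposition using `T`
    have hpart : ∀ v e f, (v, e, f) ∈ T → ∃ x : Flag ends F, x.1.1 = e ∧ x.1.2 = v ∧
        (d.pi x).1.1 = f := by
      intro v e f ht
      obtain ⟨C, hC, h1, h2⟩ := hT₀ _ ht
      obtain ⟨h3, h4, h5⟩ := hT _ ht
      simp only at h1 h2 h3 h4 h5
      refine ⟨⟨(e, v), mem_of_mem hD₀ hC h1, h4⟩, rfl, rfl, ?_⟩
      set x : Flag ends F := ⟨(e, v), mem_of_mem hD₀ hC h1, h4⟩ with hx
      set y : Flag ends F := ⟨(f, v), mem_of_mem hD₀ hC h2, h5⟩ with hy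
      have h6 : cyc D₀ x.1.1 = cyc D₀ y.1.1 :=
        (cyc_eq hD₀.2.1 hC h1).trans (cyc_eq hD₀.2.1 hC h2).symm
      rcases hg.uniq x y rfl h6 with h7 | h7
      · exact absurd (congrArg (fun x : Flag ends F => x.1.1) h7).symm h3
      · rw [← h7]
    have hpart' : ∀ x ∈ ts, (x.1.2, x.1.1, (d.pi x).1.1) ∈ T := by
      intro x hx
      obtain ⟨f, hf⟩ := (htsm x).1 hx
      obtain ⟨y, hy1, hy2, hy3⟩ := hpart _ _ _ hf
      have hxy : y = x := flag_ext hy1 hy2
      rw [hxy] at hy3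
      rw [hy3]
      exact hf
    have htpi : ∀ x ∈ ts, d.a (d.pi x) = d.a x := by
      intro x _
      rw [hg.hda, hg.hda]
      exact hg.pia x
    have htw : ∀ x ∈ ts, d.a x ≠ d.w₁ ∧ d.a x ≠ d.w₂ := by
      intro x hx
      obtain ⟨f, hf⟩ := (htsm x).1 hx
      have h1 : x.1.2 ∈ T.image Prod.fst := Finset.mem_image.2 ⟨_, hf, rfl⟩
      rw [hg.hda, hdw₁, hdw₂]
      exact ⟨fun h => hw₁.2 (h ▸ h1), fun h => hw₂.2 (h ▸ h1)⟩
    have h1 := even_SsT d (ts := ts) (by rw [hdJ, hcard]; omega) htpi htw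
    have h2 := even_badT hg.hdi hg.hda htpi
    have h3 : (univ.filter fun s => d.SsT ts s ∧ ∀ c, IsHam ends (cls s c)).card =
        (univ.filter fun D => IsDec ends F D ∧ (∀ v ∈ J, pairsAt ends D v = P v) ∧
          ∀ t ∈ T, ∃ C ∈ D, t.2.1 ∈ C ∧ t.2.2 ∈ C).card := by
      apply Finset.card_bij (fun s _ => univ.image (cls s))
      · intro s hs
        rw [Finset.mem_filter] at hs ⊢
        obtain ⟨-, ⟨hs, hsT⟩, hH⟩ := hs
        obtain ⟨h1, h2⟩ := dec_of_state hD₀ hg hs hH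
        refine ⟨mem_univ _, h1, ?_, ?_⟩
        · intro v hv
          rw [h2 v (hdJ ▸ hv), hP v hv]
        · rintro ⟨v, e, f⟩ ht
          obtain ⟨x, hx1, hx2, hx3⟩ := hpart v e f ht
          have hx : x ∈ ts := (htsm x).2 ⟨f, by rw [hx1, hx2]; exact ht⟩
          refine ⟨cls s (s x).1, Finset.mem_image_of_mem _ (mem_univ _), ?_, ?_⟩
          · show e ∈ cls s (s x).1
            rw [← hx1, mem_cls' (hg.oths hs)]
          · show f ∈ cls s (s x).1
            rw [← hx3, mem_cls' (hg.oths hs), hsT x hx, fl_fst]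
      · intro s hs s' hs' h
        rw [Finset.mem_filter] at hs hs'
        exact state_inj hg hs.2.1.1 hs.2.2 hs'.2.1.1 h
      · intro D hD
        rw [Finset.mem_filter] at hD
        obtain ⟨-, hD1, hD2, hD3⟩ := hD
        obtain ⟨s, hs1, hs2, hs3⟩ := state_surj hg hD1
          (fun v hv => by rw [hdJ] at hv; rw [hD2 v hv, hP v hv]) hD₀
        refine ⟨s, Finset.mem_filter.2 ⟨mem_univ _, ⟨hs1, ?_⟩, hs2⟩, hs3⟩
        intro x hx
        have ht := hpart' x hx
        obtain ⟨C, hC, h4, h5⟩ := hD3 _ ht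
        rw [← hs3] at hC
        obtain ⟨c, -, rfl⟩ := Finset.mem_image.1 hC
        simp only at h4 h5
        rw [mem_cls' (hg.oths hs1)] at h4 h5
        rcases eq_or_fl (h5.trans h4.symm) with h6 | h6
        · exfalso
          have h7 := hg.inj hs1 x.1.2 (d.pi x) x (hg.pia x) rfl h6
          exact (hT _ ht).1 (congrArg (fun x : Flag ends F => x.1.1) h7).symm
        · exact h6
    have h4 : (univ.filter (d.SsT ts)).card =
        (univ.filter fun s => d.SsT ts s ∧ ∀ c, IsHam ends (cls s c)).card +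
          (univ.filter fun s => d.SsT ts s ∧ ¬ ∀ c, IsHam ends (cls s c)).card := by
      rw [← Finset.filter_filter, ← Finset.filter_filter,
        Finset.card_filter_add_card_filter_not]
    have h5 : {D | IsDec ends F D ∧ (∀ v ∈ J, pairsAt ends D v = P v) ∧
        ∀ t ∈ T, ∃ C ∈ D, t.2.1 ∈ C ∧ t.2.2 ∈ C} =
        ((univ.filter fun D => IsDec ends F D ∧ (∀ v ∈ J, pairsAt ends D v = P v) ∧
          ∀ t ∈ T, ∃ C ∈ D, t.2.1 ∈ C ∧ t.2.2 ∈ C : Finset _) : Set _) := by
      ext D; simp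
    rw [h5, Set.ncard_coe_finset, ← h3, ← ZMod.natCast_eq_zero_iff_even]
    rw [h4, Nat.cast_add, h2, add_zero] at h1
    exact h1
  · have : {D | IsDec ends F D ∧ (∀ v ∈ J, pairsAt ends D v = P v) ∧
        ∀ t ∈ T, ∃ C ∈ D, t.2.1 ∈ C ∧ t.2.2 ∈ C} = ∅ := by
      ext D
      simp only [Set.mem_empty_iff_false, iff_false]
      exact fun h => hne ⟨D, h⟩
    rw [this, Set.ncard_empty]
    exact Even.zero

end Par

end MP_947208_co
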