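import Pool.Agent.Work.MP_947208_co.TrCore
import Pool.Agent.Work.MP_947208_co.ParRes

/-!
# Resolution of the states, with additional prescribed transitions
-/

set_option autoImplicit false
set_option linter.unusedSectionVars false

namespace MP_947208_co.Par

open Finset Function

variable {X V C : Type} [Fintype X] [DecidableEq V] [Fintype C]

/-- The pairing `p` contains the pairs of the flags in `ts`. -/
def Dat.PT (d : Dat X V C) (ts : Finset X) (p : Equiv.Perm X) : Prop := ∀ x ∈ ts, p x = d.pi x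

/-- States with a collision have an even number of compatible pairings. -/
theorem even_pairingsT [DecidableEq X] (d : Dat X V C) {ts : Finset X}
    (htpi : ∀ x ∈ ts, d.a (d.pi x) = d.a x) (s : X → C × Bool)
    [DecidablePred fun p : Equiv.Perm X => (d.Pp p ∧ d.PT ts p) ∧ d.Sp p s ∧
      d.TC ts fun x => (s x).1]
    {x y : X} (hxy : x ≠ y) (hv : d.a x = d.a y) (hs : s x = s y) (hJ : d.a x ∉ d.J)
    (h1 : d.a x ≠ d.w₁) (h2 : d.a x ≠ d.w₂) :
    ((univ.filter fun p : Equiv.Perm X => (d.Pp p ∧ d.PT ts p) ∧ d.Sp p s ∧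
      d.TC ts fun x => (s x).1).card : ZMod 2) = 0 := by
  classical
  set σ : Equiv.Perm X := Equiv.swap x y with hσ
  have hσσ : ∀ z, σ (σ z) = z := fun z => Equiv.swap_apply_self x y z
  have hσa : ∀ z, d.a (σ z) = d.a z := by
    intro z
    rw [hσ, Equiv.swap_apply_def]
    split_ifs with h h'
    · rw [h, hv]
    · rw [h', hv]
    · rfl
  have hσs : ∀ z, s (σ z) = s z := by
    intro z
    rw [hσ, Equiv.swap_apply_def]
    split_ifs with h h'
    · rw [h, hs]
    · rw [h', hs]
    · rfl
  have hσv : ∀ z, d.a z ≠ d.a x → σ z = z := by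
    intro z hz
    rw [hσ]
    apply Equiv.swap_apply_of_ne_of_ne
    · rintro rfl; exact hz rfl
    · rintro rfl; exact hz hv.symm
  have hσx : σ x = y := Equiv.swap_apply_left x y
  -- a flag whose colour is not used by other pairs is neither `x` nor `y`
  have hfix : ∀ p : Equiv.Perm X, d.PT ts p → d.Sp p s → (d.TC ts fun x => (s x).1) →
      ∀ z ∈ ts, σ z = z ∧ σ (d.pi z) = d.pi z := by
    intro p hPT hS hT z hz
    by_cases hza : d.a z = d.a x
    · have hsz : s (d.pi z) = fl (s z) := by
        rw [← hPT z hz]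
        exact hS.2.2.2.2.1 z (hza ▸ h1) (hza ▸ h2)
      -- no flag of the vertex with the state of `x` twice can be `z` or `pi z`
      have key : ∀ a b : X, a ≠ b → d.a a = d.a x → d.a b = d.a x → s a = s b →
          a ≠ z ∧ a ≠ d.pi z := by
        intro a b hab ha hb hsab
        constructor
        · rintro rfl
          have hsab' : (s b).1 = (s a).1 := by rw [hsab]
          rcases hT a hz b (hb.trans ha.symm) hsab' with h | h
          · exact hab h.symm
          · rw [← h, ← hsab] at hsz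
            exact fl_ne _ hsz.symm
        · intro haz
          have hsb : (s b).1 = (s z).1 := by rw [← hsab, haz, hsz, fl_fst]
          rcases hT z hz b (hb.trans hza.symm) hsb with h | h
          · rw [← haz, hsab, h] at hsz
            exact fl_ne _ hsz.symm
          · exact hab (haz.trans h.symm)
      have k1 := key x y hxy rfl hv.symm hs
      have k2 := key y x hxy.symm hv.symm rfl hs.symm
      constructor
      · rw [hσ]
        exact Equiv.swap_apply_of_ne_of_ne k1.1.symm k2.1.symm
      · rw [hσ]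
        exact Equiv.swap_apply_of_ne_of_ne k1.2.symm k2.2.symm
    · exact ⟨hσv z hza, hσv _ (by rw [htpi z hz]; exact hza)⟩
  apply even_of_invol _ (fun p => σ * p * σ)
  · intro p hp
    rw [Finset.mem_filter] at hp ⊢
    obtain ⟨-, ⟨hP, hPT⟩, hS, hT⟩ := hp
    have hc : ∀ z, (σ * p * σ) z = σ (p (σ z)) := fun _ => rfl
    refine ⟨mem_univ _, ⟨⟨?_, ?_, ?_, ?_, ?_⟩, ?_⟩, ⟨hS.1, hS.2.1, hS.2.2.1, hS.2.2.2.1, ?_,
      hS.2.2.2.2.2⟩, hT⟩
    · intro z
      rw [hc, hc, hσσ, hP.1, hσσ]
    · intro z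
      rw [hc, hσa, hP.2.1, hσa]
    · intro z hz
      have h3 : σ z = z := hσv z (fun h => hJ (h ▸ hz))
      rw [hc, h3, hP.2.2.1 z hz]
      apply hσv
      rw [d.pia z hz]
      exact fun h => hJ (h ▸ hz)
    · intro z hz
      have h3 : σ z = z := hσv z (fun h => by
        rcases hz with hz | hz
        · exact h1 (h ▸ hz)
        · exact h2 (h ▸ hz))
      rw [hc, h3, hP.2.2.2.1 z hz, h3]
    · intro z hz1 hz2 hz3 hz4
      rw [hc] at hz4
      apply hP.2.2.2.2 (σ z) (by rwa [hσa]) (by rwa [hσa]) (by rwa [hσa])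
      have := congrArg σ hz4
      rwa [hσσ] at this
    · intro z hz
      obtain ⟨k1, k2⟩ := hfix p hPT hS hT z hz
      rw [hc, k1, hPT z hz, k2]
    · intro z hz1 hz2
      rw [hc, hσs, hS.2.2.2.2.1 (σ z) (by rwa [hσa]) (by rwa [hσa]), hσs]
  · intro p hp hcon
    rw [Finset.mem_filter] at hp
    obtain ⟨-, ⟨hP, hPT⟩, hS, hT⟩ := hp
    have h3 : σ (p (σ (σ x))) = p (σ x) := congrArg (fun f : Equiv.Perm X => f (σ x)) hcon
    rw [hσσ, hσx] at h3
    have h4 : p x ≠ x := hP.2.2.2.2 x hJ h1 h2
    have h5 : p x ≠ y := by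
      intro h
      have := hS.2.2.2.2.1 x h1 h2
      rw [h, ← hs] at this
      exact fl_ne _ this.symm
    have h6 : σ (p x) = p x := by
      rw [hσ]; exact Equiv.swap_apply_of_ne_of_ne h4 h5
    rw [h6] at h3
    exact hxy (p.injective h3)
  · intro p _
    apply Equiv.ext
    intro z
    show σ (σ (p (σ (σ z)))) = p z
    rw [hσσ, hσσ]

/-- The states we count, with additional prescribed transitions. -/
def Dat.SsT (d : Dat X V C) (ts : Finset X) (s : X → C × Bool) : Prop :=
  d.Ss s ∧ ∀ x ∈ ts, s (d.pi x) = fl (s x)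

/-- The number of states which are injective everywhere is even. -/
theorem even_SsT [DecidableEq X] [DecidableEq C] (d : Dat X V C) {ts : Finset X}
    (hk : 2 ^ (d.J.card - 1) + ts.card < Fintype.card C)
    (htpi : ∀ x ∈ ts, d.a (d.pi x) = d.a x) (htw : ∀ x ∈ ts, d.a x ≠ d.w₁ ∧ d.a x ≠ d.w₂)
    [DecidablePred (d.SsT ts)] :
    ((univ.filter (d.SsT ts)).card : ZMod 2) = 0 := by
  classical
  have h1 : ∑ p : Equiv.Perm X, ∑ s : X → C × Bool,
      (if (d.Pp p ∧ d.PT ts p) ∧ d.Sp p s ∧ (d.TC ts fun x => (s x).1) then (1 : ZMod 2)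
        else 0) = 0 := by
    apply Finset.sum_eq_zero
    intro p _
    by_cases hp : d.Pp p ∧ d.PT ts p
    · have := even_SpT d ts hk hp.1
      rw [← Finset.sum_boole] at this
      refine Eq.trans ?_ this
      apply Finset.sum_congr rfl
      intro s _
      simp only [hp, true_and]
    · apply Finset.sum_eq_zero
      intro s _
      simp only [hp, false_and, if_false]
  rw [Finset.sum_comm] at h1
  rw [← h1, ← Finset.sum_boole]
  apply Finset.sum_congr rfl
  intro s _
  rw [Finset.sum_boole]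
  by_cases hs : d.SsT ts s
  · rw [if_pos hs]
    obtain ⟨p, hp1, hp2, hp3⟩ := exists_pairing d hs.1
    have hPT : d.PT ts p := by
      intro x hx
      apply hs.1.2.1 (d.a x)
      · exact hp1.2.1 x
      · exact htpi x hx
      · rw [hp2.2.2.2.2.1 x (htw x hx).1 (htw x hx).2, hs.2 x hx]
    have hTC : d.TC ts fun x => (s x).1 := by
      intro x hx y hy hyx
      rcases eq_or_fl hyx with h | h
      · left; exact hs.1.2.1 (d.a x) y x hy rfl h
      · right
        apply hs.1.2.1 (d.a x) y (d.pi x) hy (htpi x hx)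
        rw [h, hs.2 x hx]
    have : (univ.filter fun p : Equiv.Perm X => (d.Pp p ∧ d.PT ts p) ∧ d.Sp p s ∧
        d.TC ts fun x => (s x).1) = {p} := by
      ext p'
      rw [Finset.mem_filter, Finset.mem_singleton]
      constructor
      · rintro ⟨-, ⟨h, -⟩, h', -⟩; exact hp3 p' h h'
      · rintro rfl; exact ⟨mem_univ _, ⟨hp1, hPT⟩, hp2, hTC⟩
    rw [this, Finset.card_singleton, Nat.cast_one]
  · rw [if_neg hs]
    symm
    by_cases hne : ∃ p : Equiv.Perm X, (d.Pp p ∧ d.PT ts p) ∧ d.Sp p s ∧
        d.TC ts fun x => (s x).1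
    · obtain ⟨p, ⟨hp, hPT⟩, hps, hTC⟩ := hne
      have : ∃ v, ¬ InjAt d.a s v := by
        by_contra hcon
        push Not at hcon
        apply hs
        refine ⟨⟨hps.1, hcon, ?_, hps.2.2.2.2.2⟩, ?_⟩
        · intro x hx
          have hne := Dat.ne_of_mem hx
          rw [← hp.2.2.1 x hx]
          exact hps.2.2.2.2.1 x hne.1 hne.2
        · intro x hx
          rw [← hPT x hx]
          exact hps.2.2.2.2.1 x (htw x hx).1 (htw x hx).2
      obtain ⟨v, hv⟩ := this
      have hvJ : v ∉ d.J := fun h => hv (hps.2.1 v h)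
      have hv1 : v ≠ d.w₁ := fun h => hv (h ▸ hps.2.2.1)
      have hv2 : v ≠ d.w₂ := fun h => hv (h ▸ hps.2.2.2.1)
      unfold InjAt at hv
      push Not at hv
      obtain ⟨x, y, hx, hy, hxy, hne⟩ := hv
      exact even_pairingsT d htpi s hne (hx.trans hy.symm) hxy (hx ▸ hvJ) (hx ▸ hv1) (hx ▸ hv2)
    · rw [Finset.filter_false_of_mem, Finset.card_empty, Nat.cast_zero]
      intro p _ h
      exact hne ⟨p, h⟩

end MP_947208_co.Par
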