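import Pool.Agent.Work.MP_947208_co.ParCore

/-!
# Powers of two from commuting moves, and pairings at one vertex
-/

set_option autoImplicit false
set_option linter.unusedSectionVars false

namespace MP_947208_co.Two

open Finset Function MP_947208_co.Par

/-- If commuting involutions (moves) `τ j`, `j ∈ I`, preserve the weight `w`, if `f j` changes
sign under `τ j` and is preserved by the other moves, and if `w s` is divisible by `2` to the
number of `j` with `f j s = 0`, then the sum of the weights is divisible by `2 ^ |I|`. -/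
theorem dvd_sum_of_moves {α ι : Type*} [DecidableEq ι] (τ : ι → α → α) (f : ι → α → ℤ)
    (I : Finset ι) : ∀ (S : Finset α) (w : α → ℤ),
    (∀ j ∈ I, ∀ s ∈ S, τ j s ∈ S) → (∀ j ∈ I, ∀ s ∈ S, τ j (τ j s) = s) →
    (∀ j ∈ I, ∀ s ∈ S, w (τ j s) = w s) → (∀ j ∈ I, ∀ s ∈ S, f j (τ j s) = -f j s) →
    (∀ j ∈ I, ∀ l ∈ I, j ≠ l → ∀ s ∈ S, f l (τ j s) = f l s) →
    (∀ s ∈ S, (2 : ℤ) ^ (I.filter fun j => f j s = 0).card ∣ w s) →
    (2 : ℤ) ^ I.card ∣ ∑ s ∈ S, w s := by
  classical
  induction I using Finset.induction_on with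
  | empty =>
    intro S w _ _ _ _ _ _
    rw [Finset.card_empty, pow_zero]
    exact one_dvd _
  | insert j I hj ih =>
    intro S w h1 h2 h3 h4 h5 h6
    have hjI : j ∈ insert j I := Finset.mem_insert_self j I
    have hlI : ∀ l ∈ I, l ∈ insert j I := fun l hl => Finset.mem_insert_of_mem hl
    have hjl : ∀ l ∈ I, l ≠ j := fun l hl h => hj (h ▸ hl)
    set P : Finset α := S.filter fun s => 0 < f j s with hP
    set M : Finset α := S.filter fun s => f j s < 0 with hM
    set Z : Finset α := S.filter fun s => f j s = 0 with hZ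
    have hsplit : ∑ s ∈ S, w s = ∑ s ∈ P, w s + ∑ s ∈ M, w s + ∑ s ∈ Z, w s := by
      rw [hP, hM, hZ, Finset.sum_filter, Finset.sum_filter, Finset.sum_filter,
        ← Finset.sum_add_distrib, ← Finset.sum_add_distrib]
      apply Finset.sum_congr rfl
      intro s _
      rcases lt_trichotomy (f j s) 0 with h | h | h
      · rw [if_neg (by omega), if_pos h, if_neg (by omega)]; ring
      · rw [if_neg (by omega), if_neg (by omega), if_pos h]; ring
      · rw [if_pos h, if_neg (by omega), if_neg (by omega)]; ring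
    have hPM : ∑ s ∈ M, w s = ∑ s ∈ P, w s := by
      apply Finset.sum_bij' (fun s _ => τ j s) (fun s _ => τ j s)
      · intro s hs
        rw [hM, Finset.mem_filter] at hs
        rw [hP, Finset.mem_filter, h4 j hjI s hs.1]
        exact ⟨h1 j hjI s hs.1, by omega⟩
      · intro s hs
        rw [hP, Finset.mem_filter] at hs
        rw [hM, Finset.mem_filter, h4 j hjI s hs.1]
        exact ⟨h1 j hjI s hs.1, by omega⟩
      · intro s hs
        exact h2 j hjI s (Finset.mem_filter.1 hs).1
      · intro s hs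
        exact h2 j hjI s (Finset.mem_filter.1 hs).1
      · intro s hs
        exact (h3 j hjI s (Finset.mem_filter.1 hs).1).symm
    have hfilt : ∀ s, (I.filter fun l => f l s = 0).card ≤
        ((insert j I).filter fun l => f l s = 0).card := fun s =>
      Finset.card_le_card (Finset.filter_subset_filter _ (Finset.subset_insert j I))
    have hPd : (2 : ℤ) ^ I.card ∣ ∑ s ∈ P, w s := by
      apply ih P w
      · intro l hl s hs
        rw [hP, Finset.mem_filter] at hs ⊢
        rw [h5 l (hlI l hl) j hjI (hjl l hl) s hs.1]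
        exact ⟨h1 l (hlI l hl) s hs.1, hs.2⟩
      · intro l hl s hs
        exact h2 l (hlI l hl) s (Finset.mem_filter.1 hs).1
      · intro l hl s hs
        exact h3 l (hlI l hl) s (Finset.mem_filter.1 hs).1
      · intro l hl s hs
        exact h4 l (hlI l hl) s (Finset.mem_filter.1 hs).1
      · intro l hl l' hl' hne s hs
        exact h5 l (hlI l hl) l' (hlI l' hl') hne s (Finset.mem_filter.1 hs).1
      · intro s hs
        exact (pow_dvd_pow 2 (hfilt s)).trans (h6 s (Finset.mem_filter.1 hs).1)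
    have hZs : ∀ s ∈ Z, (2 : ℤ) * (2 : ℤ) ^ (I.filter fun l => f l s = 0).card ∣ w s := by
      intro s hs
      rw [hZ, Finset.mem_filter] at hs
      have h7 := h6 s hs.1
      rw [Finset.filter_insert, if_pos hs.2, Finset.card_insert_of_notMem, pow_succ'] at h7
      · exact h7
      · intro h
        exact hj (Finset.mem_filter.1 h).1
    have hZ2 : ∀ s ∈ Z, w s = 2 * (w s / 2) := by
      intro s hs
      have h8 : (2 : ℤ) ∣ w s := (Dvd.intro _ rfl).trans (hZs s hs)
      omega
    have hZd : (2 : ℤ) ^ I.card ∣ ∑ s ∈ Z, w s / 2 := by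
      apply ih Z (fun s => w s / 2)
      · intro l hl s hs
        rw [hZ, Finset.mem_filter] at hs ⊢
        rw [h5 l (hlI l hl) j hjI (hjl l hl) s hs.1]
        exact ⟨h1 l (hlI l hl) s hs.1, hs.2⟩
      · intro l hl s hs
        exact h2 l (hlI l hl) s (Finset.mem_filter.1 hs).1
      · intro l hl s hs
        show w (τ l s) / 2 = w s / 2
        rw [h3 l (hlI l hl) s (Finset.mem_filter.1 hs).1]
      · intro l hl s hs
        exact h4 l (hlI l hl) s (Finset.mem_filter.1 hs).1
      · intro l hl l' hl' hne s hs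
        exact h5 l (hlI l hl) l' (hlI l' hl') hne s (Finset.mem_filter.1 hs).1
      · intro s hs
        have h9 := hZs s hs
        rw [hZ2 s hs] at h9
        exact (mul_dvd_mul_iff_left (by norm_num : (2 : ℤ) ≠ 0)).1 h9
    rw [Finset.card_insert_of_notMem hj, pow_succ', hsplit, hPM, Finset.sum_congr rfl hZ2,
      ← Finset.mul_sum, ← two_mul]
    exact dvd_add (mul_dvd_mul_left 2 hPd) (mul_dvd_mul_left 2 hZd)

section Local

variable {X V C : Type} [Fintype X] [DecidableEq X] [DecidableEq V] [Fintype C] [DecidableEq C]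

/-- `t` is a pairing of the flags at `v` (and the identity elsewhere). -/
def IsLP (a : X → V) (v : V) (t : Equiv.Perm X) : Prop :=
  (∀ x, t (t x) = x) ∧ (∀ x, a x = v → a (t x) = v) ∧ (∀ x, a x = v → t x ≠ x) ∧
    ∀ x, a x ≠ v → t x = x

/-- `t` pairs the flags at `v` with opposite states. -/
def CP (a : X → V) (s : X → C × Bool) (v : V) (t : Equiv.Perm X) : Prop :=
  ∀ x, a x = v → s (t x) = fl (s x)

open Classical in
/-- The number of pairings of the flags at `v` compatible with the states `s`. -/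
noncomputable def rr (a : X → V) (s : X → C × Bool) (v : V) : ℤ :=
  ((univ.filter fun t : Equiv.Perm X => IsLP a v t ∧ CP a s v t).card : ℤ)

/-- Disjoint pairs of flags at `v` with equal states of sign `true` give a power of two. -/
theorem dvd_rr {ι : Type*} [DecidableEq ι] (a : X → V) (s : X → C × Bool) (v : V) (I : Finset ι)
    (g g' : ι → X) (h1 : ∀ j ∈ I, a (g j) = v) (h2 : ∀ j ∈ I, a (g' j) = v)
    (h3 : ∀ j ∈ I, g j ≠ g' j) (h4 : ∀ j ∈ I, s (g j) = s (g' j))
    (h5 : ∀ j ∈ I, (s (g j)).2 = true)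
    (h6 : ∀ j ∈ I, ∀ l ∈ I, j ≠ l → g j ≠ g l ∧ g j ≠ g' l ∧ g' j ≠ g l ∧ g' j ≠ g' l) :
    (2 : ℤ) ^ I.card ∣ rr a s v := by
  classical
  obtain ⟨N, ⟨enc⟩⟩ := Finite.exists_equiv_fin X
  have key := dvd_sum_of_moves (fun (j : ι) (t : Equiv.Perm X) =>
    Equiv.swap (g j) (g' j) * t * Equiv.swap (g j) (g' j))
    (fun (j : ι) (t : Equiv.Perm X) => ((enc (t (g j)) : ℕ) : ℤ) - ((enc (t (g' j)) : ℕ) : ℤ)) I
    (univ.filter fun t : Equiv.Perm X => IsLP a v t ∧ CP a s v t) (fun _ => 1)
  have hsum : ∑ _t ∈ (univ.filter fun t : Equiv.Perm X => IsLP a v t ∧ CP a s v t), (1 : ℤ) =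
      rr a s v := by
    rw [Finset.sum_const, nsmul_eq_mul, mul_one]
    rfl
  rw [hsum] at key
  have hσσ : ∀ j z, Equiv.swap (g j) (g' j) (Equiv.swap (g j) (g' j) z) = z := fun j z =>
    Equiv.swap_apply_self _ _ z
  have hσa : ∀ j ∈ I, ∀ z, a (Equiv.swap (g j) (g' j) z) = a z := by
    intro j hj z
    rw [Equiv.swap_apply_def]
    split_ifs with h h'
    · rw [h, h1 j hj, h2 j hj]
    · rw [h', h1 j hj, h2 j hj]
    · rfl
  have hσs : ∀ j ∈ I, ∀ z, s (Equiv.swap (g j) (g' j) z) = s z := by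
    intro j hj z
    rw [Equiv.swap_apply_def]
    split_ifs with h h'
    · rw [h, h4 j hj]
    · rw [h', h4 j hj]
    · rfl
  have hσv : ∀ j ∈ I, ∀ z, a z ≠ v → Equiv.swap (g j) (g' j) z = z := by
    intro j hj z hz
    apply Equiv.swap_apply_of_ne_of_ne
    · rintro rfl; exact hz (h1 j hj)
    · rintro rfl; exact hz (h2 j hj)
  have hσt : ∀ j ∈ I, ∀ z, (s z).2 = false → Equiv.swap (g j) (g' j) z = z := by
    intro j hj z hz
    apply Equiv.swap_apply_of_ne_of_ne
    · rintro rfl; rw [h5 j hj] at hz; exact Bool.noConfusion hz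
    · rintro rfl; rw [← h4 j hj, h5 j hj] at hz; exact Bool.noConfusion hz
  have hc : ∀ j (t : Equiv.Perm X) z, (Equiv.swap (g j) (g' j) * t * Equiv.swap (g j) (g' j)) z =
      Equiv.swap (g j) (g' j) (t (Equiv.swap (g j) (g' j) z)) := fun _ _ _ => rfl
  have hneg : ∀ t, CP a s v t → ∀ j ∈ I, (s (t (g j))).2 = false ∧ (s (t (g' j))).2 = false := by
    intro t ht j hj
    constructor
    · rw [ht _ (h1 j hj)]
      show (!(s (g j)).2) = false
      rw [h5 j hj]; rfl
    · rw [ht _ (h2 j hj)]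
      show (!(s (g' j)).2) = false
      rw [← h4 j hj, h5 j hj]; rfl
  apply key
  · intro j hj t ht
    rw [Finset.mem_filter] at ht ⊢
    obtain ⟨-, ⟨a1, a2, a3, a4⟩, a5⟩ := ht
    refine ⟨mem_univ _, ⟨?_, ?_, ?_, ?_⟩, ?_⟩
    · intro x
      rw [hc, hc, hσσ, a1, hσσ]
    · intro x hx
      rw [hc, hσa j hj]
      exact a2 _ (by rw [hσa j hj, hx])
    · intro x hx h
      rw [hc] at h
      apply a3 (Equiv.swap (g j) (g' j) x) (by rw [hσa j hj, hx])
      have := congrArg (Equiv.swap (g j) (g' j)) h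
      rwa [hσσ] at this
    · intro x hx
      rw [hc, hσv j hj x hx, a4 x hx, hσv j hj x hx]
    · intro x hx
      rw [hc, hσs j hj, a5 _ (by rw [hσa j hj, hx]), hσs j hj]
  · intro j hj t ht
    apply Equiv.ext
    intro z
    rw [hc, hc, hσσ, hσσ]
  · intro j hj t ht; rfl
  · intro j hj t ht
    rw [Finset.mem_filter] at ht
    obtain ⟨b1, b2⟩ := hneg t ht.2.2 j hj
    show ((enc ((Equiv.swap (g j) (g' j) * t * Equiv.swap (g j) (g' j)) (g j)) : ℕ) : ℤ) -
      ((enc ((Equiv.swap (g j) (g' j) * t * Equiv.swap (g j) (g' j)) (g' j)) : ℕ) : ℤ) =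
      -(((enc (t (g j)) : ℕ) : ℤ) - ((enc (t (g' j)) : ℕ) : ℤ))
    rw [hc, hc, Equiv.swap_apply_left, Equiv.swap_apply_right, hσt j hj _ b1, hσt j hj _ b2]
    ring
  · intro j hj l hl hjl t ht
    rw [Finset.mem_filter] at ht
    obtain ⟨b1, b2⟩ := hneg t ht.2.2 l hl
    obtain ⟨c1, c2, c3, c4⟩ := h6 l hl j hj hjl.symm
    show ((enc ((Equiv.swap (g j) (g' j) * t * Equiv.swap (g j) (g' j)) (g l)) : ℕ) : ℤ) -
      ((enc ((Equiv.swap (g j) (g' j) * t * Equiv.swap (g j) (g' j)) (g' l)) : ℕ) : ℤ) =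
      ((enc (t (g l)) : ℕ) : ℤ) - ((enc (t (g' l)) : ℕ) : ℤ)
    rw [hc, hc, Equiv.swap_apply_of_ne_of_ne c1 c2, Equiv.swap_apply_of_ne_of_ne c3 c4,
      hσt j hj _ b1, hσt j hj _ b2]
  · intro t _
    have hemp : (I.filter fun j =>
        ((enc (t (g j)) : ℕ) : ℤ) - ((enc (t (g' j)) : ℕ) : ℤ) = 0) = ∅ := by
      apply Finset.filter_false_of_mem
      intro j hj h
      have h7 : (enc (t (g j)) : ℕ) = (enc (t (g' j)) : ℕ) := by omega
      have h8 := t.injective (enc.injective (Fin.ext h7))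
      exact h3 j hj h8
    rw [hemp, Finset.card_empty, pow_zero]

/-- With a collision of states at `v` the number of pairings is even. -/
theorem even_rr (a : X → V) (s : X → C × Bool) (v : V) (h : ¬ InjAt a s v) :
    (2 : ℤ) ∣ rr a s v := by
  classical
  by_cases hne : ∃ t : Equiv.Perm X, IsLP a v t ∧ CP a s v t
  · obtain ⟨t, ht, hc⟩ := hne
    unfold InjAt at h
    push Not at h
    obtain ⟨x, y, hx, hy, hxy, hne⟩ := h
    have h0 : ∃ x y, a x = v ∧ a y = v ∧ s x = s y ∧ x ≠ y ∧ (s x).2 = true := by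
      cases hb : (s x).2
      · refine ⟨t x, t y, ht.2.1 x hx, ht.2.1 y hy, ?_, fun h' => hne (t.injective h'), ?_⟩
        · rw [hc x hx, hc y hy, hxy]
        · rw [hc x hx]
          show (!(s x).2) = true
          rw [hb]; rfl
      · exact ⟨x, y, hx, hy, hxy, hne, hb⟩
    obtain ⟨x, y, hx, hy, hxy, hne, hb⟩ := h0
    have := dvd_rr a s v (Finset.univ : Finset Unit) (fun _ => x) (fun _ => y) (fun _ _ => hx)
      (fun _ _ => hy) (fun _ _ => hne) (fun _ _ => hxy) (fun _ _ => hb)
      (fun j _ l _ hjl => absurd (Subsingleton.elim j l) hjl)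
    simpa using this
  · have : rr a s v = 0 := by
      unfold rr
      rw [Finset.filter_false_of_mem, Finset.card_empty, Nat.cast_zero]
      intro t _ ht
      exact hne ⟨t, ht⟩
    rw [this]
    exact dvd_zero 2

/-- Without collisions there is exactly one pairing. -/
theorem rr_eq_one (a : X → V) (s : X → C × Bool) (v : V) (h : InjAt a s v)
    (hs : ∀ b : C × Bool, ∃ x, a x = v ∧ s x = b) : rr a s v = 1 := by
  classical
  choose q hq1 hq2 using hs
  set r : X → X := fun x => if a x = v then q (fl (s x)) else x with hr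
  have hr1 : ∀ x, a x = v → r x = q (fl (s x)) := fun x hx => if_pos hx
  have hr2 : ∀ x, a x ≠ v → r x = x := fun x hx => if_neg hx
  have hrr : ∀ x, r (r x) = x := by
    intro x
    by_cases hx : a x = v
    · rw [hr1 x hx, hr1 _ (hq1 _)]
      apply h _ _ (hq1 _) hx
      rw [hq2, hq2, fl_fl]
    · rw [hr2 x hx, hr2 x hx]
  let t : Equiv.Perm X := ⟨r, r, hrr, hrr⟩
  have htx : ∀ x, t x = r x := fun _ => rfl
  have ht : IsLP a v t ∧ CP a s v t := by
    refine ⟨⟨hrr, ?_, ?_, hr2⟩, ?_⟩
    · intro x hx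
      rw [htx, hr1 x hx]; exact hq1 _
    · intro x hx h'
      rw [htx, hr1 x hx] at h'
      have := hq2 (fl (s x))
      rw [h'] at this
      exact fl_ne _ this.symm
    · intro x hx
      rw [htx, hr1 x hx, hq2]
  have : (univ.filter fun t : Equiv.Perm X => IsLP a v t ∧ CP a s v t) = {t} := by
    ext t'
    rw [Finset.mem_filter, Finset.mem_singleton]
    constructor
    · rintro ⟨-, h1, h2⟩
      apply Equiv.ext
      intro x
      by_cases hx : a x = v
      · apply h _ _ (h1.2.1 x hx) (ht.1.2.1 x hx)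
        rw [h2 x hx, ht.2 x hx]
      · rw [h1.2.2.2 x hx, ht.1.2.2.2 x hx]
    · rintro rfl
      exact ⟨mem_univ _, ht⟩
  unfold rr
  rw [this, Finset.card_singleton, Nat.cast_one]

/-- Rearranging the states at `v` does not change the number of pairings. -/
theorem rr_congr (a : X → V) {s s' : X → C × Bool} {v : V} (σ : Equiv.Perm X)
    (h1 : ∀ x, σ (σ x) = x) (h2 : ∀ x, a (σ x) = a x) (h3 : ∀ x, a x = v → s' x = s (σ x))  :
    rr a s' v = rr a s v ∧ (InjAt a s' v ↔ InjAt a s v) := by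
  classical
  have hc : ∀ (t : Equiv.Perm X) z, (σ * t * σ) z = σ (t (σ z)) := fun _ _ => rfl
  have h4 : ∀ x, a x = v → s x = s' (σ x) := by
    intro x hx
    rw [h3 _ (by rw [h2, hx]), h1]
  have main : ∀ (s s' : X → C × Bool) (_ : ∀ x, a x = v → s' x = s (σ x)) (t : Equiv.Perm X),
      IsLP a v t ∧ CP a s' v t → IsLP a v (σ * t * σ) ∧ CP a s v (σ * t * σ) := by
    intro s s' h3 t ht
    obtain ⟨⟨a1, a2, a3, a4⟩, a5⟩ := ht
    have h4 : ∀ x, a x = v → s x = s' (σ x) := by
      intro x hx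
      rw [h3 _ (by rw [h2, hx]), h1]
    refine ⟨⟨?_, ?_, ?_, ?_⟩, ?_⟩
    · intro x
      rw [hc, hc, h1, a1, h1]
    · intro x hx
      rw [hc, h2]
      exact a2 _ (by rw [h2, hx])
    · intro x hx h
      rw [hc] at h
      apply a3 (σ x) (by rw [h2, hx])
      have := congrArg σ h
      rwa [h1] at this
    · intro x hx
      rw [hc, a4 _ (by rw [h2]; exact hx), h1]
    · intro x hx
      have hx' : a (σ x) = v := by rw [h2, hx]
      rw [hc, h4 _ (by rw [h2]; exact a2 _ hx'), h1, a5 _ hx', ← h4 x hx]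
  constructor
  · unfold rr
    congr 1
    apply Finset.card_nbij' (fun t => σ * t * σ) (fun t => σ * t * σ)
    · intro t ht
      have ht' := (Finset.mem_filter.1 (Finset.mem_coe.1 ht)).2
      exact Finset.mem_coe.2 (Finset.mem_filter.2 ⟨mem_univ _, main s s' h3 t ht'⟩)
    · intro t ht
      have ht' := (Finset.mem_filter.1 (Finset.mem_coe.1 ht)).2
      exact Finset.mem_coe.2 (Finset.mem_filter.2 ⟨mem_univ _, main s' s h4 t ht'⟩)
    · intro t _
      apply Equiv.ext
      intro z
      show (σ * (σ * t * σ) * σ) z = t z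
      rw [hc, hc, h1, h1]
    · intro t _
      apply Equiv.ext
      intro z
      show (σ * (σ * t * σ) * σ) z = t z
      rw [hc, hc, h1, h1]
  · constructor
    · intro h x y hx hy hxy
      have := h (σ x) (σ y) (by rw [h2, hx]) (by rw [h2, hy]) (by rw [← h4 x hx, ← h4 y hy, hxy])
      exact σ.injective this
    · intro h x y hx hy hxy
      have := h (σ x) (σ y) (by rw [h2, hx]) (by rw [h2, hy]) (by rw [← h3 x hx, ← h3 y hy, hxy])
      exact σ.injective this

end Local

end MP_947208_co.Two
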