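import Pool.Agent.Work.MP_947208_co.Two1

/-!
# Strands and disjoint moves for a fixed pairing
-/

set_option autoImplicit false
set_option linter.unusedSectionVars false

namespace MP_947208_co.Two

open Finset Function MP_947208_co.Par

/-- Disjoint pairs of elements of `A` with the same type, chosen greedily. -/
theorem greedy {X V : Type} [DecidableEq X] [DecidableEq V] (e : X → X) (a : X → V)
    (T : Finset V) : ∀ (m : ℕ) (A : Finset X), (∀ h ∈ A, e h ∈ A) → (∀ h ∈ A, e (e h) = h) →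
    (∀ h ∈ A, e h ≠ h) → (∀ h ∈ A, a h ∈ T) →
    T.card * (T.card - 1) + 4 * m < A.card + 4 →
    ∃ I : Finset (X × X), I.card = m ∧
      (∀ j ∈ I, j.1 ∈ A ∧ j.2 ∈ A ∧ j.1 ≠ j.2 ∧ a j.1 = a j.2 ∧ a (e j.1) = a (e j.2)) ∧
      ∀ j ∈ I, ∀ l ∈ I, j ≠ l → (l.1 ≠ j.1 ∧ l.1 ≠ e j.1 ∧ l.1 ≠ j.2 ∧ l.1 ≠ e j.2) ∧
        (l.2 ≠ j.1 ∧ l.2 ≠ e j.1 ∧ l.2 ≠ j.2 ∧ l.2 ≠ e j.2) := by
  intro m
  induction m with
  | zero =>
    intro A _ _ _ _ _
    exact ⟨∅, rfl, by simp, by simp⟩
  | succ m ih =>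
    intro A h1 h2 h3 h4 h5
    obtain ⟨h, hh, h', hh', hne, ht1, ht2⟩ : ∃ h ∈ A, ∃ h' ∈ A, h ≠ h' ∧ a h = a h' ∧
        a (e h) = a (e h') := by
      by_cases hl : ∃ h ∈ A, a h = a (e h)
      · obtain ⟨h, hh, hl⟩ := hl
        exact ⟨h, hh, e h, h1 h hh, (h3 h hh).symm, hl, by rw [h2 h hh, hl]⟩
      · push Not at hl
        have hcard : T.offDiag.card < A.card := by
          rw [Finset.offDiag_card]
          have : T.card * (T.card - 1) = T.card * T.card - T.card := by
            rw [Nat.mul_sub_one]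
          omega
        obtain ⟨h, hh, h', hh', hne, ht⟩ := Finset.exists_ne_map_eq_of_card_lt_of_maps_to hcard
          (f := fun h => (a h, a (e h))) (fun h hh => by
            rw [Finset.mem_coe, Finset.mem_offDiag]
            exact ⟨h4 h hh, h4 _ (h1 h hh), hl h hh⟩)
        exact ⟨h, hh, h', hh', hne, (Prod.mk.inj ht).1, (Prod.mk.inj ht).2⟩
    set D : Finset X := {h, e h, h', e h'} with hD
    have hDc : D.card ≤ 4 := Finset.card_le_four
    have hA' : A.card ≤ (A \ D).card + 4 := by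
      have := Finset.le_card_sdiff D A
      omega
    have hmem : ∀ g ∈ A \ D, g ∈ A ∧ g ≠ h ∧ g ≠ e h ∧ g ≠ h' ∧ g ≠ e h' := by
      intro g hg
      rw [Finset.mem_sdiff, hD] at hg
      simp only [Finset.mem_insert, Finset.mem_singleton, not_or] at hg
      exact ⟨hg.1, hg.2.1, hg.2.2.1, hg.2.2.2.1, hg.2.2.2.2⟩
    have hcl : ∀ g ∈ A \ D, e g ∈ A \ D := by
      intro g hg
      obtain ⟨b1, b2, b3, b4, b5⟩ := hmem g hg
      rw [Finset.mem_sdiff, hD]
      simp only [Finset.mem_insert, Finset.mem_singleton, not_or]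
      refine ⟨h1 g b1, ?_, ?_, ?_, ?_⟩
      · intro hc
        apply b3
        rw [← hc, h2 g b1]
      · intro hc
        apply b2
        rw [← h2 g b1, hc, h2 h hh]
      · intro hc
        apply b5
        rw [← hc, h2 g b1]
      · intro hc
        apply b4
        rw [← h2 g b1, hc, h2 h' hh']
    obtain ⟨I, hI1, hI2, hI3⟩ := ih (A \ D) hcl (fun g hg => h2 g (hmem g hg).1)
      (fun g hg => h3 g (hmem g hg).1) (fun g hg => h4 g (hmem g hg).1) (by omega)
    have hnot : (h, h') ∉ I := fun hc => (hmem _ (hI2 _ hc).1).2.1 rfl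
    refine ⟨insert (h, h') I, ?_, ?_, ?_⟩
    · rw [Finset.card_insert_of_notMem hnot, hI1]
    · intro j hj
      rcases Finset.mem_insert.1 hj with rfl | hj
      · exact ⟨hh, hh', hne, ht1, ht2⟩
      · obtain ⟨c1, c2, c3, c4, c5⟩ := hI2 j hj
        exact ⟨(hmem _ c1).1, (hmem _ c2).1, c3, c4, c5⟩
    · intro j hj l hl hjl
      rcases Finset.mem_insert.1 hj with rfl | hj <;> rcases Finset.mem_insert.1 hl with rfl | hl
      · exact absurd rfl hjl
      · obtain ⟨c1, c2, -⟩ := hI2 l hl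
        exact ⟨(hmem _ c1).2, (hmem _ c2).2⟩
      · obtain ⟨c1, c2, -⟩ := hI2 j hj
        obtain ⟨d1, d2, d3, d4, d5⟩ := hmem _ c1
        obtain ⟨d1', d2', d3', d4', d5'⟩ := hmem _ c2
        obtain ⟨f1, f2, f3, f4, f5⟩ := hmem _ (hcl _ c1)
        obtain ⟨f1', f2', f3', f4', f5'⟩ := hmem _ (hcl _ c2)
        exact ⟨⟨d2.symm, f2.symm, d2'.symm, f2'.symm⟩, ⟨d4.symm, f4.symm, d4'.symm, f4'.symm⟩⟩
      · exact hI3 j hj l hl hjl

/-- Data: two involutions, vertices, a root with prescribed states, the vertices `W` (where states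
are injective) and `B` whose flags are the fixed points of `p`. -/
structure Pd (X V C : Type) [Fintype X] [DecidableEq V] [Fintype C] where
  i : Equiv.Perm X
  p : Equiv.Perm X
  a : X → V
  u : V
  W : Finset V
  B : Finset V
  s₀ : X → C × Bool
  hi : ∀ x, i (i x) = x
  hi0 : ∀ x, i x ≠ x
  hp : ∀ x, p (p x) = x
  hpa : ∀ x, a (p x) = a x
  hfix : ∀ x, p x = x ↔ a x ∈ W ∪ B
  hWB : Disjoint W B
  hu : u ∉ W ∪ B
  hcard : ∀ v, (univ.filter fun x => a x = v).card = 2 * Fintype.card C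
  hs₀ : ∀ x y, a x = u → a y = u → s₀ x = s₀ y → x = y

variable {X V C : Type} [Fintype X] [DecidableEq X] [DecidableEq V] [Fintype C] [DecidableEq C]

/-- Compatible states. -/
def Pd.Sp (d : Pd X V C) (s : X → C × Bool) : Prop :=
  (∀ x, s (d.i x) = fl (s x)) ∧ (∀ x, d.a x ∉ d.W ∪ d.B → s (d.p x) = fl (s x)) ∧
    (∀ x, d.a x = d.u → s x = d.s₀ x) ∧ ∀ v ∈ d.W, InjAt d.a s v

theorem Pd.Sp.pf {d : Pd X V C} {s : X → C × Bool} (hs : d.Sp s) :
    ∀ x, d.p x ≠ x → s (d.p x) = fl (s x) := by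
  intro x hx
  apply hs.2.1
  intro h
  exact hx ((d.hfix x).2 h)

/-- The other ends of the strands. -/
theorem Pd.exists_end (d : Pd X V C) : ∃ e : X → X, ∀ h, d.p h = h →
    d.p (e h) = e h ∧ e h ≠ h ∧ Cmp d.i d.p h (e h) ∧
      (∀ y, Cmp d.i d.p h y → d.p y = y → y = h ∨ y = e h) ∧ e (e h) = h ∧
      ∀ s : X → C × Bool, d.Sp s → s (e h) = fl (s h) := by
  classical
  set e : X → X := fun h => if hh : d.p h = h then (other_end d.hi d.hi0 d.hp hh).choose else h
    with he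
  have hspec : ∀ h, ∀ hh : d.p h = h, d.p (e h) = e h ∧ e h ≠ h ∧ Cmp d.i d.p h (e h) ∧
      (∀ y, Cmp d.i d.p h y → d.p y = y → y = h ∨ y = e h) ∧
      (∀ (S : Type) (s : X → S) (fl : S → S), (∀ a, fl (fl a) = a) →
        (∀ x, s (d.i x) = fl (s x)) →
        (∀ x, d.p x ≠ x → s (d.p x) = fl (s x)) → s (e h) = fl (s h)) := by
    intro h hh
    have h1 : e h = (other_end d.hi d.hi0 d.hp hh).choose := dif_pos hh
    rw [h1]
    exact (other_end d.hi d.hi0 d.hp hh).choose_spec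
  refine ⟨e, ?_⟩
  intro h hh
  obtain ⟨h1, h2, h3, h4, h5⟩ := hspec h hh
  obtain ⟨g1, g2, g3, g4, g5⟩ := hspec (e h) h1
  refine ⟨h1, h2, h3, h4, ?_, ?_⟩
  · rcases g4 h (h3.symm d.hi d.hp) hh with h6 | h6
    · exact absurd h6.symm h2
    · exact h6.symm
  · intro s hs
    exact h5 _ s fl fl_fl hs.1 hs.pf

theorem Pd.col {d : Pd X V C} {s : X → C × Bool} (hs : d.Sp s) {x y : X}
    (h : Cmp d.i d.p x y) : (s y).1 = (s x).1 := by
  refine Cmp.const (f := fun x => (s x).1) (fun x => by simp only [hs.1 x, fl_fst]) ?_ h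
  intro x
  by_cases h1 : d.p x = x
  · simp only [h1]
  · simp only [hs.pf x h1, fl_fst]

/-- The flags on the two strands of a move. -/
def KK (d : Pd X V C) (j : X × X) (x : X) : Prop := Cmp d.i d.p j.1 x ∨ Cmp d.i d.p j.2 x

/-- A move: the exchange of the states of two strands, or the reversal of one strand. -/
noncomputable def mv (d : Pd X V C) (j : X × X) (s : X → C × Bool) : X → C × Bool :=
  Par.modif (KK d j) (sw (s j.1) (s j.2)) s

section Move

variable {d : Pd X V C} {e : X → X}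

theorem mv_pos {j : X × X} {s : X → C × Bool} {x : X} (h : KK d j x) :
    mv d j s x = sw (s j.1) (s j.2) (s x) := modif_pos h

theorem mv_neg {j : X × X} {s : X → C × Bool} {x : X} (h : ¬ KK d j x) :
    mv d j s x = s x := modif_neg h

/-- Conditions for a move. -/
structure Ok (d : Pd X V C) (e : X → X) (j : X × X) : Prop where
  f1 : d.p j.1 = j.1
  f2 : d.p j.2 = j.2
  ne : j.1 ≠ j.2
  a1 : d.a j.1 = d.a j.2
  a2 : d.a (e j.1) = d.a (e j.2)
  u1 : ∀ y, d.a y = d.u → ¬ Cmp d.i d.p j.1 y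
  u2 : ∀ y, d.a y = d.u → ¬ Cmp d.i d.p j.2 y

theorem mv_fst {j : X × X} (s : X → C × Bool) : mv d j s j.1 = s j.2 := by
  rw [mv_pos (Or.inl (Cmp.refl _)), sw_left]

theorem mv_snd {j : X × X} (s : X → C × Bool) : mv d j s j.2 = s j.1 := by
  rw [mv_pos (Or.inr (Cmp.refl _)), sw_right]

theorem mv_mv {j : X × X} (s : X → C × Bool) : mv d j (mv d j s) = s := by
  funext x
  by_cases hx : KK d j x
  · rw [mv_pos hx, mv_fst, mv_snd, mv_pos hx, sw_comm, sw_sw]
  · rw [mv_neg hx, mv_neg hx]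

/-- On the ends of the strands a move is a rearrangement of the states inside vertices. -/
theorem exists_sigma (he : ∀ h, d.p h = h → d.p (e h) = e h ∧ e h ≠ h ∧ Cmp d.i d.p h (e h) ∧
      (∀ y, Cmp d.i d.p h y → d.p y = y → y = h ∨ y = e h) ∧ e (e h) = h ∧
      ∀ s : X → C × Bool, d.Sp s → s (e h) = fl (s h)) {j : X × X} (hj : Ok d e j) :
    ∃ σ : Equiv.Perm X, (∀ x, σ (σ x) = x) ∧ (∀ x, d.a (σ x) = d.a x) ∧
      ∀ s, d.Sp s → ∀ x, d.p x = x → mv d j s x = s (σ x) := by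
  classical
  obtain ⟨h, h'⟩ := j
  obtain ⟨f1, f2, ne, a1, a2, -, -⟩ := hj
  simp only at f1 f2 ne a1 a2
  obtain ⟨p1, p2, p3, p4, p5, p6⟩ := he h f1
  obtain ⟨q1, q2, q3, q4, q5, q6⟩ := he h' f2
  set r : X → X := fun x => if x = h then h' else if x = h' then h else if x = e h then e h'
    else if x = e h' then e h else x with hr
  have r1 : r h = h' := if_pos rfl
  have r2 : r h' = h := by
    show (if h' = h then h' else if h' = h' then h else _) = h
    rw [if_neg ne.symm, if_pos rfl]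
  have r3 : ∀ x, x ≠ h → x ≠ h' → x = e h → r x = e h' := by
    intro x b1 b2 b3
    show (if x = h then h' else if x = h' then h else if x = e h then e h' else _) = e h'
    rw [if_neg b1, if_neg b2, if_pos b3]
  have r4 : ∀ x, x ≠ h → x ≠ h' → x ≠ e h → x = e h' → r x = e h := by
    intro x b1 b2 b3 b4
    show (if x = h then h' else if x = h' then h else if x = e h then e h' else
      if x = e h' then e h else x) = e h
    rw [if_neg b1, if_neg b2, if_neg b3, if_pos b4]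
  have r5 : ∀ x, x ≠ h → x ≠ h' → x ≠ e h → x ≠ e h' → r x = x := by
    intro x b1 b2 b3 b4
    show (if x = h then h' else if x = h' then h else if x = e h then e h' else
      if x = e h' then e h else x) = x
    rw [if_neg b1, if_neg b2, if_neg b3, if_neg b4]
  have hee : e h ≠ e h' := fun hc => ne (by rw [← p5, hc, q5])
  have hrr : ∀ x, r (r x) = x := by
    intro x
    by_cases b1 : x = h
    · rw [b1, r1, r2]
    by_cases b2 : x = h'
    · rw [b2, r2, r1]
    by_cases b3 : x = e h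
    · have c1 : e h' ≠ h := by
        intro hc
        apply b2
        rw [b3, ← hc, q5]
      rw [r3 x b1 b2 b3, r4 (e h') c1 q2 hee.symm rfl, b3]
    by_cases b4 : x = e h'
    · have c1 : e h ≠ h' := by
        intro hc
        apply b1
        rw [b4, ← hc, p5]
      rw [r4 x b1 b2 b3 b4, r3 (e h) p2 c1 rfl, b4]
    rw [r5 x b1 b2 b3 b4, r5 x b1 b2 b3 b4]
  have hra : ∀ x, d.a (r x) = d.a x := by
    intro x
    by_cases b1 : x = h
    · rw [b1, r1, a1]
    by_cases b2 : x = h'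
    · rw [b2, r2, a1]
    by_cases b3 : x = e h
    · rw [r3 x b1 b2 b3, b3, a2]
    by_cases b4 : x = e h'
    · rw [r4 x b1 b2 b3 b4, b4, a2]
    rw [r5 x b1 b2 b3 b4]
  refine ⟨⟨r, r, hrr, hrr⟩, hrr, hra, ?_⟩
  intro s hs x hx
  show mv d (h, h') s x = s (r x)
  by_cases b1 : x = h
  · rw [b1, r1]; exact mv_fst (d := d) (j := (h, h')) s
  by_cases b2 : x = h'
  · rw [b2, r2]; exact mv_snd (d := d) (j := (h, h')) s
  by_cases b3 : x = e h
  · have hK : KK d (h, h') x := Or.inl (b3 ▸ p3)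
    rw [mv_pos hK, r3 x b1 b2 b3, b3, p6 s hs, q6 s hs, sw_fl, sw_left]
  by_cases b4 : x = e h'
  · have hK : KK d (h, h') x := Or.inr (b4 ▸ q3)
    rw [mv_pos hK, r4 x b1 b2 b3 b4, b4, p6 s hs, q6 s hs, sw_fl, sw_right]
  · have hK : ¬ KK d (h, h') x := by
      rintro (hc | hc)
      · rcases p4 x hc hx with h0 | h0
        · exact b1 h0
        · exact b3 h0
      · rcases q4 x hc hx with h0 | h0
        · exact b2 h0
        · exact b4 h0
    rw [mv_neg hK, r5 x b1 b2 b3 b4]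

/-- Moves preserve compatible states. -/
theorem mv_mem (he : ∀ h, d.p h = h → d.p (e h) = e h ∧ e h ≠ h ∧ Cmp d.i d.p h (e h) ∧
      (∀ y, Cmp d.i d.p h y → d.p y = y → y = h ∨ y = e h) ∧ e (e h) = h ∧
      ∀ s : X → C × Bool, d.Sp s → s (e h) = fl (s h)) {j : X × X} (hj : Ok d e j)
    {s : X → C × Bool} (hs : d.Sp s) : d.Sp (mv d j s) := by
  obtain ⟨σ, s1, s2, s3⟩ := exists_sigma he hj
  have hKi : ∀ x, KK d j x → KK d j (d.i x) := by
    rintro x (h | h)
    · exact Or.inl h.stepI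
    · exact Or.inr h.stepI
  have hKp : ∀ x, KK d j x → KK d j (d.p x) := by
    rintro x (h | h)
    · exact Or.inl h.stepP
    · exact Or.inr h.stepP
  refine ⟨?_, ?_, ?_, ?_⟩
  · intro x
    by_cases hx : KK d j x
    · rw [mv_pos hx, mv_pos (hKi x hx), hs.1, sw_fl]
    · have hx' : ¬ KK d j (d.i x) := by
        intro h
        have := hKi _ h
        rw [d.hi] at this
        exact hx this
      rw [mv_neg hx, mv_neg hx', hs.1]
  · intro x hxW
    by_cases hx : KK d j x
    · rw [mv_pos hx, mv_pos (hKp x hx), hs.2.1 x hxW, sw_fl]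
    · have hx' : ¬ KK d j (d.p x) := by
        intro h
        have := hKp _ h
        rw [d.hp] at this
        exact hx this
      rw [mv_neg hx, mv_neg hx', hs.2.1 x hxW]
  · intro x hx
    rw [mv_neg, hs.2.2.1 x hx]
    rintro (h | h)
    · exact hj.u1 x hx h
    · exact hj.u2 x hx h
  · intro v hv
    have hfx : ∀ x, d.a x = v → d.p x = x := by
      intro x hx
      rw [d.hfix, hx]
      exact Finset.mem_union_left _ hv
    exact ((rr_congr d.a σ s1 s2 (v := v) (s := s) (s' := mv d j s)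
      (fun x hx => s3 s hs x (hfx x hx))).2).2 (hs.2.2.2 v hv)

end Move

end MP_947208_co.Two
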