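import Pool.Agent.Work.MP_947208_co.Two2

/-!
# The weighted number of states compatible with a fixed pairing
-/

set_option autoImplicit false
set_option linter.unusedSectionVars false

namespace MP_947208_co.Two

open Finset Function MP_947208_co.Par

variable {X V C : Type} [Fintype X] [DecidableEq X] [DecidableEq V] [Fintype C] [DecidableEq C]

open Classical in
/-- The number of pairings at `v` if there is a collision at `v`, and `0` otherwise. -/
noncomputable def nn (a : X → V) (s : X → C × Bool) (v : V) : ℤ :=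
  if InjAt a s v then 0 else rr a s v

theorem even_nn (a : X → V) (s : X → C × Bool) (v : V) : (2 : ℤ) ∣ nn a s v := by
  unfold nn
  split_ifs with h
  · exact dvd_zero 2
  · exact even_rr a s v h

theorem two_pow_dvd_prod {ι : Type*} (B : Finset ι) (f : ι → ℤ) (h : ∀ v ∈ B, (2 : ℤ) ∣ f v) :
    (2 : ℤ) ^ B.card ∣ ∏ v ∈ B, f v := by
  rw [← Finset.prod_const]
  exact Finset.prod_dvd_prod_of_dvd _ _ h

/-- The number of flags at the vertices of `T`. -/
theorem card_flags_in {a : X → V} {n : ℕ} (h : ∀ v, (univ.filter fun x => a x = v).card = n)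
    (T : Finset V) : (univ.filter fun x => a x ∈ T).card = T.card * n := by
  classical
  rw [Finset.card_eq_sum_card_fiberwise (f := a) (t := T)]
  · rw [Finset.sum_congr rfl (g := fun _ => n), Finset.sum_const, smul_eq_mul]
    intro v hv
    rw [← h v]
    congr 1
    ext x
    simp only [Finset.mem_filter, Finset.mem_univ, true_and]
    constructor
    · rintro ⟨-, h⟩; exact h
    · intro h; exact ⟨h ▸ hv, h⟩
  · intro x hx
    exact Finset.mem_coe.2 (Finset.mem_filter.1 (Finset.mem_coe.1 hx)).2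

open Classical in
/-- At most `2k` ends belong to strands which meet the root. -/
theorem Pd.card_pinned (d : Pd X V C) {s : X → C × Bool} (hs : d.Sp s) :
    (univ.filter fun h => d.a h ∈ d.W ∪ d.B ∧ ∃ y, d.a y = d.u ∧ Cmp d.i d.p h y).card ≤
      2 * Fintype.card C := by
  classical
  obtain ⟨e, he⟩ := d.exists_end
  have hun : ∀ y, d.a y = d.u → s (d.p y) = fl (s y) := by
    intro y hy
    apply hs.2.1
    rw [hy]
    exact d.hu
  have key : ∀ h, (∃ y, d.a y = d.u ∧ Cmp d.i d.p h y) →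
      ∃ y, d.a y = d.u ∧ Cmp d.i d.p h y ∧ s y = s h := by
    rintro h ⟨y, hy, hc⟩
    rcases eq_or_fl (Pd.col hs hc) with h1 | h1
    · exact ⟨y, hy, hc, h1⟩
    · exact ⟨d.p y, (d.hpa y).trans hy, hc.stepP, by rw [hun y hy, h1, fl_fl]⟩
  have : (univ.filter fun h => d.a h ∈ d.W ∪ d.B ∧ ∃ y, d.a y = d.u ∧ Cmp d.i d.p h y).card ≤
      (univ : Finset (C × Bool)).card := by
    apply Finset.card_le_card_of_injOn s (fun _ _ => Finset.mem_coe.2 (mem_univ _))
    intro h hh h' hh' hss
    rw [Finset.mem_coe, Finset.mem_filter] at hh hh'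
    obtain ⟨-, hT, hp⟩ := hh
    obtain ⟨-, hT', hp'⟩ := hh'
    obtain ⟨y, hy, hc, hsy⟩ := key h hp
    obtain ⟨y', hy', hc', hsy'⟩ := key h' hp'
    have hyy : y = y' := by
      apply d.hs₀ y y' hy hy'
      rw [← hs.2.2.1 y hy, ← hs.2.2.1 y' hy', hsy, hsy', hss]
    subst hyy
    have hch : Cmp d.i d.p h h' := hc.trans (hc'.symm d.hi d.hp)
    have hf := (d.hfix h).2 hT
    have hf' := (d.hfix h').2 hT'
    obtain ⟨-, -, -, q4, -, q6⟩ := he h hf
    rcases q4 h' hch hf' with h0 | h0
    · exact h0.symm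
    · exfalso
      have h1 := q6 s hs
      rw [← h0, ← hss] at h1
      exact fl_ne _ h1.symm
  rw [Finset.card_univ, Fintype.card_prod, Fintype.card_bool, mul_comm] at this
  exact this

/-- **The weighted number of compatible states is divisible by a power of two.** -/
theorem Pd.dvd (d : Pd X V C) [DecidablePred d.Sp] (m : ℕ)
    (hm : (d.W ∪ d.B).card * ((d.W ∪ d.B).card - 1) + 4 * m + 2 * Fintype.card C <
      (d.W ∪ d.B).card * (2 * Fintype.card C) + 4) :
    (2 : ℤ) ^ m ∣ ∑ s ∈ univ.filter d.Sp, ∏ v ∈ d.B, (-(nn d.a s v)) := by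
  classical
  by_cases hne : ∃ s, d.Sp s
  swap
  · rw [Finset.filter_false_of_mem (fun s _ hs => hne ⟨s, hs⟩), Finset.sum_empty]
    exact dvd_zero _
  obtain ⟨s₁, hs₁⟩ := hne
  obtain ⟨e, he⟩ := d.exists_end
  set T := d.W ∪ d.B with hT
  set A₀ : Finset X := univ.filter fun h => d.a h ∈ T ∧ ¬ ∃ y, d.a y = d.u ∧ Cmp d.i d.p h y
    with hA₀
  have hA₀m : ∀ h, h ∈ A₀ ↔ d.a h ∈ T ∧ ¬ ∃ y, d.a y = d.u ∧ Cmp d.i d.p h y := by
    intro h; rw [hA₀, Finset.mem_filter]; simp
  have hcA : T.card * (2 * Fintype.card C) ≤ A₀.card + 2 * Fintype.card C := by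
    rw [← card_flags_in d.hcard T]
    have h1 : (univ.filter fun h => d.a h ∈ T ∧ ∃ y, d.a y = d.u ∧ Cmp d.i d.p h y).card ≤
        2 * Fintype.card C := by
      convert d.card_pinned hs₁
    have h2 : (univ.filter fun x => d.a x ∈ T).card =
        (univ.filter fun h => d.a h ∈ T ∧ ∃ y, d.a y = d.u ∧ Cmp d.i d.p h y).card + A₀.card := by
      rw [hA₀, ← Finset.filter_filter, ← Finset.filter_filter,
        Finset.card_filter_add_card_filter_not]
    omega
  have hfx : ∀ h, d.a h ∈ T → d.p h = h := fun h hh => (d.hfix h).2 hh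
  have hafx : ∀ h, d.p h = h → d.a h ∈ T := fun h hh => (d.hfix h).1 hh
  obtain ⟨I, hI1, hI2, hI3⟩ := greedy e d.a T m A₀
    (by
      intro h hh
      rw [hA₀m] at hh ⊢
      obtain ⟨p1, p2, p3, p4, p5, p6⟩ := he h (hfx h hh.1)
      refine ⟨hafx _ p1, ?_⟩
      rintro ⟨y, hy, hc⟩
      exact hh.2 ⟨y, hy, p3.trans hc⟩)
    (by
      intro h hh
      rw [hA₀m] at hh
      exact (he h (hfx h hh.1)).2.2.2.2.1)
    (by
      intro h hh
      rw [hA₀m] at hh
      exact (he h (hfx h hh.1)).2.1)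
    (by
      intro h hh
      rw [hA₀m] at hh
      exact hh.1)
    (by omega)
  have hOk : ∀ j ∈ I, Ok d e j := by
    intro j hj
    obtain ⟨c1, c2, c3, c4, c5⟩ := hI2 j hj
    rw [hA₀m] at c1 c2
    exact ⟨hfx _ c1.1, hfx _ c2.1, c3, c4, c5, fun y hy hc => c1.2 ⟨y, hy, hc⟩,
      fun y hy hc => c2.2 ⟨y, hy, hc⟩⟩
  set enc := Fintype.equivFin (C × Bool) with henc
  rw [← hI1]
  apply dvd_sum_of_moves (mv d)
    (fun j s => ((enc (s j.1) : ℕ) : ℤ) - ((enc (s j.2) : ℕ) : ℤ)) I
    (univ.filter d.Sp) (fun s => ∏ v ∈ d.B, (-(nn d.a s v)))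
  · intro j hj s hs
    rw [Finset.mem_filter] at hs ⊢
    exact ⟨mem_univ _, mv_mem he (hOk j hj) hs.2⟩
  · intro j _ s _
    exact mv_mv s
  · intro j hj s hs
    rw [Finset.mem_filter] at hs
    obtain ⟨σ, t1, t2, t3⟩ := exists_sigma he (hOk j hj)
    apply Finset.prod_congr rfl
    intro v hv
    have hfv : ∀ x, d.a x = v → d.p x = x := by
      intro x hx
      apply hfx
      rw [hx, hT]
      exact Finset.mem_union_right _ hv
    obtain ⟨r1, r2⟩ := rr_congr d.a σ t1 t2 (v := v) (s := s) (s' := mv d j s)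
      (fun x hx => t3 s hs.2 x (hfv x hx))
    have : nn d.a (mv d j s) v = nn d.a s v := by
      unfold nn
      by_cases h : InjAt d.a s v
      · rw [if_pos h, if_pos (r2.2 h)]
      · rw [if_neg h, if_neg (fun h' => h (r2.1 h')), r1]
    rw [this]
  · intro j _ s _
    show ((enc (mv d j s j.1) : ℕ) : ℤ) - ((enc (mv d j s j.2) : ℕ) : ℤ) =
      -(((enc (s j.1) : ℕ) : ℤ) - ((enc (s j.2) : ℕ) : ℤ))
    rw [mv_fst, mv_snd]
    ring
  · intro j hj l hl hjl s _
    obtain ⟨⟨c1, c2, c3, c4⟩, ⟨c5, c6, c7, c8⟩⟩ := hI3 j hj l hl hjl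
    have hOj := hOk j hj
    have hOl := hOk l hl
    obtain ⟨-, -, -, p4, -, -⟩ := he j.1 hOj.f1
    obtain ⟨-, -, -, q4, -, -⟩ := he j.2 hOj.f2
    have k1 : ¬ KK d j l.1 := by
      rintro (hc | hc)
      · rcases p4 _ hc hOl.f1 with h0 | h0
        · exact c1 h0
        · exact c2 h0
      · rcases q4 _ hc hOl.f1 with h0 | h0
        · exact c3 h0
        · exact c4 h0
    have k2 : ¬ KK d j l.2 := by
      rintro (hc | hc)
      · rcases p4 _ hc hOl.f2 with h0 | h0
        · exact c5 h0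
        · exact c6 h0
      · rcases q4 _ hc hOl.f2 with h0 | h0
        · exact c7 h0
        · exact c8 h0
    show ((enc (mv d j s l.1) : ℕ) : ℤ) - ((enc (mv d j s l.2) : ℕ) : ℤ) =
      ((enc (s l.1) : ℕ) : ℤ) - ((enc (s l.2) : ℕ) : ℤ)
    rw [mv_neg k1, mv_neg k2]
  · intro s hs
    rw [Finset.mem_filter] at hs
    replace hs := hs.2
    set J := I.filter fun j => ((enc (s j.1) : ℕ) : ℤ) - ((enc (s j.2) : ℕ) : ℤ) = 0 with hJ
    have hJm : ∀ j ∈ J, j ∈ I ∧ s j.1 = s j.2 := by
      intro j hj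
      rw [hJ, Finset.mem_filter] at hj
      refine ⟨hj.1, ?_⟩
      apply enc.injective
      apply Fin.ext
      omega
    set χ : X × X → V := fun j => if (s j.1).2 = true then d.a j.1 else d.a (e j.1) with hχ
    set g : X × X → X := fun j => if (s j.1).2 = true then j.1 else e j.1 with hg
    set g' : X × X → X := fun j => if (s j.1).2 = true then j.2 else e j.2 with hg'
    have hgχ : ∀ j, d.a (g j) = χ j := by
      intro j
      rw [hg, hχ]
      by_cases hb : (s j.1).2 = true
      · simp only [hb, if_true]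
      · simp only [if_neg hb]
    have hg'χ : ∀ j ∈ I, d.a (g' j) = χ j := by
      intro j hj
      have hO := hOk j hj
      rw [hg', hχ]
      by_cases hb : (s j.1).2 = true
      · simp only [hb, if_true]; exact hO.a1.symm
      · simp only [if_neg hb]; exact hO.a2.symm
    have hse : ∀ j ∈ I, s (e j.1) = fl (s j.1) ∧ s (e j.2) = fl (s j.2) ∧ e (e j.1) = j.1 ∧
        e (e j.2) = j.2 ∧ d.p (e j.1) = e j.1 ∧ d.p (e j.2) = e j.2 := by
      intro j hj
      have hO := hOk j hj
      obtain ⟨p1, -, -, -, p5, p6⟩ := he j.1 hO.f1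
      obtain ⟨q1, -, -, -, q5, q6⟩ := he j.2 hO.f2
      exact ⟨p6 s hs, q6 s hs, p5, q5, p1, q1⟩
    have hgg : ∀ j ∈ I, g j ≠ g' j := by
      intro j hj
      have hO := hOk j hj
      obtain ⟨-, -, p5, q5, -, -⟩ := hse j hj
      rw [hg, hg']
      by_cases hb : (s j.1).2 = true
      · simp only [hb, if_true]; exact hO.ne
      · simp only [if_neg hb]
        intro hc
        apply hO.ne
        rw [← p5, hc, q5]
    have hgs : ∀ j ∈ J, s (g j) = s (g' j) ∧ (s (g j)).2 = true := by
      intro j hj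
      obtain ⟨hjI, hss⟩ := hJm j hj
      obtain ⟨b1, b2, -, -, -, -⟩ := hse j hjI
      rw [hg, hg']
      by_cases hb : (s j.1).2 = true
      · simp only [hb, if_true]
        exact ⟨hss, trivial⟩
      · simp only [if_neg hb]
        refine ⟨by rw [b1, b2, hss], ?_⟩
        rw [b1]
        show (!(s j.1).2) = true
        rw [Bool.not_eq_true] at hb
        rw [hb]; rfl
    have hχB : ∀ j ∈ J, χ j ∈ d.B := by
      intro j hj
      obtain ⟨hjI, hss⟩ := hJm j hj
      have hO := hOk j hjI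
      obtain ⟨-, -, -, -, p1, -⟩ := hse j hjI
      have hχT : χ j ∈ d.W ∪ d.B := by
        rw [hχ]
        by_cases hb : (s j.1).2 = true
        · simp only [hb, if_true]; exact hafx _ hO.f1
        · simp only [if_neg hb]; exact hafx _ p1
      rcases Finset.mem_union.1 hχT with hW | hB
      · exfalso
        exact hgg j hjI (hs.2.2.2 _ hW _ _ (hgχ j) (hg'χ j hjI) (hgs j hj).1)
      · exact hB
    have hcard : J.card = ∑ v ∈ d.B, (J.filter fun j => χ j = v).card :=
      Finset.card_eq_sum_card_fiberwise (fun j hj => Finset.mem_coe.2 (hχB j hj))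
    rw [hcard, ← Finset.prod_pow_eq_pow_sum]
    apply Finset.prod_dvd_prod_of_dvd
    intro v hv
    rw [dvd_neg]
    unfold nn
    split_ifs with hinj
    · exact dvd_zero _
    · apply dvd_rr d.a s v (J.filter fun j => χ j = v) g g'
      · intro j hj
        rw [Finset.mem_filter] at hj
        rw [hgχ, hj.2]
      · intro j hj
        rw [Finset.mem_filter] at hj
        rw [hg'χ j (hJm j hj.1).1, hj.2]
      · intro j hj
        exact hgg j (hJm j (Finset.mem_filter.1 hj).1).1
      · intro j hj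
        exact (hgs j (Finset.mem_filter.1 hj).1).1
      · intro j hj
        exact (hgs j (Finset.mem_filter.1 hj).1).2
      · intro j hj l hl hjl
        have hjI := (hJm j (Finset.mem_filter.1 hj).1).1
        have hlI := (hJm l (Finset.mem_filter.1 hl).1).1
        obtain ⟨⟨c1, c2, c3, c4⟩, ⟨c5, c6, c7, c8⟩⟩ := hI3 j hjI l hlI hjl
        obtain ⟨-, -, p5, q5, -, -⟩ := hse j hjI
        obtain ⟨-, -, p5', q5', -, -⟩ := hse l hlI
        have aux : ∀ x y : X, e (e x) = x → e (e y) = y → y ≠ x → y ≠ e x →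
            x ≠ y ∧ x ≠ e y ∧ e x ≠ y ∧ e x ≠ e y := by
          intro x y hx hy h1 h2
          refine ⟨h1.symm, ?_, h2.symm, ?_⟩
          · intro hc
            apply h2
            rw [hc, hy]
          · intro hc
            apply h1
            rw [← hx, hc, hy]
        obtain ⟨d1, d2, d3, d4⟩ := aux _ _ p5 p5' c1 c2
        obtain ⟨d5, d6, d7, d8⟩ := aux _ _ q5 p5' c3 c4
        obtain ⟨d9, d10, d11, d12⟩ := aux _ _ p5 q5' c5 c6
        obtain ⟨d13, d14, d15, d16⟩ := aux _ _ q5 q5' c7 c8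
        rw [hg, hg']
        by_cases hb : (s j.1).2 = true <;> by_cases hb' : (s l.1).2 = true
        · simp only [hb, hb', if_true]
          exact ⟨d1, d9, d5, d13⟩
        · simp only [hb, if_neg hb', if_true]
          exact ⟨d2, d10, d6, d14⟩
        · simp only [if_neg hb, hb', if_true]
          exact ⟨d3, d11, d7, d15⟩
        · simp only [if_neg hb, if_neg hb']
          exact ⟨d4, d12, d8, d16⟩

end MP_947208_co.Two
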