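import Pool.Agent.Work.MP_947208_co.Two3

/-!
# The number of injective states is divisible by a power of two
-/

set_option autoImplicit false
set_option linter.unusedSectionVars false

namespace MP_947208_co.Two

open Finset Function MP_947208_co.Par

/-- Flags `X` with an involution `i` without fixed points, vertices `a`, `2 |C|` flags at every
vertex, and prescribed injective states at the root `u`. -/
structure Str (X V C : Type) [Fintype X] [DecidableEq V] [Fintype C] where
  i : Equiv.Perm X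
  a : X → V
  u : V
  s₀ : X → C × Bool
  hi : ∀ x, i (i x) = x
  hi0 : ∀ x, i x ≠ x
  hcard : ∀ v, (univ.filter fun x => a x = v).card = 2 * Fintype.card C
  hs₀ : ∀ x y, a x = u → a y = u → s₀ x = s₀ y → x = y

variable {X V C : Type} [Fintype X] [DecidableEq X] [DecidableEq V] [Fintype C] [DecidableEq C]

/-- The states with prescribed values at the root and injective at all vertices. -/
def Str.Full (d : Str X V C) (s : X → C × Bool) : Prop :=
  (∀ x, s (d.i x) = fl (s x)) ∧ (∀ x, d.a x = d.u → s x = d.s₀ x) ∧ ∀ v, InjAt d.a s v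

theorem surj_of_inj {a : X → V} {s : X → C × Bool} {v : V}
    (hc : (univ.filter fun x => a x = v).card = 2 * Fintype.card C) (h : InjAt a s v)
    (b : C × Bool) : ∃ x, a x = v ∧ s x = b := by
  classical
  have h1 : ((univ.filter fun x => a x = v).image s) = univ := by
    apply Finset.eq_univ_of_card
    rw [Finset.card_image_of_injOn, hc, Fintype.card_prod, Fintype.card_bool, mul_comm]
    intro x hx y hy hxy
    rw [Finset.mem_coe, Finset.mem_filter] at hx hy
    exact h x y hx.2 hy.2 hxy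
  have h2 : b ∈ ((univ.filter fun x => a x = v).image s) := by rw [h1]; exact mem_univ b
  obtain ⟨x, hx, hxb⟩ := Finset.mem_image.1 h2
  exact ⟨x, (Finset.mem_filter.1 hx).2, hxb⟩

/-- The pairing at the root given by the prescribed states. -/
theorem Str.exists_pi (d : Str X V C) : ∃ π : X → X, ∀ x, d.a x = d.u →
    d.a (π x) = d.u ∧ d.s₀ (π x) = fl (d.s₀ x) ∧ π (π x) = x ∧ π x ≠ x := by
  classical
  have hs : ∀ b : C × Bool, ∃ x, d.a x = d.u ∧ d.s₀ x = b := fun b =>
    surj_of_inj (d.hcard d.u) (fun x y hx hy hxy => d.hs₀ x y hx hy hxy) b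
  choose q hq1 hq2 using hs
  refine ⟨fun x => q (fl (d.s₀ x)), ?_⟩
  intro x hx
  refine ⟨hq1 _, hq2 _, ?_, ?_⟩
  · apply d.hs₀ _ _ (hq1 _) hx
    rw [hq2, hq2, fl_fl]
  · intro h
    have h1 : q (fl (d.s₀ x)) = x := h
    have h2 := hq2 (fl (d.s₀ x))
    rw [h1] at h2
    exact fl_ne _ h2.symm

/-- The data for a choice of pairings at the vertices of `t`. -/
theorem Str.exists_pd (d : Str X V C) (W t B : Finset V) (hWB : Disjoint W B)
    (hu : d.u ∉ W ∪ B) (hut : d.u ∉ t) (ht : ∀ v, v = d.u ∨ v ∈ t ∨ v ∈ W ∪ B)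
    (htWB : ∀ v ∈ t, v ∉ W ∪ B)
    (P : V → Equiv.Perm X) (hP1 : ∀ v ∈ t, IsLP d.a v (P v)) (hP2 : ∀ v, v ∉ t → P v = 1) :
    ∃ e : Pd X V C, e.a = d.a ∧ e.W = W ∧ e.B = B ∧ ∀ s, e.Sp s ↔
      (∀ x, s (d.i x) = fl (s x)) ∧ (∀ x, d.a x = d.u → s x = d.s₀ x) ∧
      (∀ v ∈ W, InjAt d.a s v) ∧ ∀ v ∈ t, CP d.a s v (P v) := by
  classical
  obtain ⟨π, hπ⟩ := d.exists_pi
  set r : X → X := fun x => if d.a x = d.u then π x else P (d.a x) x with hr
  have r1 : ∀ x, d.a x = d.u → r x = π x := fun x hx => if_pos hx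
  have r2 : ∀ x, d.a x ≠ d.u → r x = P (d.a x) x := fun x hx => if_neg hx
  have r3 : ∀ x, d.a x ∈ W ∪ B → r x = x := by
    intro x hx
    have h1 : d.a x ≠ d.u := fun h => hu (h ▸ hx)
    have h2 : d.a x ∉ t := fun h => htWB _ h hx
    rw [r2 x h1, hP2 _ h2]
    rfl
  have ra : ∀ x, d.a (r x) = d.a x := by
    intro x
    rcases ht (d.a x) with h | h | h
    · rw [r1 x h, (hπ x h).1, h]
    · have h1 : d.a x ≠ d.u := fun h' => hut (h' ▸ h)
      rw [r2 x h1]
      exact (hP1 _ h).2.1 x rfl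
    · rw [r3 x h]
  have rr' : ∀ x, r (r x) = x := by
    intro x
    rcases ht (d.a x) with h | h | h
    · rw [r1 x h, r1 _ (hπ x h).1, (hπ x h).2.2.1]
    · have h1 : d.a x ≠ d.u := fun h' => hut (h' ▸ h)
      have h2 : d.a (r x) ≠ d.u := by rw [ra]; exact h1
      rw [r2 _ h2, ra, r2 x h1]
      exact (hP1 _ h).1 x
    · rw [r3 x h, r3 x h]
  have rfix : ∀ x, r x = x ↔ d.a x ∈ W ∪ B := by
    intro x
    constructor
    · intro hx
      rcases ht (d.a x) with h | h | h
      · rw [r1 x h] at hx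
        exact absurd hx (hπ x h).2.2.2
      · have h1 : d.a x ≠ d.u := fun h' => hut (h' ▸ h)
        rw [r2 x h1] at hx
        exact absurd hx ((hP1 _ h).2.2.1 x rfl)
      · exact h
    · exact r3 x
  refine ⟨{ i := d.i, p := ⟨r, r, rr', rr'⟩, a := d.a, u := d.u, W := W, B := B, s₀ := d.s₀,
            hi := d.hi, hi0 := d.hi0, hp := rr', hpa := ra, hfix := rfix, hWB := hWB, hu := hu,
            hcard := d.hcard, hs₀ := d.hs₀ }, rfl, rfl, rfl, ?_⟩
  intro s
  constructor
  · rintro ⟨h1, h2, h3, h4⟩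
    refine ⟨h1, h3, h4, ?_⟩
    intro v hv x hx
    have h5 : d.a x ∈ t := hx ▸ hv
    have h6 : s (r x) = fl (s x) := h2 x (htWB _ h5)
    have h7 : d.a x ≠ d.u := fun h' => hut (h' ▸ h5)
    rw [r2 x h7, hx] at h6
    exact h6
  · rintro ⟨h1, h2, h3, h4⟩
    refine ⟨h1, ?_, h2, h3⟩
    intro x hx
    show s (r x) = fl (s x)
    rcases ht (d.a x) with h | h | h
    · rw [r1 x h, h2 _ (hπ x h).1, h2 x h, (hπ x h).2.1]
    · have h5 : d.a x ≠ d.u := fun h' => hut (h' ▸ h)
      rw [r2 x h5]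
      exact h4 _ h x rfl
    · exact absurd h hx

open Classical in
/-- The product of the numbers of pairings as a sum over families of pairings. -/
theorem prod_rr [Fintype V] (a : X → V) (s : X → C × Bool) (t : Finset V) :
    ∏ v ∈ t, rr a s v = ∑ P ∈ Fintype.piFinset fun v => if v ∈ t then
      (univ.filter fun τ : Equiv.Perm X => IsLP a v τ) else {1},
      if ∀ v ∈ t, CP a s v (P v) then (1 : ℤ) else 0 := by
  classical
  have h1 : ∏ v ∈ t, rr a s v = ∏ v : V, ∑ τ ∈ (if v ∈ t then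
      (univ.filter fun τ : Equiv.Perm X => IsLP a v τ) else {1}),
      (if v ∈ t → CP a s v τ then (1 : ℤ) else 0) := by
    rw [← Finset.prod_subset (Finset.subset_univ t)]
    · apply Finset.prod_congr rfl
      intro v hv
      rw [if_pos hv, Finset.sum_filter]
      unfold rr
      rw [Finset.card_filter, Nat.cast_sum]
      apply Finset.sum_congr rfl
      intro τ _
      by_cases hL : IsLP a v τ
      · by_cases hC : CP a s v τ
        · rw [if_pos ⟨hL, hC⟩, if_pos hL, if_pos (fun _ => hC), Nat.cast_one]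
        · rw [if_neg (fun h => hC h.2), if_pos hL, if_neg (fun h => hC (h hv)), Nat.cast_zero]
      · rw [if_neg (fun h => hL h.1), if_neg hL, Nat.cast_zero]
    · intro v _ hv
      rw [if_neg hv, Finset.sum_singleton, if_pos (fun h => absurd h hv)]
  rw [h1, Finset.prod_univ_sum]
  apply Finset.sum_congr rfl
  intro P _
  by_cases h : ∀ v ∈ t, CP a s v (P v)
  · rw [if_pos h]
    apply Finset.prod_eq_one
    intro v _
    rw [if_pos (h v)]
  · rw [if_neg h]
    push Not at h
    obtain ⟨v, hv, hC⟩ := h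
    apply Finset.prod_eq_zero (Finset.mem_univ v)
    rw [if_neg (fun h => hC (h hv))]

/-- **The number of injective states is divisible by `2 ^ (k - 1)`** if there are at least four
vertices. -/
theorem Str.dvd_full [Fintype V] (d : Str X V C) (hV : 4 ≤ Fintype.card V)
    [DecidablePred d.Full] :
    (2 : ℤ) ^ (Fintype.card C - 1) ∣ ((univ.filter d.Full).card : ℤ) := by
  classical
  set k := Fintype.card C with hk
  rcases Nat.lt_or_ge k 2 with hk2 | hk2
  · have : k - 1 = 0 := by omega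
    rw [this, pow_zero]
    exact one_dvd _
  obtain ⟨W, hWs, hWc⟩ : ∃ W : Finset V, W ⊆ univ.erase d.u ∧ W.card = 3 := by
    apply Finset.exists_subset_card_eq
    rw [Finset.card_erase_of_mem (Finset.mem_univ _), Finset.card_univ]
    omega
  have huW : d.u ∉ W := fun h => (Finset.mem_erase.1 (hWs h)).1 rfl
  set R : Finset V := (univ.erase d.u) \ W with hR
  have hRm : ∀ v, v ∈ R ↔ v ≠ d.u ∧ v ∉ W := by
    intro v
    rw [hR, Finset.mem_sdiff, Finset.mem_erase]
    constructor
    · rintro ⟨⟨h1, -⟩, h2⟩; exact ⟨h1, h2⟩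
    · rintro ⟨h1, h2⟩; exact ⟨⟨h1, mem_univ _⟩, h2⟩
  set S0 : Finset (X → C × Bool) := univ.filter fun s => (∀ x, s (d.i x) = fl (s x)) ∧
    (∀ x, d.a x = d.u → s x = d.s₀ x) ∧ ∀ v ∈ W, InjAt d.a s v with hS0
  have e1 : ((univ.filter d.Full).card : ℤ) = ∑ s ∈ S0, ∏ v ∈ R, (rr d.a s v + -(nn d.a s v)) := by
    have h1 : ∀ s : X → C × Bool, ∏ v ∈ R, (rr d.a s v + -(nn d.a s v)) =
        if ∀ v ∈ R, InjAt d.a s v then (1 : ℤ) else 0 := by
      intro s
      by_cases h : ∀ v ∈ R, InjAt d.a s v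
      · rw [if_pos h]
        apply Finset.prod_eq_one
        intro v hv
        unfold nn
        rw [if_pos (h v hv), rr_eq_one d.a s v (h v hv) (surj_of_inj (d.hcard v) (h v hv))]
        norm_num
      · rw [if_neg h]
        push Not at h
        obtain ⟨v, hv, hI⟩ := h
        apply Finset.prod_eq_zero hv
        unfold nn
        rw [if_neg hI]
        ring
    rw [Finset.sum_congr rfl (fun s _ => h1 s), ← Finset.sum_filter, Finset.sum_const,
      nsmul_eq_mul, mul_one]
    congr 2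
    rw [hS0, Finset.filter_filter]
    apply Finset.filter_congr
    intro s _
    constructor
    · rintro ⟨h1, h2, h3⟩
      exact ⟨⟨h1, h2, fun v _ => h3 v⟩, fun v _ => h3 v⟩
    · rintro ⟨⟨h1, h2, h3⟩, h4⟩
      refine ⟨h1, h2, ?_⟩
      intro v
      by_cases hv : v = d.u
      · intro x y hx hy hxy
        rw [hv] at hx hy
        rw [h2 x hx, h2 y hy] at hxy
        exact d.hs₀ x y hx hy hxy
      · by_cases hvW : v ∈ W
        · exact h3 v hvW
        · exact h4 v ((hRm v).2 ⟨hv, hvW⟩)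
  rw [e1]
  have e2 : ∀ s ∈ S0, ∏ v ∈ R, (rr d.a s v + -(nn d.a s v)) =
      ∑ t ∈ R.powerset, (∏ v ∈ t, rr d.a s v) * ∏ v ∈ R \ t, (-(nn d.a s v)) := fun s _ =>
    Finset.prod_add _ _ _
  rw [Finset.sum_congr rfl e2, Finset.sum_comm]
  apply Finset.dvd_sum
  intro t ht
  rw [Finset.mem_powerset] at ht
  set B : Finset V := R \ t with hB
  rcases Nat.lt_or_ge B.card (k - 1) with hb | hb
  swap
  · apply Finset.dvd_sum
    intro s _
    apply Dvd.dvd.mul_left
    exact (pow_dvd_pow 2 hb).trans (two_pow_dvd_prod B _ fun v _ =>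
      (dvd_neg.2 (even_nn d.a s v)))
  · have hBR : B ⊆ R := Finset.sdiff_subset
    have hWB : Disjoint W B := by
      rw [Finset.disjoint_left]
      intro v hv hv'
      exact ((hRm v).1 (hBR hv')).2 hv
    have hu : d.u ∉ W ∪ B := by
      rw [Finset.mem_union]
      rintro (h | h)
      · exact huW h
      · exact ((hRm _).1 (hBR h)).1 rfl
    have hut : d.u ∉ t := fun h => ((hRm _).1 (ht h)).1 rfl
    have htc : ∀ v, v = d.u ∨ v ∈ t ∨ v ∈ W ∪ B := by
      intro v
      by_cases h1 : v = d.u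
      · exact Or.inl h1
      · by_cases h2 : v ∈ t
        · exact Or.inr (Or.inl h2)
        · right; right
          rw [Finset.mem_union]
          by_cases h3 : v ∈ W
          · exact Or.inl h3
          · right
            rw [hB, Finset.mem_sdiff]
            exact ⟨(hRm v).2 ⟨h1, h3⟩, h2⟩
    have htWB : ∀ v ∈ t, v ∉ W ∪ B := by
      intro v hv h
      rcases Finset.mem_union.1 h with h | h
      · exact ((hRm v).1 (ht hv)).2 h
      · exact (Finset.mem_sdiff.1 h).2 hv
    have e3 : ∀ s ∈ S0, (∏ v ∈ t, rr d.a s v) * ∏ v ∈ B, (-(nn d.a s v)) =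
        ∑ P ∈ Fintype.piFinset fun v => if v ∈ t then
          (univ.filter fun τ : Equiv.Perm X => IsLP d.a v τ) else {1},
          if ∀ v ∈ t, CP d.a s v (P v) then ∏ v ∈ B, (-(nn d.a s v)) else 0 := by
      intro s _
      rw [prod_rr, Finset.sum_mul]
      apply Finset.sum_congr rfl
      intro P _
      rw [ite_mul, one_mul, zero_mul]
    rw [Finset.sum_congr rfl e3, Finset.sum_comm]
    apply Finset.dvd_sum
    intro P hP
    rw [Fintype.mem_piFinset] at hP
    have hP1 : ∀ v ∈ t, IsLP d.a v (P v) := by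
      intro v hv
      have := hP v
      rw [if_pos hv, Finset.mem_filter] at this
      exact this.2
    have hP2 : ∀ v, v ∉ t → P v = 1 := by
      intro v hv
      have := hP v
      rw [if_neg hv, Finset.mem_singleton] at this
      exact this
    obtain ⟨e, ea, eW, eB, eS⟩ := d.exists_pd W t B hWB hu hut htc htWB P hP1 hP2
    have e4 : ∑ s ∈ S0, (if ∀ v ∈ t, CP d.a s v (P v) then ∏ v ∈ B, (-(nn d.a s v)) else 0) =
        ∑ s ∈ univ.filter e.Sp, ∏ v ∈ e.B, (-(nn e.a s v)) := by
      rw [← Finset.sum_filter, hS0, Finset.filter_filter, ea, eB]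
      apply Finset.sum_congr _ (fun _ _ => rfl)
      apply Finset.filter_congr
      intro s _
      rw [eS s]
      constructor
      · rintro ⟨⟨h1, h2, h3⟩, h4⟩; exact ⟨h1, h2, h3, h4⟩
      · rintro ⟨h1, h2, h3, h4⟩; exact ⟨⟨h1, h2, h3⟩, h4⟩
    rw [e4]
    apply e.dvd (k - 1)
    rw [eW, eB, Finset.card_union_of_disjoint hWB, hWc, ← hk]
    set b := B.card with hbdef
    obtain ⟨l, hl⟩ : ∃ l, k = b + 2 + l := ⟨k - (b + 2), by omega⟩
    have h2 : k - 1 = b + 1 + l := by omega
    have h3 : 3 + b - 1 = b + 2 := by omega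
    rw [h2, h3, hl]
    nlinarith [Nat.zero_le b, Nat.zero_le l, Nat.zero_le (b * l), Nat.zero_le (b * b)]

end MP_947208_co.Two
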