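import Pool.Agent.Work.MP_947208_co.Two4

/-!
# Hamiltonian classes
-/

set_option autoImplicit false
set_option linter.unusedSectionVars false

namespace MP_947208_co.Two

open Finset Function MP_947208_co.Par

/-- A fixed point free involution doubles the power of two. -/
theorem dvd_sum_invol {α : Type*} (S : Finset α) (τ : α → α) (w : α → ℤ) (m : ℕ)
    (h1 : ∀ s ∈ S, τ s ∈ S) (h2 : ∀ s ∈ S, τ (τ s) = s) (h3 : ∀ s ∈ S, w (τ s) = w s)
    (h4 : ∀ s ∈ S, τ s ≠ s) (h5 : ∀ s ∈ S, (2 : ℤ) ^ m ∣ w s) :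
    (2 : ℤ) ^ (m + 1) ∣ ∑ s ∈ S, w s := by
  have e1 : ∑ s ∈ S, w s = 2 ^ m * ∑ s ∈ S, w s / 2 ^ m := by
    rw [Finset.mul_sum]
    apply Finset.sum_congr rfl
    intro s hs
    exact (Int.mul_ediv_cancel' (h5 s hs)).symm
  have e2 : (2 : ℤ) ∣ ∑ s ∈ S, w s / 2 ^ m := by
    have h : ∑ s ∈ S, ((w s / 2 ^ m : ℤ) : ZMod 2) = 0 := by
      apply Finset.sum_involution (fun a _ => τ a)
      · intro a ha
        rw [h3 a ha, ← two_mul]
        have : (2 : ZMod 2) = 0 := by decide
        rw [this, zero_mul]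
      · intro a ha _; exact h4 a ha
      · intro a ha; exact h1 a ha
      · intro a ha; exact h2 a ha
    rw [← Int.cast_sum] at h
    exact (ZMod.intCast_zmod_eq_zero_iff_dvd _ 2).1 h
  rw [e1, pow_succ]
  exact mul_dvd_mul_left _ e2

variable {X V C : Type} [Fintype X] [DecidableEq X] [DecidableEq V] [Fintype C] [DecidableEq C]

/-- `Z` is a nonempty set of vertices without the root, closed under the edges of `K`. -/
def Str.Bd (d : Str X V C) (K : X → Prop) (Z : Finset V) : Prop :=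
  Z.Nonempty ∧ d.u ∉ Z ∧ ∀ x, K x → d.a x ∈ Z → d.a (d.i x) ∈ Z

/-- The class of `c` has no component without the root. -/
def Str.HamC (d : Str X V C) (s : X → C × Bool) (c : C) : Prop :=
  ¬ ∃ Z, d.Bd (fun x => (s x).1 = c) Z

/-- The signs on the class of `c`. -/
def kap (c : C) (s : X → C × Bool) (x : X) : Option Bool :=
  if (s x).1 = c then some (s x).2 else none

theorem kap_iff {c : C} {s s₁ : X → C × Bool} : kap c s = kap c s₁ ↔
    ∀ x, ((s x).1 ≠ c ∧ (s₁ x).1 ≠ c) ∨ ((s₁ x).1 = c ∧ s x = s₁ x) := by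
  constructor
  · intro h x
    have hx := congrFun h x
    unfold kap at hx
    by_cases h1 : (s x).1 = c <;> by_cases h2 : (s₁ x).1 = c
    · rw [if_pos h1, if_pos h2, Option.some_inj] at hx
      exact Or.inr ⟨h2, Prod.ext (h1.trans h2.symm) hx⟩
    · rw [if_pos h1, if_neg h2] at hx
      exact absurd hx (by simp)
    · rw [if_neg h1, if_pos h2] at hx
      exact absurd hx (by simp)
    · exact Or.inl ⟨h1, h2⟩
  · intro h
    funext x
    unfold kap
    rcases h x with ⟨h1, h2⟩ | ⟨h1, h2⟩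
    · rw [if_neg h1, if_neg h2]
    · rw [h2]

/-- The structure on the other classes. -/
theorem Str.exists_sub (d : Str X V C) {s₁ : X → C × Bool} (hs₁ : d.Full s₁) (c : C) :
    ∃ d' : Str {x : X // (s₁ x).1 ≠ c} V {c' : C // c' ≠ c}, (∀ x, (d'.i x).1 = d.i x.1) ∧
      (∀ x, d'.a x = d.a x.1) ∧ d'.u = d.u ∧
      ∀ x, (d'.s₀ x).1.1 = (s₁ x.1).1 ∧ (d'.s₀ x).2 = (s₁ x.1).2 := by
  classical
  obtain ⟨h1, h2, h3⟩ := hs₁
  have hi' : ∀ x : {x : X // (s₁ x).1 ≠ c}, (s₁ (d.i x.1)).1 ≠ c := by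
    intro x
    rw [h1]
    exact x.2
  let i' : {x : X // (s₁ x).1 ≠ c} → {x : X // (s₁ x).1 ≠ c} := fun x => ⟨d.i x.1, hi' x⟩
  have hii : ∀ x, i' (i' x) = x := fun x => Subtype.ext (d.hi x.1)
  refine ⟨{ i := ⟨i', i', hii, hii⟩, a := fun x => d.a x.1, u := d.u,
            s₀ := fun x => (⟨(s₁ x.1).1, x.2⟩, (s₁ x.1).2), hi := hii,
            hi0 := fun x h => d.hi0 x.1 (congrArg Subtype.val h), hcard := ?_, hs₀ := ?_ },
    fun _ => rfl, fun _ => rfl, rfl, fun _ => ⟨rfl, rfl⟩⟩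
  · intro v
    have e1 : (univ.filter fun x : {x : X // (s₁ x).1 ≠ c} => d.a x.1 = v).card =
        (univ : Finset ({c' : C // c' ≠ c} × Bool)).card := by
      apply Finset.card_bij (fun x _ => (⟨(s₁ x.1).1, x.2⟩, (s₁ x.1).2))
      · intro x _
        exact mem_univ _
      · intro x hx y hy hxy
        rw [Finset.mem_filter] at hx hy
        have e2 := (Prod.mk.inj hxy).1
        have e3 := (Prod.mk.inj hxy).2
        apply Subtype.ext
        exact h3 v x.1 y.1 hx.2 hy.2 (Prod.ext (congrArg Subtype.val e2) e3)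
      · intro b _
        obtain ⟨x, hx, hb⟩ := surj_of_inj (d.hcard v) (h3 v) (b.1.1, b.2)
        have hxc : (s₁ x).1 ≠ c := by
          rw [hb]
          exact b.1.2
        refine ⟨⟨x, hxc⟩, Finset.mem_filter.2 ⟨mem_univ _, hx⟩, ?_⟩
        apply Prod.ext
        · apply Subtype.ext
          show (s₁ x).1 = b.1.1
          rw [hb]
        · show (s₁ x).2 = b.2
          rw [hb]
    rw [e1, Finset.card_univ, Fintype.card_prod, Fintype.card_bool, mul_comm]
  · intro x y hx hy hxy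
    have e2 := (Prod.mk.inj hxy).1
    have e3 := (Prod.mk.inj hxy).2
    apply Subtype.ext
    exact h3 d.u x.1 y.1 hx hy (Prod.ext (congrArg Subtype.val e2) e3)

/-- Extension of states of the other classes. -/
def ext' (s₁ : X → C × Bool) (c : C) (s' : {x : X // (s₁ x).1 ≠ c} → {c' : C // c' ≠ c} × Bool)
    (x : X) : C × Bool :=
  if h : (s₁ x).1 ≠ c then ((s' ⟨x, h⟩).1.1, (s' ⟨x, h⟩).2) else s₁ x

theorem ext'_pos {s₁ : X → C × Bool} {c : C}
    {s' : {x : X // (s₁ x).1 ≠ c} → {c' : C // c' ≠ c} × Bool} {x : X} (h : (s₁ x).1 ≠ c) :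
    ext' s₁ c s' x = ((s' ⟨x, h⟩).1.1, (s' ⟨x, h⟩).2) := dif_pos h

theorem ext'_neg {s₁ : X → C × Bool} {c : C}
    {s' : {x : X // (s₁ x).1 ≠ c} → {c' : C // c' ≠ c} × Bool} {x : X} (h : (s₁ x).1 = c) :
    ext' s₁ c s' x = s₁ x := dif_neg (fun h' => h' h)

open Classical in
/-- The fibre over the signs on one class. -/
theorem Str.card_fiber (d : Str X V C) (H : Finset C) (c : C) (hcH : c ∉ H)
    {s₁ : X → C × Bool} (hs₁ : d.Full s₁) (hb : ¬ d.HamC s₁ c)
    (d' : Str {x : X // (s₁ x).1 ≠ c} V {c' : C // c' ≠ c}) (k1 : ∀ x, (d'.i x).1 = d.i x.1)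
    (k2 : ∀ x, d'.a x = d.a x.1) (k3 : d'.u = d.u)
    (k4 : ∀ x, (d'.s₀ x).1.1 = (s₁ x.1).1 ∧ (d'.s₀ x).2 = (s₁ x.1).2) :
    (univ.filter fun s => d'.Full s ∧ ∀ c' ∈ H.subtype (· ≠ c), d'.HamC s c').card =
      (univ.filter fun s => ((d.Full s ∧ ∀ c' ∈ H, d.HamC s c') ∧ ¬ d.HamC s c) ∧
        kap c s = kap c s₁).card := by
  classical
  have hk : ∀ s', kap c (ext' s₁ c s') = kap c s₁ := by
    intro s'
    rw [kap_iff]
    intro x
    by_cases h : (s₁ x).1 = c
    · right
      exact ⟨h, ext'_neg h⟩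
    · left
      refine ⟨?_, h⟩
      rw [ext'_pos h]
      exact (s' ⟨x, h⟩).1.2
  have hsame : ∀ s, kap c s = kap c s₁ → (d.HamC s c ↔ d.HamC s₁ c) := by
    intro s hs
    rw [kap_iff] at hs
    unfold Str.HamC
    have : (fun x => (s x).1 = c) = (fun x => (s₁ x).1 = c) := by
      funext x
      apply propext
      rcases hs x with ⟨h1, h2⟩ | ⟨h1, h2⟩
      · exact ⟨fun h => absurd h h1, fun h => absurd h h2⟩
      · rw [h2]
    rw [this]
  have hcls : ∀ (s' : {x : X // (s₁ x).1 ≠ c} → {c' : C // c' ≠ c} × Bool) (c' : C)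
      (hc' : c' ≠ c), d'.HamC s' ⟨c', hc'⟩ ↔ d.HamC (ext' s₁ c s') c' := by
    intro s' c' hc'
    unfold Str.HamC
    apply not_congr
    apply exists_congr
    intro Z
    unfold Str.Bd
    rw [k3]
    apply and_congr_right
    intro _
    apply and_congr_right
    intro _
    constructor
    · intro h x hx hxZ
      by_cases hx1 : (s₁ x).1 = c
      · rw [ext'_neg hx1] at hx
        exact absurd (hx.symm.trans hx1) hc'
      · rw [ext'_pos hx1] at hx
        have := h ⟨x, hx1⟩ (Subtype.ext hx) (by rw [k2]; exact hxZ)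
        rw [k2, k1] at this
        exact this
    · intro h x hx hxZ
      rw [k2] at hxZ
      rw [k2, k1]
      apply h x.1 _ hxZ
      rw [ext'_pos x.2]
      exact congrArg Subtype.val hx
  apply Finset.card_bij (fun s' _ => ext' s₁ c s')
  · intro s' hs'
    rw [Finset.mem_filter] at hs' ⊢
    obtain ⟨-, ⟨g1, g2, g3⟩, g4⟩ := hs'
    refine ⟨mem_univ _, ⟨⟨⟨?_, ?_, ?_⟩, ?_⟩, ?_⟩, hk s'⟩
    · intro x
      by_cases hx : (s₁ x).1 = c
      · have hx' : (s₁ (d.i x)).1 = c := by rw [hs₁.1]; exact hx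
        rw [ext'_neg hx, ext'_neg hx', hs₁.1]
      · have hx' : (s₁ (d.i x)).1 ≠ c := by rw [hs₁.1]; exact hx
        have e1 : (⟨d.i x, hx'⟩ : {x : X // (s₁ x).1 ≠ c}) = d'.i ⟨x, hx⟩ :=
          Subtype.ext (k1 ⟨x, hx⟩).symm
        rw [ext'_pos hx, ext'_pos hx', e1, g1]
        rfl
    · intro x hx
      rw [← hs₁.2.1 x hx]
      by_cases hx1 : (s₁ x).1 = c
      · exact ext'_neg hx1
      · rw [ext'_pos hx1, g2 ⟨x, hx1⟩ (by rw [k2, k3]; exact hx)]
        exact Prod.ext (k4 ⟨x, hx1⟩).1 (k4 ⟨x, hx1⟩).2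
    · intro v x y hx hy hxy
      by_cases hx1 : (s₁ x).1 = c <;> by_cases hy1 : (s₁ y).1 = c
      · rw [ext'_neg hx1, ext'_neg hy1] at hxy
        exact hs₁.2.2 v x y hx hy hxy
      · rw [ext'_neg hx1, ext'_pos hy1] at hxy
        have : (s₁ x).1 = (s' ⟨y, hy1⟩).1.1 := congrArg Prod.fst hxy
        exact absurd (this.symm.trans hx1) (s' ⟨y, hy1⟩).1.2
      · rw [ext'_neg hy1, ext'_pos hx1] at hxy
        have : (s' ⟨x, hx1⟩).1.1 = (s₁ y).1 := congrArg Prod.fst hxy
        exact absurd (this.trans hy1) (s' ⟨x, hx1⟩).1.2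
      · rw [ext'_pos hx1, ext'_pos hy1] at hxy
        have e2 : s' ⟨x, hx1⟩ = s' ⟨y, hy1⟩ :=
          Prod.ext (Subtype.ext (Prod.mk.inj hxy).1) (Prod.mk.inj hxy).2
        have := g3 v ⟨x, hx1⟩ ⟨y, hy1⟩ (by rw [k2]; exact hx) (by rw [k2]; exact hy) e2
        exact congrArg Subtype.val this
    · intro c' hc'
      have hne : c' ≠ c := fun h => hcH (h ▸ hc')
      rw [← hcls s' c' hne]
      exact g4 ⟨c', hne⟩ (Finset.mem_subtype.2 hc')
    · rw [hsame _ (hk s')]
      exact hb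
  · intro s' _ s'' _ h
    funext x
    have hx : ext' s₁ c s' x.1 = ext' s₁ c s'' x.1 := congrFun h x.1
    rw [ext'_pos x.2, ext'_pos x.2] at hx
    exact Prod.ext (Subtype.ext (Prod.mk.inj hx).1) (Prod.mk.inj hx).2
  · intro s hs
    rw [Finset.mem_filter] at hs
    obtain ⟨-, ⟨⟨⟨g1, g2, g3⟩, g4⟩, g5⟩, g6⟩ := hs
    rw [kap_iff] at g6
    have hne : ∀ x : {x : X // (s₁ x).1 ≠ c}, (s x.1).1 ≠ c := by
      intro x
      rcases g6 x.1 with ⟨h1, h2⟩ | ⟨h1, h2⟩
      · exact h1
      · exact absurd h1 x.2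
    set s' : {x : X // (s₁ x).1 ≠ c} → {c' : C // c' ≠ c} × Bool :=
      fun x => (⟨(s x.1).1, hne x⟩, (s x.1).2) with hs'
    have hext : ext' s₁ c s' = s := by
      funext x
      rcases g6 x with ⟨h1, h2⟩ | ⟨h1, h2⟩
      · rw [ext'_pos h2]
      · rw [ext'_neg h1, h2]
    refine ⟨s', ?_, hext⟩
    rw [Finset.mem_filter]
    refine ⟨mem_univ _, ⟨?_, ?_, ?_⟩, ?_⟩
    · intro x
      apply Prod.ext
      · apply Subtype.ext
        show (s (d'.i x).1).1 = (s x.1).1
        rw [k1, g1]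
        rfl
      · show (s (d'.i x).1).2 = !(s x.1).2
        rw [k1, g1]
        rfl
    · intro x hx
      rw [k2, k3] at hx
      have e3 : s x.1 = s₁ x.1 := by rw [g2 x.1 hx, hs₁.2.1 x.1 hx]
      apply Prod.ext
      · apply Subtype.ext
        show (s x.1).1 = (d'.s₀ x).1.1
        rw [(k4 x).1, e3]
      · show (s x.1).2 = (d'.s₀ x).2
        rw [(k4 x).2, e3]
    · intro v x y hx hy hxy
      rw [k2] at hx hy
      have e2 := (Prod.mk.inj hxy).1
      have e3 := (Prod.mk.inj hxy).2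
      apply Subtype.ext
      exact g3 v x.1 y.1 hx hy (Prod.ext (congrArg Subtype.val e2) e3)
    · intro c' hc'
      have h1 : c'.1 ∈ H := Finset.mem_subtype.1 hc'
      have h2 := g4 c'.1 h1
      have h3 := (hcls s' c'.1 c'.2).2
      rw [hext] at h3
      exact h3 h2

open Classical in
/-- A chosen bad set for a set of edges. -/
noncomputable def Str.zz (d : Str X V C) (K : X → Prop) : Finset V :=
  if h : ∃ Z, d.Bd K Z then h.choose else ∅

theorem Str.zz_spec (d : Str X V C) {K : X → Prop} (h : ∃ Z, d.Bd K Z) : d.Bd K (d.zz K) := by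
  have : d.zz K = h.choose := dif_pos h
  rw [this]
  exact h.choose_spec

/-- Change of the signs on the chosen bad set. -/
noncomputable def Str.fq (d : Str X V C) (q : X → Option Bool) (x : X) : Option Bool :=
  if d.a x ∈ d.zz (fun y => q y ≠ none) then (q x).map (fun b => !b) else q x

theorem Str.fq_pos (d : Str X V C) {q : X → Option Bool} {x : X}
    (h : d.a x ∈ d.zz (fun y => q y ≠ none)) : d.fq q x = (q x).map (fun b => !b) := if_pos h

theorem Str.fq_neg (d : Str X V C) {q : X → Option Bool} {x : X}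
    (h : d.a x ∉ d.zz (fun y => q y ≠ none)) : d.fq q x = q x := if_neg h

theorem Str.fq_supp (d : Str X V C) (q : X → Option Bool) :
    (fun y => d.fq q y ≠ none) = fun y => q y ≠ none := by
  funext y
  apply propext
  by_cases h : d.a y ∈ d.zz (fun y => q y ≠ none)
  · rw [d.fq_pos h]
    cases q y <;> simp
  · rw [d.fq_neg h]

theorem Str.fq_fq (d : Str X V C) (q : X → Option Bool) : d.fq (d.fq q) = q := by
  funext x
  by_cases h : d.a x ∈ d.zz (fun y => q y ≠ none)
  · rw [d.fq_pos (by rw [d.fq_supp]; exact h), d.fq_pos h]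
    cases q x <;> simp
  · rw [d.fq_neg (by rw [d.fq_supp]; exact h), d.fq_neg h]

theorem kap_supp (c : C) (s : X → C × Bool) :
    (fun y => kap c s y ≠ none) = fun y => (s y).1 = c := by
  funext y
  apply propext
  unfold kap
  by_cases h : (s y).1 = c
  · rw [if_pos h]; simp [h]
  · rw [if_neg h]; simp [h]

/-- Reversal of the class of `c` on the chosen bad set. -/
noncomputable def Str.fs (d : Str X V C) (c : C) (s : X → C × Bool) (x : X) : C × Bool :=
  if d.a x ∈ d.zz (fun y => (s y).1 = c) ∧ (s x).1 = c then fl (s x) else s x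

theorem Str.fs_pos (d : Str X V C) {c : C} {s : X → C × Bool} {x : X}
    (h : d.a x ∈ d.zz (fun y => (s y).1 = c) ∧ (s x).1 = c) : d.fs c s x = fl (s x) := if_pos h

theorem Str.fs_neg (d : Str X V C) {c : C} {s : X → C × Bool} {x : X}
    (h : ¬ (d.a x ∈ d.zz (fun y => (s y).1 = c) ∧ (s x).1 = c)) : d.fs c s x = s x := if_neg h

theorem Str.fs_fst (d : Str X V C) (c : C) (s : X → C × Bool) (x : X) :
    (d.fs c s x).1 = (s x).1 := by
  by_cases h : d.a x ∈ d.zz (fun y => (s y).1 = c) ∧ (s x).1 = c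
  · rw [d.fs_pos h]; rfl
  · rw [d.fs_neg h]

theorem Str.fs_zz (d : Str X V C) (c : C) (s : X → C × Bool) :
    (fun y => (d.fs c s y).1 = c) = fun y => (s y).1 = c := by
  funext y
  rw [d.fs_fst]

theorem Str.fs_fs (d : Str X V C) (c : C) (s : X → C × Bool) : d.fs c (d.fs c s) = s := by
  funext x
  by_cases h : d.a x ∈ d.zz (fun y => (s y).1 = c) ∧ (s x).1 = c
  · rw [d.fs_pos (by rw [d.fs_zz, d.fs_fst]; exact h), d.fs_pos h, fl_fl]
  · rw [d.fs_neg (by rw [d.fs_zz, d.fs_fst]; exact h), d.fs_neg h]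

theorem Str.kap_fs (d : Str X V C) (c : C) (s : X → C × Bool) :
    kap c (d.fs c s) = d.fq (kap c s) := by
  funext x
  by_cases h1 : (s x).1 = c
  · have e1 : kap c s x = some (s x).2 := if_pos h1
    have e2 : kap c (d.fs c s) x = some (d.fs c s x).2 := if_pos ((d.fs_fst c s x).trans h1)
    by_cases h2 : d.a x ∈ d.zz (fun y => (s y).1 = c)
    · rw [d.fq_pos (by rw [kap_supp]; exact h2), e1, e2, d.fs_pos ⟨h2, h1⟩]
      rfl
    · rw [d.fq_neg (by rw [kap_supp]; exact h2), e1, e2, d.fs_neg (fun h => h2 h.1)]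
  · have e1 : kap c s x = none := if_neg h1
    have e2 : kap c (d.fs c s) x = none := if_neg (by rw [d.fs_fst]; exact h1)
    by_cases h2 : d.a x ∈ d.zz (fun y => (s y).1 = c)
    · rw [d.fq_pos (by rw [kap_supp]; exact h2), e1, e2]
      rfl
    · rw [d.fq_neg (by rw [kap_supp]; exact h2), e1, e2]

theorem Str.fs_ham (d : Str X V C) (c : C) (s : X → C × Bool) (c' : C) :
    d.HamC (d.fs c s) c' ↔ d.HamC s c' := by
  unfold Str.HamC
  have : (fun y => (d.fs c s y).1 = c') = fun y => (s y).1 = c' := by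
    funext y
    rw [d.fs_fst]
  rw [this]

theorem Str.fs_full (d : Str X V C) {c : C} {s : X → C × Bool} (hs : d.Full s)
    (hb : ¬ d.HamC s c) : d.Full (d.fs c s) := by
  obtain ⟨h1, h2, h3⟩ := hs
  obtain ⟨z1, z2, z3⟩ := d.zz_spec (not_not.1 hb)
  set Z := d.zz (fun y => (s y).1 = c) with hZ
  have hcl : ∀ x, (s x).1 = c → (d.a (d.i x) ∈ Z ↔ d.a x ∈ Z) := by
    intro x hx
    constructor
    · intro h
      have h' : (s (d.i x)).1 = c := by rw [h1]; exact hx
      have := z3 (d.i x) h' h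
      rwa [d.hi] at this
    · exact z3 x hx
  refine ⟨?_, ?_, ?_⟩
  · intro x
    by_cases hx : (s x).1 = c
    · have hx' : (s (d.i x)).1 = c := by rw [h1]; exact hx
      by_cases hZx : d.a x ∈ Z
      · rw [d.fs_pos ⟨hZx, hx⟩, d.fs_pos ⟨(hcl x hx).2 hZx, hx'⟩, h1]
      · rw [d.fs_neg (fun h => hZx h.1), d.fs_neg (fun h => hZx ((hcl x hx).1 h.1)), h1]
    · have hx' : ¬ (s (d.i x)).1 = c := by rw [h1]; exact hx
      rw [d.fs_neg (fun h => hx h.2), d.fs_neg (fun h => hx' h.2), h1]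
  · intro x hx
    rw [d.fs_neg (fun h => z2 (hx ▸ h.1))]
    exact h2 x hx
  · intro v x y hx hy hxy
    have hxy1 : (s x).1 = (s y).1 := by
      rw [← d.fs_fst c s x, ← d.fs_fst c s y, hxy]
    by_cases hc : (s x).1 = c
    · have hc' : (s y).1 = c := hxy1.symm.trans hc
      by_cases hv : v ∈ Z
      · rw [d.fs_pos ⟨hx ▸ hv, hc⟩, d.fs_pos ⟨hy ▸ hv, hc'⟩] at hxy
        exact h3 v x y hx hy (fl_inj hxy)
      · rw [d.fs_neg (fun h => hv (hx ▸ h.1)), d.fs_neg (fun h => hv (hy ▸ h.1))] at hxy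
        exact h3 v x y hx hy hxy
    · have hc' : ¬ (s y).1 = c := fun h => hc (hxy1.trans h)
      rw [d.fs_neg (fun h => hc h.2), d.fs_neg (fun h => hc' h.2)] at hxy
      exact h3 v x y hx hy hxy

open Classical in
/-- **Injective states with Hamiltonian classes.** -/
theorem dvd_ham {V : Type} [DecidableEq V] [Fintype V] (hV : 4 ≤ Fintype.card V) (n : ℕ) :
    ∀ (X C : Type) [Fintype X] [DecidableEq X] [Fintype C] [DecidableEq C] (d : Str X V C)
    (H : Finset C), H.card ≤ n → (2 : ℤ) ^ (Fintype.card C - 1) ∣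
      ((univ.filter fun s => d.Full s ∧ ∀ c ∈ H, d.HamC s c).card : ℤ) := by
  classical
  induction n with
  | zero =>
    intro X C _ _ _ _ d H hH
    have h0 : H = ∅ := Finset.card_eq_zero.1 (by omega)
    subst h0
    have e : (univ.filter fun s => d.Full s ∧ ∀ c ∈ (∅ : Finset C), d.HamC s c) =
        univ.filter d.Full := by
      apply Finset.filter_congr
      intro s _
      simp
    rw [e]
    exact d.dvd_full hV
  | succ n ih =>
    intro X C _ _ _ _ d H hH
    rcases Nat.lt_or_ge n H.card with h | h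
    swap
    · exact ih X C d H h
    obtain ⟨c, hc⟩ : H.Nonempty := Finset.card_pos.1 (by omega)
    have hce : c ∉ H.erase c := Finset.notMem_erase c H
    have hHe : (H.erase c).card ≤ n := by
      rw [Finset.card_erase_of_mem hc]
      omega
    have hA := ih X C d (H.erase c) hHe
    set A : Finset (X → C × Bool) :=
      univ.filter fun s => d.Full s ∧ ∀ c' ∈ H.erase c, d.HamC s c' with hAdef
    set M := A.filter fun s => ¬ d.HamC s c with hMdef
    have hsplit : (univ.filter fun s => d.Full s ∧ ∀ c ∈ H, d.HamC s c) =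
        A.filter fun s => d.HamC s c := by
      rw [hAdef, Finset.filter_filter]
      apply Finset.filter_congr
      intro s _
      constructor
      · rintro ⟨h1, h2⟩
        exact ⟨⟨h1, fun c' hc' => h2 c' (Finset.mem_of_mem_erase hc')⟩, h2 c hc⟩
      · rintro ⟨⟨h1, h2⟩, h3⟩
        refine ⟨h1, ?_⟩
        intro c' hc'
        by_cases hcc : c' = c
        · rw [hcc]; exact h3
        · exact h2 c' (Finset.mem_erase.2 ⟨hcc, hc'⟩)
    have hsum : A.card = (A.filter fun s => d.HamC s c).card + M.card := by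
      rw [hMdef, Finset.card_filter_add_card_filter_not]
    suffices hMd : (2 : ℤ) ^ (Fintype.card C - 1) ∣ (M.card : ℤ) by
      rw [hsplit]
      have e1 : ((A.filter fun s => d.HamC s c).card : ℤ) = (A.card : ℤ) - (M.card : ℤ) := by
        rw [hsum]; push_cast; ring
      rw [e1]
      exact dvd_sub hA hMd
    have hkpos : 0 < Fintype.card C := Fintype.card_pos_iff.2 ⟨c⟩
    rcases Nat.lt_or_ge (Fintype.card C) 2 with hk2 | hk2
    · have : Fintype.card C - 1 = 0 := by omega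
      rw [this, pow_zero]
      exact one_dvd _
    have hMm : ∀ s, s ∈ M ↔ (d.Full s ∧ ∀ c' ∈ H.erase c, d.HamC s c') ∧ ¬ d.HamC s c := by
      intro s
      rw [hMdef, Finset.mem_filter, hAdef, Finset.mem_filter]
      constructor
      · rintro ⟨⟨-, h1⟩, h2⟩; exact ⟨h1, h2⟩
      · rintro ⟨h1, h2⟩; exact ⟨⟨mem_univ _, h1⟩, h2⟩
    have hfsM : ∀ s ∈ M, d.fs c s ∈ M := by
      intro s hs
      rw [hMm] at hs ⊢
      obtain ⟨⟨h1, h2⟩, h3⟩ := hs
      refine ⟨⟨d.fs_full h1 h3, ?_⟩, ?_⟩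
      · intro c' hc'
        rw [d.fs_ham]
        exact h2 c' hc'
      · rw [d.fs_ham]
        exact h3
    have hM : (M.card : ℤ) =
        ∑ q ∈ M.image (kap c), ((M.filter fun s => kap c s = q).card : ℤ) := by
      rw [Finset.card_eq_sum_card_image (kap c) M, Nat.cast_sum]
    have hk1 : Fintype.card C - 1 = (Fintype.card C - 2) + 1 := by omega
    rw [hM, hk1]
    apply dvd_sum_invol (M.image (kap c)) d.fq
    · intro q hq
      obtain ⟨s, hs, rfl⟩ := Finset.mem_image.1 hq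
      exact Finset.mem_image.2 ⟨d.fs c s, hfsM s hs, d.kap_fs c s⟩
    · intro q _
      exact d.fq_fq q
    · intro q _
      congr 1
      apply Finset.card_nbij' (d.fs c) (d.fs c)
      · intro s hs
        rw [Finset.mem_coe, Finset.mem_filter] at hs ⊢
        refine ⟨hfsM s hs.1, ?_⟩
        rw [d.kap_fs, hs.2, d.fq_fq]
      · intro s hs
        rw [Finset.mem_coe, Finset.mem_filter] at hs ⊢
        refine ⟨hfsM s hs.1, ?_⟩
        rw [d.kap_fs, hs.2]
      · intro s _
        exact d.fs_fs c s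
      · intro s _
        exact d.fs_fs c s
    · intro q hq hc0
      obtain ⟨s, hs, rfl⟩ := Finset.mem_image.1 hq
      rw [hMm] at hs
      obtain ⟨⟨h1, -⟩, h3⟩ := hs
      obtain ⟨⟨v, hv⟩, -, -⟩ := d.zz_spec (not_not.1 h3)
      obtain ⟨x, hx, hsx⟩ := surj_of_inj (d.hcard v) (h1.2.2 v) (c, true)
      have e1 := congrFun hc0 x
      have e2 : kap c s x = some true := by
        unfold kap
        rw [hsx, if_pos rfl]
      rw [d.fq_pos (by rw [kap_supp, hx]; exact hv), e2] at e1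
      simp at e1
    · intro q hq
      obtain ⟨s₁, hs₁, rfl⟩ := Finset.mem_image.1 hq
      rw [hMm] at hs₁
      obtain ⟨⟨h1, h2⟩, h3⟩ := hs₁
      obtain ⟨d', k1, k2, k3, k4⟩ := d.exists_sub h1 c
      have e1 := d.card_fiber (H.erase c) c hce h1 h3 d' k1 k2 k3 k4
      have e2 : (M.filter fun s => kap c s = kap c s₁) =
          (univ.filter fun s => ((d.Full s ∧ ∀ c' ∈ H.erase c, d.HamC s c') ∧ ¬ d.HamC s c) ∧
            kap c s = kap c s₁) := by
        ext s
        rw [Finset.mem_filter, hMm, Finset.mem_filter]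
        constructor
        · rintro ⟨g1, g2⟩; exact ⟨mem_univ _, g1, g2⟩
        · rintro ⟨-, g1, g2⟩; exact ⟨g1, g2⟩
      have e3 := ih {x : X // (s₁ x).1 ≠ c} {c' : C // c' ≠ c} d' ((H.erase c).subtype (· ≠ c)) (by
        rw [Finset.card_subtype]
        exact (Finset.card_filter_le _ _).trans hHe)
      have e4 : Fintype.card {c' : C // c' ≠ c} = Fintype.card C - 1 := by
        rw [Fintype.card_subtype, Finset.filter_ne' _ c, Finset.card_erase_of_mem (mem_univ _),
          Finset.card_univ]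
      have e5 : Fintype.card C - 1 - 1 = Fintype.card C - 2 := by omega
      rw [e4, e5, e1] at e3
      rw [e2]
      exact e3

end MP_947208_co.Two
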